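import Pool.Agent.H4G.Asym.Defs

/-!
# Row R12 (helper98): the extremal states with `A = b`, `N` prime

`S` extremal (`Ext S b b'`), `A = b ≥ 2`, `N = a + A + a'` prime. Then `b' = 2 ^ k` with `k ≥ 1`,
`A` is odd, `b' ∣ y` where `e' = A y`, `a' = b' y`, `e` is even, `m` is even and `r` is odd
(`e + k₁ = b m`, `f + k₃ = b r`), `b' ∣ f'`, and `2` divides the content of `S`.
-/

set_option autoImplicit false

namespace Pool.Agent.H4G

/-! ## Rigidity in product form -/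

/-- the four products `e + k₁ = b m`, `f + k₃ = b r`, `e' + k₁ = b' m'`, `f' + k₂ = b' r'` -/
theorem Nums.rig4 {A b e f b' e' f' a a' k1 k2 k3 k4 m r m' r' : ℤ}
    (n : Nums A b e f b' e' f' a a' k1 k2 k3 k4) (h1 : e + k1 = b * m) (h2 : f + k3 = b * r)
    (h3 : e' + k1 = b' * m') (h4 : f' + k2 = b' * r') :
    b * b' * m = e * (a' + b') ∧ b * b' * r = f * (a' + b') ∧
    b * b' * m' = e' * (a + b) ∧ b * b' * r' = f' * (a + b) := by
  have hA := n.A0.ne'
  refine ⟨?_, ?_, ?_, ?_⟩ <;> apply mul_right_cancel₀ hA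
  · linear_combination (-(A * b')) * h1 + b' * n.r1 - e * n.ra'
  · linear_combination (-(A * b')) * h2 + b' * n.r3 - f * n.ra'
  · linear_combination (-(A * b)) * h3 + b * n.r1 - e' * n.ra
  · linear_combination (-(A * b)) * h4 + b * n.r2 - f' * n.ra

/-! ## Valuations -/

/-- in `x + y = z` the smallest valuation is attained twice -/
theorem v_tri {p : ℕ} (hp : p.Prime) {x y z : ℤ} (hx : x ≠ 0) (hy : y ≠ 0) (hz : z ≠ 0)
    (h : x + y = z) :
    min (padicValInt p x) (padicValInt p y) ≤ padicValInt p z ∧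
    min (padicValInt p y) (padicValInt p z) ≤ padicValInt p x ∧
    min (padicValInt p x) (padicValInt p z) ≤ padicValInt p y := by
  have := Fact.mk hp
  have key : ∀ x y z : ℤ, x ≠ 0 → y ≠ 0 → z ≠ 0 → z = x + y ∨ z = x - y ∨ z = y - x →
      min (padicValInt p x) (padicValInt p y) ≤ padicValInt p z := by
    intro x y z hx hy hz h
    have h1 : (p : ℤ) ^ min (padicValInt p x) (padicValInt p y) ∣ x :=
      (padicValInt_dvd_iff _ _).2 (Or.inr (min_le_left _ _))
    have h2 : (p : ℤ) ^ min (padicValInt p x) (padicValInt p y) ∣ y :=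
      (padicValInt_dvd_iff _ _).2 (Or.inr (min_le_right _ _))
    have h3 : (p : ℤ) ^ min (padicValInt p x) (padicValInt p y) ∣ z := by
      rcases h with rfl | rfl | rfl
      · exact dvd_add h1 h2
      · exact dvd_sub h1 h2
      · exact dvd_sub h2 h1
    exact ((padicValInt_dvd_iff _ _).1 h3).resolve_left hz
  refine ⟨key x y z hx hy hz (Or.inl h.symm), key y z x hy hz hx ?_, key x z y hx hz hy ?_⟩
  · right; right; linarith
  · right; right; linarith

theorem v_le_of_dvd {p : ℕ} (hp : p.Prime) {x y : ℤ} (hy : y ≠ 0) (h : x ∣ y) :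
    padicValInt p x ≤ padicValInt p y := by
  have := Fact.mk hp
  have h1 : (p : ℤ) ^ padicValInt p x ∣ x := (padicValInt_dvd_iff _ _).2 (Or.inr le_rfl)
  exact ((padicValInt_dvd_iff _ _).1 (h1.trans h)).resolve_left hy

theorem v_mul {p : ℕ} (hp : p.Prime) {x y : ℤ} (hx : x ≠ 0) (hy : y ≠ 0) :
    padicValInt p (x * y) = padicValInt p x + padicValInt p y := by
  have := Fact.mk hp
  exact padicValInt.mul hx hy

/-- a twist parameter prime to `p` -/
theorem exists_twist {p : ℕ} (hp : p.Prime) {m r : ℤ} (hm : m ≠ 0)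
    (hx : p ≠ 2 ∨ ¬ ((2 : ℤ) ∣ m ∧ (2 : ℤ) ∣ 1 - r)) :
    ∃ i : ℤ, ¬ (p : ℤ) ∣ i ∧ IsCoprime (i * m) (1 - i * r) := by
  have hp0 : (p : ℤ) ≠ 0 := by exact_mod_cast hp.pos.ne'
  obtain ⟨i, hi⟩ := crt_exists ((p : ℤ) * m) (mul_ne_zero hp0 hm)
    (fun l i => (l = p → ¬ (p : ℤ) ∣ i) ∧ ((l : ℤ) ∣ m → ¬ (l : ℤ) ∣ 1 - i * r))
    (fun l hl _ => by
      by_cases hlp : l = p
      · subst hlp
        by_cases h1 : (l : ℤ) ∣ m ∧ (l : ℤ) ∣ 1 - r
        · have h2 : l ≠ 2 := by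
            rcases hx with h | h
            · exact h
            · rintro rfl; exact h h1
          refine ⟨2, fun _ h3 => ?_, fun _ h3 => ?_⟩
          · have h4 : l ∣ 2 := by exact_mod_cast h3
            exact h2 ((Nat.prime_dvd_prime_iff_eq hl Nat.prime_two).1 h4)
          · apply prime_not_dvd_one hl
            have h4 := dvd_sub (h1.2.mul_left 2) h3
            have h5 : 2 * (1 - r) - (1 - 2 * r) = 1 := by ring
            rwa [h5] at h4
        · refine ⟨1, fun _ => prime_not_dvd_one hl, fun h3 h4 => h1 ⟨h3, by simpa using h4⟩⟩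
      · exact ⟨0, fun h => absurd h hlp, fun _ h3 => prime_not_dvd_one hl (by simpa using h3)⟩)
    (fun l hl _ k k' h1 h2 => by
      refine ⟨fun h3 h4 => h2.1 h3 ?_, fun h3 h4 => h2.2 h3 ?_⟩
      · subst h3
        have := dvd_sub h4 h1
        simpa using this
      · have : 1 - k * r = (1 - k' * r) + (k' - k) * r := by ring
        rw [this]
        exact dvd_add h4 (h1.mul_right r))
  refine ⟨i, (hi p hp (dvd_mul_right _ _)).1 rfl, isCoprime_of_prime fun l hl h1 h2 => ?_⟩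
  rcases (Nat.prime_iff_prime_int.1 hl).dvd_or_dvd h2 with h3 | h3
  · apply prime_not_dvd_one hl
    have := dvd_add h1 (h3.mul_right r)
    simpa using this
  · exact (hi l hl (h3.mul_left _)).2 h3 h1

/-- the divisor relations at an extremal state -/
theorem Ext.rigV {S : PSt} {b b' : ℤ} (h : Ext S b b') {l p l' p' : Z2} (ad : Ad S l p l' p') :
    b * b' ∣ cr S.u l * (cr l' p' + b') ∧ b * b' ∣ cr S.u p * (cr l' p' + b') ∧
    b * b' ∣ cr l' S.v * (cr p l + b) ∧ b * b' ∣ cr p' S.v * (cr p l + b) := by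
  obtain ⟨E1, E2, -, -, ⟨m', h3⟩, ⟨r', h4⟩, ⟨m, h1⟩, ⟨r, h2⟩⟩ := h.rig ad
  have n := ad.nums
  rw [E1, E2] at n
  obtain ⟨k1, k2, k3, k4⟩ := n.rig4 h1 h2 h3 h4
  exact ⟨⟨m, k1.symm⟩, ⟨r, k2.symm⟩, ⟨m', k3.symm⟩, ⟨r', k4.symm⟩⟩

/-- (Vt): the V-rigidity after a twist `H_i`, `i` prime to `p` -/
theorem Ext.rigVt {S : PSt} {b b' : ℤ} (h : Ext S b b') {l p l' p' : Z2} (ad : Ad S l p l' p')
    {m r : ℤ} (hm : cr S.u l + cr l' l = b * m) (hr : cr S.u p + cr l' p = b * r)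
    {i : ℤ} (hi : IsCoprime (i * m) (1 - i * r)) :
    b * b' ∣ i * ((cr l' p' + b' - cr S.u S.v) * (cr p l + b)) := by
  obtain ⟨E1, E2, -⟩ := h.rig ad
  have hb := h.bpos
  obtain ⟨T, l1, p1, k1, k2, k3, k4, k5, k6, k7⟩ := h.H ad i (by
    rw [hm, hr]
    have e1 : i * (b * m) = b * (i * m) := by ring
    have e2 : b - i * (b * r) = b * (1 - i * r) := by ring
    rw [e1, e2, Int.gcd_mul_left, Int.isCoprime_iff_gcd_eq_one.1 hi, mul_one,
      Int.natAbs_of_nonneg hb.le])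
  have h1 := (h.rigV ad).2.2.2
  have h2 := (k2.rigV k3).2.2.2
  have e1 : cr p1 l1 = cr p l := by
    have := k3.isArea
    rw [k4] at this
    exact this.unique ad.isArea
  have e2 : cr (p' + i • S.u) T.v = cr p' S.v - i * (cr l' p' + b' - cr S.u S.v) := by
    rw [k6, cr_add_left, cr_smul_left, cr_add_right, cr_add_right, cr_smul_right, cr_smul_right,
      cr_add_right, cr_add_right, cr_self, ad.h4, cr_swap p' S.u, E2, cr_swap p' l']
    ring
  rw [e1, e2] at h2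
  have h3 := dvd_sub h1 h2
  have e3 : cr p' S.v * (cr p l + b) -
      (cr p' S.v - i * (cr l' p' + b' - cr S.u S.v)) * (cr p l + b) =
      i * ((cr l' p' + b' - cr S.u S.v) * (cr p l + b)) := by ring
  rwa [e3] at h3

/-! ## The case `A = b` -/

/-- the pure local statement: if (Vt) holds at `p`, then `v (b') = 0` -/
theorem r12_loc {q : ℕ} (hq : q.Prime) {N : ℕ} (hN : N.Prime) {A b' a a' : ℤ} (hA : 0 < A)
    (hb' : 0 < b') (ha : 0 < a) (ha' : 0 < a') (hAb : A ≤ b') (hv : a + A + a' = N)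
    (H1 : A * b' ∣ a * (a' + b')) (V1 : b' * b' ∣ a' * (a + A)) {i : ℤ} (hi : ¬ (q : ℤ) ∣ i)
    (Vt : A * b' ∣ i * ((a' + b' - A) * (a + A))) : ¬ (q : ℤ) ∣ b' := by
  have := Fact.mk hq
  have n1 : a + A ≠ 0 := by omega
  have n2 : a' + b' ≠ 0 := by omega
  have n3 : a' + b' - A ≠ 0 := by omega
  have ni : i ≠ 0 := by rintro rfl; exact hi (dvd_zero _)
  have vi : padicValInt q i = 0 := by
    by_contra hn
    apply hi
    have := (padicValInt_dvd_iff (p := q) 1 i).2 (Or.inr (by omega))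
    simpa using this
  have t1 := v_tri hq ha.ne' hA.ne' n1 rfl
  have t2 := v_tri hq ha'.ne' hb'.ne' n2 rfl
  have t3 := v_tri hq n3 hA.ne' n2 (by ring)
  have g1 := v_le_of_dvd hq (mul_ne_zero ha.ne' n2) H1
  have g2 := v_le_of_dvd hq (mul_ne_zero ha'.ne' n1) V1
  have g3 := v_le_of_dvd hq (mul_ne_zero ni (mul_ne_zero n3 n1)) Vt
  rw [v_mul hq hA.ne' hb'.ne', v_mul hq ha.ne' n2] at g1
  rw [v_mul hq hb'.ne' hb'.ne', v_mul hq ha'.ne' n1] at g2
  rw [v_mul hq hA.ne' hb'.ne', v_mul hq ni (mul_ne_zero n3 n1), v_mul hq n3 n1, vi] at g3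
  have c1 : padicValInt q b' ≤ padicValInt q (a + A) := by omega
  have c2 : padicValInt q b' ≤ padicValInt q a' := by omega
  intro hd
  have c0 : 1 ≤ padicValInt q b' :=
    ((padicValInt_dvd_iff (p := q) 1 b').1 (by simpa using hd)).resolve_left hb'.ne'
  have d1 : (q : ℤ) ∣ a + A := by
    have := (padicValInt_dvd_iff (p := q) 1 (a + A)).2 (Or.inr (by omega))
    simpa using this
  have d2 : (q : ℤ) ∣ a' := by
    have := (padicValInt_dvd_iff (p := q) 1 a').2 (Or.inr (by omega))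
    simpa using this
  have d3 : (q : ℤ) ∣ (N : ℤ) := by rw [← hv]; exact dvd_add d1 d2
  have d4 : q ∣ N := by exact_mod_cast d3
  have d5 : q = N := (Nat.prime_dvd_prime_iff_eq hq hN).1 d4
  subst d5
  have := Int.le_of_dvd ha' d2
  omega

/-- The structure of the extremal states with `A = b`, `N` prime. -/
structure ABeq (S : PSt) (b b' : ℤ) (l p l' p' : Z2) (k : ℕ) (y m r : ℤ) : Prop where
  k1 : 1 ≤ k
  b'k : b' = 2 ^ k
  Ab : cr S.u S.v = b
  odd : Odd b
  cop : IsCoprime b' b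
  y0 : 0 < y
  e'y : cr l' S.v = b * y
  a'y : cr l' p' = b' * y
  b'y : b' ∣ y
  b'a' : b' ^ 2 ∣ cr l' p'
  ae : cr p l = cr S.u l
  e2 : Even (cr S.u l)
  hm : cr S.u l + cr l' l = b * m
  hr : cr S.u p + cr l' p = b * r
  m2 : Even m
  r2 : Odd r
  f' : b' ∣ cr p' S.v
  cont : Cont S 2

/-- ROW R12 -/
theorem Ext.r12 {S : PSt} {b b' : ℤ} (h : Ext S b b') {l p l' p' : Z2} (ad : Ad S l p l' p')
    {N : ℕ} (hN : N.Prime) (hv : cr p l + cr S.u S.v + cr l' p' = N) (hA : cr S.u S.v = b)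
    (h2 : 2 ≤ b) : ∃ (k : ℕ) (y m r : ℤ), ABeq S b b' l p l' p' k y m r := by
  obtain ⟨E1, E2, -, hbb', ⟨m', h3⟩, ⟨r', h4⟩, ⟨m, hm⟩, ⟨r, hr⟩⟩ := h.rig ad
  have n := ad.nums
  rw [E1, E2, hA] at n
  obtain ⟨R1, R2, R3, R4⟩ := n.rig4 hm hr h3 h4
  have hb : 0 < b := n.b0
  have hb' : 0 < b' := n.b0'
  set a := cr p l with ha_def
  set a' := cr l' p' with ha'_def
  set e := cr S.u l with he_def
  set f := cr S.u p with hf_def
  set e' := cr l' S.v with he'_def
  set f' := cr p' S.v with hf'_def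
  have ha : 0 < a := n.a0
  have ha' : 0 < a' := n.a0'
  have hae : a = e := by
    apply mul_right_cancel₀ hb.ne'
    exact n.ra
  -- `b' ∣ a' b`
  have hm0 : m ≠ 0 := by
    rintro rfl
    have : 0 < e * (a' + b') := mul_pos n.e0 (by omega)
    rw [← R1] at this
    simp at this
  have H1 : b * b' ∣ a * (a' + b') := ⟨m, by rw [hae]; exact R1.symm⟩
  -- (V1): `b b'^2 m' = b' e' (a + b) = a' b (a + b)`
  have V1 : b' * b' ∣ a' * (a + b) := by
    refine ⟨m', ?_⟩
    apply mul_left_cancel₀ hb.ne'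
    have := n.ra'
    linear_combination (-b') * R3 + (a + b) * this
  rw [hA] at hv
  -- (Vt) excludes all odd primes, and `2` if not exceptional
  have key : ∀ q : ℕ, q.Prime → (q ≠ 2 ∨ ¬ ((2 : ℤ) ∣ m ∧ (2 : ℤ) ∣ 1 - r)) →
      ¬ (q : ℤ) ∣ b' := by
    intro q hq hx
    obtain ⟨i, hi1, hi2⟩ := exists_twist hq hm0 hx
    have Vt := h.rigVt ad hm hr hi2
    rw [hA] at Vt
    exact r12_loc hq hN hb hb' ha ha' hbb' hv H1 V1 hi1 Vt
  -- `b'` is a power of `2`
  obtain ⟨k, hk⟩ : ∃ k : ℕ, b' = 2 ^ k := by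
    have h5 : ∀ d : ℕ, d.Prime → d ∣ b'.toNat → d = 2 := by
      intro d hd h6
      by_contra hn
      refine key d hd (Or.inl hn) ?_
      have : (d : ℤ) ∣ (b'.toNat : ℤ) := Int.natCast_dvd_natCast.2 h6
      rwa [Int.toNat_of_nonneg hb'.le] at this
    have h6 : b'.toNat ≠ 0 := by omega
    have h7 := Nat.eq_prime_pow_of_unique_prime_dvd h6 (fun {d} hd h8 => h5 d hd h8)
    refine ⟨b'.toNat.primeFactorsList.length, ?_⟩
    have h8 : (b'.toNat : ℤ) = ((2 ^ b'.toNat.primeFactorsList.length : ℕ) : ℤ) := by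
      exact_mod_cast h7
    rw [Int.toNat_of_nonneg hb'.le] at h8
    rw [Nat.cast_pow] at h8
    exact h8
  have hk1 : 1 ≤ k := by
    rcases Nat.eq_zero_or_pos k with h0 | h0
    · rw [h0, pow_zero] at hk; omega
    · exact h0
  have hb'2 : (2 : ℤ) ∣ b' := by rw [hk]; exact dvd_pow_self 2 (by omega)
  have hexc : (2 : ℤ) ∣ m ∧ (2 : ℤ) ∣ 1 - r := by
    by_contra hn
    exact key 2 Nat.prime_two (Or.inr hn) (by exact_mod_cast hb'2)
  -- valuations at `2`
  have := Fact.mk Nat.prime_two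
  have n1 : a + b ≠ 0 := by omega
  have n2 : a' + b' ≠ 0 := by omega
  have t1 := v_tri Nat.prime_two ha.ne' hb.ne' n1 rfl
  have t2 := v_tri Nat.prime_two ha'.ne' hb'.ne' n2 rfl
  have g1 := v_le_of_dvd Nat.prime_two (mul_ne_zero ha.ne' n2) H1
  have g2 := v_le_of_dvd Nat.prime_two (mul_ne_zero ha'.ne' n1) V1
  rw [v_mul Nat.prime_two hb.ne' hb'.ne', v_mul Nat.prime_two ha.ne' n2] at g1
  rw [v_mul Nat.prime_two hb'.ne' hb'.ne', v_mul Nat.prime_two ha'.ne' n1] at g2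
  have vb' : padicValInt 2 b' = k := by
    rw [hk]
    exact_mod_cast padicValInt.of_nat ▸ (padicValNat.prime_pow (p := 2) k)
  have dvd2 : ∀ x : ℤ, x ≠ 0 → (1 ≤ padicValInt 2 x ↔ (2 : ℤ) ∣ x) := by
    intro x hx
    have := padicValInt_dvd_iff (p := 2) 1 x
    rw [pow_one] at this
    constructor
    · intro h; exact this.2 (Or.inr h)
    · intro h; exact (this.1 h).resolve_left hx
  -- not all of `a, b, a'` are even
  have hN2 : ¬ ((2 : ℤ) ∣ a + b ∧ (2 : ℤ) ∣ a') := by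
    rintro ⟨h5, h6⟩
    have h7 : (2 : ℤ) ∣ (N : ℤ) := by rw [← hv]; exact dvd_add h5 h6
    have h8 : 2 ∣ N := by exact_mod_cast h7
    have h9 := (Nat.prime_dvd_prime_iff_eq Nat.prime_two hN).1 h8
    rw [← h9] at hv
    push_cast at hv
    omega
  -- `sg < be'`
  have c1 : padicValInt 2 (a + b) < k := by
    by_contra hn
    push Not at hn
    have h5 : ¬ (1 ≤ padicValInt 2 a') := by
      intro h6
      exact hN2 ⟨(dvd2 _ n1).1 (by omega), (dvd2 _ ha'.ne').1 h6⟩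
    have h6 : padicValInt 2 a' = 0 := by omega
    have h7 : 2 * k ≤ padicValInt 2 b := by omega
    have h8 : (2 : ℤ) ^ (2 * k) ∣ b := (padicValInt_dvd_iff (p := 2) _ b).2 (Or.inr h7)
    have h9 := Int.le_of_dvd hb h8
    have h10 : (2 : ℤ) ^ (2 * k) = b' * b' := by rw [hk, ← pow_add]; congr 1; omega
    rw [h10] at h9
    nlinarith
  have c2 : k < padicValInt 2 a' := by omega
  have c3 : padicValInt 2 (a' + b') = k := by omega
  have c4 : padicValInt 2 b ≤ padicValInt 2 a := by omega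
  have hbo : ¬ (2 : ℤ) ∣ b := by
    intro h5
    have h6 := (dvd2 b hb.ne').2 h5
    have h7 : (2 : ℤ) ∣ a := (dvd2 a ha.ne').1 (by omega)
    exact hN2 ⟨dvd_add h7 h5, (dvd2 _ ha'.ne').1 (by omega)⟩
  have vb : padicValInt 2 b = 0 := by
    by_contra hn
    exact hbo ((dvd2 b hb.ne').1 (by omega))
  -- `e` is even
  have he2 : (2 : ℤ) ∣ a := by
    have h5 := congrArg (padicValInt 2) R1
    rw [← hae, v_mul Nat.prime_two (mul_ne_zero hb.ne' hb'.ne') hm0, v_mul Nat.prime_two hb.ne' hb'.ne',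
      v_mul Nat.prime_two ha.ne' n2] at h5
    have h6 := (dvd2 m hm0).2 hexc.1
    exact (dvd2 a ha.ne').1 (by omega)
  have hsg : padicValInt 2 (a + b) = 0 := by
    by_contra hn
    have h5 : (2 : ℤ) ∣ a + b := (dvd2 _ n1).1 (by omega)
    exact hbo (by have := dvd_sub h5 he2; simpa using this)
  have c5 : 2 * k ≤ padicValInt 2 a' := by omega
  have hcop2 : IsCoprime (2 : ℤ) b := by
    rw [Int.isCoprime_iff_gcd_eq_one]
    have h5 : Odd b := Int.not_even_iff_odd.1 (fun h => hbo h.two_dvd)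
    exact Int.isCoprime_iff_gcd_eq_one.1 (Int.isCoprime_two_left.2 h5)
  have hcop : IsCoprime b' b := by rw [hk]; exact hcop2.pow_left
  have hcopab : IsCoprime b' (a + b) := by
    rw [hk]
    refine IsCoprime.pow_left ?_
    rw [Int.isCoprime_two_left]
    refine Int.not_even_iff_odd.1 fun h5 => ?_
    exact hbo (by have := dvd_sub h5.two_dvd he2; simpa using this)
  have d1 : b' ^ 2 ∣ a' := by
    have : b' ^ 2 = 2 ^ (2 * k) := by rw [hk, ← pow_mul]; congr 1; omega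
    rw [this]
    exact (padicValInt_dvd_iff (p := 2) _ a').2 (Or.inr c5)
  obtain ⟨y0, hy0⟩ := d1
  have e'y : e' = b * (b' * y0) := by
    have := n.ra'
    apply mul_right_cancel₀ hb'.ne'
    rw [← this, hy0]; ring
  have f'd : b' ∣ f' := by
    have h5 : b' ∣ f' * (a + b) := ⟨b * r', by linear_combination -R4⟩
    exact hcopab.dvd_of_dvd_mul_right h5
  have f'2 : (2 : ℤ) ∣ f' := hb'2.trans f'd
  have e'2 : (2 : ℤ) ∣ e' := by rw [e'y]; exact (hb'2.mul_right _).mul_left _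
  have two_of : ∀ x : ℤ, (2 : ℤ) ∣ x * b → (2 : ℤ) ∣ x := fun x hx =>
    hcop2.dvd_of_dvd_mul_right hx
  have a'y : a' = b' * (b' * y0) := by rw [hy0]; ring
  have ee2 : (2 : ℤ) ∣ e := by rw [← hae]; exact he2
  refine ⟨k, b' * y0, m, r, hk1, hk, hA, Int.not_even_iff_odd.1 (fun h => hbo h.two_dvd), hcop,
    ?_, e'y, a'y, dvd_mul_right _ _, ⟨y0, hy0⟩, hae,
    (even_iff_two_dvd).2 ee2, hm, hr, (even_iff_two_dvd).2 hexc.1, ?_, f'd, ?_⟩
  · have h5 : 0 < b * (b' * y0) := by rw [← e'y]; exact n.e0'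
    exact (mul_pos_iff_of_pos_left hb).1 h5
  · obtain ⟨t, ht⟩ := hexc.2
    exact ⟨-t, by linarith⟩
  · rw [Cont.iff ad]
    refine ⟨by rw [E2]; exact hb'2, e'2, f'2, ?_, ?_, ?_, ?_⟩
    · apply two_of; rw [n.r1]; exact e'2.mul_left _
    · apply two_of; rw [n.r2]; exact f'2.mul_left _
    · apply two_of; rw [n.r3]; exact e'2.mul_right _
    · apply two_of; rw [n.r4]
      exact dvd_sub (f'2.mul_left _) (hb'2.mul_left _)

end Pool.Agent.H4G
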