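import Pool.Agent.H4G.Asym.R14
import Pool.Agent.H4G.Asym.R12

/-!
# Row R14, second part: the case `A = β`, `N` prime (helper65)
-/

set_option autoImplicit false

namespace Pool.Agent.H4G

/-- CASE `A = β`, `N` prime -/
theorem caseB {N M J : ℕ} (hP : Par N M J) (hN : N.Prime) {S : PSt} {b b' : ℤ} (h : Ext S b b')
    (hF : S.Full) {l p l' p' : Z2} (ad : Ad S l p l' p')
    (hv : cr p l + cr S.u S.v + cr l' p' = N) (hA : cr S.u S.v = b) (h2 : 2 ≤ b) : False := by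
  obtain ⟨k, y, m, r, hB⟩ := h.r12 ad hN hv hA h2
  obtain ⟨eb, eb', _, hbb', ⟨m', k3⟩, ⟨r', k4⟩, _, _⟩ := h.rig ad
  have hlb := h.min
  have hb0 : 0 < b := by omega
  have hb0' : 0 < b' := by omega
  have hnS := ad.nums
  rw [hA, eb, eb'] at hnS
  have he0 := hnS.e0
  have he0' := hnS.e0'
  have ha0 := hnS.a0
  have ha0' := hnS.a0'
  rw [hA] at hv
  have hvZ : (N : ℤ) = cr S.u l + b + y * b' := by
    rw [← hv, hB.ae, hB.a'y]; ring
  have hJ1 := hP.J1'
  have hJ0 : (0 : ℤ) < J := by linarith [show (0 : ℤ) < 2 ^ 10 by norm_num]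
  have hM100 := hP.M100
  have hM0 : (0 : ℤ) < M := by linarith [show (0 : ℤ) < 2 ^ 100 by norm_num]
  obtain ⟨hJN, hJM⟩ := hP.JN
  have j1 : (1 : ℤ) ≤ J := by linarith [show (1 : ℤ) ≤ 2 ^ 10 by norm_num]
  have hby : b' ≤ y := Int.le_of_dvd hB.y0 hB.b'y
  have hbne : b < b' := by
    rcases lt_or_eq_of_le hbb' with h1 | h1
    · exact h1
    · exfalso
      have h3 := hB.cop
      rw [← h1] at h3
      have h4 := Int.isUnit_iff.1 (isCoprime_self.1 h3)
      omega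
  -- the left side: `T = H_q S`
  obtain ⟨q, T, l1, p1, w, g, hST, hT, adT, hw, t1, t2, t3, t4, hpar, _, t5, t6, t7, hCT, hgA, hg2,
    hg2'⟩ := hsel_full h.ok ad (by rw [hA, eb']; exact hbb') (by rw [eb]; exact hB.hm)
      (by rw [eb]; exact hB.hr) hF
  rw [eb] at t1
  rw [hA] at t4 hgA
  rw [eb'] at t5 hg2'
  have hg0 := hCT.pos
  have hg1 : g = 1 := by
    have h3 : g ∣ b' := (dvd_pow_self g two_ne_zero).trans hg2'
    have h4 := hB.cop.isUnit_of_dvd' h3 hgA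
    rcases Int.isUnit_iff.1 h4 with h5 | h5 <;> omega
  have h2b' : (2 : ℤ) ∣ b' := by rw [hB.b'k]; exact dvd_pow_self 2 (by have := hB.k1; omega)
  have hw2 : w = 2 := by
    rcases hw with hw | hw
    · exfalso
      obtain ⟨q', hq'⟩ := hpar hw hB.m2 hB.r2
      have hq2 : (2 : ℤ) ∣ q := ⟨q', by rw [hq']; ring⟩
      obtain ⟨c1, c2, c3, c4, c5, c6, c7⟩ := (Cont.iff ad 2).1 hB.cont
      have hc : Cont T 2 := by
        rw [hT, cont_H ad q 2]
        exact ⟨c1, c2, dvd_sub c3 (hq2.mul_right _), c4, dvd_add c5 (hq2.mul_right _), c6,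
          dvd_add c7 (hq2.mul_right _)⟩
      have := hCT.max 2 hc
      rw [hg1] at this
      omega
    · exact hw
  subst hw2
  subst hg1
  -- the first application
  have hfirst : 8192 * (J : ℤ) ^ 4 * b ≤ cr S.u l → ∃ eT : ℤ, 2 * eT = cr S.u l ∧
      b + eT ≤ 256 * (J : ℤ) ^ 3 * b ^ 2 ∧ b ^ 100 ≤ ((K0 : ℤ) * (J : ℤ) ^ 5) ^ 100 * (N : ℤ) ^ 3 := by
    intro hbig
    obtain ⟨D, U, V, L, P, hD, hLX, hex⟩ := exLX hlb hST adT (by rw [t4, t1]; omega) hCT
      (by rw [t7]; exact hg2)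
    rw [t4, t1, t3] at hLX hex
    have heT0 : 0 < cr T.u l1 := hLX.e0
    have hD0 : 0 < D := hLX.D0
    have hnT := adT.nums
    rw [t4, t1, t3, t7] at hnT
    obtain ⟨n1, n2, n3, n4, n5⟩ := hnT.leN (N := N) (by omega) (by linarith)
    have hDN : D ≤ N := by
      rw [one_pow, one_mul, t7] at hD
      linarith
    have hXT := num_X (N := N) (J := J) (D := D) (e := cr T.u l1) (a := cr p l) hP.N16 hJ0.le hJN
      hD0.le hDN heT0.le n1 ha0.le n2
    obtain ⟨r1, r2, r3⟩ := hLX.tprop (J := J) (X := N ^ 6) (β := b) (g := 1) (by omega) hP.J1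
      hP.cap (by push_cast; exact hXT) (by linarith) one_pos (by omega) hex
    have hwbN : 2 * b ≤ N := by
      have k1 : (4 : ℤ) * J * b ≤ 4096 * J ^ 4 * b := by
        apply mul_le_mul_of_nonneg_right _ hb0.le
        have : (J : ℤ) ≤ J ^ 4 := le_self_pow₀ (by linarith) (by norm_num)
        linarith
      linarith
    have hR3 := num_R (N := N) (D := D) (e := cr T.u l1) (a := cr p l) (b := 2 * b) hP.N16 hD0.le
      hDN n1 n2 hwbN
    refine ⟨cr T.u l1, t2, r2, r3.trans ?_⟩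
    rw [one_mul]
    exact mul_le_mul_of_nonneg_left hR3 (by positivity)
  have hy13 := num_eq (K := K0) K0_pos hP.J1' hP.KM' hP.lo' hP.hi' hvZ h2 hbb' hby hfirst
  -- the right side
  obtain ⟨j, T2, l2, p2, l3, p3, w2, g2, hST2, _, adT2, hw2, s1, s2, s3, s4, s5, s6, s7, _, _, hCT2,
    hgA2, hg22, hg22'⟩ := vsel_full h.ok ad (by rw [hA, eb]) (by rw [eb']; exact k3)
    (by rw [eb']; exact k4) hF
  rw [eb'] at s1
  rw [hA] at s4 hgA2
  rw [eb] at hg22'
  have hw20 : 1 ≤ w2 := by omega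
  have hbw2 : b' ≤ w2 * b' := le_mul_of_one_le_left hb0'.le hw20
  obtain ⟨D2, U2, V2, L2, P2, hD2, hLX2, hex2⟩ := exLX hlb hST2 adT2 (by rw [s4, s1]; linarith)
    hCT2 (by rw [s7]; exact hg22)
  rw [s4, s1, s3] at hLX2 hex2
  have heT20 : 0 < cr T2.u l2 := hLX2.e0
  have hD20 : 0 < D2 := hLX2.D0
  have heT2 : cr l' S.v ≤ 2 * cr T2.u l2 := by
    have : w2 * cr T2.u l2 ≤ 2 * cr T2.u l2 := mul_le_mul_of_nonneg_right (by omega) heT20.le
    linarith
  have hnT2 := adT2.nums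
  rw [s4, s1, s3, s7] at hnT2
  obtain ⟨o1, o2, o3, o4, o5⟩ := hnT2.leN (N := N) (by linarith) (by linarith)
  have hg20 := hCT2.pos
  have hg2A : g2 ^ 2 ≤ b := Int.le_of_dvd hb0 hg22'
  have hg2b : g2 < b := by nlinarith
  have hD2N : D2 ≤ N := by
    have h1 : 1 * D2 ≤ g2 ^ 2 * D2 := mul_le_mul_of_nonneg_right (one_le_pow₀ (by omega)) hD20.le
    rw [← hD2, s7] at h1
    linarith
  have hXT2 := num_X (N := N) (J := J) (D := D2) (e := cr T2.u l2) (a := cr l' p') hP.N16 hJ0.le hJN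
    hD20.le hD2N heT20.le o1 ha0'.le o2
  have big2 : 4096 * (J : ℤ) ^ 4 * b ≤ cr T2.u l2 := by
    have j2 : (8192 : ℤ) * J ^ 4 ≤ M ^ 13 := by
      have k1 : (J : ℤ) ^ 4 ≤ J ^ 10 := pow_le_pow_right₀ j1 (by norm_num)
      have k2 : (8192 : ℤ) * M ≤ M ^ 12 * M := by
        apply mul_le_mul_of_nonneg_right _ hM0.le
        have : (M : ℤ) ≤ M ^ 12 := le_self_pow₀
          (by linarith [show (1 : ℤ) ≤ 2 ^ 100 by norm_num]) (by norm_num)
        linarith [show (8192 : ℤ) ≤ 2 ^ 100 by norm_num]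
      calc (8192 : ℤ) * J ^ 4 ≤ 8192 * M := by linarith
        _ ≤ M ^ 12 * M := k2
        _ = M ^ 13 := by ring
    have j3 : b * (8192 * (J : ℤ) ^ 4) ≤ b * y := mul_le_mul_of_nonneg_left (by linarith) hb0.le
    rw [← hB.e'y] at j3
    linarith
  obtain ⟨r1, r2, r3⟩ := hLX2.tprop (J := J) (X := N ^ 6) (β := b) (g := g2) (by linarith) hP.J1
    hP.cap (by push_cast; exact hXT2) big2 hg20 hg2b hex2
  have hwbN : w2 * b' ≤ N := by
    have k1 : (4 : ℤ) * J * b ≤ 4096 * J ^ 4 * b := by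
      apply mul_le_mul_of_nonneg_right _ hb0.le
      have : (J : ℤ) ≤ J ^ 4 := le_self_pow₀ (by linarith) (by norm_num)
      linarith
    linarith
  have hR3 := num_R (N := N) (D := D2) (e := cr T2.u l2) (a := cr l' p') (b := w2 * b') hP.N16
    hD20.le hD2N o1 o2 hwbN
  exact num_eq2 (K := K0) K0_pos hP.J1' hP.KM' (by positivity) hP.hi' hb0 hg20 hg2A hw2
    (by rw [s2]; exact hB.e'y) hy13 r2 r3 hR3

/-- THE REDUCTION for all large primes -/
theorem red_large : ∃ N0 : ℕ, ∀ N : ℕ, N0 ≤ N → N.Prime → ∀ (S : PSt) (b b' a a' : ℤ), S.Full →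
    Ext S b b' → IsArea S.L a → IsArea S.L' a' → a + cr S.u S.v + a' = N → b = 1 := by
  obtain ⟨N0, hN0⟩ := exists_par
  refine ⟨N0, fun N hN hp S b b' a a' hF h ha ha' hv => ?_⟩
  obtain ⟨M, J, hP⟩ := hN0 N hN
  obtain ⟨l, p, l', p', ad⟩ := exists_Ad h.ok
  have e1 : cr p l = a := ad.isArea.unique ha
  have e2 : cr l' p' = a' := ad.isArea'.unique ha'
  by_contra hb
  have hb0 := h.bpos
  have h2 : 2 ≤ b := by omega
  rcases lt_or_eq_of_le h.hA with hA | hA
  · -- `A < β`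
    obtain ⟨T, c, c', hST, hPM⟩ := exists_PM h hA
    obtain ⟨l1, p1, l1', p1', ad1⟩ := exists_Ad hPM.ok
    have hFT := hST.full.1 hF
    obtain ⟨d, d', m1, m2, m3⟩ := hST
    have hvS := ad.vol m1
    have hvT := ad1.vol m2
    have hvv : cr p1 l1 + cr T.u T.v + cr l1' p1' = N := by
      rw [← hvT, m3.vol_eq, hvS, e1, e2]; exact hv
    rcases le_total (cr l1' T.v) (cr T.u l1) with hee | hee
    · exact caseA hP hPM hFT ad1 hvv hee
    · have ad2 := ad1.mirror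
      have hPM2 := hPM.mirror
      have hF2 : PSt.Full ⟨T.L', T.v, -T.u, T.L⟩ :=
        (SEq.mirror (L := T.L) (L' := T.L') (u := T.u) (v := T.v) hPM.ok).full.1 hFT
      refine caseA hP hPM2 hF2 ad2 ?_ ?_
      · have q1 : cr p1' (-l1') = cr l1' p1' := by rw [cr_neg_right, cr_swap p1' l1', neg_neg]
        have q2 : cr T.v (-T.u) = cr T.u T.v := by rw [cr_neg_right, cr_swap T.v T.u, neg_neg]
        have q3 : cr l1 (-p1) = cr p1 l1 := by rw [cr_neg_right, cr_swap l1 p1, neg_neg]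
        show cr p1' (-l1') + cr T.v (-T.u) + cr l1 (-p1) = N
        rw [q1, q2, q3]
        linarith
      · have q1 : cr l1 (-T.u) = cr T.u l1 := by rw [cr_neg_right, cr_swap l1 T.u, neg_neg]
        have q2 : cr T.v (-l1') = cr l1' T.v := by rw [cr_neg_right, cr_swap T.v l1', neg_neg]
        show cr l1 (-T.u) ≤ cr T.v (-l1')
        rw [q1, q2]
        exact hee
  · exact caseB hP hp h hF ad (by rw [e1, e2]; exact hv) hA h2

end Pool.Agent.H4G
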