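import Pool.Agent.H4G.Arith.AsmP
import Pool.Agent.H4G.Asym.R14b

/-!
# `N` a large prime: assembly (helper65)
-/

set_option autoImplicit false

namespace Pool.Agent.H4G

/-- the classification of the chains for all large primes -/
theorem arith_large : ∃ N0 : ℕ, ∀ N : ℕ, N0 ≤ N → N.Prime →
    ∀ c : C6, Pos c → span c = ⊤ → vol c = N → ∃ k, CEq c (canC N k) := by
  obtain ⟨N0, hN0⟩ := red_large
  refine ⟨max N0 11, fun N hN hp c hc hs hv => ?_⟩
  have h11 : 11 ≤ N := le_trans (le_max_right _ _) hN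
  have hrep := isRep_stOf hc
  have hfull : (stOf c).Full := by
    unfold PSt.Full
    rw [← hrep.span]; exact hs
  obtain ⟨T, b, b', k1, k2⟩ := exists_ext ⟨c, hrep⟩
  have k1f := k1.full
  obtain ⟨d, d', m1, m2, m3⟩ := k1
  have k1 : SEq (stOf c) T := ⟨d, d', m1, m2, m3⟩
  obtain ⟨a, a', n1, n2, n3, n4⟩ := m2.areas
  have e2 : vol d' = N := by rw [m3.vol_eq, (hrep.ceq m1).vol_eq, hv]
  rw [e2] at n4
  have hb : b = 1 := hN0 N (le_trans (le_max_left _ _) hN) hp T b b' a a' (k1f.1 hfull) k2 n1 n2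
    n4.symm
  subst hb
  obtain ⟨k, hk⟩ := canS_of_isC hp h11 k2.ok n1 n2 n4.symm k2.hb
  exact ⟨k, (k1.trans hk).ceq hrep (canC_isRep hk.ok')⟩

/-- Q1 (ii) for all large primes `N` -/
theorem orbits_prime_large : ∃ N0 : ℕ, ∀ N : ℕ, N0 ≤ N → N.Prime →
    ∃ o : Fin 4 → Ori N, (∀ k, (o k).PH ∧ ∀ v, (o k).HLK v ↔ v = valO k) ∧
      ∀ p : Ori N, p.PH → ∃! k, p.SameOrbit (o k) := by
  obtain ⟨N0, hN0⟩ := arith_large
  refine ⟨max N0 11, fun N hN hp => ?_⟩
  have h11 : 11 ≤ N := le_trans (le_max_right _ _) hN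
  exact orbits_of valO_inj (hN0 N (le_trans (le_max_left _ _) hN) hp)
    (exists_valO (hp.odd_of_ne_two (by omega)) (by omega))

end Pool.Agent.H4G
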