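import Pool.Agent.H4G.Arith.Ext
import Pool.Agent.H4G.Arith.ExtZ

/-!
# Definitions for the asymptotic reduction (helper65)
-/

set_option autoImplicit false

namespace Pool.Agent.H4G

/-- `d` divides the vector `w` -/
def DV (d : ℤ) (w : Z2) : Prop := d ∣ w.1 ∧ d ∣ w.2

/-- the gcd of the coordinates -/
def gcv (w : Z2) : ℕ := Int.gcd w.1 w.2

theorem DV.add {d : ℤ} {x y : Z2} (hx : DV d x) (hy : DV d y) : DV d (x + y) :=
  ⟨dvd_add hx.1 hy.1, dvd_add hx.2 hy.2⟩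

theorem DV.sub {d : ℤ} {x y : Z2} (hx : DV d x) (hy : DV d y) : DV d (x - y) :=
  ⟨dvd_sub hx.1 hy.1, dvd_sub hx.2 hy.2⟩

theorem DV.neg {d : ℤ} {x : Z2} (hx : DV d x) : DV d (-x) :=
  ⟨(dvd_neg).2 hx.1, (dvd_neg).2 hx.2⟩

theorem DV.smul {d : ℤ} {x : Z2} (hx : DV d x) (c : ℤ) : DV d (c • x) :=
  ⟨by rw [Prod.smul_fst, smul_eq_mul]; exact hx.1.mul_left c,
   by rw [Prod.smul_snd, smul_eq_mul]; exact hx.2.mul_left c⟩

theorem DV.cr_left {d : ℤ} {x : Z2} (hx : DV d x) (y : Z2) : d ∣ cr x y :=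
  dvd_sub (hx.1.mul_right _) (hx.2.mul_right _)

theorem DV.cr_right {d : ℤ} {y : Z2} (hy : DV d y) (x : Z2) : d ∣ cr x y :=
  dvd_sub (hy.2.mul_left _) (hy.1.mul_left _)

theorem DV.of_dvd {d d' : ℤ} {x : Z2} (hx : DV d x) (h : d' ∣ d) : DV d' x :=
  ⟨h.trans hx.1, h.trans hx.2⟩

theorem dv_iff_gcv {d : ℤ} {w : Z2} : DV d w ↔ d ∣ (gcv w : ℤ) :=
  ⟨fun h => Int.dvd_coe_gcd h.1 h.2,
   fun h => ⟨h.trans (Int.gcd_dvd_left _ _), h.trans (Int.gcd_dvd_right _ _)⟩⟩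

theorem dv_gcv (w : Z2) : DV (gcv w : ℤ) w := dv_iff_gcv.2 dvd_rfl

/-- The abstract data of one side of a state: `A = u × v`, `b = p × v`, `e = u × l`, `f = u × p`,
`a = p × l`; `U, V, L, P` are the vectors of products of `u, v, l, p` with a basis of `L'`,
divided by their content; `D` is the area of `L'` divided by the square of the content. -/
structure LX (A b e f a D : ℤ) (U V L P : Z2) : Prop where
  A0 : 0 < A
  Ab : A ≤ b
  e0 : 0 < e
  D0 : 0 < D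
  ra : a * A = e * b
  hUV : cr U V = D * A
  hUL : cr U L = D * e
  hUP : cr U P = D * f
  hPV : cr P V = D * b
  hPL : cr P L = D * a
  hLV : cr L V = 0
  prim : ∀ d : ℤ, DV d U → DV d V → DV d L → DV d P → d ∣ 1

/-- the height of an exit -/
def XF (A b e f a j t i : ℤ) : ℤ := t * e + i * (f + j * (a + b - A))

/-- the vector of an exit -/
def XW (U V L P : Z2) (j t i o : ℤ) : Z2 :=
  U - j • (V + L) + o • V + t • L + i • (P - j • V)

/-- the conditions of an exit -/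
structure XC (A b e f a j t i o : ℤ) : Prop where
  o1 : o = 1 ∨ o = -1
  i0 : 0 ≤ i
  cop : IsCoprime t i
  lo : i * b < o * XF A b e f a j t i
  hi : o * XF A b e f a j t i ≤ a

/-- `J` bounds the sieve length for all numbers up to `X` -/
def Cap (J X : ℕ) : Prop := ∀ M : ℕ, M ≠ 0 → M ≤ X → 4 ^ M.primeFactors.card ≤ J

/-- the vector `N_i` of the thin case -/
def XN (V L : Z2) (h0 z i : ℤ) : Z2 := (h0 * (1 + i)) • (V + L) + (i * z) • L

/-- the absolute constant of the thin case -/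
def K0 : ℕ := 2 ^ 43 * (Nat.factorial 100) ^ 2

/-- `d` divides all products of `L'` with `L`, `u`, `v` -/
def Cont (T : PSt) (d : ℤ) : Prop :=
  ∀ x ∈ T.L', d ∣ cr x T.u ∧ d ∣ cr x T.v ∧ ∀ y ∈ T.L, d ∣ cr x y

/-- `g` is the content of `L'` against `L, u, v` -/
structure CT (T : PSt) (g : ℤ) : Prop where
  pos : 0 < g
  dvd : Cont T g
  max : ∀ d : ℤ, Cont T d → d ∣ g

theorem Cont.iff {T : PSt} {l p l' p' : Z2} (ad : Ad T l p l' p') (d : ℤ) :
    Cont T d ↔ (d ∣ cr T.u p' ∧ d ∣ cr l' T.v ∧ d ∣ cr p' T.v ∧ d ∣ cr l' l ∧ d ∣ cr p' l ∧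
      d ∣ cr l' p ∧ d ∣ cr p' p) := by
  have ml' : l' ∈ T.L' := by rw [ad.hL']; exact mem_lat.2 ⟨1, 0, by module⟩
  have mp' : p' ∈ T.L' := by rw [ad.hL']; exact mem_lat.2 ⟨0, 1, by module⟩
  have ml : l ∈ T.L := by rw [ad.hL]; exact mem_lat.2 ⟨1, 0, by module⟩
  have mp : p ∈ T.L := by rw [ad.hL]; exact mem_lat.2 ⟨0, 1, by module⟩
  constructor
  · intro h
    obtain ⟨_, a2, a3⟩ := h l' ml'
    obtain ⟨b1, b2, b3⟩ := h p' mp'
    refine ⟨?_, a2, b2, a3 l ml, b3 l ml, a3 p mp, b3 p mp⟩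
    rw [cr_swap T.u p']; exact (dvd_neg).2 b1
  · rintro ⟨h1, h2, h3, h4, h5, h6, h7⟩ x hx
    rw [ad.hL'] at hx
    obtain ⟨m, n, rfl⟩ := mem_lat.1 hx
    refine ⟨?_, ?_, ?_⟩
    · rw [cr_add_left, cr_smul_left, cr_smul_left, cr_swap l' T.u, ad.h4, cr_swap p' T.u]
      refine dvd_add (by simp) (((dvd_neg).2 h1).mul_left _)
    · rw [cr_add_left, cr_smul_left, cr_smul_left]
      exact dvd_add (h2.mul_left _) (h3.mul_left _)
    · intro y hy
      rw [ad.hL] at hy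
      obtain ⟨m', n', rfl⟩ := mem_lat.1 hy
      have e : cr (m • l' + n • p') (m' • l + n' • p) = m * m' * cr l' l + n * m' * cr p' l +
          (m * n' * cr l' p + n * n' * cr p' p) := by
        simp only [cr_add_left, cr_add_right, cr_smul_left, cr_smul_right]; ring
      rw [e]
      exact dvd_add (dvd_add (h4.mul_left _) (h5.mul_left _))
        (dvd_add (h6.mul_left _) (h7.mul_left _))

/-- PRODUCT-MINIMAL states: `β` is a lower bound of all gcds of the class, `A < β`, and `b b'` is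
minimal among the equivalent states with the same `A`. -/
structure PM (S : PSt) (A b b' β : ℤ) : Prop where
  ok : S.Ok
  hA : cr S.u S.v = A
  hb : IsC S.L S.v b
  hb' : IsC S.L' S.u b'
  Aβ : A < β
  lb : ∀ (T : PSt) (c : ℤ), SEq S T → IsC T.L T.v c → β ≤ c
  min : ∀ (T : PSt) (c c' : ℤ), SEq S T → cr T.u T.v = A → IsC T.L T.v c → IsC T.L' T.u c' →
    b * b' ≤ c * c'

end Pool.Agent.H4G
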