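import Pool.Agent.H4G.Asym.HselA
import Pool.Agent.H4G.Arith.Full

/-!
# Row R9 (helper37): the choice of the H-twist, and its mirror
-/

set_option autoImplicit false

namespace Pool.Agent.H4G

theorem Ad.k1A {S : PSt} {l p l' p' : Z2} (h : Ad S l p l' p') :
    cr l' l * cr S.u S.v = cr S.u l * cr l' S.v := by
  have := plucker l' l S.u S.v
  rw [h.h1, cr_swap l S.u] at this
  linarith

/-- the products at `H_q S` -/
theorem cont_H {S : PSt} {l p l' p' : Z2} (ad : Ad S l p l' p') (q d : ℤ) :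
    Cont ⟨S.L, S.u, S.v + q • (S.u + l'), lat l' (p' + q • S.u)⟩ d ↔
      FD (cr S.u p') (cr l' S.v) (cr p' S.v) (cr l' l) (cr p' l) (cr l' p) (cr p' p)
        (cr S.u l) (cr S.u p) (cr l' p' + cr S.u p' - cr S.u S.v) q d := by
  have e0 : cr l' S.u = 0 := by rw [cr_swap l' S.u, ad.h4, neg_zero]
  have e1 : cr (p' + q • S.u) S.u = -cr S.u p' := by
    rw [cr_add_left, cr_smul_left, cr_self, cr_swap p' S.u]; ring
  have e2 : cr l' (S.v + q • (S.u + l')) = cr l' S.v := by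
    rw [cr_add_right, cr_smul_right, cr_add_right, cr_self, e0]; ring
  have e3 : cr (p' + q • S.u) (S.v + q • (S.u + l'))
      = cr p' S.v - q * (cr l' p' + cr S.u p' - cr S.u S.v) := by
    simp only [cr_add_left, cr_add_right, cr_smul_left, cr_smul_right, cr_self, ad.h4]
    rw [cr_swap p' S.u, cr_swap p' l']; ring
  have e4 : ∀ y : Z2, cr (p' + q • S.u) y = cr p' y + q * cr S.u y := fun y => by
    rw [cr_add_left, cr_smul_left]
  have ml' : l' ∈ lat l' (p' + q • S.u) := mem_lat.2 ⟨1, 0, by module⟩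
  have mp' : p' + q • S.u ∈ lat l' (p' + q • S.u) := mem_lat.2 ⟨0, 1, by module⟩
  have ml : l ∈ S.L := by rw [ad.hL]; exact mem_lat.2 ⟨1, 0, by module⟩
  have mp : p ∈ S.L := by rw [ad.hL]; exact mem_lat.2 ⟨0, 1, by module⟩
  constructor
  · intro h
    obtain ⟨_, a2, a3⟩ := h l' ml'
    obtain ⟨b1, b2, b3⟩ := h (p' + q • S.u) mp'
    dsimp only at a2 b1 b2
    rw [e2] at a2
    rw [e1] at b1
    rw [e3] at b2
    have b4 := b3 l ml
    have b5 := b3 p mp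
    rw [e4] at b4 b5
    exact ⟨(dvd_neg).1 b1, a2, b2, a3 l ml, b4, a3 p mp, b5⟩
  · rintro ⟨h1, h2, h3, h4, h5, h6, h7⟩ x hx
    obtain ⟨m, n, rfl⟩ := mem_lat.1 hx
    refine ⟨?_, ?_, ?_⟩
    · show d ∣ cr (m • l' + n • (p' + q • S.u)) S.u
      rw [cr_add_left, cr_smul_left, cr_smul_left, e0, e1]
      refine dvd_add (by simp) (((dvd_neg).2 h1).mul_left _)
    · show d ∣ cr (m • l' + n • (p' + q • S.u)) (S.v + q • (S.u + l'))
      rw [cr_add_left, cr_smul_left, cr_smul_left, e2, e3]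
      exact dvd_add (h2.mul_left _) (h3.mul_left _)
    · intro y hy
      dsimp only at hy
      rw [ad.hL] at hy
      obtain ⟨m', n', rfl⟩ := mem_lat.1 hy
      have e : cr (m • l' + n • (p' + q • S.u)) (m' • l + n' • p)
          = m * m' * cr l' l + n * m' * (cr p' l + q * cr S.u l) +
          (m * n' * cr l' p + n * n' * (cr p' p + q * cr S.u p)) := by
        simp only [cr_add_left, cr_add_right, cr_smul_left, cr_smul_right]; ring
      rw [e]
      exact dvd_add (dvd_add (h4.mul_left _) (h5.mul_left _))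
        (dvd_add (h6.mul_left _) (h7.mul_left _))

theorem gcd_qr (q m r : ℤ) : Int.gcd (1 - q * r) (q * m) = Int.gcd m (1 - q * r) := by
  have hc : ∀ d : ℤ, d ∣ 1 - q * r → IsCoprime d q := by
    rintro d ⟨t, ht⟩
    exact ⟨t, r, by rw [mul_comm t d, ← ht]; ring⟩
  apply Nat.dvd_antisymm
  · rw [← Int.natCast_dvd_natCast]
    have h1 := Int.gcd_dvd_left (1 - q * r) (q * m)
    exact Int.dvd_coe_gcd ((hc _ h1).dvd_of_dvd_mul_left (Int.gcd_dvd_right _ _)) h1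
  · rw [← Int.natCast_dvd_natCast]
    exact Int.dvd_coe_gcd (Int.gcd_dvd_right _ _) ((Int.gcd_dvd_left _ _).mul_left _)

/-- THE CHOICE OF THE H-TWIST, all `N`. -/
theorem hselF {S : PSt} {l p l' p' : Z2} (hok : S.Ok) (ad : Ad S l p l' p')
    (hA : cr S.u S.v ≤ cr S.u p') {m r : ℤ}
    (hm : cr S.u l + cr l' l = cr p S.v * m) (hr : cr S.u p + cr l' p = cr p S.v * r)
    (hF : ∀ d : ℤ, d ∣ cr S.u S.v → d ∣ cr S.u l → d ∣ cr S.u p → d ∣ cr p S.v → d ∣ cr p l →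
      d ∣ cr l' S.v → d ∣ cr S.u p' → d ∣ cr p' S.v → d ∣ cr l' p' → d ∣ cr l' l →
      d ∣ cr p' l → d ∣ cr l' p → d ∣ cr p' p → d ∣ 1) :
    ∃ (q : ℤ) (T : PSt) (l1 p1 : Z2) (w g : ℤ), SEq S T ∧
      T = ⟨S.L, S.u, S.v + q • (S.u + l'), lat l' (p' + q • S.u)⟩ ∧
      Ad T l1 p1 l' (p' + q • S.u) ∧ (w = 1 ∨ w = 2) ∧ cr p1 T.v = w * cr p S.v ∧
      w * cr T.u l1 = cr S.u l ∧ cr p1 l1 = cr p l ∧ cr T.u T.v = cr S.u S.v ∧
      (w = 1 → Even m → Odd r → Even q) ∧ w = (Int.gcd m (1 - q * r) : ℕ) ∧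
      cr T.u (p' + q • S.u) = cr S.u p' ∧ cr l' T.v = cr l' S.v ∧
      cr l' (p' + q • S.u) = cr l' p' ∧
      CT T g ∧ g ∣ cr S.u S.v ∧ g ^ 2 ∣ cr l' p' ∧ g ^ 2 ∣ cr S.u p' := by
  have hm0 : m ≠ 0 := by
    rintro rfl
    rw [mul_zero] at hm
    have h1 := ad.k1A
    have h2 : 0 < cr S.u l * cr l' S.v := mul_pos ad.h2 ad.h5
    rw [← h1] at h2
    have h3 : 0 < cr l' l := (mul_pos_iff_of_pos_right ad.hA).1 h2
    have h4 := ad.h2
    omega
  have P2 : cr l' p' * cr p l = cr p' l * cr l' p - cr l' l * cr p' p := by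
    have := plucker l' p' l p
    rw [cr_swap l p] at this
    linarith
  have P3 : cr p l * cr S.u p' = cr S.u p * cr p' l - cr S.u l * cr p' p := by
    have := plucker p l S.u p'
    rw [cr_swap p S.u, cr_swap l p', cr_swap p p', cr_swap l S.u] at this
    linarith
  have P4 : cr p S.v * cr l' p' = cr l' p * cr p' S.v - cr p' p * cr l' S.v := by
    have := plucker p S.v l' p'
    rw [cr_swap p l', cr_swap S.v p', cr_swap p p', cr_swap S.v l'] at this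
    linarith
  have P5 : cr p S.v * cr S.u p' = cr S.u p * cr p' S.v - cr S.u S.v * cr p' p := by
    have := plucker p S.v S.u p'
    rw [cr_swap p S.u, cr_swap S.v p', cr_swap p p', cr_swap S.v S.u] at this
    linarith
  obtain ⟨q, g, w, hg0, hw, hw2, hgd, hgA, hga, hgb⟩ := hsel_arith (A := cr S.u S.v)
    (a := cr p l) (a' := cr l' p') (b := cr p S.v) (b' := cr S.u p') (e := cr S.u l)
    (f := cr S.u p) (e' := cr l' S.v) (f' := cr p' S.v) (k1 := cr l' l) (k2 := cr p' l)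
    (k3 := cr l' p) (k4 := cr p' p) (m := m) (r := r) ad.hA ad.pos' ad.h6 hm0 ad.area' P2 P3 P4 P5
    hF
  have hw0 : 0 < w := by rcases hw2 with h | h <;> omega
  set α : ℤ := (1 - q * r) / w with hα
  set β : ℤ := (q * m) / w with hβ
  have dα : w ∣ 1 - q * r := by rw [hw]; exact Int.gcd_dvd_left _ _
  have dβ : w ∣ q * m := by rw [hw]; exact Int.gcd_dvd_right _ _
  have eα : w * α = 1 - q * r := Int.mul_ediv_cancel' dα
  have eβ : w * β = q * m := Int.mul_ediv_cancel' dβ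
  have hcop : IsCoprime α β := by
    rw [Int.isCoprime_iff_gcd_eq_one]
    have h1 : Int.gcd (1 - q * r) (q * m) = w.natAbs := by
      rw [hw]; simp
    rw [← eα, ← eβ, Int.gcd_mul_left] at h1
    have h2 : w.natAbs ≠ 0 := by omega
    exact Nat.eq_of_mul_eq_mul_left (Nat.pos_of_ne_zero h2) (by rw [h1, mul_one])
  obtain ⟨δ, γ', hδ⟩ := hcop
  have hdet : α * δ - β * (-γ') = 1 := by linarith
  set γ : ℤ := -γ' with hγ
  set T : PSt := ⟨S.L, S.u, S.v + q • (S.u + l'), lat l' (p' + q • S.u)⟩ with hT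
  have k1 : SEq S T := ad.twH hok hA q
  have e0 : cr l' S.u = 0 := by rw [cr_swap l' S.u, ad.h4, neg_zero]
  have e3 : cr T.u T.v = cr S.u S.v := by
    simp only [hT]
    rw [cr_add_right, cr_smul_right, cr_add_right, cr_self, ad.h4]; ring
  have n1 : cr l T.v = -(q * (cr p S.v * m)) := by
    rw [← hm]
    simp only [hT]
    rw [cr_add_right, cr_smul_right, cr_add_right, ad.h1, cr_swap l S.u, cr_swap l l']; ring
  have n2 : cr p T.v = cr p S.v - q * (cr p S.v * r) := by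
    rw [← hr]
    simp only [hT]
    rw [cr_add_right, cr_smul_right, cr_add_right, cr_swap p S.u, cr_swap p l']; ring
  have hL : lat (α • l + β • p) (γ • l + δ • p) = lat l p :=
    closure_pair_eq rfl rfl (Or.inl hdet)
  have f1 : cr (α • l + β • p) T.v = 0 := by
    have : w * cr (α • l + β • p) T.v = 0 := by
      rw [cr_add_left, cr_smul_left, cr_smul_left, n1, n2]
      linear_combination (-(q * (cr p S.v * m))) * eα + (cr p S.v - q * (cr p S.v * r)) * eβ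
    rcases mul_eq_zero.1 this with h | h
    · omega
    · exact h
  have f2 : cr (γ • l + δ • p) T.v = w * cr p S.v := by
    rw [cr_add_left, cr_smul_left, cr_smul_left, n1, n2]
    linear_combination (γ * cr p S.v) * eβ - (δ * cr p S.v) * eα + w * cr p S.v * hdet
  have f3 : cr (γ • l + δ • p) (α • l + β • p) = cr p l := by
    simp only [cr_add_left, cr_add_right, cr_smul_left, cr_smul_right, cr_self]
    rw [cr_swap l p]
    linear_combination cr p l * hdet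
  have hbpos : 0 < w * cr p S.v := mul_pos hw0 ad.h3
  have f4 : cr p l * cr S.u S.v = cr T.u (α • l + β • p) * (w * cr p S.v) := by
    have := plucker (γ • l + δ • p) (α • l + β • p) T.u T.v
    rw [f1, f2, f3, e3, cr_swap (α • l + β • p) T.u] at this
    linarith
  have f5 : w * cr T.u (α • l + β • p) = cr S.u l := by
    have h1 := ad.area
    rw [f4] at h1
    have h2 : (w * cr T.u (α • l + β • p) - cr S.u l) * cr p S.v = 0 := by
      linear_combination h1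
    rcases mul_eq_zero.1 h2 with h | h
    · linarith
    · have := ad.h3; omega
  have e4 : cr T.u (p' + q • S.u) = cr S.u p' := by
    simp only [hT]
    rw [cr_add_right, cr_smul_right, cr_self]; ring
  have e5 : cr l' T.v = cr l' S.v := by
    simp only [hT]
    rw [cr_add_right, cr_smul_right, cr_add_right, cr_self, e0]; ring
  have e6 : cr l' (p' + q • S.u) = cr l' p' := by
    rw [cr_add_right, cr_smul_right, e0]; ring
  have adT : Ad T (α • l + β • p) (γ • l + δ • p) l' (p' + q • S.u) := by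
    refine ⟨?_, rfl, f1, ?_, ?_, ad.h4, ?_, ?_, ?_⟩
    · rw [hL]; exact ad.hL
    · have h1 : 0 < w * cr T.u (α • l + β • p) := by rw [f5]; exact ad.h2
      exact (mul_pos_iff_of_pos_left hw0).1 h1
    · rw [f2]; exact hbpos
    · rw [e5]; exact ad.h5
    · rw [e4]; exact ad.h6
    · rw [e3]; exact ad.hA
  refine ⟨q, T, α • l + β • p, γ • l + δ • p, w, g, k1, rfl, adT, hw2, f2, f5, f3, e3, ?_,
    by rw [hw, gcd_qr], e4, e5, e6, ⟨hg0, (cont_H ad q g).2 ((hgd g).2 dvd_rfl), fun d hd => (hgd d).1 ((cont_H ad q d).1 hd)⟩,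
    hgA, hga, hgb⟩
  intro hw1 hme hro
  by_contra hq
  rw [Int.not_even_iff_odd] at hq
  have h1 : (2 : ℤ) ∣ 1 - q * r := by
    have : Odd (q * r) := hq.mul hro
    obtain ⟨s, hs⟩ := this
    exact ⟨-s, by rw [hs]; ring⟩
  have h2 : (2 : ℤ) ∣ q * m := (even_iff_two_dvd.1 hme).mul_left q
  have h3 : (2 : ℤ) ∣ w := by rw [hw]; exact Int.dvd_coe_gcd h1 h2
  rw [hw1] at h3
  norm_num at h3

/-- THE CHOICE OF THE H-TWIST, with `S.Full`. -/
theorem hsel_full {S : PSt} {l p l' p' : Z2} (hok : S.Ok) (ad : Ad S l p l' p')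
    (hA : cr S.u S.v ≤ cr S.u p') {m r : ℤ}
    (hm : cr S.u l + cr l' l = cr p S.v * m) (hr : cr S.u p + cr l' p = cr p S.v * r)
    (hS : S.Full) :
    ∃ (q : ℤ) (T : PSt) (l1 p1 : Z2) (w g : ℤ), SEq S T ∧
      T = ⟨S.L, S.u, S.v + q • (S.u + l'), lat l' (p' + q • S.u)⟩ ∧
      Ad T l1 p1 l' (p' + q • S.u) ∧ (w = 1 ∨ w = 2) ∧ cr p1 T.v = w * cr p S.v ∧
      w * cr T.u l1 = cr S.u l ∧ cr p1 l1 = cr p l ∧ cr T.u T.v = cr S.u S.v ∧
      (w = 1 → Even m → Odd r → Even q) ∧ w = (Int.gcd m (1 - q * r) : ℕ) ∧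
      cr T.u (p' + q • S.u) = cr S.u p' ∧ cr l' T.v = cr l' S.v ∧
      cr l' (p' + q • S.u) = cr l' p' ∧
      CT T g ∧ g ∣ cr S.u S.v ∧ g ^ 2 ∣ cr l' p' ∧ g ^ 2 ∣ cr S.u p' :=
  hselF hok ad hA hm hr (fun _ => ad.full hS)

/-- THE CHOICE OF THE H-TWIST, the form for prime `N`. -/
theorem hsel {S : PSt} {l p l' p' : Z2} (hok : S.Ok) (ad : Ad S l p l' p')
    (hA : cr S.u S.v ≤ cr S.u p') {m r : ℤ}
    (hm : cr S.u l + cr l' l = cr p S.v * m) (hr : cr S.u p + cr l' p = cr p S.v * r)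
    (hp : ∀ d : ℤ, d ∣ cr p l → d ∣ cr S.u S.v → d ∣ cr l' p' → IsUnit d) :
    ∃ (q : ℤ) (T : PSt) (l1 p1 : Z2) (w g : ℤ), SEq S T ∧
      T = ⟨S.L, S.u, S.v + q • (S.u + l'), lat l' (p' + q • S.u)⟩ ∧
      Ad T l1 p1 l' (p' + q • S.u) ∧ (w = 1 ∨ w = 2) ∧ cr p1 T.v = w * cr p S.v ∧
      w * cr T.u l1 = cr S.u l ∧ cr p1 l1 = cr p l ∧ cr T.u T.v = cr S.u S.v ∧
      (w = 1 → Even m → Odd r → Even q) ∧ w = (Int.gcd m (1 - q * r) : ℕ) ∧
      cr T.u (p' + q • S.u) = cr S.u p' ∧ cr l' T.v = cr l' S.v ∧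
      cr l' (p' + q • S.u) = cr l' p' ∧
      CT T g ∧ g ∣ cr S.u S.v ∧ g ^ 2 ∣ cr l' p' ∧ g ^ 2 ∣ cr S.u p' :=
  hselF hok ad hA hm hr
    (fun d h1 _ _ _ h5 _ _ _ h9 _ _ _ _ => (hp d h5 h1 h9).dvd)

/-! ## The mirror -/

/-- the mirror state -/
def PSt.mir (S : PSt) : PSt := ⟨S.L', S.v, -S.u, S.L⟩

theorem SEq.mir {S : PSt} (h : S.Ok) : SEq S S.mir := SEq.mirror h

theorem Ad.mir {S : PSt} {l p l' p' : Z2} (h : Ad S l p l' p') :
    Ad S.mir (-l') p' l (-p) := by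
  refine ⟨?_, ?_, ?_, ?_, ?_, ?_, ?_, ?_, ?_⟩
  · show S.L' = lat (-l') p'
    rw [lat_neg_left]; exact h.hL'
  · show S.L = lat l (-p)
    rw [lat_neg_right]; exact h.hL
  · show cr (-l') (-S.u) = 0
    rw [cr_neg_left, cr_neg_right, cr_swap l' S.u, h.h4]; simp
  · show 0 < cr S.v (-l')
    rw [cr_neg_right, cr_swap S.v l', neg_neg]; exact h.h5
  · show 0 < cr p' (-S.u)
    rw [cr_neg_right, cr_swap p' S.u, neg_neg]; exact h.h6
  · show cr S.v l = 0
    rw [cr_swap S.v l, h.h1, neg_zero]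
  · show 0 < cr l (-S.u)
    rw [cr_neg_right, cr_swap l S.u, neg_neg]; exact h.h2
  · show 0 < cr S.v (-p)
    rw [cr_neg_right, cr_swap S.v p, neg_neg]; exact h.h3
  · show 0 < cr S.v (-S.u)
    rw [cr_neg_right, cr_swap S.v S.u, neg_neg]; exact h.hA

/-- THE CHOICE OF THE V-TWIST: the mirror of `hsel`, all numbers in terms of `S`. The state `T` is
the mirror of `V_j S`; its left lattice is `L'`. All `N`. -/
theorem vselF {S : PSt} {l p l' p' : Z2} (hok : S.Ok) (ad : Ad S l p l' p')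
    (hA : cr S.u S.v ≤ cr p S.v) {m' r' : ℤ}
    (hm : cr l' S.v + cr l' l = cr S.u p' * m') (hr : cr p' S.v + cr p' l = cr S.u p' * r')
    (hF : ∀ d : ℤ, d ∣ cr S.u S.v → d ∣ cr S.u l → d ∣ cr S.u p → d ∣ cr p S.v → d ∣ cr p l →
      d ∣ cr l' S.v → d ∣ cr S.u p' → d ∣ cr p' S.v → d ∣ cr l' p' → d ∣ cr l' l →
      d ∣ cr p' l → d ∣ cr l' p → d ∣ cr p' p → d ∣ 1) :
    ∃ (j : ℤ) (T : PSt) (l1 p1 l2 p2 : Z2) (w g : ℤ), SEq S T ∧
      T = PSt.mir ⟨lat l (p - j • S.v), S.u - j • (S.v + l), S.v, S.L'⟩ ∧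
      Ad T l1 p1 l2 p2 ∧ (w = 1 ∨ w = 2) ∧ cr p1 T.v = w * cr S.u p' ∧
      w * cr T.u l1 = cr l' S.v ∧ cr p1 l1 = cr l' p' ∧ cr T.u T.v = cr S.u S.v ∧
      cr T.u p2 = cr p S.v ∧ cr l2 T.v = cr S.u l ∧ cr l2 p2 = cr p l ∧
      (w = 1 → Even m' → Odd r' → Even j) ∧ w = (Int.gcd m' (1 + j * r') : ℕ) ∧
      CT T g ∧ g ∣ cr S.u S.v ∧ g ^ 2 ∣ cr p l ∧ g ^ 2 ∣ cr p S.v := by
  have adm := ad.mir
  have hokm : S.mir.Ok := (SEq.mir hok).ok'
  have c1 : cr S.mir.u S.mir.v = cr S.u S.v := by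
    show cr S.v (-S.u) = _
    rw [cr_neg_right, cr_swap S.v S.u, neg_neg]
  have c2 : cr S.mir.u (-p) = cr p S.v := by
    show cr S.v (-p) = _
    rw [cr_neg_right, cr_swap S.v p, neg_neg]
  have c3 : cr S.mir.u (-l') = cr l' S.v := by
    show cr S.v (-l') = _
    rw [cr_neg_right, cr_swap S.v l', neg_neg]
  have c4 : cr p' S.mir.v = cr S.u p' := by
    show cr p' (-S.u) = _
    rw [cr_neg_right, cr_swap p' S.u, neg_neg]
  have c5 : cr S.mir.u p' = -cr p' S.v := by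
    show cr S.v p' = _
    rw [cr_swap S.v p']
  have c6 : cr l (-p) = cr p l := by rw [cr_neg_right, cr_swap l p, neg_neg]
  have c7 : cr p' (-l') = cr l' p' := by rw [cr_neg_right, cr_swap p' l', neg_neg]
  have c8 : cr l S.mir.v = cr S.u l := by
    show cr l (-S.u) = _
    rw [cr_neg_right, cr_swap l S.u, neg_neg]
  have h1 : cr S.mir.u (-l') + cr l (-l') = cr p' S.mir.v * m' := by
    rw [c3, c4, cr_neg_right, cr_swap l l', neg_neg]; exact hm
  have h2 : cr S.mir.u p' + cr l p' = cr p' S.mir.v * (-r') := by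
    rw [c4, c5, cr_swap l p']; linarith
  obtain ⟨q, T, l1, p1, w, g, g1, g2, g3, g4, g5, g6, g7, g8, g9, gw, g10, g11, g12, g13,
    g14, g15, g16⟩ :=
    hselF hokm adm (by rw [c1, c2]; exact hA) h1 h2
      (fun d d1 d2 d3 d4 d5 d6 d7 d8 d9 d10 d11 d12 d13 => hF d (by rwa [c1] at d1)
        (by rwa [c8] at d6) (by
          rw [← dvd_neg]
          have : cr (-p) S.mir.v = -cr S.u p := by
            show cr (-p) (-S.u) = _
            rw [cr_neg_left, cr_neg_right, neg_neg, cr_swap p S.u]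
          rwa [this] at d8)
        (by rwa [c2] at d7) (by rwa [c6] at d9) (by rwa [c3] at d2) (by rwa [c4] at d4)
        (by rw [← dvd_neg]; rwa [c5] at d3) (by rwa [c7] at d5)
        (by rwa [cr_neg_right, cr_swap l l', neg_neg] at d10)
        (by rw [cr_swap p' l, dvd_neg]; exact d12)
        (by rwa [cr_neg_left, cr_neg_right, neg_neg, cr_swap p l', dvd_neg] at d11)
        (by rwa [cr_neg_left, cr_swap p p', neg_neg] at d13))
  refine ⟨q, T, l1, p1, l, -p + q • S.mir.u, w, g, (SEq.mir hok).trans g1, ?_, g3, g4, ?_, ?_, ?_,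
    ?_, ?_, ?_, ?_, ?_, ?_, g13, ?_, ?_, ?_⟩
  · rw [g2]
    show (⟨S.L', S.v, -S.u + q • (S.v + l), lat l (-p + q • S.v)⟩ : PSt) =
      ⟨S.L', S.v, -(S.u - q • (S.v + l)), lat l (p - q • S.v)⟩
    have t1 : -S.u + q • (S.v + l) = -(S.u - q • (S.v + l)) := by abel
    have t2 : lat l (-p + q • S.v) = lat l (p - q • S.v) := by
      have : -p + q • S.v = -(p - q • S.v) := by abel
      rw [this, lat_neg_right]
    rw [t1, t2]
  · rw [g5, c4]
  · rw [g6, c3]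
  · rw [g7, c7]
  · rw [g8, c1]
  · rw [g10, c2]
  · rw [g11, c8]
  · rw [g12, c6]
  · intro h3 h4 h5
    exact g9 h3 h4 h5.neg
  · rw [gw, mul_neg, sub_neg_eq_add]
  · rw [← c1]; exact g14
  · rw [← c6]; exact g15
  · rw [← c2]; exact g16

/-- THE CHOICE OF THE V-TWIST, with `S.Full`. -/
theorem vsel_full {S : PSt} {l p l' p' : Z2} (hok : S.Ok) (ad : Ad S l p l' p')
    (hA : cr S.u S.v ≤ cr p S.v) {m' r' : ℤ}
    (hm : cr l' S.v + cr l' l = cr S.u p' * m') (hr : cr p' S.v + cr p' l = cr S.u p' * r')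
    (hS : S.Full) :
    ∃ (j : ℤ) (T : PSt) (l1 p1 l2 p2 : Z2) (w g : ℤ), SEq S T ∧
      T = PSt.mir ⟨lat l (p - j • S.v), S.u - j • (S.v + l), S.v, S.L'⟩ ∧
      Ad T l1 p1 l2 p2 ∧ (w = 1 ∨ w = 2) ∧ cr p1 T.v = w * cr S.u p' ∧
      w * cr T.u l1 = cr l' S.v ∧ cr p1 l1 = cr l' p' ∧ cr T.u T.v = cr S.u S.v ∧
      cr T.u p2 = cr p S.v ∧ cr l2 T.v = cr S.u l ∧ cr l2 p2 = cr p l ∧
      (w = 1 → Even m' → Odd r' → Even j) ∧ w = (Int.gcd m' (1 + j * r') : ℕ) ∧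
      CT T g ∧ g ∣ cr S.u S.v ∧ g ^ 2 ∣ cr p l ∧ g ^ 2 ∣ cr p S.v :=
  vselF hok ad hA hm hr (fun _ => ad.full hS)

/-- THE CHOICE OF THE V-TWIST, the form for prime `N`. -/
theorem vsel {S : PSt} {l p l' p' : Z2} (hok : S.Ok) (ad : Ad S l p l' p')
    (hA : cr S.u S.v ≤ cr p S.v) {m' r' : ℤ}
    (hm : cr l' S.v + cr l' l = cr S.u p' * m') (hr : cr p' S.v + cr p' l = cr S.u p' * r')
    (hp : ∀ d : ℤ, d ∣ cr p l → d ∣ cr S.u S.v → d ∣ cr l' p' → IsUnit d) :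
    ∃ (j : ℤ) (T : PSt) (l1 p1 l2 p2 : Z2) (w g : ℤ), SEq S T ∧
      T = PSt.mir ⟨lat l (p - j • S.v), S.u - j • (S.v + l), S.v, S.L'⟩ ∧
      Ad T l1 p1 l2 p2 ∧ (w = 1 ∨ w = 2) ∧ cr p1 T.v = w * cr S.u p' ∧
      w * cr T.u l1 = cr l' S.v ∧ cr p1 l1 = cr l' p' ∧ cr T.u T.v = cr S.u S.v ∧
      cr T.u p2 = cr p S.v ∧ cr l2 T.v = cr S.u l ∧ cr l2 p2 = cr p l ∧
      (w = 1 → Even m' → Odd r' → Even j) ∧ w = (Int.gcd m' (1 + j * r') : ℕ) ∧
      CT T g ∧ g ∣ cr S.u S.v ∧ g ^ 2 ∣ cr p l ∧ g ^ 2 ∣ cr p S.v :=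
  vselF hok ad hA hm hr
    (fun d h1 _ _ _ h5 _ _ _ h9 _ _ _ _ => (hp d h5 h1 h9).dvd)

end Pool.Agent.H4G
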