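import Pool.Agent.H4G.Asym.EqR11
import Pool.Agent.H4G.Asym.Hsel

/-!
# The case `A = b = β`, all `N`: the choice of the H-twist (helper5)

The content of `L'` can be made one.
-/

set_option autoImplicit false

namespace Pool.Agent.H4G

/-- the local step: `A = b`, `a = e` -/
theorem eq_fd_or {A a' b' e f e' f' k1 k2 k3 k4 q : ℤ} {l : ℕ} (hl : l.Prime)
    (E1 : a' * A = e' * b')
    (hF : ∀ d : ℤ, d ∣ A → d ∣ e → d ∣ f → d ∣ e' → d ∣ b' → d ∣ f' → d ∣ a' →
      d ∣ k1 → d ∣ k2 → d ∣ k3 → d ∣ k4 → d ∣ 1) (hq : ¬ (l : ℤ) ∣ q)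
    (h0 : FD b' e' f' k1 k2 k3 k4 e f (a' + b' - A) 0 (l : ℤ))
    (h1 : FD b' e' f' k1 k2 k3 k4 e f (a' + b' - A) q (l : ℤ)) : False := by
  have hpr : Prime (l : ℤ) := Nat.prime_iff_prime_int.1 hl
  have hq' : IsCoprime q (l : ℤ) := ((Prime.coprime_iff_not_dvd hpr).2 hq).symm
  obtain ⟨p1, p2, p3, p4, p5, p6, p7⟩ := h0
  obtain ⟨-, -, r3, -, r5, -, r7⟩ := h1
  simp only [zero_mul, sub_zero, add_zero] at p3 p5 p7
  have he : (l : ℤ) ∣ e := hq'.symm.dvd_of_dvd_mul_left ((dvd_add_right p5).1 r5)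
  have hf : (l : ℤ) ∣ f := hq'.symm.dvd_of_dvd_mul_left ((dvd_add_right p7).1 r7)
  have ht : (l : ℤ) ∣ a' + b' - A := hq'.symm.dvd_of_dvd_mul_left ((dvd_sub_right p3).1 r3)
  have hd : (l : ℤ) ∣ a' - A := by
    have := dvd_sub ht p1
    have e6 : a' + b' - A - b' = a' - A := by ring
    rwa [e6] at this
  have q1 : (l : ℤ) ∣ a' * A := by rw [E1]; exact p2.mul_right _
  have hA : (l : ℤ) ∣ A ∧ (l : ℤ) ∣ a' := by
    rcases hpr.dvd_or_dvd q1 with h2 | h2
    · refine ⟨?_, h2⟩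
      have := dvd_sub h2 hd
      simpa using this
    · refine ⟨h2, ?_⟩
      have := dvd_add hd h2
      simpa using this
  exact prime_not_dvd_one hl (hF _ hA.1 he hf p2 p1 p3 hA.2 p4 p5 p6 p7)

/-- THE CHOICE of `q`: the content is one -/
theorem eq_arith {A a' b' e f e' f' k1 k2 k3 k4 m r : ℤ}
    (hb' : 0 < b') (hm : m ≠ 0) (E1 : a' * A = e' * b')
    (hF : ∀ d : ℤ, d ∣ A → d ∣ e → d ∣ f → d ∣ e' → d ∣ b' → d ∣ f' → d ∣ a' →
      d ∣ k1 → d ∣ k2 → d ∣ k3 → d ∣ k4 → d ∣ 1) :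
    ∃ (q w : ℤ), w = (Int.gcd (1 - q * r) (q * m) : ℕ) ∧ (w = 1 ∨ w = 2) ∧
      (∀ d : ℤ, FD b' e' f' k1 k2 k3 k4 e f (a' + b' - A) q d → d ∣ 1) := by
  classical
  -- the choice at one prime
  have loc : ∀ l : ℕ, l.Prime → ∃ q : ℤ,
      ¬ FD b' e' f' k1 k2 k3 k4 e f (a' + b' - A) q (l : ℤ) ∧
      (l ≠ 2 → ¬ (l : ℤ) ∣ 1 - q * r) ∧ (l = 2 → ¬ (4 : ℤ) ∣ 1 - q * r) := by
    intro l hl
    by_cases h2 : l = 2
    · subst h2
      have h4 : ∃ q' : ℤ, (q' = 1 ∨ q' = -1) ∧ ¬ (4 : ℤ) ∣ 1 - q' * r := by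
        by_cases h : (4 : ℤ) ∣ 1 - 1 * r
        · exact ⟨-1, Or.inr rfl, by omega⟩
        · exact ⟨1, Or.inl rfl, h⟩
      obtain ⟨q', h5, h6⟩ := h4
      by_cases h : FD b' e' f' k1 k2 k3 k4 e f (a' + b' - A) 0 ((2 : ℕ) : ℤ)
      · exact ⟨q', fun h' => eq_fd_or hl E1 hF (by rcases h5 with rfl | rfl <;> norm_num) h h',
          fun h => absurd rfl h, fun _ => h6⟩
      · exact ⟨0, h, fun h => absurd rfl h, fun _ => by norm_num⟩
    · have hl3 : 3 ≤ l := by
        have := hl.two_le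
        omega
      have h4 : ∃ q' : ℤ, (q' = 1 ∨ q' = 2) ∧ ¬ (l : ℤ) ∣ 1 - q' * r := by
        by_cases h : (l : ℤ) ∣ 1 - 1 * r
        · refine ⟨2, Or.inr rfl, fun h' => prime_not_dvd_one hl ?_⟩
          have e1 : (1 : ℤ) = 2 * (1 - 1 * r) - (1 - 2 * r) := by ring
          rw [e1]; exact dvd_sub (h.mul_left 2) h'
        · exact ⟨1, Or.inl rfl, h⟩
      obtain ⟨q', h5, h6⟩ := h4
      have hnd : ¬ (l : ℤ) ∣ q' := by
        intro hd
        have hle := Int.le_of_dvd (by rcases h5 with rfl | rfl <;> norm_num) hd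
        rcases h5 with rfl | rfl <;> omega
      by_cases h : FD b' e' f' k1 k2 k3 k4 e f (a' + b' - A) 0 (l : ℤ)
      · exact ⟨q', fun h' => eq_fd_or hl E1 hF hnd h h', fun _ => h6, fun h => absurd h h2⟩
      · exact ⟨0, h, fun _ => by simpa using prime_not_dvd_one hl, fun h => absurd h h2⟩
  set P : Finset ℕ := (2 * m * b').natAbs.primeFactors with hP
  obtain ⟨q, hq⟩ := crt_primes P (fun l hl => Nat.prime_of_mem_primeFactors hl)
    (fun _ => 2) (fun l => if h : l.Prime then (loc l h).choose else 0)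
  have hD : (2 * m * b').natAbs ≠ 0 := by
    rw [Int.natAbs_ne_zero]
    exact mul_ne_zero (mul_ne_zero two_ne_zero hm) hb'.ne'
  have hmem : ∀ l : ℕ, l.Prime → (l : ℤ) ∣ 2 * m * b' → l ∈ P := by
    intro l hl hd
    rw [hP, Nat.mem_primeFactors]
    exact ⟨hl, Int.natCast_dvd.1 hd, hD⟩
  have hq' : ∀ l : ℕ, ∀ h : l.Prime, (l : ℤ) ∣ 2 * m * b' →
      ((l : ℤ) ^ 2) ∣ q - (loc l h).choose := by
    intro l hl hd
    have := hq l (hmem l hl hd)
    rwa [dif_pos hl] at this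
  refine ⟨q, (Int.gcd (1 - q * r) (q * m) : ℕ), rfl, ?_, ?_⟩
  · have hw0 : Int.gcd (1 - q * r) (q * m) ≠ 0 := by
      intro h
      rw [Int.gcd_eq_zero_iff] at h
      obtain ⟨h1, h2⟩ := h
      rcases mul_eq_zero.1 h2 with h3 | h3
      · rw [h3] at h1; norm_num at h1
      · exact hm h3
    have := one_or_two hw0 (by
      intro l hl h2 hd
      have hd' : (l : ℤ) ∣ ((Int.gcd (1 - q * r) (q * m) : ℕ) : ℤ) := by exact_mod_cast hd
      have d1 := hd'.trans (Int.gcd_dvd_left _ _)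
      have d2 := hd'.trans (Int.gcd_dvd_right _ _)
      have hpr : Prime (l : ℤ) := Nat.prime_iff_prime_int.1 hl
      rcases hpr.dvd_or_dvd d2 with h3 | h3
      · apply prime_not_dvd_one hl
        have e1 : (1 : ℤ) = (1 - q * r) + q * r := by ring
        rw [e1]; exact dvd_add d1 (h3.mul_right r)
      · have h4 := hq' l hl ((h3.mul_left 2).mul_right b')
        have h5 : (l : ℤ) ∣ q - (loc l hl).choose :=
          (dvd_pow_self _ (by omega)).trans h4
        apply (loc l hl).choose_spec.2.1 h2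
        have e1 : 1 - (loc l hl).choose * r = (1 - q * r) + (q - (loc l hl).choose) * r := by ring
        rw [e1]; exact dvd_add d1 (h5.mul_right r)) (by
      intro hd
      have hd' : (4 : ℤ) ∣ ((Int.gcd (1 - q * r) (q * m) : ℕ) : ℤ) := by exact_mod_cast hd
      have d1 := hd'.trans (Int.gcd_dvd_left _ _)
      have h4 := hq' 2 Nat.prime_two (by exact_mod_cast ((dvd_mul_right (2:ℤ) m).mul_right b'))
      have h5 : (4 : ℤ) ∣ q - (loc 2 Nat.prime_two).choose := by
        refine dvd_trans ?_ h4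
        norm_num
      apply (loc 2 Nat.prime_two).choose_spec.2.2 rfl
      have e1 : 1 - (loc 2 Nat.prime_two).choose * r
          = (1 - q * r) + (q - (loc 2 Nat.prime_two).choose) * r := by ring
      rw [e1]; exact dvd_add d1 (h5.mul_right r))
    rcases this with h | h
    · left; exact_mod_cast h
    · right; exact_mod_cast h
  · intro d hd
    by_contra hnd
    have hd0 : d ≠ 0 := by
      rintro rfl
      have := hd.1
      rw [zero_dvd_iff] at this
      omega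
    have hd1 : d.natAbs ≠ 1 := by
      intro h1
      exact hnd (isUnit_iff_dvd_one.1 (Int.isUnit_iff_natAbs_eq.2 h1))
    obtain ⟨l, hl, hld⟩ := Nat.exists_prime_and_dvd hd1
    have hld' : (l : ℤ) ∣ d := Int.natCast_dvd.2 hld
    obtain ⟨g1, g2, g3, g4, g5, g6, g7⟩ := hd
    have h4 := hq' l hl ((hld'.trans g1).mul_left _)
    have h5 : (l : ℤ) ∣ q - (loc l hl).choose := (dvd_pow_self _ (by omega)).trans h4
    apply (loc l hl).choose_spec.1
    refine ⟨hld'.trans g1, hld'.trans g2, ?_, hld'.trans g4, ?_, hld'.trans g6, ?_⟩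
    · have e1 : f' - (loc l hl).choose * (a' + b' - A) = f' - q * (a' + b' - A) +
          (q - (loc l hl).choose) * (a' + b' - A) := by ring
      rw [e1]; exact dvd_add (hld'.trans g3) (h5.mul_right _)
    · have e1 : k2 + (loc l hl).choose * e = k2 + q * e - (q - (loc l hl).choose) * e := by ring
      rw [e1]; exact dvd_sub (hld'.trans g5) (h5.mul_right _)
    · have e1 : k4 + (loc l hl).choose * f = k4 + q * f - (q - (loc l hl).choose) * f := by ring
      rw [e1]; exact dvd_sub (hld'.trans g7) (h5.mul_right _)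

/-- the left adapted basis at `H_q S` -/
theorem Ad.hAd {S : PSt} {l p l' p' : Z2} (ad : Ad S l p l' p') (hok : S.Ok)
    (hA : cr S.u S.v ≤ cr S.u p') {m r : ℤ}
    (hm : cr S.u l + cr l' l = cr p S.v * m) (hr : cr S.u p + cr l' p = cr p S.v * r)
    {q w : ℤ} (hw : w = (Int.gcd (1 - q * r) (q * m) : ℕ)) (hw0 : 0 < w) :
    ∃ (T : PSt) (l1 p1 : Z2), SEq S T ∧
      T = ⟨S.L, S.u, S.v + q • (S.u + l'), lat l' (p' + q • S.u)⟩ ∧
      Ad T l1 p1 l' (p' + q • S.u) ∧ cr p1 T.v = w * cr p S.v ∧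
      w * cr T.u l1 = cr S.u l ∧ cr p1 l1 = cr p l ∧ cr T.u T.v = cr S.u S.v ∧
      cr T.u (p' + q • S.u) = cr S.u p' ∧ cr l' T.v = cr l' S.v ∧
      cr l' (p' + q • S.u) = cr l' p' := by
  set α : ℤ := (1 - q * r) / w with hα
  set β : ℤ := (q * m) / w with hβ
  have dα : w ∣ 1 - q * r := by rw [hw]; exact Int.gcd_dvd_left _ _
  have dβ : w ∣ q * m := by rw [hw]; exact Int.gcd_dvd_right _ _
  have eα : w * α = 1 - q * r := Int.mul_ediv_cancel' dα
  have eβ : w * β = q * m := Int.mul_ediv_cancel' dβ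
  have hcop : IsCoprime α β := by
    rw [Int.isCoprime_iff_gcd_eq_one]
    have h1 : Int.gcd (1 - q * r) (q * m) = w.natAbs := by
      rw [hw]; simp
    rw [← eα, ← eβ, Int.gcd_mul_left] at h1
    have h2 : w.natAbs ≠ 0 := by omega
    exact Nat.eq_of_mul_eq_mul_left (Nat.pos_of_ne_zero h2) (by rw [h1, mul_one])
  obtain ⟨δ, γ', hδ⟩ := hcop
  have hdet : α * δ - β * (-γ') = 1 := by linarith
  set γ : ℤ := -γ' with hγ
  set T : PSt := ⟨S.L, S.u, S.v + q • (S.u + l'), lat l' (p' + q • S.u)⟩ with hT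
  have k1 : SEq S T := ad.twH hok hA q
  have e0 : cr l' S.u = 0 := by rw [cr_swap l' S.u, ad.h4, neg_zero]
  have e3 : cr T.u T.v = cr S.u S.v := by
    simp only [hT]
    rw [cr_add_right, cr_smul_right, cr_add_right, cr_self, ad.h4]; ring
  have n1 : cr l T.v = -(q * (cr p S.v * m)) := by
    rw [← hm]
    simp only [hT]
    rw [cr_add_right, cr_smul_right, cr_add_right, ad.h1, cr_swap l S.u, cr_swap l l']; ring
  have n2 : cr p T.v = cr p S.v - q * (cr p S.v * r) := by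
    rw [← hr]
    simp only [hT]
    rw [cr_add_right, cr_smul_right, cr_add_right, cr_swap p S.u, cr_swap p l']; ring
  have hL : lat (α • l + β • p) (γ • l + δ • p) = lat l p :=
    closure_pair_eq rfl rfl (Or.inl hdet)
  have f1 : cr (α • l + β • p) T.v = 0 := by
    have : w * cr (α • l + β • p) T.v = 0 := by
      rw [cr_add_left, cr_smul_left, cr_smul_left, n1, n2]
      linear_combination (-(q * (cr p S.v * m))) * eα + (cr p S.v - q * (cr p S.v * r)) * eβ
    rcases mul_eq_zero.1 this with h | h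
    · omega
    · exact h
  have f2 : cr (γ • l + δ • p) T.v = w * cr p S.v := by
    rw [cr_add_left, cr_smul_left, cr_smul_left, n1, n2]
    linear_combination (γ * cr p S.v) * eβ - (δ * cr p S.v) * eα + w * cr p S.v * hdet
  have f3 : cr (γ • l + δ • p) (α • l + β • p) = cr p l := by
    simp only [cr_add_left, cr_add_right, cr_smul_left, cr_smul_right, cr_self]
    rw [cr_swap l p]
    linear_combination cr p l * hdet
  have hbpos : 0 < w * cr p S.v := mul_pos hw0 ad.h3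
  have f4 : cr p l * cr S.u S.v = cr T.u (α • l + β • p) * (w * cr p S.v) := by
    have := plucker (γ • l + δ • p) (α • l + β • p) T.u T.v
    rw [f1, f2, f3, e3, cr_swap (α • l + β • p) T.u] at this
    linarith
  have f5 : w * cr T.u (α • l + β • p) = cr S.u l := by
    have h1 := ad.area
    rw [f4] at h1
    have h2 : (w * cr T.u (α • l + β • p) - cr S.u l) * cr p S.v = 0 := by
      linear_combination h1
    rcases mul_eq_zero.1 h2 with h | h
    · linarith
    · have := ad.h3; omega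
  have e4 : cr T.u (p' + q • S.u) = cr S.u p' := by
    simp only [hT]
    rw [cr_add_right, cr_smul_right, cr_self]; ring
  have e5 : cr l' T.v = cr l' S.v := by
    simp only [hT]
    rw [cr_add_right, cr_smul_right, cr_add_right, cr_self, e0]; ring
  have e6 : cr l' (p' + q • S.u) = cr l' p' := by
    rw [cr_add_right, cr_smul_right, e0]; ring
  have adT : Ad T (α • l + β • p) (γ • l + δ • p) l' (p' + q • S.u) := by
    refine ⟨?_, rfl, f1, ?_, ?_, ad.h4, ?_, ?_, ?_⟩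
    · rw [hL]; exact ad.hL
    · have h1 : 0 < w * cr T.u (α • l + β • p) := by rw [f5]; exact ad.h2
      exact (mul_pos_iff_of_pos_left hw0).1 h1
    · rw [f2]; exact hbpos
    · rw [e5]; exact ad.h5
    · rw [e4]; exact ad.h6
    · rw [e3]; exact ad.hA
  exact ⟨T, α • l + β • p, γ • l + δ • p, k1, rfl, adT, f2, f5, f3, e3, e4, e5, e6⟩

/-- content one at a twist of an extremal state with `A = b` -/
theorem Ext.eqsel {S : PSt} {b b' : ℤ} (h : Ext S b b') (hF : S.Full) {l p l' p' : Z2}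
    (ad : Ad S l p l' p') (hA : cr S.u S.v = b) :
    ∃ (q : ℤ) (T : PSt) (l1 p1 : Z2) (w : ℤ), SEq S T ∧
      Ad T l1 p1 l' (p' + q • S.u) ∧ (w = 1 ∨ w = 2) ∧ cr p1 T.v = w * b ∧
      w * cr T.u l1 = cr S.u l ∧ cr p1 l1 = cr S.u l ∧ cr T.u T.v = b ∧
      cr T.u (p' + q • S.u) = b' ∧ cr l' T.v = cr l' S.v ∧
      cr l' (p' + q • S.u) = cr l' p' ∧ CT T 1 ∧ (w = 1 → Ext T b b') := by
  obtain ⟨m, r, m', r', hRW, hm, hr, -, -, hae⟩ := h.rw ad hA
  obtain ⟨e1, e2, -, hle, -⟩ := h.rig ad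
  have n := ad.nums
  rw [e1, e2, hA] at n
  have hb0 := h.bpos
  have hm0 : m ≠ 0 := by
    rintro rfl
    have := hRW.hm
    rw [mul_zero] at this
    have h2 : 0 < cr S.u l * (cr l' p' + b') := mul_pos n.e0 (by linarith [n.a0', n.b0'])
    omega
  obtain ⟨q, w, hw, hw2, hFD⟩ := eq_arith (A := b) (a' := cr l' p') (b' := b') (e := cr S.u l)
    (f := cr S.u p) (e' := cr l' S.v) (f' := cr p' S.v) (k1 := cr l' l) (k2 := cr p' l)
    (k3 := cr l' p) (k4 := cr p' p) (m := m) (r := r) n.b0' hm0 n.ra' (by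
      intro d d1 d2 d3 d6 d7 d8 d9 d10 d11 d12 d13
      exact ad.full hF (hA ▸ d1) d2 d3 (e1 ▸ d1) (hae ▸ d2) d6 (e2 ▸ d7) d8 d9 d10 d11 d12 d13)
  have hw0 : 0 < w := by rcases hw2 with h | h <;> omega
  obtain ⟨T, l1, p1, k1, hT, adT, t1, t2, t3, t4, t5, t6, t7⟩ := ad.hAd h.ok
    (by rw [hA, e2]; exact hle) (by rw [e1]; exact hm) (by rw [e1]; exact hr) hw hw0
  rw [e1] at t1
  rw [hae] at t3
  rw [hA] at t4
  rw [e2] at t5
  have hc1 : Cont T 1 := by
    rw [hT, cont_H ad q 1]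
    exact ⟨one_dvd _, one_dvd _, one_dvd _, one_dvd _, one_dvd _, one_dvd _, one_dvd _⟩
  refine ⟨q, T, l1, p1, w, k1, adT, hw2, t1, t2, t3, t4, t5, t6, t7, ⟨one_pos, hc1, ?_⟩, ?_⟩
  · intro d hd
    rw [hT, cont_H ad q d, e2, hA] at hd
    exact hFD d hd
  · intro hw1
    subst hw1
    rw [one_mul] at t1
    refine h.of_eq k1 ?_ t4.le ?_
    · have := adT.isC
      rwa [t1] at this
    · have := adT.isC'
      rwa [t5] at this

end Pool.Agent.H4G
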