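import Pool.Agent.H4G.Asym.R14
import Pool.Agent.H4G.Asym.EqSel

/-!
# The case `A = b = β`, all large `N`: reduction to the hard core (helper5)

`eq_core`: there is an extremal state with `A = b`, content one and `M ^ 9 A ≤ e`.
-/

set_option autoImplicit false

namespace Pool.Agent.H4G

/-- the final inequality on the right side -/
theorem num_eq3 {K J M N A g R w eT E : ℤ} (hK : 1 ≤ K) (hJ : 2 ^ 10 ≤ J)
    (hM : K * J ^ 10 ≤ M) (hN0 : 0 ≤ N) (hN : N < (M + 1) ^ 30) (hA : 0 < A) (hg : 0 < g)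
    (hgA : g ^ 2 ≤ A) (hw : w = 1 ∨ w = 2) (hweT : w * eT = E) (hy : M ^ 9 * A ≤ E)
    (hthin : A + eT ≤ 256 * J ^ 3 * A ^ 2) (hβ : A ^ 100 ≤ (g * (K * J ^ 5)) ^ 100 * R)
    (hR : R ≤ N ^ 3) : False := by
  have h0 := num_M hK hJ hM
  have hM0 : 0 < M := by linarith [show (0 : ℤ) < 2 ^ 100 by norm_num]
  have hM1 : 1024 ≤ M := by linarith [show (1024 : ℤ) ≤ 2 ^ 100 by norm_num]
  have hJ0 : 0 < J := by linarith [show (0 : ℤ) < 2 ^ 10 by norm_num]
  have hJ1 : (1024 : ℤ) ≤ J := by linarith [show (1024 : ℤ) = 2 ^ 10 by norm_num]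
  obtain ⟨_, h1⟩ := num_root hK hJ hM hN0 hN hg (le_refl A) hβ hR
  -- `A J^10 ≤ M^4`
  have h2 : A * (A * J ^ 10) ≤ A * M ^ 4 := by
    calc A * (A * J ^ 10) = (A * J ^ 5) ^ 2 := by ring
      _ ≤ (g * M ^ 2) ^ 2 := pow_le_pow_left₀ (by positivity) h1 2
      _ = g ^ 2 * M ^ 4 := by ring
      _ ≤ A * M ^ 4 := mul_le_mul_of_nonneg_right hgA (by positivity)
  have h3 : A * J ^ 10 ≤ M ^ 4 := le_of_mul_le_mul_left h2 hA
  have heT : A * M ^ 9 ≤ 2 * eT := by
    have : 0 < M ^ 9 * A := by positivity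
    rcases hw with rfl | rfl <;> linarith
  have h4 : A * M ^ 9 ≤ A * (512 * (J ^ 3 * A)) := by
    have k1 : A * (512 * (J ^ 3 * A)) = 2 * (256 * J ^ 3 * A ^ 2) := by ring
    rw [k1]; linarith
  have h5 : M ^ 9 ≤ 512 * (J ^ 3 * A) := le_of_mul_le_mul_left h4 hA
  have h6 : J ^ 3 * A ≤ J ^ 10 * A :=
    mul_le_mul_of_nonneg_right (pow_le_pow_right₀ (by linarith) (by norm_num)) hA.le
  have h7 : M ^ 4 * 512 ≤ M ^ 4 * M := mul_le_mul_of_nonneg_left (by linarith) (by positivity)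
  have h8 : M ^ 4 * M < M ^ 9 := by
    calc M ^ 4 * M = M ^ 5 := by ring
      _ < M ^ 9 := pow_lt_pow_right₀ (by linarith) (by norm_num)
  have h9 : J ^ 10 * A = A * J ^ 10 := by ring
  linarith

/-- the size condition of the fat rows -/
theorem Par.big {N M J : ℕ} (hP : Par N M J) {A e eT : ℤ} (hA : 0 < A) (he : M ^ 9 * A ≤ e)
    (heT : e ≤ 2 * eT) : 4096 * (J : ℤ) ^ 4 * A ≤ eT := by
  have hJ1 := hP.J1'
  have j1 : (1 : ℤ) ≤ J := by linarith [show (1 : ℤ) ≤ 2 ^ 10 by norm_num]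
  have hM100 := hP.M100
  have hM0 : (0 : ℤ) < M := by linarith [show (0 : ℤ) < 2 ^ 100 by norm_num]
  obtain ⟨hJN, hJM⟩ := hP.JN
  have j2 : (8192 : ℤ) * J ^ 4 ≤ M ^ 9 := by
    have k1 : (J : ℤ) ^ 4 ≤ J ^ 10 := pow_le_pow_right₀ j1 (by norm_num)
    have k2 : (8192 : ℤ) * M ≤ M ^ 8 * M := by
      apply mul_le_mul_of_nonneg_right _ hM0.le
      have : (M : ℤ) ≤ M ^ 8 := le_self_pow₀
        (by linarith [show (1 : ℤ) ≤ 2 ^ 100 by norm_num]) (by norm_num)
      linarith [show (8192 : ℤ) ≤ 2 ^ 100 by norm_num]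
    calc (8192 : ℤ) * J ^ 4 ≤ 8192 * M := by linarith
      _ ≤ M ^ 8 * M := k2
      _ = M ^ 9 := by ring
  have j3 : (8192 : ℤ) * J ^ 4 * A ≤ M ^ 9 * A := mul_le_mul_of_nonneg_right j2 hA.le
  linarith

/-- THE LEFT SIDE: if `e` is large, the twist with content one does not change `b`. -/
theorem Ext.eq_left {N M J : ℕ} (hP : Par N M J) {S : PSt} {b b' : ℤ} (h : Ext S b b')
    (hF : S.Full) {l p l' p' : Z2} (ad : Ad S l p l' p')
    (hv : cr p l + cr S.u S.v + cr l' p' = N) (hA : cr S.u S.v = b) (h2 : 2 ≤ b)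
    (he : M ^ 9 * b ≤ cr S.u l) :
    ∃ (T : PSt) (l1 p1 l2 p2 : Z2), SEq S T ∧ Ext T b b' ∧ Ad T l1 p1 l2 p2 ∧ CT T 1 ∧
      cr T.u T.v = b ∧ cr T.u l1 = cr S.u l ∧ cr l2 T.v = cr l' S.v := by
  obtain ⟨q, T, l1, p1, w, hST, adT, hw, t1, t2, t3, t4, t5, t6, t7, hCT, hE⟩ := h.eqsel hF ad hA
  rcases hw with hw | hw
  · subst hw
    rw [one_mul] at t2
    exact ⟨T, l1, p1, l', p' + q • S.u, hST, hE rfl, adT, hCT, t4, t2, t6⟩
  · exfalso
    subst hw
    have hlb := h.min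
    have hb0 : 0 < b := by omega
    have hae := h.rw ad hA
    obtain ⟨_, _, _, _, _, _, _, _, _, hae⟩ := hae
    have hJ1 := hP.J1'
    have hJ0 : (0 : ℤ) < J := by linarith [show (0 : ℤ) < 2 ^ 10 by norm_num]
    have j1 : (1 : ℤ) ≤ J := by linarith [show (1 : ℤ) ≤ 2 ^ 10 by norm_num]
    obtain ⟨hJN, hJM⟩ := hP.JN
    obtain ⟨D, U, V, L, P, hD, hLX, hex⟩ := exLX hlb hST adT (by rw [t4, t1]; omega) hCT
      (by norm_num)
    rw [t4, t1, t3] at hLX hex
    have heT0 : 0 < cr T.u l1 := hLX.e0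
    have hD0 : 0 < D := hLX.D0
    have hnS := ad.nums
    rw [hA] at hnS hv
    have ha0' := hnS.a0'
    have he0 := hnS.e0
    rw [hae] at hv
    have hDN : D ≤ N := by
      rw [one_pow, one_mul, t7] at hD
      linarith
    have hXT := num_X (N := N) (J := J) (D := D) (e := cr T.u l1) (a := cr S.u l) hP.N16 hJ0.le hJN
      hD0.le hDN heT0.le (by linarith) he0.le (by linarith)
    have hbig := hP.big hb0 he t2.ge
    obtain ⟨j, t, i, k1, k2⟩ := hLX.fat2 (J := J) (X := N ^ 6) (by exact_mod_cast j1) hP.cap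
      (by push_cast; exact hXT) (by
        have : 2 * b < 4 * J * b := by nlinarith
        linarith) hbig (by
        intro q z hq1 hq2 hqz
        have e1 : (z - 2 * q) * cr T.u l1 = q * b := by
          have : cr S.u l = 2 * cr T.u l1 := t2.symm
          rw [this] at hqz
          linear_combination -hqz
        have hqb : q * b < cr T.u l1 := by
          have m1 : q * b ≤ (16 * J * (J + 1)) * b := mul_le_mul_of_nonneg_right hq2 hb0.le
          have m2 : (16 * (J : ℤ) * (J + 1)) * b < 4096 * (J : ℤ) ^ 4 * b := by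
            apply mul_lt_mul_of_pos_right _ hb0
            have m3 : (J : ℤ) ^ 2 ≤ J ^ 4 := pow_le_pow_right₀ j1 (by norm_num)
            nlinarith
          linarith
        have hqb0 : 0 < q * b := mul_pos hq1 hb0
        have m3 : 0 < z - 2 * q := by
          by_contra hn
          push Not at hn
          have : (z - 2 * q) * cr T.u l1 ≤ 0 := by nlinarith
          linarith
        have m4 : 1 * cr T.u l1 ≤ (z - 2 * q) * cr T.u l1 :=
          mul_le_mul_of_nonneg_right (by omega) heT0.le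
        linarith)
    have h3 := hex j t i 1 k1
    rw [k2] at h3
    push_cast at h3
    omega

/-- THE RIGHT SIDE: if `e'` is large, then `b' = b`. -/
theorem Ext.eq_right {N M J : ℕ} (hP : Par N M J) {S : PSt} {b b' : ℤ} (h : Ext S b b')
    (hF : S.Full) {l p l' p' : Z2} (ad : Ad S l p l' p')
    (hv : cr p l + cr S.u S.v + cr l' p' = N) (hA : cr S.u S.v = b) (h2 : 2 ≤ b)
    (he : M ^ 9 * b ≤ cr l' S.v) : b' = b := by
  obtain ⟨eb, eb', _, hbb', ⟨m', k3⟩, ⟨r', k4⟩, _, _⟩ := h.rig ad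
  by_contra hne
  have hlt : b < b' := lt_of_le_of_ne hbb' (Ne.symm hne)
  have hlb := h.min
  have hb0 : 0 < b := by omega
  have hb0' : 0 < b' := by omega
  have hJ1 := hP.J1'
  have hJ0 : (0 : ℤ) < J := by linarith [show (0 : ℤ) < 2 ^ 10 by norm_num]
  have j1 : (1 : ℤ) ≤ J := by linarith [show (1 : ℤ) ≤ 2 ^ 10 by norm_num]
  obtain ⟨hJN, hJM⟩ := hP.JN
  have hnS := ad.nums
  rw [hA, eb, eb'] at hnS
  have ha0 := hnS.a0
  have ha0' := hnS.a0'
  rw [hA] at hv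
  obtain ⟨j, T2, l2, p2, l3, p3, w2, g2, hST2, _, adT2, hw2, s1, s2, s3, s4, s5, s6, s7, _, _, hCT2,
    hgA2, hg22, hg22'⟩ := vsel_full h.ok ad (by rw [hA, eb]) (by rw [eb']; exact k3)
    (by rw [eb']; exact k4) hF
  rw [eb'] at s1
  rw [hA] at s4 hgA2
  rw [eb] at hg22'
  have hw20 : 1 ≤ w2 := by omega
  have hbw2 : b' ≤ w2 * b' := le_mul_of_one_le_left hb0'.le hw20
  obtain ⟨D2, U2, V2, L2, P2, hD2, hLX2, hex2⟩ := exLX hlb hST2 adT2 (by rw [s4, s1]; linarith)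
    hCT2 (by rw [s7]; exact hg22)
  rw [s4, s1, s3] at hLX2 hex2
  have heT20 : 0 < cr T2.u l2 := hLX2.e0
  have hD20 : 0 < D2 := hLX2.D0
  have heT2 : cr l' S.v ≤ 2 * cr T2.u l2 := by
    have : w2 * cr T2.u l2 ≤ 2 * cr T2.u l2 := mul_le_mul_of_nonneg_right (by omega) heT20.le
    linarith
  have hnT2 := adT2.nums
  rw [s4, s1, s3, s7] at hnT2
  obtain ⟨o1, o2, o3, o4, o5⟩ := hnT2.leN (N := N) (by linarith) (by linarith)
  have hg20 := hCT2.pos
  have hg2A : g2 ^ 2 ≤ b := Int.le_of_dvd hb0 hg22'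
  have hg2b : g2 < b := by nlinarith
  have hD2N : D2 ≤ N := by
    have h1 : 1 * D2 ≤ g2 ^ 2 * D2 := mul_le_mul_of_nonneg_right (one_le_pow₀ (by omega)) hD20.le
    rw [← hD2, s7] at h1
    linarith
  have hXT2 := num_X (N := N) (J := J) (D := D2) (e := cr T2.u l2) (a := cr l' p') hP.N16 hJ0.le hJN
    hD20.le hD2N heT20.le o1 ha0'.le o2
  have big2 : 4096 * (J : ℤ) ^ 4 * b ≤ cr T2.u l2 := hP.big hb0 he heT2
  obtain ⟨r1, r2, r3⟩ := hLX2.tprop (J := J) (X := N ^ 6) (β := b) (g := g2) (by linarith) hP.J1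
    hP.cap (by push_cast; exact hXT2) big2 hg20 hg2b hex2
  have hwbN : w2 * b' ≤ N := by
    have k1 : (4 : ℤ) * J * b ≤ 4096 * J ^ 4 * b := by
      apply mul_le_mul_of_nonneg_right _ hb0.le
      have : (J : ℤ) ≤ J ^ 4 := le_self_pow₀ (by linarith) (by norm_num)
      linarith
    linarith
  have hR3 := num_R (N := N) (D := D2) (e := cr T2.u l2) (a := cr l' p') (b := w2 * b') hP.N16
    hD20.le hD2N o1 o2 hwbN
  exact num_eq3 (K := K0) K0_pos hP.J1' hP.KM' (by positivity) hP.hi' hb0 hg20 hg2A hw2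
    s2 he r2 r3 hR3

/-- THE HARD CORE of the case `A = b = β`: it is enough to exclude states with content one and
`e` large. -/
theorem eq_core {N M J : ℕ} (hP : Par N M J)
    (hcore : ∀ (S : PSt) (b b' : ℤ) (l p l' p' : Z2), Ext S b b' → S.Full → Ad S l p l' p' →
      cr p l + cr S.u S.v + cr l' p' = N → cr S.u S.v = b → 2 ≤ b → CT S 1 →
      M ^ 9 * b ≤ cr S.u l → False)
    {S : PSt} {b b' : ℤ} (h : Ext S b b')
    (hF : S.Full) {l p l' p' : Z2} (ad : Ad S l p l' p')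
    (hv : cr p l + cr S.u S.v + cr l' p' = N) (hA : cr S.u S.v = b) (h2 : 2 ≤ b) : False := by
  -- the left side
  have hleft : ∀ (S : PSt) (b b' : ℤ) (l p l' p' : Z2), Ext S b b' → S.Full → Ad S l p l' p' →
      cr p l + cr S.u S.v + cr l' p' = N → cr S.u S.v = b → 2 ≤ b →
      M ^ 9 * b ≤ cr S.u l → False := by
    intro S b b' l p l' p' h hF ad hv hA h2 he
    obtain ⟨T, l1, p1, l2, p2, k1, k2, k3, k4, k5, k6, k7⟩ := h.eq_left hP hF ad hv hA h2 he
    have hFT := k1.full.1 hF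
    refine hcore T b b' l1 p1 l2 p2 k2 hFT k3 ?_ k5 h2 k4 (by rw [k6]; exact he)
    obtain ⟨d, d', m1, m2, m3⟩ := k1
    rw [← k3.vol m2, m3.vol_eq, ad.vol m1]
    exact hv
  obtain ⟨hR, -⟩ := h.r11eq hF ad hA
  obtain ⟨eb, eb', _, hbb', -⟩ := h.rig ad
  have hnS := ad.nums
  rw [hA, eb, eb'] at hnS
  have hb0 : 0 < b := by omega
  have hb0' : 0 < b' := by omega
  have hsz : b * b * b' ≤ 4 * (b + cr S.u l) * (b + cr l' S.v) :=
    Int.le_of_dvd (by have := hnS.e0; have := hnS.e0'; positivity) hR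
  have hM4 : (4 : ℤ) ≤ M := by linarith [hP.M100, show (4 : ℤ) ≤ 2 ^ 100 by norm_num]
  have hvb := hv
  rw [hA] at hvb
  rcases le_total (cr l' S.v) (cr S.u l) with hee | hee
  · exact hleft S b b' l p l' p' h hF ad hv hA h2 (num_e hM4 hP.lo' hvb.symm hb0 hnS.e0 hnS.e0'
      hnS.ra hnS.ra' le_rfl hbb' hsz hee)
  · have he' : M ^ 9 * b ≤ cr l' S.v := num_e hM4 hP.lo' (N := N) (a := cr l' p') (a' := cr p l)
      (by linarith) hb0 hnS.e0' hnS.e0 hnS.ra' hnS.ra hbb' le_rfl (by linarith) hee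
    have hbb := h.eq_right hP hF ad hv hA h2 he'
    subst hbb
    have ad2 := ad.mirror
    have m1 := SEq.mirror (L := S.L) (L' := S.L') (u := S.u) (v := S.v) h.ok
    have q2 : cr S.v (-S.u) = cr S.u S.v := by rw [cr_neg_right, cr_swap S.v S.u, neg_neg]
    have q1 : cr p' (-l') = cr l' p' := by rw [cr_neg_right, cr_swap p' l', neg_neg]
    have q3 : cr l (-p) = cr p l := by rw [cr_neg_right, cr_swap l p, neg_neg]
    have q4 : cr S.v (-l') = cr l' S.v := by rw [cr_neg_right, cr_swap S.v l', neg_neg]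
    have hE2 : Ext ⟨S.L', S.v, -S.u, S.L⟩ b' b' := by
      refine h.of_eq m1 h.hb'.neg (by dsimp only; rw [q2]; exact h.hA) ?_
      exact h.hb
    exact hleft _ b' b' _ _ _ _ hE2 (m1.full.1 hF) ad2
      (by dsimp only; rw [q1, q2, q3]; linarith) (by dsimp only; rw [q2]; exact hA) h2
      (by dsimp only; rw [q4]; exact he')

end Pool.Agent.H4G
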