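import Pool.Agent.H4G.Asym.R11all
import Pool.Agent.H4G.Asym.R12
import Pool.Agent.H4G.Arith.Full

/-!
# The case `A = b = β`, all `N`: rigidity numbers (helper5)

A copy of `R11all` (proof of helper96, Lean by helper31) for a weaker structure which does not ask
for the twists with `w = 2, 4`; it is satisfied by extremal states with `A = b`.
-/

set_option autoImplicit false

namespace Pool.Agent.H4G

/-- rigidity data, only the twists which keep the gaps -/
structure RW (A b e f b' e' f' a a' m r m' r' : ℤ) : Prop where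
  A0 : 0 < A
  b0 : 0 < b
  e0 : 0 < e
  b0' : 0 < b'
  e0' : 0 < e'
  a0 : 0 < a
  a0' : 0 < a'
  Ab : A ≤ b
  Ab' : A ≤ b'
  ra : a * A = e * b
  ra' : a' * A = e' * b'
  hm : b * b' * m = e * (a' + b')
  hr : b * b' * r = f * (a' + b')
  hm' : b * b' * m' = e' * (a + b)
  hr' : b * b' * r' = f' * (a + b)
  w1 : ∀ j : ℤ, Int.gcd m' (1 + j * r') = 1 → b * b' ∣ (f + j * (a + b - A)) * (a' + b')
  w1' : ∀ i : ℤ, Int.gcd m (1 - i * r) = 1 → b * b' ∣ (f' - i * (a' + b' - A)) * (a + b)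

/-- the mirror -/
theorem RW.mirror {A b e f b' e' f' a a' m r m' r' : ℤ} (h : RW A b e f b' e' f' a a' m r m' r') :
    RW A b' e' (-f') b e (-f) a' a m' (-r') m (-r) := by
  refine ⟨h.A0, h.b0', h.e0', h.b0, h.e0, h.a0', h.a0, h.Ab', h.Ab, h.ra', h.ra, ?_, ?_, ?_, ?_, ?_,
    ?_⟩
  · rw [mul_comm b' b]; exact h.hm'
  · have := h.hr'
    linear_combination -this
  · rw [mul_comm b' b]; exact h.hm
  · have := h.hr
    linear_combination -this
  · intro j hj
    have := h.w1' j (by rw [← hj]; congr 1; ring)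
    obtain ⟨c, hc⟩ := this
    exact ⟨-c, by linear_combination -hc⟩
  · intro j hj
    have := h.w1 j (by rw [← hj]; congr 1; ring)
    obtain ⟨c, hc⟩ := this
    exact ⟨-c, by linear_combination -hc⟩

section

variable {A b e f b' e' f' a a' m r m' r' : ℤ}

theorem RW.s1 (h : RW A b e f b' e' f' a a' m r m' r') : A * (a' + b') = b' * (A + e') := by
  have := h.ra'
  linear_combination this

theorem RW.s2 (h : RW A b e f b' e' f' a a' m r m' r') : A * (a + b) = b * (A + e) := by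
  have := h.ra
  linear_combination this

theorem RW.Am (h : RW A b e f b' e' f' a a' m r m' r') : A * b * m = e * (A + e') := by
  have h1 := h.hm
  have h2 := h.s1
  have h3 := h.b0'
  have : b' * (A * b * m) = b' * (e * (A + e')) := by linear_combination A * h1 + e * h2
  exact mul_left_cancel₀ h3.ne' this

theorem RW.Ar (h : RW A b e f b' e' f' a a' m r m' r') : A * b * r = f * (A + e') := by
  have h1 := h.hr
  have h2 := h.s1
  have h3 := h.b0'
  have : b' * (A * b * r) = b' * (f * (A + e')) := by linear_combination A * h1 + f * h2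
  exact mul_left_cancel₀ h3.ne' this

theorem RW.Am' (h : RW A b e f b' e' f' a a' m r m' r') : A * b' * m' = e' * (A + e) := by
  have h1 := h.hm'
  have h2 := h.s2
  have h3 := h.b0
  have : b * (A * b' * m') = b * (e' * (A + e)) := by linear_combination A * h1 + e' * h2
  exact mul_left_cancel₀ h3.ne' this

theorem RW.Ar' (h : RW A b e f b' e' f' a a' m r m' r') : A * b' * r' = f' * (A + e) := by
  have h1 := h.hr'
  have h2 := h.s2
  have h3 := h.b0
  have : b * (A * b' * r') = b * (f' * (A + e)) := by linear_combination A * h1 + f' * h2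
  exact mul_left_cancel₀ h3.ne' this

theorem RW.m0' (h : RW A b e f b' e' f' a a' m r m' r') : m' ≠ 0 := by
  intro h0
  have h1 := h.Am'
  rw [h0, mul_zero] at h1
  have h2 : 0 < e' * (A + e) := mul_pos h.e0' (by linarith [h.A0, h.e0])
  omega

/-- Step 1: `2 n` is an integer, `A b ν = 2 (A + e') (a + b - A)`. -/
theorem RW.nu (h : RW A b e f b' e' f' a a' m r m' r') :
    ∃ ν : ℤ, A * b * ν = 2 * ((A + e') * (a + b - A)) := by
  have hA0 := h.A0
  have hb0 := h.b0
  have hb0' := h.b0'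
  have key : A * b ∣ 2 * ((A + e') * (a + b - A)) := by
    refine order_two (m := m') (r := r') h.m0' (mul_pos hA0 hb0).ne' fun j hj => ?_
    obtain ⟨y, hy⟩ := h.w1 j hj
    have h1 := h.s1
    have h2 := h.Ar
    refine ⟨y - r, ?_⟩
    have h3 : b' * (A * b * y) = b' * ((f + j * (a + b - A)) * (A + e')) := by
      linear_combination (-A) * hy + (f + j * (a + b - A)) * h1
    have h4 := mul_left_cancel₀ hb0'.ne' h3
    linear_combination (-1 : ℤ) * h4 + h2
  obtain ⟨ν, hν⟩ := key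
  exact ⟨ν, hν.symm⟩

/-- Step 1, mirrored. -/
theorem RW.nu' (h : RW A b e f b' e' f' a a' m r m' r') :
    ∃ ν' : ℤ, A * b' * ν' = 2 * ((A + e) * (a' + b' - A)) := h.mirror.nu

/-- Step 2: `b ∣ 2 (A + e')`. -/
theorem RW.two_s' (h : RW A b e f b' e' f' a a' m r m' r') : b ∣ 2 * (A + e') := by
  obtain ⟨ν, hν⟩ := h.nu
  obtain ⟨ν', hν'⟩ := h.nu'
  have hA0 := h.A0
  have hb0 := h.b0
  have hb0' := h.b0'
  have s1 := h.s1
  have s2 := h.s2
  have hm := h.Am
  have hm' := h.Am'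
  have E1 : b' * (2 * (A + e') + (ν - ν') * b) = 2 * (A + e) * b := by
    have : A ^ 2 * (b' * (2 * (A + e') + (ν - ν') * b)) = A ^ 2 * (2 * (A + e) * b) := by
      linear_combination A * b' * hν - A * b * hν' + 2 * b' * (A + e') * s2
        - 2 * b * (A + e) * s1
    exact mul_left_cancel₀ (pow_ne_zero 2 hA0.ne') this
  have E2 : A ^ 2 * (ν * b + 2 * (A + e')) = 2 * (A + e) * (A + e') * b := by
    linear_combination A * hν + 2 * (A + e') * s2
  have E3 : A * (2 * (A + e') + 2 * m * b) = 2 * (A + e) * (A + e') := by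
    linear_combination 2 * hm
  have E4 : A * (b' * (2 * (A + e') + (ν - ν' + 2 * m') * b)) = 2 * b * (A + e) * (A + e') := by
    linear_combination A * E1 + 2 * b * hm'
  refine cubic_dvd (α := ν - ν') (β := ν) (γ := 2 * m) (δ := ν - ν' + 2 * m') hb0.ne' ?_
  have key : (b' * A ^ 2) * ((2 * (A + e') + (ν - ν') * b) * (2 * (A + e')) *
      (ν * b + 2 * (A + e'))) = (b' * A ^ 2) * (2 * b * (2 * (A + e') + 2 * m * b) *
      (2 * (A + e') + (ν - ν' + 2 * m') * b)) := by
    have l1 : (b' * A ^ 2) * ((2 * (A + e') + (ν - ν') * b) * (2 * (A + e')) *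
        (ν * b + 2 * (A + e'))) = (b' * (2 * (A + e') + (ν - ν') * b)) * (2 * (A + e')) *
        (A ^ 2 * (ν * b + 2 * (A + e'))) := by ring
    have l2 : (b' * A ^ 2) * (2 * b * (2 * (A + e') + 2 * m * b) *
        (2 * (A + e') + (ν - ν' + 2 * m') * b)) = 2 * b * (A * (2 * (A + e') + 2 * m * b)) *
        (A * (b' * (2 * (A + e') + (ν - ν' + 2 * m') * b))) := by ring
    rw [l1, l2, E1, E2, E3, E4]; ring
  exact mul_left_cancel₀ (mul_pos hb0' (pow_pos hA0 2)).ne' key

/-- Step 2, mirrored: `b' ∣ 2 (A + e)`. -/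
theorem RW.two_s (h : RW A b e f b' e' f' a a' m r m' r') : b' ∣ 2 * (A + e) := h.mirror.two_s'

/-- Step 3: every one of the 13 products `c` satisfies `A b b' ∣ 4 (A + e) (A + e') c`. -/
theorem RW.thirteen (h : RW A b e f b' e' f' a a' m r m' r') {k1 k2 k3 k4 : ℤ}
    (h1 : k1 * A = e * e') (h2 : k2 * A = e * f') (h3 : k3 * A = e' * f)
    (h4 : k4 * A = f * f' - b * b') :
    ∀ c ∈ ({A, e, f, b, a, e', b', f', a', k1, k2, k3, k4} : Set ℤ),
      A * b * b' ∣ 4 * (A + e) * (A + e') * c := by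
  obtain ⟨ν, hν⟩ := h.nu
  obtain ⟨ν', hν'⟩ := h.nu'
  obtain ⟨k', hk'⟩ := h.two_s'
  obtain ⟨k, hk⟩ := h.two_s
  have hA0 := h.A0.ne'
  have hb0 := h.b0
  have hb0' := h.b0'
  have s1 := h.s1
  have s2 := h.s2
  have Am := h.Am
  have Am' := h.Am'
  have Ar := h.Ar
  have Ar' := h.Ar'
  have ra := h.ra
  have ra' := h.ra'
  -- `4 s s' = b b' k k'`
  have K : 4 * (A + e) * (A + e') = b * b' * (k * k') := by
    linear_combination (2 * (A + e')) * hk + (b' * k) * hk'
  intro c hc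
  simp only [Set.mem_insert_iff, Set.mem_singleton_iff] at hc
  rcases hc with rfl | rfl | rfl | rfl | rfl | rfl | rfl | rfl | rfl | rfl | rfl | rfl | rfl
  · exact ⟨k * k', by rw [K]; ring⟩
  · exact ⟨2 * k * m, by linear_combination (-4 * (A + c)) * Am + 2 * A * b * m * hk⟩
  · exact ⟨2 * k * r, by linear_combination (-4 * (A + e)) * Ar + 2 * A * b * r * hk⟩
  · exact ⟨2 * k + 4 * m', by linear_combination (2 * A * c) * hk - 4 * c * Am'⟩
  · refine ⟨k * ν + k * k' - 2 * k - 4 * m', ?_⟩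
    apply mul_left_cancel₀ hA0
    linear_combination (-(b' * k * A)) * hν + (2 * (A + e') * (c + b - A) * A) * hk + A ^ 2 * K
      - 2 * A ^ 2 * b * hk + 4 * A * b * Am' + 0 * s1
  · exact ⟨2 * k' * m', by linear_combination (-4 * (A + c)) * Am' + 2 * A * b' * m' * hk'⟩
  · exact ⟨2 * k' + 4 * m, by linear_combination (2 * A * c) * hk' - 4 * c * Am⟩
  · exact ⟨2 * k' * r', by linear_combination (-4 * (A + e')) * Ar' + 2 * A * b' * r' * hk'⟩
  · refine ⟨k' * ν' + k * k' - 2 * k' - 4 * m, ?_⟩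
    apply mul_left_cancel₀ hA0
    linear_combination (-(b * k' * A)) * hν' + (2 * (A + e) * (c + b' - A) * A) * hk' + A ^ 2 * K
      - 2 * A ^ 2 * b' * hk' + 4 * A * b' * Am
  · refine ⟨4 * m * m', ?_⟩
    apply mul_left_cancel₀ hA0
    linear_combination (4 * (A + e) * (A + e')) * h1 - 4 * (A * b * m) * Am'
      - 4 * e' * (A + e) * Am
  · refine ⟨4 * m * r', ?_⟩
    apply mul_left_cancel₀ hA0
    linear_combination (4 * (A + e) * (A + e')) * h2 - 4 * (A * b * m) * Ar'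
      - 4 * f' * (A + e) * Am
  · refine ⟨4 * m' * r, ?_⟩
    apply mul_left_cancel₀ hA0
    linear_combination (4 * (A + e) * (A + e')) * h3 - 4 * (A * b' * m') * Ar
      - 4 * f * (A + e') * Am'
  · refine ⟨4 * r * r' - 2 * ν - 2 * k', ?_⟩
    apply mul_left_cancel₀ hA0
    linear_combination (4 * (A + e) * (A + e')) * h4 - 4 * (A * b * r) * Ar'
      - 4 * f' * (A + e) * Ar + 2 * A * b' * hν - 2 * A ^ 2 * b' * hk'
      + 4 * b' * (A + e') * s2

/-- R11 for ALL N: `A b b' ∣ 4 (A + e) (A + e')`, if no integer `> 1` divides the 13 products. -/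
theorem RW.main_dvd (h : RW A b e f b' e' f' a a' m r m' r') {k1 k2 k3 k4 : ℤ}
    (h1 : k1 * A = e * e') (h2 : k2 * A = e * f') (h3 : k3 * A = e' * f)
    (h4 : k4 * A = f * f' - b * b')
    (full : ∀ d : ℤ, (∀ c ∈ ({A, e, f, b, a, e', b', f', a', k1, k2, k3, k4} : Set ℤ), d ∣ c) →
      d ∣ 1) : A * b * b' ∣ 4 * (A + e) * (A + e') := by
  have key := h.thirteen h1 h2 h3 h4
  have hM0 : 0 < A * b * b' := mul_pos (mul_pos h.A0 h.b0) h.b0'
  set M : ℤ := A * b * b' with hM
  set X : ℤ := 4 * (A + e) * (A + e') with hX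
  obtain ⟨o, ho⟩ : ((Int.gcd M X : ℕ) : ℤ) ∣ M := Int.gcd_dvd_left _ _
  obtain ⟨t, ht⟩ : ((Int.gcd M X : ℕ) : ℤ) ∣ X := Int.gcd_dvd_right _ _
  set G : ℤ := ((Int.gcd M X : ℕ) : ℤ) with hG
  have hG0 : G ≠ 0 := by
    intro h0
    rw [h0, zero_mul] at ho
    exact hM0.ne' ho
  have hco : IsCoprime o t := by
    apply isCoprime_of_prime
    intro l hl h1 h2
    have h3 : G * l ∣ G := by
      conv_rhs => rw [hG]
      refine Int.dvd_coe_gcd ?_ ?_
      · rw [ho]; exact mul_dvd_mul_left G h2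
      · rw [ht]; exact mul_dvd_mul_left G h1
    have h4 : G * l ∣ G * 1 := by rwa [mul_one]
    exact prime_not_dvd_one hl ((mul_dvd_mul_iff_left hG0).1 h4)
  have hall : o ∣ 1 := by
    apply full
    intro c hc
    have h5 := key c hc
    rw [ho, ht] at h5
    have h6 : G * o ∣ G * (t * c) := by
      have e : G * (t * c) = G * t * c := by ring
      rw [e]; exact h5
    have h7 : o ∣ t * c := (mul_dvd_mul_iff_left hG0).1 h6
    exact hco.dvd_of_dvd_mul_left h7
  obtain ⟨u, hu⟩ := hall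
  rw [ht]
  refine ⟨u * t, ?_⟩
  calc G * t = G * (o * u) * t := by rw [← hu]; ring
    _ = M * (u * t) := by rw [ho]; ring

end

/-- an extremal state with `A = b` -/
theorem Ext.rw {S : PSt} {b b' : ℤ} (h : Ext S b b') {l p l' p' : Z2} (ad : Ad S l p l' p')
    (hA : cr S.u S.v = b) :
    ∃ m r m' r' : ℤ, RW b b (cr S.u l) (cr S.u p) b' (cr l' S.v) (cr p' S.v) (cr p l) (cr l' p')
        m r m' r' ∧
      cr S.u l + cr l' l = b * m ∧ cr S.u p + cr l' p = b * r ∧
      cr l' S.v + cr l' l = b' * m' ∧ cr p' S.v + cr p' l = b' * r' ∧ cr p l = cr S.u l := by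
  obtain ⟨e1, e2, -, hle, ⟨m', hm'⟩, ⟨r', hr'⟩, ⟨m, hm⟩, ⟨r, hr⟩⟩ := h.rig ad
  have n := ad.nums
  rw [e1, e2, hA] at n
  have hb0 := h.bpos
  obtain ⟨k1, k2, k3, k4⟩ := n.rig4 hm hr hm' hr'
  have ha : cr p l = cr S.u l := mul_right_cancel₀ hb0.ne' n.ra
  refine ⟨m, r, m', r', ⟨hb0, hb0, n.e0, n.b0', n.e0', n.a0, n.a0', le_rfl, hle, n.ra, n.ra', k1,
    k2, k3, k4, ?_, ?_⟩, hm, hr, hm', hr', ha⟩
  · intro j _
    have e3 : (cr S.u p + j * (cr p l + b - b)) * (cr l' p' + b') =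
        b * b' * (r + j * m) := by
      rw [ha]
      linear_combination (-1 : ℤ) * k2 - j * k1
    rw [e3]
    exact dvd_mul_right _ _
  · intro i hi
    have h1 : IsCoprime m (1 - i * r) := Int.isCoprime_iff_gcd_eq_one.2 hi
    have h2 : IsCoprime i (1 - i * r) := ⟨r, 1, by ring⟩
    have h3 := h.rigVt ad hm hr (i := i) (h2.mul_left h1)
    rw [hA] at h3
    have h4 : b * b' ∣ cr p' S.v * (cr p l + b) := ⟨r', k4.symm⟩
    have e3 : (cr p' S.v - i * (cr l' p' + b' - b)) * (cr p l + b) =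
        cr p' S.v * (cr p l + b) - i * ((cr l' p' + b' - b) * (cr p l + b)) := by ring
    rw [e3]
    exact dvd_sub h4 h3

/-- R11 for an extremal state with `A = b`, all `N` -/
theorem Ext.r11eq {S : PSt} {b b' : ℤ} (h : Ext S b b') (hF : S.Full) {l p l' p' : Z2}
    (ad : Ad S l p l' p') (hA : cr S.u S.v = b) :
    b * b * b' ∣ 4 * (b + cr S.u l) * (b + cr l' S.v) ∧ b ∣ 2 * (b + cr l' S.v) ∧
      b' ∣ 2 * (b + cr S.u l) := by
  obtain ⟨m, r, m', r', hRW, -⟩ := h.rw ad hA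
  obtain ⟨e1, e2, -⟩ := h.rig ad
  have n := ad.nums
  rw [e1, e2, hA] at n
  refine ⟨hRW.main_dvd n.r1 n.r2 n.r3 n.r4 ?_, hRW.two_s', hRW.two_s⟩
  intro d hd
  simp only [Set.mem_insert_iff, Set.mem_singleton_iff, forall_eq_or_imp, forall_eq] at hd
  obtain ⟨d1, d2, d3, d4, d5, d6, d7, d8, d9, d10, d11, d12, d13⟩ := hd
  exact ad.full hF (hA ▸ d1) d2 d3 (e1 ▸ d4) d5 d6 (e2 ▸ d7) d8 d9 d10 d11 d12 d13

end Pool.Agent.H4G
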