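import Pool.Agent.H4G.Asym.R11

/-!
# Choice of the twist (helper65)
-/

set_option autoImplicit false

namespace Pool.Agent.H4G

theorem two_pow_of {G : ℕ} (h0 : G ≠ 0) (h : ∀ l : ℕ, l.Prime → l ∣ G → l = 2) :
    (¬ 2 ∣ G → G = 1) ∧ (2 ∣ G → ¬ 4 ∣ G → G = 2) ∧ (4 ∣ G → ¬ 8 ∣ G → G = 4) := by
  have e := Nat.eq_prime_pow_of_unique_prime_dvd h0 (fun {d} hd hdvd => h d hd hdvd)
  set k := G.primeFactorsList.length
  have h4 : (4 : ℕ) = 2 ^ 2 := by norm_num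
  have h8 : (8 : ℕ) = 2 ^ 3 := by norm_num
  rw [e]
  refine ⟨fun h1 => ?_, fun h1 h2 => ?_, fun h1 h2 => ?_⟩
  · rcases Nat.eq_zero_or_pos k with hk | hk
    · rw [hk, pow_zero]
    · exact absurd (dvd_pow_self 2 hk.ne') h1
  · rw [h4] at h2
    have k2 : k < 2 := by
      by_contra hn
      exact h2 (pow_dvd_pow 2 (by omega))
    have k1 : k ≠ 0 := by
      intro hk
      rw [hk] at h1
      norm_num at h1
    have : k = 1 := by omega
    rw [this, pow_one]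
  · rw [h8] at h2
    rw [h4] at h1
    have k2 : k < 3 := by
      by_contra hn
      exact h2 (pow_dvd_pow 2 (by omega))
    have k1 : 2 ≤ k := (Nat.pow_dvd_pow_iff_le_right (by norm_num)).1 h1
    have : k = 2 := by omega
    rw [this]; norm_num

/-- the choice of a twist by Chinese remainders -/
theorem ex_j {m : ℤ} (hm : m ≠ 0) (r : ℤ) {p : ℕ} (hp : p.Prime) (c : ℕ → ℤ)
    (hc : ∀ l : ℕ, l.Prime → (l : ℤ) ∣ m → l ≠ 2 → ¬ (l : ℤ) ∣ 1 + c l * r) :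
    ∃ j : ℤ, (p : ℤ) ∣ j - c p ∧ (2 : ℤ) ∣ j - c 2 ∧
      (¬ ((2 : ℤ) ∣ m ∧ (2 : ℤ) ∣ 1 + c 2 * r) → Int.gcd m (1 + j * r) = 1) ∧
      ((2 : ℤ) ∣ m → (4 : ℤ) ∣ 1 + c 2 * r - 2 → Int.gcd m (1 + j * r) = 2) ∧
      ((4 : ℤ) ∣ m → (8 : ℤ) ∣ 1 + c 2 * r - 4 → Int.gcd m (1 + j * r) = 4) := by
  obtain ⟨j, hj⟩ := crt_primes (m.natAbs.primeFactors ∪ {p, 2}) (by
    intro l hl
    rcases Finset.mem_union.1 hl with hl | hl
    · exact Nat.prime_of_mem_primeFactors hl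
    · rcases Finset.mem_insert.1 hl with rfl | hl
      · exact hp
      · rw [Finset.mem_singleton] at hl
        subst hl
        exact Nat.prime_two) (fun _ => 3) c
  have jp : (p : ℤ) ^ 3 ∣ j - c p := hj p (by simp)
  have j2 : ((2 : ℕ) : ℤ) ^ 3 ∣ j - c 2 := hj 2 (by simp)
  have jm : ∀ l : ℕ, l.Prime → (l : ℤ) ∣ m → (l : ℤ) ∣ j - c l := by
    intro l hl hd
    have h1 : l ∈ m.natAbs.primeFactors := by
      rw [Nat.mem_primeFactors]
      exact ⟨hl, Int.natCast_dvd.1 hd, by simpa using hm⟩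
    exact (dvd_pow_self _ (by norm_num)).trans (hj l (Finset.mem_union_left _ h1))
  have j8 : (8 : ℤ) ∣ j - c 2 := by
    have : ((2 : ℕ) : ℤ) ^ 3 = 8 := by norm_num
    rwa [this] at j2
  refine ⟨j, (dvd_pow_self _ (by norm_num)).trans jp, ?_, ?_⟩
  · exact Dvd.dvd.trans (by norm_num) j8
  have hG0 : Int.gcd m (1 + j * r) ≠ 0 := fun h => hm (Int.gcd_eq_zero_iff.1 h).1
  have hodd : ∀ l : ℕ, l.Prime → l ∣ Int.gcd m (1 + j * r) → l = 2 := by
    intro l hl hd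
    by_contra hne
    have h1 : (l : ℤ) ∣ m := (Int.natCast_dvd_natCast.2 hd).trans (Int.gcd_dvd_left _ _)
    have h2 : (l : ℤ) ∣ 1 + j * r := (Int.natCast_dvd_natCast.2 hd).trans (Int.gcd_dvd_right _ _)
    apply hc l hl h1 hne
    have : 1 + c l * r = (1 + j * r) - (j - c l) * r := by ring
    rw [this]
    exact dvd_sub h2 ((jm l hl h1).mul_right r)
  obtain ⟨g1, g2, g4⟩ := two_pow_of hG0 hodd
  have dG : ∀ d : ℕ, d ∣ Int.gcd m (1 + j * r) ↔ (d : ℤ) ∣ m ∧ (d : ℤ) ∣ 1 + j * r := by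
    intro d
    constructor
    · intro h
      exact ⟨(Int.natCast_dvd_natCast.2 h).trans (Int.gcd_dvd_left _ _),
        (Int.natCast_dvd_natCast.2 h).trans (Int.gcd_dvd_right _ _)⟩
    · rintro ⟨h1, h2⟩
      exact Int.natCast_dvd_natCast.1 (Int.dvd_coe_gcd h1 h2)
  obtain ⟨w, hw⟩ := j8
  have ej : 1 + j * r = 1 + c 2 * r + 8 * (w * r) := by
    linear_combination r * hw
  refine ⟨fun h => g1 fun h2 => h ?_, fun h2 h4 => g2 ?_ fun h5 => ?_, fun h2 h4 => g4 ?_ fun h5 => ?_⟩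
  · obtain ⟨k1, k2⟩ := (dG 2).1 h2
    rw [ej] at k2
    push_cast at k1 k2
    exact ⟨k1, by omega⟩
  · apply (dG 2).2
    rw [ej]
    push_cast
    exact ⟨h2, by omega⟩
  · obtain ⟨k1, k2⟩ := (dG 4).1 h5
    rw [ej] at k2
    push_cast at k1 k2
    omega
  · apply (dG 4).2
    rw [ej]
    push_cast
    exact ⟨h2, by omega⟩
  · obtain ⟨k1, k2⟩ := (dG 8).1 h5
    rw [ej] at k2
    push_cast at k1 k2
    omega

/-- at an odd prime one of `0`-like choices: for every `r` one of `1, 2` is good -/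
theorem one_or_two {l : ℕ} (hl : l.Prime) (h2 : l ≠ 2) (r : ℤ) :
    ∃ c : ℤ, ¬ (l : ℤ) ∣ c ∧ ¬ (l : ℤ) ∣ 1 + c * r := by
  have n1 := prime_not_dvd_one hl
  by_cases h : (l : ℤ) ∣ 1 + 1 * r
  · refine ⟨2, ?_, fun h3 => n1 ?_⟩
    · intro h3
      have : l ∣ 2 := by exact_mod_cast h3
      exact h2 ((Nat.prime_dvd_prime_iff_eq hl Nat.prime_two).1 this)
    · have : (1 : ℤ) = 2 * (1 + 1 * r) - (1 + 2 * r) := by ring
      rw [this]
      exact dvd_sub (h.mul_left 2) h3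
  · exact ⟨1, n1, h⟩

end Pool.Agent.H4G
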