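import Pool.Agent.Helper83.Sieve

/-!
# Row R1: the sieve with two classes modulo every prime (helper83)
-/

set_option autoImplicit false

namespace Pool.Agent.H4G

theorem not_prime_dvd_small {p : ℕ} (h3 : 3 ≤ p) {d : ℤ} (h1 : 0 < d) (h2 : d ≤ 2) :
    ¬ (p : ℤ) ∣ d := fun h => by
  have := Int.le_of_dvd h1 h
  omega

theorem sieve2 (P : Finset ℕ) (hP : ∀ p ∈ P, p.Prime) (B1 B2 : ℕ → ℤ → Prop)
    (h1 : ∀ p ∈ P, ∀ z z' : ℤ, B1 p z → B1 p z' → (p : ℤ) ∣ z - z')
    (h2 : ∀ p ∈ P, ∀ z z' : ℤ, B2 p z → B2 p z' → (p : ℤ) ∣ z - z')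
    (h3 : (∀ z, ¬ B1 2 z) ∨ (∀ z, ¬ B2 2 z)) (z0 : ℤ) :
    ∃ z, z0 ≤ z ∧ z < z0 + 4 ^ P.card ∧ ∀ p ∈ P, ¬ B1 p z ∧ ¬ B2 p z := by
  classical
  -- representatives
  obtain ⟨r1, hr1⟩ : ∃ r : ℕ → Finset ℤ, ∀ p, (r p).card ≤ 1 ∧ (∀ z, B1 p z → ∃ a ∈ r p, B1 p a) ∧
      ((∀ z, ¬ B1 p z) → r p = ∅) := by
    refine ⟨fun p => if h : ∃ z, B1 p z then {h.choose} else ∅, fun p => ?_⟩
    by_cases h : ∃ z, B1 p z
    · simp only [dif_pos h]
      exact ⟨by simp, fun z _ => ⟨_, Finset.mem_singleton_self _, h.choose_spec⟩,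
        fun h' => absurd h.choose_spec (h' _)⟩
    · simp only [dif_neg h]
      exact ⟨by simp, fun z hz => absurd ⟨z, hz⟩ h, fun _ => trivial⟩
  obtain ⟨r2, hr2⟩ : ∃ r : ℕ → Finset ℤ, ∀ p, (r p).card ≤ 1 ∧ (∀ z, B2 p z → ∃ a ∈ r p, B2 p a) ∧
      ((∀ z, ¬ B2 p z) → r p = ∅) := by
    refine ⟨fun p => if h : ∃ z, B2 p z then {h.choose} else ∅, fun p => ?_⟩
    by_cases h : ∃ z, B2 p z
    · simp only [dif_pos h]
      exact ⟨by simp, fun z _ => ⟨_, Finset.mem_singleton_self _, h.choose_spec⟩,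
        fun h' => absurd h.choose_spec (h' _)⟩
    · simp only [dif_neg h]
      exact ⟨by simp, fun z hz => absurd ⟨z, hz⟩ h, fun _ => trivial⟩
  obtain ⟨x, k1, k2, k3⟩ := CVE.sieve P
    (fun p hp q hq hne => (Nat.coprime_primes (hP p hp) (hP q hq)).2 hne)
    (fun p hp => (hP p hp).pos) (fun p => r1 p ∪ r2 p) (fun p hp => by
      have hpp := hP p hp
      by_cases hp2 : p = 2
      · subst hp2
        have hcard : (r1 2 ∪ r2 2).card ≤ 1 := by
          rcases h3 with h | h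
          · rw [(hr1 2).2.2 h, Finset.empty_union]; exact (hr2 2).1
          · rw [(hr2 2).2.2 h, Finset.union_empty]; exact (hr1 2).1
        rcases Finset.card_le_one_iff_subset_singleton.1 hcard with ⟨a, ha⟩
        refine ⟨a + 1, fun a' ha' hd => ?_⟩
        have := Finset.mem_singleton.1 (ha ha')
        subst this
        have e : a' + 1 - a' = 1 := by ring
        rw [e] at hd
        norm_num at hd
      · have hp3 : 3 ≤ p := by have := hpp.two_le; omega
        obtain ⟨a1, ha1⟩ := Finset.card_le_one_iff_subset_singleton.1 (hr1 p).1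
        obtain ⟨a2, ha2⟩ := Finset.card_le_one_iff_subset_singleton.1 (hr2 p).1
        by_contra hcon
        push Not at hcon
        have key : ∀ y : ℤ, (p : ℤ) ∣ y - a1 ∨ (p : ℤ) ∣ y - a2 := by
          intro y
          obtain ⟨a, ha, hd⟩ := hcon y
          rcases Finset.mem_union.1 ha with h | h
          · left; rw [← Finset.mem_singleton.1 (ha1 h)]; exact hd
          · right; rw [← Finset.mem_singleton.1 (ha2 h)]; exact hd
        have n1 := not_prime_dvd_small hp3 (d := 1) (by norm_num) (by norm_num)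
        have n2 := not_prime_dvd_small hp3 (d := 2) (by norm_num) (by norm_num)
        have sub : ∀ y z a : ℤ, (p : ℤ) ∣ y - a → (p : ℤ) ∣ z - a → (p : ℤ) ∣ y - z := by
          intro y z a h h'
          have := dvd_sub h h'
          have e : y - a - (z - a) = y - z := by ring
          rwa [e] at this
        rcases key 0 with q0 | q0 <;> rcases key 1 with q1 | q1 <;> rcases key 2 with q2 | q2
        · exact n1 (by simpa using sub 1 0 a1 q1 q0)
        · exact n1 (by simpa using sub 1 0 a1 q1 q0)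
        · exact n2 (by simpa using sub 2 0 a1 q2 q0)
        · exact n1 (by simpa using sub 2 1 a2 q2 q1)
        · exact n1 (by simpa using sub 2 1 a1 q2 q1)
        · exact n2 (by simpa using sub 2 0 a2 q2 q0)
        · exact n1 (by simpa using sub 1 0 a2 q1 q0)
        · exact n1 (by simpa using sub 1 0 a2 q1 q0)) z0
  refine ⟨x, k1, lt_of_lt_of_le k2 ?_, fun p hp => ⟨fun hb => ?_, fun hb => ?_⟩⟩
  · have hs : ∑ p ∈ P, (r1 p ∪ r2 p).card ≤ 2 * P.card := by
      calc ∑ p ∈ P, (r1 p ∪ r2 p).card ≤ ∑ _p ∈ P, 2 := by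
            refine Finset.sum_le_sum (fun p _ => ?_)
            have := Finset.card_union_le (r1 p) (r2 p)
            have e1 := (hr1 p).1
            have e2 := (hr2 p).1
            omega
        _ = 2 * P.card := by rw [Finset.sum_const, smul_eq_mul, mul_comm]
    have h4 : (2 : ℤ) ^ (∑ p ∈ P, (r1 p ∪ r2 p).card) ≤ 2 ^ (2 * P.card) :=
      pow_le_pow_right₀ (by norm_num) hs
    have h5 : (2 : ℤ) ^ (2 * P.card) = 4 ^ P.card := by rw [pow_mul]; norm_num
    linarith
  · obtain ⟨a, ha, hba⟩ := (hr1 p).2.1 x hb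
    exact k3 p hp a (Finset.mem_union_left _ ha) (h1 p hp x a hb hba)
  · obtain ⟨a, ha, hba⟩ := (hr2 p).2.1 x hb
    exact k3 p hp a (Finset.mem_union_right _ ha) (h2 p hp x a hb hba)

end Pool.Agent.H4G
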