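import Pool.Agent.H4G.Asym.Defs
import Pool.Agent.H4G.Asym.R1

/-!
# Row R3: fat exits, first case (helper41)
-/

set_option autoImplicit false

namespace Pool.Agent.H4G

theorem DV.prime_smul {p : ℕ} (hp : p.Prime) {c : ℤ} {x : Z2} (h : DV (p : ℤ) (c • x))
    (hc : ¬ (p : ℤ) ∣ c) : DV (p : ℤ) x := by
  have hp' : Prime (p : ℤ) := Nat.prime_iff_prime_int.1 hp
  obtain ⟨h1, h2⟩ := h
  rw [Prod.smul_fst, smul_eq_mul] at h1
  rw [Prod.smul_snd, smul_eq_mul] at h2
  exact ⟨(hp'.dvd_or_dvd h1).resolve_left hc, (hp'.dvd_or_dvd h2).resolve_left hc⟩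

theorem mem_pf {p : ℕ} (hp : p.Prime) {x : ℤ} (hx : x ≠ 0) (h : (p : ℤ) ∣ x) :
    p ∈ x.natAbs.primeFactors :=
  Nat.mem_primeFactors.2 ⟨hp, Int.natCast_dvd.1 h, Int.natAbs_ne_zero.2 hx⟩

variable {A b e f a D : ℤ} {U V L P : Z2}

theorem LX.bpos41 (h : LX A b e f a D U V L P) : 0 < b := lt_of_lt_of_le h.A0 h.Ab

theorem LX.apos41 (h : LX A b e f a D U V L P) : 0 < a := by
  have h1 : 0 < a * A := by rw [h.ra]; exact mul_pos h.e0 h.bpos41
  by_contra hn
  push Not at hn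
  have := mul_nonpos_of_nonpos_of_nonneg hn h.A0.le
  linarith

/-- a prime dividing `L` divides `D e` -/
theorem LX.dvd_De (h : LX A b e f a D U V L P) {p : ℕ} (hL : DV (p : ℤ) L) : (p : ℤ) ∣ D * e := by
  have := hL.cr_right U
  rw [h.hUL] at this
  exact this

theorem LX.not_all (h : LX A b e f a D U V L P) {p : ℕ} (hp : p.Prime) (hU : DV (p : ℤ) U)
    (hV : DV (p : ℤ) V) (hL : DV (p : ℤ) L) (hPP : DV (p : ℤ) P) : False := by
  have h1 := h.prim p hU hV hL hPP
  have h2 : p ∣ 1 := by exact_mod_cast h1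
  exact hp.one_lt.ne' (Nat.dvd_one.1 h2)

/-- two bad classes of `j` -/
theorem LX.two_j (h : LX A b e f a D U V L P) {p : ℕ} (hp : p.Prime) (hL : DV (p : ℤ) L)
    {z z' : ℤ} (h1 : DV (p : ℤ) (P - z • V)) (h2 : DV (p : ℤ) (U + V - z • V))
    (h1' : DV (p : ℤ) (P - z' • V)) : (p : ℤ) ∣ z - z' := by
  by_contra hd
  have h3 : DV (p : ℤ) ((z - z') • V) := by
    have := h1'.sub h1
    have e1 : P - z' • V - (P - z • V) = (z - z') • V := by module
    rwa [e1] at this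
  have hV := DV.prime_smul hp h3 hd
  have hPP : DV (p : ℤ) P := by
    have := h1.add (hV.smul z)
    have e1 : P - z • V + z • V = P := by module
    rwa [e1] at this
  have hU : DV (p : ℤ) U := by
    have := (h2.add (hV.smul z)).sub hV
    have e1 : U + V - z • V + z • V - V = U := by module
    rwa [e1] at this
  exact h.not_all hp hU hV hL hPP

/-- the good `j` -/
theorem LX.exj (h : LX A b e f a D U V L P) : ∃ j : ℤ, ∀ p : ℕ, p.Prime → DV (p : ℤ) L →
    ¬ (DV (p : ℤ) (P - j • V) ∧ DV (p : ℤ) (U + V - j • V)) := by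
  obtain ⟨j, -, -, hj⟩ := sieve2 ((D * e).natAbs.primeFactors)
    (fun p hp => Nat.prime_of_mem_primeFactors hp)
    (fun p j => DV (p : ℤ) L ∧ DV (p : ℤ) (P - j • V) ∧ DV (p : ℤ) (U + V - j • V))
    (fun _ _ => False)
    (fun p hp z z' hz hz' => h.two_j (Nat.prime_of_mem_primeFactors hp) hz.1 hz.2.1 hz.2.2 hz'.2.1)
    (fun p _ z z' hz _ => hz.elim) (Or.inr fun _ hz => hz) 0
  refine ⟨j, fun p hp hL hbad => ?_⟩
  exact (hj p (mem_pf hp (mul_pos h.D0 h.e0).ne' (h.dvd_De hL))).1 ⟨hL, hbad.1, hbad.2⟩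

theorem gcv_one {w : Z2} (h : ∀ p : ℕ, p.Prime → ¬ DV (p : ℤ) w) : gcv w = 1 := by
  by_contra hne
  obtain ⟨p, hp, hd⟩ := Nat.exists_prime_and_dvd hne
  exact h p hp (dv_iff_gcv.2 (by exact_mod_cast hd))

theorem cop_of_primes {t i : ℤ} (h : ∀ p : ℕ, p.Prime → (p : ℤ) ∣ t → ¬ (p : ℤ) ∣ i) :
    IsCoprime t i := by
  rw [Int.isCoprime_iff_gcd_eq_one]
  by_contra hne
  obtain ⟨p, hp, hd⟩ := Nat.exists_prime_and_dvd hne
  have hd' : (p : ℤ) ∣ (Int.gcd t i : ℤ) := by exact_mod_cast hd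
  exact h p hp (hd'.trans (Int.gcd_dvd_left _ _)) (hd'.trans (Int.gcd_dvd_right _ _))

theorem cap_use {J X : ℕ} (hcap : Cap J X) {M : ℤ} (hM : 0 < M) (hMX : M ≤ (X : ℤ)) :
    (4 : ℤ) ^ M.natAbs.primeFactors.card ≤ (J : ℤ) := by
  have h1 : M.natAbs ≤ X := by omega
  have h2 := hcap M.natAbs (by omega) h1
  exact_mod_cast h2

/-- **R3 (fat1)**, with `0 < i ≤ J` -/
theorem LX.fat1i {J X : ℕ} (h : LX A b e f a D U V L P) (hJ : 1 ≤ J) (hcap : Cap J X)
    (hX : 2 * (J : ℤ) * D * (e + (J : ℤ) * a) ≤ (X : ℤ)) (hb : 2 * ((J : ℤ) + 1) * A ≤ b)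
    (he : 2 * (J : ℤ) * A ≤ e) :
    ∃ j t i : ℤ, 0 < i ∧ i ≤ (J : ℤ) ∧ XC A b e f a j t i 1 ∧
      gcv (XW U V L P j t i 1) = 1 := by
  have hA := h.A0
  have he0 := h.e0
  have hD := h.D0
  have ha := h.apos41
  have hb0 := h.bpos41
  have hJ1 : (1 : ℤ) ≤ (J : ℤ) := by exact_mod_cast hJ
  obtain ⟨j, hj⟩ := h.exj
  -- choice of i
  have hM1 : 0 < 2 * D * e := by positivity
  have hM1X : 2 * D * e ≤ (X : ℤ) := by
    refine le_trans ?_ hX
    have e1 : 2 * (J : ℤ) * D * (e + (J : ℤ) * a) = 2 * D * e + 2 * D * (((J : ℤ) - 1) * e +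
        (J : ℤ) * (J : ℤ) * a) := by ring
    rw [e1]
    have : 0 ≤ 2 * D * (((J : ℤ) - 1) * e + (J : ℤ) * (J : ℤ) * a) := by
      have h0 : 0 ≤ (J : ℤ) - 1 := by linarith
      positivity
    linarith
  obtain ⟨i, hi1, hi2, hi⟩ := sieve2 ((2 * D * e).natAbs.primeFactors)
    (fun p hp => Nat.prime_of_mem_primeFactors hp)
    (fun p i => DV (p : ℤ) L ∧ DV (p : ℤ) (U + V - j • V + i • (P - j • V)))
    (fun p i => p = 2 ∧ ¬ DV (2 : ℤ) L ∧ (2 : ℤ) ∣ i)
    (fun p hp z z' hz hz' => by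
      have hpp := Nat.prime_of_mem_primeFactors hp
      by_contra hd
      have h3 : DV (p : ℤ) ((z - z') • (P - j • V)) := by
        have := hz.2.sub hz'.2
        have e1 : U + V - j • V + z • (P - j • V) - (U + V - j • V + z' • (P - j • V)) =
          (z - z') • (P - j • V) := by module
        rwa [e1] at this
      have h4 := DV.prime_smul hpp h3 hd
      refine hj p hpp hz.1 ⟨h4, ?_⟩
      have := hz.2.sub (h4.smul z)
      have e1 : U + V - j • V + z • (P - j • V) - z • (P - j • V) = U + V - j • V := by module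
      rwa [e1] at this)
    (fun p _ z z' hz hz' => by
      obtain ⟨rfl, -, hz2⟩ := hz
      exact dvd_sub hz2 hz'.2.2)
    (by
      by_cases hL2 : DV (2 : ℤ) L
      · exact Or.inr fun z hz => hz.2.1 hL2
      · exact Or.inl fun z hz => hL2 hz.1) 1
  have hiJ : i ≤ (J : ℤ) := by
    have := cap_use hcap hM1 hM1X
    linarith
  have hi0 : 0 < i := by linarith
  -- property of i
  have hiL : ∀ p : ℕ, p.Prime → DV (p : ℤ) L → ¬ DV (p : ℤ) (U + V - j • V + i • (P - j • V)) := by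
    intro p hp hL hW
    have : (p : ℤ) ∣ 2 * D * e := by
      have := h.dvd_De hL
      rw [mul_assoc]
      exact this.mul_left _
    exact (hi p (mem_pf hp hM1.ne' this)).1 ⟨hL, hW⟩
  have hi2' : ¬ DV (2 : ℤ) L → ¬ (2 : ℤ) ∣ i := by
    intro hL h2
    have : ((2 : ℕ) : ℤ) ∣ 2 * D * e := by
      rw [mul_assoc]; exact Dvd.intro _ rfl
    exact (hi 2 (mem_pf Nat.prime_two hM1.ne' this)).2 ⟨rfl, hL, h2⟩
  -- the window of t
  set fj : ℤ := f + j * (a + b - A) with hfj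
  set t0 : ℤ := (i * b - i * fj) / e + 1 with ht0
  have hdiv1 := Int.mul_ediv_add_emod (i * b - i * fj) e
  have hmod1 := Int.emod_nonneg (i * b - i * fj) he0.ne'
  have hmod2 := Int.emod_lt_of_pos (i * b - i * fj) he0
  -- M2
  have hM2 : 0 < 2 * D * (e + i * a) * i := by positivity
  have hM2X : 2 * D * (e + i * a) * i ≤ (X : ℤ) := by
    refine le_trans ?_ hX
    have e1 : 2 * D * (e + i * a) * i ≤ 2 * D * (e + (J : ℤ) * a) * (J : ℤ) := by
      have h5 : e + i * a ≤ e + (J : ℤ) * a := by nlinarith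
      have h6 : 2 * D * (e + i * a) ≤ 2 * D * (e + (J : ℤ) * a) :=
        mul_le_mul_of_nonneg_left h5 (by positivity)
      exact mul_le_mul h6 hiJ hi0.le (by positivity)
    nlinarith
  obtain ⟨t, ht1, ht2, ht⟩ := sieve2 ((2 * D * (e + i * a) * i).natAbs.primeFactors)
    (fun p hp => Nat.prime_of_mem_primeFactors hp)
    (fun p t => ¬ DV (p : ℤ) L ∧ DV (p : ℤ) (XW U V L P j t i 1))
    (fun p t => (p : ℤ) ∣ i ∧ (p : ℤ) ∣ t)
    (fun p hp z z' hz hz' => by
      have hpp := Nat.prime_of_mem_primeFactors hp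
      by_contra hd
      have h3 : DV (p : ℤ) ((z - z') • L) := by
        have := hz.2.sub hz'.2
        have e1 : XW U V L P j z i 1 - XW U V L P j z' i 1 = (z - z') • L := by
          unfold XW; module
        rwa [e1] at this
      exact hz.1 (DV.prime_smul hpp h3 hd))
    (fun p _ z z' hz hz' => dvd_sub hz.2 hz'.2)
    (by
      by_cases hL2 : DV (2 : ℤ) L
      · exact Or.inl fun z hz => hz.1 hL2
      · exact Or.inr fun z hz => hi2' hL2 hz.1) t0
  have htJ : t ≤ t0 + (J : ℤ) - 1 := by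
    have := cap_use hcap hM2 hM2X
    linarith
  refine ⟨j, t, i, hi0, hiJ, ⟨Or.inl rfl, hi0.le, ?_, ?_, ?_⟩, ?_⟩
  · refine cop_of_primes fun p hp hpt hpi => ?_
    have : (p : ℤ) ∣ 2 * D * (e + i * a) * i := hpi.mul_left _
    exact (ht p (mem_pf hp hM2.ne' this)).2 ⟨hpi, hpt⟩
  · -- i b < F
    unfold XF
    rw [one_mul, ← hfj]
    have h7 : t0 * e ≤ t * e := mul_le_mul_of_nonneg_right ht1 he0.le
    have h8 : t0 * e = e * ((i * b - i * fj) / e) + e := by rw [ht0]; ring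
    nlinarith
  · -- F ≤ a
    unfold XF
    rw [one_mul, ← hfj]
    have h7 : t * e ≤ (t0 + (J : ℤ) - 1) * e := mul_le_mul_of_nonneg_right htJ he0.le
    have h8 : (t0 + (J : ℤ) - 1) * e = e * ((i * b - i * fj) / e) + (J : ℤ) * e := by
      rw [ht0]; ring
    have h9 : t * e + i * fj ≤ i * b + (J : ℤ) * e := by linarith
    -- (a - i b) ≥ J e
    have h10 : i * b + (J : ℤ) * e ≤ a := by
      -- multiply by A : a A = e b
      have h11 : (i * b + (J : ℤ) * e) * A ≤ a * A := by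
        rw [h.ra]
        have h12 : i * b * A ≤ (J : ℤ) * b * A := by
          have := mul_le_mul_of_nonneg_right hiJ (mul_pos hb0 hA).le
          linarith
        have h13 : 2 * ((J : ℤ) * b * A) ≤ e * b := by
          have := mul_le_mul_of_nonneg_right he hb0.le
          linarith
        have h14 : 2 * ((J : ℤ) + 1) * A * e ≤ b * e := mul_le_mul_of_nonneg_right hb he0.le
        have h15 : 0 ≤ A * e := (mul_pos hA he0).le
        nlinarith
      exact le_of_mul_le_mul_right h11 hA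
    linarith
  · refine gcv_one fun p hp hW => ?_
    have hcr : cr (XW U V L P j t i 1) L = D * (e + i * a) := by
      have hVL : cr V L = 0 := by rw [cr_swap, h.hLV]; rfl
      unfold XW
      simp only [cr_add_left, cr_sub_left, cr_smul_left, cr_self, h.hUL, h.hPL, hVL]
      ring
    have hpd : (p : ℤ) ∣ 2 * D * (e + i * a) * i := by
      have h20 := hW.cr_left L
      rw [hcr] at h20
      have e2 : 2 * D * (e + i * a) * i = (D * (e + i * a)) * (2 * i) := by ring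
      rw [e2]
      exact h20.mul_right _
    have hmem := mem_pf hp hM2.ne' hpd
    by_cases hL : DV (p : ℤ) L
    · refine hiL p hp hL ?_
      have h21 := (hW.add (hL.smul (j - t)))
      have e3 : XW U V L P j t i 1 + (j - t) • L = U + V - j • V + i • (P - j • V) := by
        unfold XW; module
      rwa [e3] at h21
    · exact (ht p hmem).1 ⟨hL, hW⟩

/-- **R3 (fat1)** -/
theorem LX.fat1 {J X : ℕ} (h : LX A b e f a D U V L P) (hJ : 1 ≤ J) (hcap : Cap J X)
    (hX : 2 * (J : ℤ) * D * (e + (J : ℤ) * a) ≤ (X : ℤ)) (hb : 2 * ((J : ℤ) + 1) * A ≤ b)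
    (he : 2 * (J : ℤ) * A ≤ e) :
    ∃ j t i : ℤ, XC A b e f a j t i 1 ∧ gcv (XW U V L P j t i 1) = 1 := by
  obtain ⟨j, t, i, -, -, h1, h2⟩ := h.fat1i hJ hcap hX hb he
  exact ⟨j, t, i, h1, h2⟩

end Pool.Agent.H4G
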