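import Pool.Agent.H4G.Asym.Defs
import Pool.Agent.H4G.Arith.Crt

/-!
# Row R9, arithmetic part (helper37): the choice of the H-twist
-/

set_option autoImplicit false

namespace Pool.Agent.H4G

/-- `d` divides all the products of `L'` at `H_q S` -/
def FD (b' e' f' k1 k2 k3 k4 e f θ' q d : ℤ) : Prop :=
  d ∣ b' ∧ d ∣ e' ∧ d ∣ f' - q * θ' ∧ d ∣ k1 ∧ d ∣ k2 + q * e ∧ d ∣ k3 ∧ d ∣ k4 + q * f

/-- the conclusion of (L0) for one divisor -/
def GC (A a' b' d : ℤ) : Prop := d ∣ A ∧ d ^ 2 ∣ a' ∧ d ^ 2 ∣ b'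

theorem GC.mono {A a' b' d d' : ℤ} (h : GC A a' b' d) (h1 : d' ∣ d) : GC A a' b' d' :=
  ⟨h1.trans h.1, (pow_dvd_pow_of_dvd h1 2).trans h.2.1, (pow_dvd_pow_of_dvd h1 2).trans h.2.2⟩

/-- (L0) at a prime power; no primality of `N` is used. -/
theorem fd_lzero {A a a' b b' e f e' f' k1 k2 k3 k4 q : ℤ} {l s : ℕ} (hl : l.Prime)
    (E1 : a' * A = e' * b') (E2 : a' * a = k2 * k3 - k1 * k4) (E3 : a * b' = f * k2 - e * k4)
    (E4 : b * a' = k3 * f' - k4 * e') (E5 : b * b' = f * f' - A * k4)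
    (hF : ∀ d : ℤ, d ∣ A → d ∣ e → d ∣ f → d ∣ b → d ∣ a → d ∣ e' → d ∣ b' → d ∣ f' → d ∣ a' →
      d ∣ k1 → d ∣ k2 → d ∣ k3 → d ∣ k4 → d ∣ 1) (hq : ¬ (l : ℤ) ∣ q)
    (h0 : FD b' e' f' k1 k2 k3 k4 e f (a' + b' - A) 0 ((l : ℤ) ^ s))
    (h1 : FD b' e' f' k1 k2 k3 k4 e f (a' + b' - A) q ((l : ℤ) ^ s)) :
    GC A a' b' ((l : ℤ) ^ s) := by
  have hpr : Prime (l : ℤ) := Nat.prime_iff_prime_int.1 hl
  have hq' : IsCoprime q ((l : ℤ) ^ s) := ((Prime.coprime_iff_not_dvd hpr).2 hq).symm.pow_right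
  by_cases hs0 : s = 0
  · subst hs0; simp [GC]
  set g : ℤ := (l : ℤ) ^ s with hg
  have hlg : (l : ℤ) ∣ g := dvd_pow_self _ hs0
  obtain ⟨p1, p2, p3, p4, p5, p6, p7⟩ := h0
  obtain ⟨-, -, r3, -, r5, -, r7⟩ := h1
  simp only [zero_mul, sub_zero, add_zero] at p3 p5 p7
  have he : g ∣ e := hq'.symm.dvd_of_dvd_mul_left ((dvd_add_right p5).1 r5)
  have hf : g ∣ f := hq'.symm.dvd_of_dvd_mul_left ((dvd_add_right p7).1 r7)
  have ht : g ∣ a' + b' - A := hq'.symm.dvd_of_dvd_mul_left ((dvd_sub_right p3).1 r3)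
  have hd : g ∣ a' - A := by
    have := dvd_sub ht p1
    have e6 : a' + b' - A - b' = a' - A := by ring
    rwa [e6] at this
  have q1 : g ^ 2 ∣ a' * A := by
    rw [E1, pow_two]; exact mul_dvd_mul p2 p1
  have q2 : g ^ 2 ∣ a' * a := by
    rw [E2, pow_two]; exact dvd_sub (mul_dvd_mul p5 p6) (mul_dvd_mul p4 p7)
  have q3 : g ^ 2 ∣ b' * a := by
    rw [mul_comm, E3, pow_two]; exact dvd_sub (mul_dvd_mul hf p5) (mul_dvd_mul he p7)
  have q4 : g ^ 2 ∣ a' * b := by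
    rw [mul_comm, E4, pow_two]; exact dvd_sub (mul_dvd_mul p6 p3) (mul_dvd_mul p7 p2)
  -- `g` divides `A` and `a'`
  have hA : g ∣ A ∧ g ∣ a' := by
    have h2 : g ∣ A ∨ g ∣ a' := by
      by_contra hcon
      rw [not_or] at hcon
      -- the powers of `l` in `A`, `a'` are below `s`
      obtain ⟨h3, h4⟩ := hcon
      have hA0 : A ≠ 0 := by rintro rfl; exact h3 (dvd_zero _)
      have ha0 : a' ≠ 0 := by rintro rfl; exact h4 (dvd_zero _)
      have n1 : emultiplicity (l : ℤ) A < s := by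
        rw [← not_le, ← pow_dvd_iff_le_emultiplicity]; exact h3
      have n2 : emultiplicity (l : ℤ) a' < s := by
        rw [← not_le, ← pow_dvd_iff_le_emultiplicity]; exact h4
      have n3 : ((2 * s : ℕ) : ℕ∞) ≤ emultiplicity (l : ℤ) (a' * A) := by
        rw [← pow_dvd_iff_le_emultiplicity, mul_comm 2 s, pow_mul]; exact q1
      rw [emultiplicity_mul hpr] at n3
      obtain ⟨x, hx⟩ := ENat.ne_top_iff_exists.1 (ne_top_of_lt n1)
      obtain ⟨y, hy⟩ := ENat.ne_top_iff_exists.1 (ne_top_of_lt n2)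
      rw [← hx] at n1 n3
      rw [← hy] at n2 n3
      have m1 : x < s := by exact_mod_cast n1
      have m2 : y < s := by exact_mod_cast n2
      have m3 : 2 * s ≤ y + x := by exact_mod_cast n3
      omega
    rcases h2 with h2 | h2
    · refine ⟨h2, ?_⟩
      have := dvd_add hd h2
      simpa using this
    · refine ⟨?_, h2⟩
      have := dvd_sub h2 hd
      simpa using this
  have hAl : (l : ℤ) ∣ A := hlg.trans hA.1
  have hal : (l : ℤ) ∣ a' := hlg.trans hA.2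
  by_cases h2 : (l : ℤ) ∣ a
  · by_cases h3 : (l : ℤ) ∣ b
    · exfalso
      exact prime_not_dvd_one hl (hF _ hAl (hlg.trans he) (hlg.trans hf) h3 h2 (hlg.trans p2)
        (hlg.trans p1) (hlg.trans p3) hal (hlg.trans p4) (hlg.trans p5) (hlg.trans p6)
        (hlg.trans p7))
    · have hcb : IsCoprime (g ^ 2) b :=
        ((Prime.coprime_iff_not_dvd hpr).2 h3).pow_left.pow_left
      have q5 : g ^ 2 ∣ b' * b := by
        rw [mul_comm, E5, pow_two]; exact dvd_sub (mul_dvd_mul hf p3) (mul_dvd_mul hA.1 p7)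
      exact ⟨hA.1, hcb.dvd_of_dvd_mul_right q4, hcb.dvd_of_dvd_mul_right q5⟩
  · have hca : IsCoprime (g ^ 2) a :=
      ((Prime.coprime_iff_not_dvd hpr).2 h2).pow_left.pow_left
    exact ⟨hA.1, hca.dvd_of_dvd_mul_right q2, hca.dvd_of_dvd_mul_right q3⟩

/-- the divisors of `FD` are the divisors of a number -/
theorem fd_exists {b' e' f' k1 k2 k3 k4 e f θ' q : ℤ} (hb' : 0 < b') :
    ∃ g : ℤ, 0 < g ∧ ∀ d : ℤ, FD b' e' f' k1 k2 k3 k4 e f θ' q d ↔ d ∣ g := by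
  set G : ℕ := Int.gcd b' (Int.gcd e' (Int.gcd (f' - q * θ') (Int.gcd k1 (Int.gcd (k2 + q * e)
    (Int.gcd k3 (k4 + q * f) : ℕ) : ℕ) : ℕ) : ℕ) : ℕ) with hG
  refine ⟨(G : ℤ), ?_, fun d => ?_⟩
  · have : 0 < G := Int.gcd_pos_of_ne_zero_left _ hb'.ne'
    exact_mod_cast this
  · rw [hG]
    simp only [Int.dvd_coe_gcd_iff, FD]

/-- the good residues modulo the powers of a prime -/
def Good (A a' b' e' f' k1 k2 k3 k4 e f θ' : ℤ) (l : ℕ) (q : ℤ) : Prop :=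
  ∀ s : ℕ, FD b' e' f' k1 k2 k3 k4 e f θ' q ((l : ℤ) ^ s) → GC A a' b' ((l : ℤ) ^ s)

theorem good_or {A a a' b b' e f e' f' k1 k2 k3 k4 q : ℤ} {l : ℕ} (hl : l.Prime)
    (E1 : a' * A = e' * b') (E2 : a' * a = k2 * k3 - k1 * k4) (E3 : a * b' = f * k2 - e * k4)
    (E4 : b * a' = k3 * f' - k4 * e') (E5 : b * b' = f * f' - A * k4)
    (hF : ∀ d : ℤ, d ∣ A → d ∣ e → d ∣ f → d ∣ b → d ∣ a → d ∣ e' → d ∣ b' → d ∣ f' → d ∣ a' →
      d ∣ k1 → d ∣ k2 → d ∣ k3 → d ∣ k4 → d ∣ 1) (hq : ¬ (l : ℤ) ∣ q) :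
    Good A a' b' e' f' k1 k2 k3 k4 e f (a' + b' - A) l 0 ∨
    Good A a' b' e' f' k1 k2 k3 k4 e f (a' + b' - A) l q := by
  by_contra hcon
  rw [not_or] at hcon
  obtain ⟨h1, h2⟩ := hcon
  unfold Good at h1 h2
  push Not at h1 h2
  obtain ⟨s, s1, s2⟩ := h1
  obtain ⟨t, t1, t2⟩ := h2
  have hmono : ∀ q' d d' : ℤ, FD b' e' f' k1 k2 k3 k4 e f (a' + b' - A) q' d → d' ∣ d →
      FD b' e' f' k1 k2 k3 k4 e f (a' + b' - A) q' d' := by
    rintro q' d d' ⟨g1, g2, g3, g4, g5, g6, g7⟩ h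
    exact ⟨h.trans g1, h.trans g2, h.trans g3, h.trans g4, h.trans g5, h.trans g6, h.trans g7⟩
  rcases le_total s t with h | h
  · exact s2 (fd_lzero hl E1 E2 E3 E4 E5 hF hq s1 (hmono _ _ _ t1 (pow_dvd_pow _ h)))
  · exact t2 (fd_lzero hl E1 E2 E3 E4 E5 hF hq (hmono _ _ _ s1 (pow_dvd_pow _ h)) t1)

theorem good_congr {A a' b' e' f' k1 k2 k3 k4 e f θ' : ℤ} {l : ℕ} (hl : l.Prime) (hb' : 0 < b')
    {q q' : ℤ} (h : ((l : ℤ) ^ b'.toNat) ∣ q' - q)
    (hg : Good A a' b' e' f' k1 k2 k3 k4 e f θ' l q) :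
    Good A a' b' e' f' k1 k2 k3 k4 e f θ' l q' := by
  intro s hs
  apply hg
  obtain ⟨g1, g2, g3, g4, g5, g6, g7⟩ := hs
  have hsb : s ≤ b'.toNat := by
    by_contra hc
    push Not at hc
    have h1 : (l : ℤ) ^ s ≤ b' := Int.le_of_dvd hb' g1
    have h2 : ((s : ℕ) : ℤ) < (l : ℤ) ^ s := by
      have : s < l ^ s := Nat.lt_pow_self hl.one_lt
      exact_mod_cast this
    have h3 : (b'.toNat : ℤ) = b' := Int.toNat_of_nonneg hb'.le
    have h4 : (b'.toNat : ℤ) < (s : ℤ) := by exact_mod_cast hc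
    omega
  have hd : ((l : ℤ) ^ s) ∣ q' - q := (pow_dvd_pow _ hsb).trans h
  refine ⟨g1, g2, ?_, g4, ?_, g6, ?_⟩
  · have e1 : f' - q * θ' = f' - q' * θ' + (q' - q) * θ' := by ring
    rw [e1]; exact dvd_add g3 (hd.mul_right _)
  · have e1 : k2 + q * e = k2 + q' * e - (q' - q) * e := by ring
    rw [e1]; exact dvd_sub g5 (hd.mul_right _)
  · have e1 : k4 + q * f = k4 + q' * f - (q' - q) * f := by ring
    rw [e1]; exact dvd_sub g7 (hd.mul_right _)

/-- a positive number without odd prime factors and not divisible by four -/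
theorem one_or_two {w : ℕ} (h0 : w ≠ 0) (h1 : ∀ l : ℕ, l.Prime → l ≠ 2 → ¬ l ∣ w)
    (h2 : ¬ 4 ∣ w) : w = 1 ∨ w = 2 := by
  by_cases hw : w = 1
  · exact Or.inl hw
  · right
    obtain ⟨p, hp, hpw⟩ := Nat.exists_prime_and_dvd hw
    have hp2 : p = 2 := by
      by_contra h
      exact h1 p hp h hpw
    subst hp2
    obtain ⟨v, rfl⟩ := hpw
    by_cases hv : v = 1
    · subst hv; rfl
    · exfalso
      obtain ⟨p, hp, hpv⟩ := Nat.exists_prime_and_dvd hv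
      have hp2 : p = 2 := by
        by_contra h
        exact h1 p hp h (hpv.mul_left 2)
      subst hp2
      obtain ⟨u, rfl⟩ := hpv
      exact h2 ⟨u, by ring⟩

/-- prime by prime divisibility -/
theorem gc_of_primes {A a' b' g : ℤ} (hg : 0 < g) (hA : A ≠ 0) (ha' : a' ≠ 0) (hb' : b' ≠ 0)
    (h : ∀ l : ℕ, l.Prime → ∀ s : ℕ, ((l : ℤ) ^ s) ∣ g → GC A a' b' ((l : ℤ) ^ s)) :
    GC A a' b' g := by
  have key : ∀ (n : ℕ) (B : ℤ), B ≠ 0 → (∀ l : ℕ, l.Prime → ∀ s : ℕ, ((l : ℤ) ^ s) ∣ g →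
      ((l : ℤ) ^ s) ^ n ∣ B) → g ^ n ∣ B := by
    intro n B hB hB2
    rw [← Int.natAbs_dvd_natAbs, Int.natAbs_pow]
    have hg0 : g.natAbs ≠ 0 := by simpa using hg.ne'
    have hB0 : B.natAbs ≠ 0 := by simpa using hB
    rw [← Nat.factorization_prime_le_iff_dvd (pow_ne_zero _ hg0) hB0]
    intro l hl
    rw [Nat.factorization_pow, Finsupp.smul_apply, smul_eq_mul]
    rw [← hl.pow_dvd_iff_le_factorization hB0]
    have h1 : ((l : ℤ) ^ (g.natAbs.factorization l)) ∣ g := by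
      rw [← Int.natAbs_dvd_natAbs]
      simpa [Int.natAbs_pow] using Nat.ordProj_dvd g.natAbs l
    have h2 := hB2 l hl _ h1
    rw [← pow_mul, ← Int.natAbs_dvd_natAbs] at h2
    rw [mul_comm]
    simpa [Int.natAbs_pow] using h2
  refine ⟨?_, key 2 a' ha' fun l hl s hs => (h l hl s hs).2.1,
    key 2 b' hb' fun l hl s hs => (h l hl s hs).2.2⟩
  simpa using key 1 A hA fun l hl s hs => by simpa using (h l hl s hs).1

/-- THE CHOICE of `q` -/
theorem hsel_arith {A a a' b b' e f e' f' k1 k2 k3 k4 m r : ℤ} (hA : 0 < A) (ha' : 0 < a')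
    (hb' : 0 < b') (hm : m ≠ 0)
    (E1 : a' * A = e' * b') (E2 : a' * a = k2 * k3 - k1 * k4) (E3 : a * b' = f * k2 - e * k4)
    (E4 : b * a' = k3 * f' - k4 * e') (E5 : b * b' = f * f' - A * k4)
    (hF : ∀ d : ℤ, d ∣ A → d ∣ e → d ∣ f → d ∣ b → d ∣ a → d ∣ e' → d ∣ b' → d ∣ f' → d ∣ a' →
      d ∣ k1 → d ∣ k2 → d ∣ k3 → d ∣ k4 → d ∣ 1) :
    ∃ (q g w : ℤ), 0 < g ∧ w = (Int.gcd (1 - q * r) (q * m) : ℕ) ∧ (w = 1 ∨ w = 2) ∧
      (∀ d : ℤ, FD b' e' f' k1 k2 k3 k4 e f (a' + b' - A) q d ↔ d ∣ g) ∧ GC A a' b' g := by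
  classical
  -- the choice at one prime
  have loc : ∀ l : ℕ, l.Prime → ∃ q : ℤ,
      Good A a' b' e' f' k1 k2 k3 k4 e f (a' + b' - A) l q ∧
      (l ≠ 2 → ¬ (l : ℤ) ∣ 1 - q * r) ∧ (l = 2 → ¬ (4 : ℤ) ∣ 1 - q * r) := by
    intro l hl
    by_cases h2 : l = 2
    · subst h2
      have h4 : ∃ q' : ℤ, (q' = 1 ∨ q' = -1) ∧ ¬ (4 : ℤ) ∣ 1 - q' * r := by
        by_cases h : (4 : ℤ) ∣ 1 - 1 * r
        · exact ⟨-1, Or.inr rfl, by omega⟩
        · exact ⟨1, Or.inl rfl, h⟩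
      obtain ⟨q', h5, h6⟩ := h4
      rcases good_or (q := q') hl E1 E2 E3 E4 E5 hF (by rcases h5 with rfl | rfl <;> norm_num) with h | h
      · exact ⟨0, h, fun h => absurd rfl h, fun _ => by norm_num⟩
      · exact ⟨q', h, fun h => absurd rfl h, fun _ => h6⟩
    · have hl3 : 3 ≤ l := by
        have := hl.two_le
        omega
      have h4 : ∃ q' : ℤ, (q' = 1 ∨ q' = 2) ∧ ¬ (l : ℤ) ∣ 1 - q' * r := by
        by_cases h : (l : ℤ) ∣ 1 - 1 * r
        · refine ⟨2, Or.inr rfl, fun h' => prime_not_dvd_one hl ?_⟩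
          have e1 : (1 : ℤ) = 2 * (1 - 1 * r) - (1 - 2 * r) := by ring
          rw [e1]; exact dvd_sub (h.mul_left 2) h'
        · exact ⟨1, Or.inl rfl, h⟩
      obtain ⟨q', h5, h6⟩ := h4
      have hnd : ¬ (l : ℤ) ∣ q' := by
        intro hd
        have hle := Int.le_of_dvd (by rcases h5 with rfl | rfl <;> norm_num) hd
        rcases h5 with rfl | rfl <;> omega
      rcases good_or (q := q') hl E1 E2 E3 E4 E5 hF hnd with h | h
      · exact ⟨0, h, fun _ => by simpa using prime_not_dvd_one hl, fun h => absurd h h2⟩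
      · exact ⟨q', h, fun _ => h6, fun h => absurd h h2⟩
  set P : Finset ℕ := (2 * m * b').natAbs.primeFactors with hP
  obtain ⟨q, hq⟩ := crt_primes P (fun l hl => Nat.prime_of_mem_primeFactors hl)
    (fun _ => b'.toNat + 2) (fun l => if h : l.Prime then (loc l h).choose else 0)
  have hD : (2 * m * b').natAbs ≠ 0 := by
    rw [Int.natAbs_ne_zero]
    exact mul_ne_zero (mul_ne_zero two_ne_zero hm) hb'.ne'
  have hmem : ∀ l : ℕ, l.Prime → (l : ℤ) ∣ 2 * m * b' → l ∈ P := by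
    intro l hl hd
    rw [hP, Nat.mem_primeFactors]
    exact ⟨hl, Int.natCast_dvd.1 hd, hD⟩
  have hq' : ∀ l : ℕ, ∀ h : l.Prime, (l : ℤ) ∣ 2 * m * b' →
      ((l : ℤ) ^ (b'.toNat + 2)) ∣ q - (loc l h).choose := by
    intro l hl hd
    have := hq l (hmem l hl hd)
    rwa [dif_pos hl] at this
  obtain ⟨g, hg0, hg⟩ := fd_exists (b' := b') (e' := e') (f' := f') (k1 := k1) (k2 := k2) (k3 := k3)
    (k4 := k4) (e := e) (f := f) (θ' := a' + b' - A) (q := q) hb'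
  refine ⟨q, g, (Int.gcd (1 - q * r) (q * m) : ℕ), hg0, rfl, ?_, hg, ?_⟩
  · have hw0 : Int.gcd (1 - q * r) (q * m) ≠ 0 := by
      intro h
      rw [Int.gcd_eq_zero_iff] at h
      obtain ⟨h1, h2⟩ := h
      rcases mul_eq_zero.1 h2 with h3 | h3
      · rw [h3] at h1; norm_num at h1
      · exact hm h3
    have := one_or_two hw0 (by
      intro l hl h2 hd
      have hd' : (l : ℤ) ∣ ((Int.gcd (1 - q * r) (q * m) : ℕ) : ℤ) := by exact_mod_cast hd
      have d1 := hd'.trans (Int.gcd_dvd_left _ _)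
      have d2 := hd'.trans (Int.gcd_dvd_right _ _)
      have hpr : Prime (l : ℤ) := Nat.prime_iff_prime_int.1 hl
      rcases hpr.dvd_or_dvd d2 with h3 | h3
      · apply prime_not_dvd_one hl
        have e1 : (1 : ℤ) = (1 - q * r) + q * r := by ring
        rw [e1]; exact dvd_add d1 (h3.mul_right r)
      · have h4 := hq' l hl ((h3.mul_left 2).mul_right b')
        have h5 : (l : ℤ) ∣ q - (loc l hl).choose :=
          (dvd_pow_self _ (by omega)).trans h4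
        apply (loc l hl).choose_spec.2.1 h2
        have e1 : 1 - (loc l hl).choose * r = (1 - q * r) + (q - (loc l hl).choose) * r := by ring
        rw [e1]; exact dvd_add d1 (h5.mul_right r)) (by
      intro hd
      have hd' : (4 : ℤ) ∣ ((Int.gcd (1 - q * r) (q * m) : ℕ) : ℤ) := by exact_mod_cast hd
      have d1 := hd'.trans (Int.gcd_dvd_left _ _)
      have h4 := hq' 2 Nat.prime_two (by exact_mod_cast ((dvd_mul_right (2:ℤ) m).mul_right b'))
      have h5 : (4 : ℤ) ∣ q - (loc 2 Nat.prime_two).choose := by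
        refine dvd_trans ?_ h4
        rw [pow_add]
        norm_num
      apply (loc 2 Nat.prime_two).choose_spec.2.2 rfl
      have e1 : 1 - (loc 2 Nat.prime_two).choose * r
          = (1 - q * r) + (q - (loc 2 Nat.prime_two).choose) * r := by ring
      rw [e1]; exact dvd_add d1 (h5.mul_right r))
    rcases this with h | h
    · left; exact_mod_cast h
    · right; exact_mod_cast h
  · refine gc_of_primes hg0 hA.ne' ha'.ne' hb'.ne' fun l hl s hs => ?_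
    have hfd := (hg _).2 hs
    by_cases hs0 : s = 0
    · subst hs0
      simp [GC]
    · have hlb : (l : ℤ) ∣ b' := (dvd_pow_self _ hs0).trans hfd.1
      have h4 := hq' l hl (hlb.mul_left _)
      have h5 : (l : ℤ) ^ b'.toNat ∣ q - (loc l hl).choose := (pow_dvd_pow _ (by omega)).trans h4
      exact good_congr hl hb' h5 (loc l hl).choose_spec.1 s hfd

end Pool.Agent.H4G
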