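import Pool.Agent.H4G.Asym.Defs

/-!
# Local analysis of the product-minimal states (helper65)
-/

set_option autoImplicit false

namespace Pool.Agent.H4G

/-- the minimum is attained twice -/
def Um (x y z : ℕ) : Prop := (x = y ∧ x ≤ z) ∨ (x < y ∧ z = x) ∨ (y < x ∧ z = y)

/-- the minimum is attained twice, at `2` -/
def Um2 (x y z : ℕ) : Prop := (x = y ∧ x + 1 ≤ z) ∨ (x < y ∧ z = x) ∨ (y < x ∧ z = y)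

theorem loc_odd {α β β' ρ ρ' σ σ' τ τ' : ℕ} (t1 : Um ρ β σ) (t2 : Um ρ' β' σ') (t3 : Um τ α σ)
    (t4 : Um τ' α σ') (e0 : β ≤ ρ + α) (e0' : β' ≤ ρ' + α) (H1 : 2 * β + β' ≤ ρ + α + σ')
    (V1 : 2 * β' + β ≤ ρ' + α + σ) (Ht : β + β' ≤ τ + σ') (Vt : β + β' ≤ τ' + σ)
    (N1 : α = 0 ∨ ρ = 0 ∨ ρ' = 0) : 2 * β + 2 * β' ≤ α + σ + σ' := by
  unfold Um at t1 t2 t3 t4
  omega

theorem loc_oddT {α β β' ρ ρ' σ σ' τ τ' σ1 : ℕ} (t1 : Um ρ β σ) (t2 : Um ρ' β' σ') (t3 : Um τ α σ)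
    (t4 : Um τ' α σ') (t5 : Um ρ' β' σ1) (t6 : Um σ' β' σ1)
    (e0 : β ≤ ρ + α) (e0' : β' ≤ ρ' + α) (H1 : 2 * β + β' ≤ ρ + α + σ')
    (V1 : 2 * β' + β ≤ ρ' + α + σ) (Ht : β + β' ≤ τ + σ') (Vt : β + β' ≤ τ' + σ)
    (H1T : 2 * β + β' ≤ ρ + α + σ1) (HtT : β + β' ≤ τ + σ1)
    (N1 : α = 0 ∨ ρ = 0 ∨ ρ' = 0) : 2 * β + 2 * β' ≤ α + σ + σ1 := by
  unfold Um at t1 t2 t3 t4 t5 t6
  omega

/-- one side at `2` -/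
theorem loc_side {α β β' ρ ρ' σ σ' τ s1' s2' : ℕ}
    (t2 : Um2 ρ' β' σ') (t5' : Um2 ρ' (β' + 1) s1') (t6' : Um2 σ' β' s1')
    (t7' : Um2 ρ' (β' + 2) s2') (t8' : Um2 s1' (β' + 1) s2')
    (e0' : β' ≤ ρ' + α) (V1 : 2 * β' + β ≤ ρ' + α + σ)
    (Vc : β + β' ≤ τ + σ' ∨ (2 * β' + β + 1 ≤ ρ' + α + σ ∧ (β + β' ≤ τ + σ' ∨ β + β' ≤ τ + s1') ∧
      2 * β + β' ≤ ρ + α + s1' ∧ (2 * β' + β + 2 ≤ ρ' + α + σ →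
        (β + β' ≤ τ + σ' ∨ β + β' ≤ τ + s2')))) :
    β + β' ≤ τ + 1 + σ' ∨ (σ' = β' ∧ ρ' = β' + 1 ∧ β + β' = α + σ ∧ τ + 2 ≤ β ∧
      β + β' ≤ τ + s1') := by
  unfold Um2 at t2 t5' t6' t7' t8'
  rcases Vc with Vc | ⟨V2, V3, V4, V5⟩
  · left; omega
  · rcases V3 with V3 | V3
    · left; omega
    · by_cases h : β + β' ≤ τ + 1 + σ'
      · left; exact h
      · right
        by_cases h2 : 2 * β' + β + 2 ≤ ρ' + α + σ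
        · rcases V5 h2 with V6 | V6
          · omega
          · omega
        · omega

theorem loc_both {α β β' ρ ρ' σ σ' τ τ' : ℕ}
    (t1 : Um2 ρ β σ) (t2 : Um2 ρ' β' σ') (t3 : Um2 τ α σ) (t4 : Um2 τ' α σ')
    (e0 : β ≤ ρ + α) (e0' : β' ≤ ρ' + α) (H1 : 2 * β + β' ≤ ρ + α + σ')
    (V1 : 2 * β' + β ≤ ρ' + α + σ) (V : β + β' ≤ τ + 1 + σ') (H : β + β' ≤ τ' + 1 + σ)
    (N1 : α = 0 ∨ ρ = 0 ∨ ρ' = 0) :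
    2 * β + 2 * β' ≤ α + σ + σ' + 2 := by
  unfold Um2 at t1 t2 t3 t4
  omega

/-- the exceptional case -/
theorem loc_last {α β β' ρ ρ' σ σ' τ τ' s1 s1' : ℕ}
    (t1 : Um2 ρ β σ) (t3 : Um2 τ α σ) (t4 : Um2 τ' α σ') (t5 : Um2 ρ (β + 1) s1)
    (H1 : 2 * β + β' ≤ ρ + α + σ')
    (Vl : σ' = β' ∧ ρ' = β' + 1 ∧ β + β' = α + σ ∧ τ + 2 ≤ β ∧ β + β' ≤ τ + s1')
    (Hc : β + β' ≤ τ' + σ ∨ β + β' ≤ τ' + s1) (N1 : α = 0 ∨ ρ = 0 ∨ ρ' = 0) :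
    α = 0 ∧ β' = 0 ∧ ρ' = 1 ∧ β ≤ s1' ∧ β = σ ∧ 2 ≤ β := by
  unfold Um2 at t1 t3 t4 t5
  obtain ⟨v1, v2, v3, v4, v5⟩ := Vl
  rcases Nat.eq_zero_or_pos α with h | h
  · subst h
    rcases t3 with t3 | t3 | t3 <;> rcases t1 with t1 | t1 | t1 <;> omega
  · have h0 : ρ = 0 := by omega
    subst h0
    exfalso
    rcases t4 with t4 | t4 | t4 <;> rcases t1 with t1 | t1 | t1 <;> omega

theorem loc_two {α β β' ρ ρ' σ σ' τ τ' s1 s1' s2 s2' : ℕ}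
    (t1 : Um2 ρ β σ) (t2 : Um2 ρ' β' σ') (t3 : Um2 τ α σ) (t4 : Um2 τ' α σ')
    (t5 : Um2 ρ (β + 1) s1) (t6 : Um2 σ β s1) (t7 : Um2 ρ (β + 2) s2) (t8 : Um2 s1 (β + 1) s2)
    (t5' : Um2 ρ' (β' + 1) s1') (t6' : Um2 σ' β' s1') (t7' : Um2 ρ' (β' + 2) s2')
    (t8' : Um2 s1' (β' + 1) s2')
    (e0 : β ≤ ρ + α) (e0' : β' ≤ ρ' + α) (H1 : 2 * β + β' ≤ ρ + α + σ')
    (V1 : 2 * β' + β ≤ ρ' + α + σ)
    (Vc : β + β' ≤ τ + σ' ∨ (2 * β' + β + 1 ≤ ρ' + α + σ ∧ (β + β' ≤ τ + σ' ∨ β + β' ≤ τ + s1') ∧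
      2 * β + β' ≤ ρ + α + s1' ∧ (2 * β' + β + 2 ≤ ρ' + α + σ →
        (β + β' ≤ τ + σ' ∨ β + β' ≤ τ + s2'))))
    (Hc : β + β' ≤ τ' + σ ∨ (2 * β + β' + 1 ≤ ρ + α + σ' ∧ (β + β' ≤ τ' + σ ∨ β + β' ≤ τ' + s1) ∧
      2 * β' + β ≤ ρ' + α + s1 ∧ (2 * β + β' + 2 ≤ ρ + α + σ' →
        (β + β' ≤ τ' + σ ∨ β + β' ≤ τ' + s2))))
    (N1 : α = 0 ∨ ρ = 0 ∨ ρ' = 0) :
    2 * β + 2 * β' ≤ α + σ + σ' + 2 ∨ (α = 0 ∧ β' = 0 ∧ ρ' = 1 ∧ β ≤ s1' ∧ β = σ ∧ 2 ≤ β) ∨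
      (α = 0 ∧ β = 0 ∧ ρ = 1 ∧ β' ≤ s1 ∧ β' = σ' ∧ 2 ≤ β') := by
  rcases loc_side t2 t5' t6' t7' t8' e0' V1 Vc with hV | hV
  · have h := loc_side (α := α) (β := β') (β' := β) (ρ := ρ') (ρ' := ρ) (σ := σ') (σ' := σ)
      (τ := τ') (s1' := s1) (s2' := s2) t1 t5 t6 t7 t8 e0 (by omega) (by
        rcases Hc with Hc | ⟨H2, H3, H4, H5⟩
        · left; omega
        · right
          refine ⟨by omega, by omega, by omega, fun h => ?_⟩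
          have := H5 (by omega)
          omega)
    rcases h with hH | hH
    · left
      exact loc_both t1 t2 t3 t4 e0 e0' H1 V1 hV (by omega) N1
    · right; right
      have := loc_last (ρ := ρ') (ρ' := ρ) (β := β') (β' := β) (σ := σ') (σ' := σ) (τ := τ')
        (τ' := τ) (s1 := s1') (s1' := s1) t2 t4 t3 t5' (by omega) (by omega) (by
          rcases Vc with Vc | ⟨_, V3, _, _⟩
          · left; omega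
          · omega) (by omega)
      omega
  · right; left
    exact loc_last t1 t3 t4 t5 H1 hV (by
      rcases Hc with Hc | ⟨_, H3, _, _⟩
      · left; omega
      · omega) N1

end Pool.Agent.H4G
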