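import Pool.Agent.H4G.Arith.Ext

/-!
# (L0): a common divisor of `F'(S)` and `F'(H_q S)` (helper31)

`F'(S)` is the gcd of all products of a vector of `L'` with `u`, `v` and the vectors of `L`.
-/

set_option autoImplicit false

namespace Pool.Agent.H4G.Asym

open Pool.Agent.H4G

/-- `g` divides all products of `L'` with `u`, `v` and `L`. -/
def FDvd (g : ℤ) (S : PSt) : Prop :=
  ∀ x ∈ S.L', g ∣ cr x S.u ∧ g ∣ cr x S.v ∧ ∀ w ∈ S.L, g ∣ cr x w

/-- the mirrored notion: `g` divides all products of `L` with `u`, `v` and `L'`. -/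
def GDvd (g : ℤ) (S : PSt) : Prop :=
  ∀ x ∈ S.L, g ∣ cr x S.u ∧ g ∣ cr x S.v ∧ ∀ w ∈ S.L', g ∣ cr x w

/-- `FDvd` in adapted bases. -/
theorem fdvd_iff {S : PSt} {l p l' p' : Z2} (ad : Ad S l p l' p') {g : ℤ} :
    FDvd g S ↔ (g ∣ cr S.u p' ∧ g ∣ cr l' S.v ∧ g ∣ cr p' S.v ∧ g ∣ cr l' l ∧ g ∣ cr l' p ∧
      g ∣ cr p' l ∧ g ∣ cr p' p) := by
  have hl' : l' ∈ S.L' := by rw [ad.hL']; exact AddSubgroup.subset_closure (by simp)
  have hp' : p' ∈ S.L' := by rw [ad.hL']; exact AddSubgroup.subset_closure (by simp)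
  have hl : l ∈ S.L := by rw [ad.hL]; exact AddSubgroup.subset_closure (by simp)
  have hp : p ∈ S.L := by rw [ad.hL]; exact AddSubgroup.subset_closure (by simp)
  constructor
  · intro h
    obtain ⟨h1, h2, h3⟩ := h l' hl'
    obtain ⟨k1, k2, k3⟩ := h p' hp'
    refine ⟨?_, h2, k2, h3 l hl, h3 p hp, k3 l hl, k3 p hp⟩
    rw [cr_swap S.u p']; exact (dvd_neg).2 k1
  · rintro ⟨h1, h2, h3, h4, h5, h6, h7⟩ x hx
    rw [ad.hL'] at hx
    obtain ⟨m, n, e⟩ := mem_lat.1 hx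
    have h1' : g ∣ cr p' S.u := by rw [cr_swap p' S.u]; exact (dvd_neg).2 h1
    have h0' : cr l' S.u = 0 := by rw [cr_swap l' S.u, ad.h4]; simp
    refine ⟨?_, ?_, ?_⟩
    · rw [← e, cr_add_left, cr_smul_left, cr_smul_left, h0']
      simpa using h1'.mul_left n
    · rw [← e, cr_add_left, cr_smul_left, cr_smul_left]
      exact dvd_add (h2.mul_left m) (h3.mul_left n)
    · intro w hw
      rw [ad.hL] at hw
      obtain ⟨r, s, e2⟩ := mem_lat.1 hw
      rw [← e, ← e2]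
      simp only [cr_add_left, cr_smul_left, cr_add_right, cr_smul_right]
      exact dvd_add ((dvd_add (h4.mul_left m) (h6.mul_left n)).mul_left r)
        ((dvd_add (h5.mul_left m) (h7.mul_left n)).mul_left s)

/-- Pure algebra of (L0). -/
theorem lzero_alg {g A a a' b' e' k1 k2 k3 k4 : ℤ}
    (E1 : a' * A = e' * b') (E2 : a' * a = k2 * k3 - k1 * k4)
    (hprim : ∀ d : ℤ, d ∣ a → d ∣ A → d ∣ a' → IsUnit d)
    (hb' : g ∣ b') (he' : g ∣ e') (h1 : g ∣ k1) (h2 : g ∣ k2) (h3 : g ∣ k3) (h4 : g ∣ k4)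
    (h5 : g ∣ a' - A) : g ∣ A ∧ g ∣ a' ∧ g ^ 2 ∣ a' := by
  have k1' : g ^ 2 ∣ a' * A := by
    rw [E1, pow_two]; exact mul_dvd_mul he' hb'
  have k2' : g ^ 2 ∣ a' * a := by
    rw [E2, pow_two]; exact dvd_sub (mul_dvd_mul h2 h3) (mul_dvd_mul h1 h4)
  -- `g` is coprime to `gcd (A, a)`
  have hd : g ^ 2 ∣ a' * (Int.gcd A a : ℤ) := by
    rw [Int.gcd_eq_gcd_ab, mul_add]
    exact dvd_add (by rw [← mul_assoc]; exact k1'.mul_right _)
      (by rw [← mul_assoc]; exact k2'.mul_right _)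
  have hcop : IsCoprime g (Int.gcd A a : ℤ) := by
    rw [Int.isCoprime_iff_gcd_eq_one]
    have hu := hprim (Int.gcd g (Int.gcd A a : ℤ) : ℤ)
      ((Int.gcd_dvd_right _ _).trans (Int.gcd_dvd_right _ _))
      ((Int.gcd_dvd_right _ _).trans (Int.gcd_dvd_left _ _)) (by
        have m1 : ((Int.gcd g (Int.gcd A a : ℤ) : ℕ) : ℤ) ∣ a' - A := (Int.gcd_dvd_left _ _).trans h5
        have m2 : ((Int.gcd g (Int.gcd A a : ℤ) : ℕ) : ℤ) ∣ A :=
          (Int.gcd_dvd_right _ _).trans (Int.gcd_dvd_left _ _)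
        have := dvd_add m1 m2
        simpa using this)
    have := Int.natAbs_of_isUnit hu
    simpa using this
  have hfin : g ^ 2 ∣ a' := by
    have : IsCoprime (g ^ 2) (Int.gcd A a : ℤ) := hcop.pow_left
    exact this.dvd_of_dvd_mul_right hd
  have hg : g ∣ a' := (dvd_pow_self g two_ne_zero).trans hfin
  refine ⟨?_, hg, hfin⟩
  have := dvd_sub hg h5
  simpa using this

/-- (L0): `g ∣ F'(S)` and `g ∣ F'(H_q S)` with `q` prime to `g`. -/
theorem lzero {S : PSt} {l p l' p' : Z2} (ad : Ad S l p l' p') {g q : ℤ} (hq : IsCoprime q g)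
    (hprim : ∀ d : ℤ, d ∣ cr p l → d ∣ cr S.u S.v → d ∣ cr l' p' → IsUnit d)
    (h : FDvd g S)
    (h' : FDvd g ⟨S.L, S.u, S.v + q • (S.u + l'), lat l' (p' + q • S.u)⟩) :
    g ∣ cr S.u S.v ∧ g ∣ cr S.u l ∧ g ∣ cr S.u p ∧ g ∣ cr l' p' ∧ g ^ 2 ∣ cr l' p' := by
  obtain ⟨h1, h2, h3, h4, h5, h6, h7⟩ := (fdvd_iff ad).1 h
  have hl : l ∈ S.L := by rw [ad.hL]; exact AddSubgroup.subset_closure (by simp)
  have hp : p ∈ S.L := by rw [ad.hL]; exact AddSubgroup.subset_closure (by simp)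
  have hp' : p' + q • S.u ∈ lat l' (p' + q • S.u) := AddSubgroup.subset_closure (by simp)
  obtain ⟨-, j2, j3⟩ := h' _ hp'
  have j4 := j3 l hl
  have j5 := j3 p hp
  dsimp only at j2
  rw [cr_add_left, cr_smul_left] at j4 j5
  have e1 : g ∣ cr S.u l := by
    have := (dvd_add_right h6).1 j4
    exact hq.symm.dvd_of_dvd_mul_left this
  have e2 : g ∣ cr S.u p := by
    have := (dvd_add_right h7).1 j5
    exact hq.symm.dvd_of_dvd_mul_left this
  have e3 : cr (p' + q • S.u) (S.v + q • (S.u + l'))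
      = cr p' S.v - q * (cr l' p' + cr S.u p' - cr S.u S.v) := by
    simp only [cr_add_left, cr_add_right, cr_smul_left, cr_smul_right, cr_self, ad.h4]
    rw [cr_swap p' S.u, cr_swap p' l']; ring
  rw [e3] at j2
  have e4 : g ∣ cr l' p' + cr S.u p' - cr S.u S.v := by
    have := (dvd_sub_right h3).1 j2
    exact hq.symm.dvd_of_dvd_mul_left this
  have e5 : g ∣ cr l' p' - cr S.u S.v := by
    have := dvd_sub e4 h1
    have e6 : cr l' p' + cr S.u p' - cr S.u S.v - cr S.u p' = cr l' p' - cr S.u S.v := by ring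
    rwa [e6] at this
  have P1 := ad.area'
  have P2 : cr l' p' * cr p l = cr l' p * cr p' l - cr l' l * cr p' p := by
    have := plucker l' p' l p
    rw [cr_swap l p] at this
    linarith
  obtain ⟨f1, f2, f3⟩ := lzero_alg P1 P2 hprim h1 h2 h4 h5 h6 h7 e5
  exact ⟨f1, e1, e2, f2, f3⟩

/-! ## The mirrored side -/

/-- `GDvd` in adapted bases. -/
theorem gdvd_iff {S : PSt} {l p l' p' : Z2} (ad : Ad S l p l' p') {g : ℤ} :
    GDvd g S ↔ (g ∣ cr p S.v ∧ g ∣ cr S.u l ∧ g ∣ cr S.u p ∧ g ∣ cr l' l ∧ g ∣ cr l' p ∧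
      g ∣ cr p' l ∧ g ∣ cr p' p) := by
  have hl' : l' ∈ S.L' := by rw [ad.hL']; exact AddSubgroup.subset_closure (by simp)
  have hp' : p' ∈ S.L' := by rw [ad.hL']; exact AddSubgroup.subset_closure (by simp)
  have hl : l ∈ S.L := by rw [ad.hL]; exact AddSubgroup.subset_closure (by simp)
  have hp : p ∈ S.L := by rw [ad.hL]; exact AddSubgroup.subset_closure (by simp)
  constructor
  · intro h
    obtain ⟨h1, h2, h3⟩ := h l hl
    obtain ⟨k1, k2, k3⟩ := h p hp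
    refine ⟨k2, ?_, ?_, ?_, ?_, ?_, ?_⟩
    · rw [cr_swap S.u l]; exact (dvd_neg).2 h1
    · rw [cr_swap S.u p]; exact (dvd_neg).2 k1
    · rw [cr_swap l' l]; exact (dvd_neg).2 (h3 l' hl')
    · rw [cr_swap l' p]; exact (dvd_neg).2 (k3 l' hl')
    · rw [cr_swap p' l]; exact (dvd_neg).2 (h3 p' hp')
    · rw [cr_swap p' p]; exact (dvd_neg).2 (k3 p' hp')
  · rintro ⟨h1, h2, h3, h4, h5, h6, h7⟩ x hx
    rw [ad.hL] at hx
    obtain ⟨m, n, e⟩ := mem_lat.1 hx
    have h2' : g ∣ cr l S.u := by rw [cr_swap l S.u]; exact (dvd_neg).2 h2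
    have h3' : g ∣ cr p S.u := by rw [cr_swap p S.u]; exact (dvd_neg).2 h3
    refine ⟨?_, ?_, ?_⟩
    · rw [← e, cr_add_left, cr_smul_left, cr_smul_left]
      exact dvd_add (h2'.mul_left m) (h3'.mul_left n)
    · rw [← e, cr_add_left, cr_smul_left, cr_smul_left, ad.h1]
      simpa using h1.mul_left n
    · intro w hw
      rw [ad.hL'] at hw
      obtain ⟨r, s, e2⟩ := mem_lat.1 hw
      have h4' : g ∣ cr l l' := by rw [cr_swap l l']; exact (dvd_neg).2 h4
      have h5' : g ∣ cr p l' := by rw [cr_swap p l']; exact (dvd_neg).2 h5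
      have h6' : g ∣ cr l p' := by rw [cr_swap l p']; exact (dvd_neg).2 h6
      have h7' : g ∣ cr p p' := by rw [cr_swap p p']; exact (dvd_neg).2 h7
      rw [← e, ← e2]
      simp only [cr_add_left, cr_smul_left, cr_add_right, cr_smul_right]
      exact dvd_add ((dvd_add (h4'.mul_left m) (h5'.mul_left n)).mul_left r)
        ((dvd_add (h6'.mul_left m) (h7'.mul_left n)).mul_left s)

/-- (L0), mirrored: `g ∣ G'(S)` and `g ∣ G'(V_j S)` with `j` prime to `g`. -/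
theorem lzero' {S : PSt} {l p l' p' : Z2} (ad : Ad S l p l' p') {g j : ℤ} (hj : IsCoprime j g)
    (hprim : ∀ d : ℤ, d ∣ cr p l → d ∣ cr S.u S.v → d ∣ cr l' p' → IsUnit d)
    (h : GDvd g S)
    (h' : GDvd g ⟨lat l (p - j • S.v), S.u - j • (S.v + l), S.v, S.L'⟩) :
    g ∣ cr S.u S.v ∧ g ∣ cr l' S.v ∧ g ∣ cr p' S.v ∧ g ∣ cr p l ∧ g ^ 2 ∣ cr p l := by
  obtain ⟨h1, h2, h3, h4, h5, h6, h7⟩ := (gdvd_iff ad).1 h
  have hl' : l' ∈ S.L' := by rw [ad.hL']; exact AddSubgroup.subset_closure (by simp)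
  have hp' : p' ∈ S.L' := by rw [ad.hL']; exact AddSubgroup.subset_closure (by simp)
  have hp : p - j • S.v ∈ lat l (p - j • S.v) := AddSubgroup.subset_closure (by simp)
  obtain ⟨j2, -, j3⟩ := h' _ hp
  have j4 := j3 l' hl'
  have j5 := j3 p' hp'
  dsimp only at j2
  rw [cr_sub_left, cr_smul_left] at j4 j5
  have h5' : g ∣ cr p l' := by rw [cr_swap p l']; exact (dvd_neg).2 h5
  have h7' : g ∣ cr p p' := by rw [cr_swap p p']; exact (dvd_neg).2 h7
  have e1 : g ∣ cr l' S.v := by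
    have := (dvd_sub_right h5').1 j4
    rw [cr_swap l' S.v]
    exact (dvd_neg).2 (hj.symm.dvd_of_dvd_mul_left this)
  have e2 : g ∣ cr p' S.v := by
    have := (dvd_sub_right h7').1 j5
    rw [cr_swap p' S.v]
    exact (dvd_neg).2 (hj.symm.dvd_of_dvd_mul_left this)
  have e3 : cr (p - j • S.v) (S.u - j • (S.v + l))
      = -(cr S.u p + j * (cr p l + cr p S.v - cr S.u S.v)) := by
    simp only [cr_sub_left, cr_add_right, cr_smul_left, cr_sub_right, cr_smul_right, cr_self]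
    rw [cr_swap p S.u, cr_swap S.v S.u, cr_swap S.v l, ad.h1]; ring
  rw [e3, dvd_neg] at j2
  have e4 : g ∣ cr p l + cr p S.v - cr S.u S.v := by
    have := (dvd_add_right h3).1 j2
    exact hj.symm.dvd_of_dvd_mul_left this
  have e5 : g ∣ cr p l - cr S.u S.v := by
    have := dvd_sub e4 h1
    have e6 : cr p l + cr p S.v - cr S.u S.v - cr p S.v = cr p l - cr S.u S.v := by ring
    rwa [e6] at this
  have P1 := ad.area
  have P2 : cr p l * cr l' p' = cr l' p * cr p' l - cr l' l * cr p' p := by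
    have := plucker l' p' l p
    rw [cr_swap l p] at this
    linarith
  obtain ⟨f1, f2, f3⟩ := lzero_alg P1 P2 (fun d d1 d2 d3 => hprim d d3 d2 d1) h1 h2 h4 h5 h6 h7 e5
  exact ⟨f1, e1, e2, f2, f3⟩

end Pool.Agent.H4G.Asym
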