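import Mathlib

/-!
# Row R13: the final inequalities, pure integer lemmas (helper62)

`K` is any integer `≥ 1`; it is used with the constant `K0`.
-/

set_option autoImplicit false

namespace Pool.Agent.H4G

/-- a lower bound of `M` -/
theorem num_M {K J M : ℤ} (hK : 1 ≤ K) (hJ : 2 ^ 10 ≤ J) (hM : K * J ^ 10 ≤ M) :
    2 ^ 100 ≤ M := by
  have h1 : (2 ^ 10 : ℤ) ^ 10 ≤ J ^ 10 := pow_le_pow_left₀ (by norm_num) hJ 10
  have h2 : (1 : ℤ) * J ^ 10 ≤ K * J ^ 10 := mul_le_mul_of_nonneg_right hK (by positivity)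
  calc (2 : ℤ) ^ 100 = (2 ^ 10) ^ 10 := by norm_num
    _ ≤ J ^ 10 := h1
    _ ≤ M := by linarith

theorem num_N3 {M N : ℤ} (hM : 2 ^ 9 ≤ M) (hN0 : 0 ≤ N) (hN : N < (M + 1) ^ 30) :
    N ^ 3 ≤ M ^ 100 := by
  have hM0 : 0 < M := by linarith [show (0 : ℤ) < 2 ^ 9 by norm_num]
  have h1 : N ^ 3 ≤ ((M + 1) ^ 30) ^ 3 := pow_le_pow_left₀ hN0 hN.le 3
  have h2 : (M + 1) ^ 90 ≤ (2 * M) ^ 90 := pow_le_pow_left₀ (by positivity) (by linarith) 90
  have h3 : ((2 : ℤ) ^ 9) ^ 10 * M ^ 90 ≤ M ^ 10 * M ^ 90 :=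
    mul_le_mul_of_nonneg_right (pow_le_pow_left₀ (by norm_num) hM 10) (by positivity)
  calc N ^ 3 ≤ ((M + 1) ^ 30) ^ 3 := h1
    _ = (M + 1) ^ 90 := by ring
    _ ≤ (2 * M) ^ 90 := h2
    _ = ((2 : ℤ) ^ 9) ^ 10 * M ^ 90 := by ring
    _ ≤ M ^ 10 * M ^ 90 := h3
    _ = M ^ 100 := by ring

/-- extraction of the root -/
theorem num_root {K J M N A β g R : ℤ} (hK : 1 ≤ K) (hJ : 2 ^ 10 ≤ J) (hM : K * J ^ 10 ≤ M)
    (hN0 : 0 ≤ N) (hN : N < (M + 1) ^ 30) (hg : 0 < g) (hA : A ≤ β)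
    (hβ : β ^ 100 ≤ (g * (K * J ^ 5)) ^ 100 * R) (hR : R ≤ N ^ 3) :
    A ≤ g * (K * J ^ 5) * M ∧ A * J ^ 5 ≤ g * M ^ 2 := by
  have h0 := num_M hK hJ hM
  have hM0 : 0 < M := by linarith [show (0 : ℤ) < 2 ^ 100 by norm_num]
  have hJ0 : 0 < J := by linarith [show (0 : ℤ) < 2 ^ 10 by norm_num]
  have hK0 : 0 < K := by linarith
  have h1 : R ≤ M ^ 100 :=
    hR.trans (num_N3 (by linarith [show (2 : ℤ) ^ 9 ≤ 2 ^ 100 by norm_num]) hN0 hN)
  have h2 : β ^ 100 ≤ (g * (K * J ^ 5) * M) ^ 100 := by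
    calc β ^ 100 ≤ (g * (K * J ^ 5)) ^ 100 * R := hβ
      _ ≤ (g * (K * J ^ 5)) ^ 100 * M ^ 100 := mul_le_mul_of_nonneg_left h1 (by positivity)
      _ = (g * (K * J ^ 5) * M) ^ 100 := by ring
  have h3 : β ≤ g * (K * J ^ 5) * M := le_of_pow_le_pow_left₀ (by norm_num) (by positivity) h2
  refine ⟨hA.trans h3, ?_⟩
  have h4 : A * J ^ 5 ≤ g * (K * J ^ 5) * M * J ^ 5 :=
    mul_le_mul_of_nonneg_right (hA.trans h3) (by positivity)
  have h5 : (g * M) * (K * J ^ 10) ≤ (g * M) * M := mul_le_mul_of_nonneg_left hM (by positivity)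
  calc A * J ^ 5 ≤ g * (K * J ^ 5) * M * J ^ 5 := h4
    _ = (g * M) * (K * J ^ 10) := by ring
    _ ≤ (g * M) * M := h5
    _ = g * M ^ 2 := by ring

/-- N1 -/
theorem num_e {M N A a a' b b' e e' : ℤ} (hM : 4 ≤ M) (hMN : M ^ 30 ≤ N) (hN : N = a + A + a')
    (hA : 0 < A) (he : 0 < e) (he' : 0 < e') (r : a * A = e * b) (r' : a' * A = e' * b')
    (hb : A ≤ b) (hb' : A ≤ b') (hR : A * b * b' ≤ 4 * (A + e) * (A + e')) (hee : e' ≤ e) :
    M ^ 9 * A ≤ e := by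
  by_contra hcon
  push Not at hcon
  set X : ℤ := M ^ 9 with hX
  have hX1 : 1 ≤ X := by
    rw [hX]; exact one_le_pow₀ (by linarith)
  have hb0 : 0 < b := by linarith
  have hb'0 : 0 < b' := by linarith
  -- `b b' < 4 (X+1)^2 A`
  have h1 : (A + e) * (A + e') ≤ ((X + 1) * A) * ((X + 1) * A) :=
    mul_le_mul (by linarith) (by linarith) (by positivity) (by positivity)
  have h2 : b * b' ≤ 4 * (X + 1) ^ 2 * A := by
    have : A * (b * b') ≤ A * (4 * (X + 1) ^ 2 * A) := by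
      calc A * (b * b') = A * b * b' := by ring
        _ ≤ 4 * (A + e) * (A + e') := hR
        _ = 4 * ((A + e) * (A + e')) := by ring
        _ ≤ 4 * (((X + 1) * A) * ((X + 1) * A)) := by linarith
        _ = A * (4 * (X + 1) ^ 2 * A) := by ring
    exact le_of_mul_le_mul_left this hA
  have h3 : b ≤ 4 * (X + 1) ^ 2 := by
    have : b * A ≤ (4 * (X + 1) ^ 2) * A :=
      (mul_le_mul_of_nonneg_left hb' hb0.le).trans h2
    exact le_of_mul_le_mul_right this hA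
  have h4 : b' ≤ 4 * (X + 1) ^ 2 := by
    have h5 : A * b' ≤ b * b' := mul_le_mul_of_nonneg_right hb hb'0.le
    have : b' * A ≤ (4 * (X + 1) ^ 2) * A := by
      calc b' * A = A * b' := by ring
        _ ≤ b * b' := h5
        _ ≤ _ := h2
    exact le_of_mul_le_mul_right this hA
  have h5 : a ≤ X * b := by
    have : a * A ≤ (X * b) * A := by
      calc a * A = e * b := r
        _ ≤ (X * A) * b := mul_le_mul_of_nonneg_right hcon.le hb0.le
        _ = (X * b) * A := by ring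
    exact le_of_mul_le_mul_right this hA
  have h6 : a' ≤ X * b' := by
    have : a' * A ≤ (X * b') * A := by
      calc a' * A = e' * b' := r'
        _ ≤ (X * A) * b' := mul_le_mul_of_nonneg_right (by linarith) hb'0.le
        _ = (X * b') * A := by ring
    exact le_of_mul_le_mul_right this hA
  set Y : ℤ := (X + 1) ^ 2 with hY
  have hXY : X * b ≤ X * (4 * Y) := mul_le_mul_of_nonneg_left h3 (by linarith)
  have hXY' : X * b' ≤ X * (4 * Y) := mul_le_mul_of_nonneg_left h4 (by linarith)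
  have hAb : A ≤ 4 * Y := hb.trans h3
  have h7 : N ≤ (2 * X + 1) * (4 * Y) := by rw [hN]; nlinarith
  have hY4 : Y ≤ 4 * X ^ 2 := by rw [hY]; nlinarith
  have h8 : (2 * X + 1) * (4 * Y) ≤ (3 * X) * (16 * X ^ 2) :=
    mul_le_mul (by linarith) (by linarith) (by positivity) (by positivity)
  have h9 : M ^ 30 = X ^ 3 * M ^ 3 := by rw [hX]; ring
  have h10 : (4 : ℤ) ^ 3 ≤ M ^ 3 := pow_le_pow_left₀ (by norm_num) hM 3
  have h11 : X ^ 3 * 64 ≤ X ^ 3 * M ^ 3 := mul_le_mul_of_nonneg_left (by linarith) (by positivity)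
  have h12 : 0 < X ^ 3 := by positivity
  nlinarith

/-- N2 -/
theorem num_fat {K J M N A β g R b b' e e' w eT : ℤ} (hK : 1 ≤ K) (hJ : 2 ^ 10 ≤ J)
    (hM : K * J ^ 10 ≤ M) (hN0 : 0 ≤ N) (hN : N < (M + 1) ^ 30) (he : M ^ 9 * A ≤ e)
    (hA : 0 < A) (hAβ : A ≤ β) (hg : 0 < g) (hw : w = 1 ∨ w = 2)
    (hweT : w * eT = e) (hthin : A + eT ≤ 256 * J ^ 3 * A ^ 2)
    (hβ : β ^ 100 ≤ (g * (K * J ^ 5)) ^ 100 * R) (hR : R ≤ N ^ 3) (hgb : g ^ 2 ≤ b')
    (hb : A ≤ b) (he' : 0 ≤ e') (hRR : A * b * b' ≤ 4 * (A + e) * (A + e')) :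
    2 * (J + 1) * A ≤ b' ∧ 4 * J * A ≤ e' := by
  have h0 := num_M hK hJ hM
  have hM0 : 0 < M := by linarith [show (0 : ℤ) < 2 ^ 100 by norm_num]
  have hM1 : 2 ^ 20 ≤ M := by linarith [show (2 : ℤ) ^ 20 ≤ 2 ^ 100 by norm_num]
  have hJ0 : 0 < J := by linarith [show (0 : ℤ) < 2 ^ 10 by norm_num]
  have hJ1 : (1024 : ℤ) ≤ J := by linarith [show (1024 : ℤ) = 2 ^ 10 by norm_num]
  obtain ⟨_, h1⟩ := num_root hK hJ hM hN0 hN hg hAβ hβ hR
  -- `A^2 J^10 ≤ b' M^4`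
  have hb'0 : 0 ≤ b' := le_trans (by positivity) hgb
  have h2 : A ^ 2 * J ^ 10 ≤ b' * M ^ 4 := by
    calc A ^ 2 * J ^ 10 = (A * J ^ 5) ^ 2 := by ring
      _ ≤ (g * M ^ 2) ^ 2 := pow_le_pow_left₀ (by positivity) h1 2
      _ = g ^ 2 * M ^ 4 := by ring
      _ ≤ b' * M ^ 4 := mul_le_mul_of_nonneg_right hgb (by positivity)
  have heT0 : 0 < eT := by
    have : 0 < M ^ 9 * A := by positivity
    rcases hw with rfl | rfl <;> linarith
  have heT : e ≤ 2 * eT := by rcases hw with rfl | rfl <;> linarith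
  have h3 : M ^ 9 ≤ 512 * J ^ 3 * A := by
    have k1 : (512 * J ^ 3 * A) * A = 2 * (256 * J ^ 3 * A ^ 2) := by ring
    have : M ^ 9 * A ≤ (512 * J ^ 3 * A) * A := by rw [k1]; linarith
    exact le_of_mul_le_mul_right this hA
  -- `A J^7 M^5 ≤ 512 b'`
  have h4 : A * J ^ 7 * M ^ 5 ≤ 512 * b' := by
    have k1 : (A * J ^ 10) * M ^ 9 ≤ (A * J ^ 10) * (512 * J ^ 3 * A) :=
      mul_le_mul_of_nonneg_left h3 (by positivity)
    have k2 : (512 * J ^ 3) * (A ^ 2 * J ^ 10) ≤ (512 * J ^ 3) * (b' * M ^ 4) :=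
      mul_le_mul_of_nonneg_left h2 (by positivity)
    have k3 : (A * J ^ 7 * M ^ 5) * (J ^ 3 * M ^ 4) ≤ (512 * b') * (J ^ 3 * M ^ 4) := by
      calc (A * J ^ 7 * M ^ 5) * (J ^ 3 * M ^ 4) = (A * J ^ 10) * M ^ 9 := by ring
        _ ≤ (A * J ^ 10) * (512 * J ^ 3 * A) := k1
        _ = (512 * J ^ 3) * (A ^ 2 * J ^ 10) := by ring
        _ ≤ (512 * J ^ 3) * (b' * M ^ 4) := k2
        _ = (512 * b') * (J ^ 3 * M ^ 4) := by ring
    exact le_of_mul_le_mul_right k3 (by positivity)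
  have hM5 : (2 : ℤ) ^ 100 ≤ M ^ 5 := by
    calc (2 : ℤ) ^ 100 = (2 ^ 20) ^ 5 := by norm_num
      _ ≤ M ^ 5 := pow_le_pow_left₀ (by norm_num) hM1 5
  constructor
  · have hJ7 : J ≤ J ^ 7 := by
      calc J = J ^ 1 := (pow_one J).symm
        _ ≤ J ^ 7 := pow_le_pow_right₀ (by linarith) (by norm_num)
    have k1 : (A * J) * 2 ^ 100 ≤ (A * J ^ 7) * M ^ 5 :=
      mul_le_mul (mul_le_mul_of_nonneg_left hJ7 hA.le) hM5 (by positivity) (by positivity)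
    have k2 : A * 1 ≤ A * J := mul_le_mul_of_nonneg_left (by linarith) hA.le
    have k3 : 2 * (J + 1) * A = 2 * (A * J) + 2 * (A * 1) := by ring
    have k4 : (A * J) * 4096 ≤ (A * J) * 2 ^ 100 :=
      mul_le_mul_of_nonneg_left (by norm_num) (by positivity)
    rw [k3]
    linarith
  · have k1 : A + e ≤ 512 * J ^ 3 * A ^ 2 := by linarith
    have k2 : A ^ 2 * b' ≤ A ^ 2 * (2048 * J ^ 3 * (A + e')) := by
      calc A ^ 2 * b' = A * A * b' := by ring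
        _ ≤ A * b * b' :=
          mul_le_mul_of_nonneg_right (mul_le_mul_of_nonneg_left hb hA.le) hb'0
        _ ≤ 4 * (A + e) * (A + e') := hRR
        _ = 4 * ((A + e) * (A + e')) := by ring
        _ ≤ 4 * ((512 * J ^ 3 * A ^ 2) * (A + e')) := by
          have := mul_le_mul_of_nonneg_right k1 (show 0 ≤ A + e' by linarith)
          linarith
        _ = A ^ 2 * (2048 * J ^ 3 * (A + e')) := by ring
    have k3 : b' ≤ 2048 * J ^ 3 * (A + e') := le_of_mul_le_mul_left k2 (by positivity)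
    have k4 : (A * J ^ 4 * M ^ 5) * J ^ 3 ≤ (2 ^ 20 * (A + e')) * J ^ 3 := by
      calc (A * J ^ 4 * M ^ 5) * J ^ 3 = A * J ^ 7 * M ^ 5 := by ring
        _ ≤ 512 * b' := h4
        _ ≤ 512 * (2048 * J ^ 3 * (A + e')) := by linarith
        _ = (2 ^ 20 * (A + e')) * J ^ 3 := by ring
    have k5 : A * J ^ 4 * M ^ 5 ≤ 2 ^ 20 * (A + e') := le_of_mul_le_mul_right k4 (by positivity)
    have hJ4 : J ≤ J ^ 4 := by
      calc J = J ^ 1 := (pow_one J).symm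
        _ ≤ J ^ 4 := pow_le_pow_right₀ (by linarith) (by norm_num)
    have k6 : (A * J) * 2 ^ 100 ≤ (A * J ^ 4) * M ^ 5 :=
      mul_le_mul (mul_le_mul_of_nonneg_left hJ4 hA.le) hM5 (by positivity) (by positivity)
    have k7 : A * 1 ≤ A * J := mul_le_mul_of_nonneg_left (by linarith) hA.le
    have k8 : (A * J) * 2 ^ 23 ≤ (A * J) * 2 ^ 100 :=
      mul_le_mul_of_nonneg_left (by norm_num) (by positivity)
    have k9 : 4 * J * A = 4 * (A * J) := by ring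
    rw [k9]
    have k10 : (A * J) * 2 ^ 23 ≤ 2 ^ 20 * (A + e') := by linarith
    have k11 : (A * J) * 2 ^ 23 = 2 ^ 20 * (8 * (A * J)) := by ring
    rw [k11] at k10
    have k12 : 8 * (A * J) ≤ A + e' := le_of_mul_le_mul_left k10 (by norm_num)
    linarith

/-- N3: the case `A = b = β`, first half -/
theorem num_eq {K J M N A e y b' : ℤ} (hK : 1 ≤ K) (hJ : 2 ^ 10 ≤ J) (hM : K * J ^ 10 ≤ M)
    (hMN : M ^ 30 ≤ N) (hN : N < (M + 1) ^ 30) (hNe : N = e + A + y * b') (hA : 2 ≤ A)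
    (hAb : A ≤ b') (hby : b' ≤ y)
    (h1 : 8192 * J ^ 4 * A ≤ e → ∃ eT, 2 * eT = e ∧ A + eT ≤ 256 * J ^ 3 * A ^ 2 ∧
      A ^ 100 ≤ (K * J ^ 5) ^ 100 * N ^ 3) : M ^ 13 ≤ y := by
  have h0 := num_M hK hJ hM
  have hM0 : 0 < M := by linarith [show (0 : ℤ) < 2 ^ 100 by norm_num]
  have hM1 : 1024 ≤ M := by linarith [show (1024 : ℤ) ≤ 2 ^ 100 by norm_num]
  have hJ0 : 0 < J := by linarith [show (0 : ℤ) < 2 ^ 10 by norm_num]
  have hJ1 : (1024 : ℤ) ≤ J := by linarith [show (1024 : ℤ) = 2 ^ 10 by norm_num]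
  have hJM : J ^ 10 ≤ M := by
    have h2 : (1 : ℤ) * J ^ 10 ≤ K * J ^ 10 := mul_le_mul_of_nonneg_right hK (by positivity)
    linarith
  have hN0 : 0 ≤ N := le_trans (by positivity) hMN
  by_contra hcon
  push Not at hcon
  have hy0 : 0 < y := by linarith
  have hyb : y * b' ≤ y * y := mul_le_mul_of_nonneg_left hby hy0.le
  have hyy : y * y ≤ M ^ 13 * M ^ 13 := mul_le_mul hcon.le hcon.le hy0.le (by positivity)
  have e26 : M ^ 13 * M ^ 13 = M ^ 26 := by ring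
  have p1 : M ^ 13 ≤ M ^ 26 := pow_le_pow_right₀ (by linarith) (by norm_num)
  have p2 : M ^ 14 ≤ M ^ 26 := pow_le_pow_right₀ (by linarith) (by norm_num)
  have p3 : M ^ 5 ≤ M ^ 26 := pow_le_pow_right₀ (by linarith) (by norm_num)
  have p4 : M ^ 26 * 4 ≤ M ^ 26 * M := mul_le_mul_of_nonneg_left (by linarith) (by positivity)
  have p5 : M ^ 26 * M ≤ M ^ 30 := by
    calc M ^ 26 * M = M ^ 27 := by ring
      _ ≤ M ^ 30 := pow_le_pow_right₀ (by linarith) (by norm_num)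
  have p6 : 0 < M ^ 26 := by positivity
  -- it is enough to bound `e`
  have key : e ≤ M ^ 14 ∨ e ≤ M ^ 5 → False := by
    rintro (h | h) <;> nlinarith
  apply key
  rcases le_or_gt (8192 * J ^ 4 * A) e with h | h
  · right
    obtain ⟨eT, q1, q2, q3⟩ := h1 h
    obtain ⟨_, q4⟩ := num_root (g := 1) hK hJ hM hN0 hN one_pos (le_refl A)
      (by rw [one_mul]; exact q3) le_rfl
    rw [one_mul] at q4
    have q5 : J ^ 10 * A ^ 2 ≤ M ^ 4 := by
      calc J ^ 10 * A ^ 2 = (A * J ^ 5) ^ 2 := by ring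
        _ ≤ (M ^ 2) ^ 2 := pow_le_pow_left₀ (by positivity) q4 2
        _ = M ^ 4 := by ring
    have q6 : J ^ 3 * A ^ 2 ≤ J ^ 10 * A ^ 2 :=
      mul_le_mul_of_nonneg_right (pow_le_pow_right₀ (by linarith) (by norm_num)) (by positivity)
    have q7 : M ^ 4 * 512 ≤ M ^ 4 * M := mul_le_mul_of_nonneg_left (by linarith) (by positivity)
    have q8 : M ^ 4 * M = M ^ 5 := by ring
    have q9 : 256 * J ^ 3 * A ^ 2 = 256 * (J ^ 3 * A ^ 2) := by ring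
    rw [q9] at q2
    linarith
  · left
    have q1 : J ^ 4 * 8192 ≤ J ^ 4 * J ^ 6 := by
      refine mul_le_mul_of_nonneg_left ?_ (by positivity)
      calc (8192 : ℤ) ≤ 1024 ^ 6 := by norm_num
        _ ≤ J ^ 6 := pow_le_pow_left₀ (by norm_num) hJ1 6
    have q2 : 8192 * J ^ 4 ≤ M := by
      calc 8192 * J ^ 4 = J ^ 4 * 8192 := by ring
        _ ≤ J ^ 4 * J ^ 6 := q1
        _ = J ^ 10 := by ring
        _ ≤ M := hJM
    have q3 : 8192 * J ^ 4 * A ≤ M * M ^ 13 :=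
      mul_le_mul q2 (by linarith) (by linarith) hM0.le
    have q4 : M * M ^ 13 = M ^ 14 := by ring
    linarith

/-- N4: the case `A = b = β`, second half -/
theorem num_eq2 {K J M N A g R w eT y : ℤ} (hK : 1 ≤ K) (hJ : 2 ^ 10 ≤ J)
    (hM : K * J ^ 10 ≤ M) (hN0 : 0 ≤ N) (hN : N < (M + 1) ^ 30) (hA : 0 < A) (hg : 0 < g)
    (hgA : g ^ 2 ≤ A) (hw : w = 1 ∨ w = 2) (hweT : w * eT = A * y) (hy : M ^ 13 ≤ y)
    (hthin : A + eT ≤ 256 * J ^ 3 * A ^ 2) (hβ : A ^ 100 ≤ (g * (K * J ^ 5)) ^ 100 * R)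
    (hR : R ≤ N ^ 3) : False := by
  have h0 := num_M hK hJ hM
  have hM0 : 0 < M := by linarith [show (0 : ℤ) < 2 ^ 100 by norm_num]
  have hM1 : 1024 ≤ M := by linarith [show (1024 : ℤ) ≤ 2 ^ 100 by norm_num]
  have hJ0 : 0 < J := by linarith [show (0 : ℤ) < 2 ^ 10 by norm_num]
  have hJ1 : (1024 : ℤ) ≤ J := by linarith [show (1024 : ℤ) = 2 ^ 10 by norm_num]
  obtain ⟨_, h1⟩ := num_root hK hJ hM hN0 hN hg (le_refl A) hβ hR
  -- `A J^10 ≤ M^4`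
  have h2 : A * (A * J ^ 10) ≤ A * M ^ 4 := by
    calc A * (A * J ^ 10) = (A * J ^ 5) ^ 2 := by ring
      _ ≤ (g * M ^ 2) ^ 2 := pow_le_pow_left₀ (by positivity) h1 2
      _ = g ^ 2 * M ^ 4 := by ring
      _ ≤ A * M ^ 4 := mul_le_mul_of_nonneg_right hgA (by positivity)
  have h3 : A * J ^ 10 ≤ M ^ 4 := le_of_mul_le_mul_left h2 hA
  have heT : A * y ≤ 2 * eT := by
    have : 0 < A * y := mul_pos hA (lt_of_lt_of_le (by positivity) hy)
    rcases hw with rfl | rfl <;> linarith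
  have h4 : A * y ≤ A * (512 * (J ^ 3 * A)) := by
    have k1 : A * (512 * (J ^ 3 * A)) = 2 * (256 * J ^ 3 * A ^ 2) := by ring
    rw [k1]; linarith
  have h5 : y ≤ 512 * (J ^ 3 * A) := le_of_mul_le_mul_left h4 hA
  have h6 : J ^ 3 * A ≤ J ^ 10 * A :=
    mul_le_mul_of_nonneg_right (pow_le_pow_right₀ (by linarith) (by norm_num)) hA.le
  have h7 : M ^ 4 * 512 ≤ M ^ 4 * M := mul_le_mul_of_nonneg_left (by linarith) (by positivity)
  have h8 : M ^ 4 * M < M ^ 13 := by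
    calc M ^ 4 * M = M ^ 5 := by ring
      _ < M ^ 13 := pow_lt_pow_right₀ (by linarith) (by norm_num)
  have h9 : J ^ 10 * A = A * J ^ 10 := by ring
  linarith

/-- N5 -/
theorem num_X {N J D e a : ℤ} (hN : 2 ^ 16 ≤ N) (hJ0 : 0 ≤ J) (hJ : J ≤ N) (hD0 : 0 ≤ D)
    (hD : D ≤ N) (he0 : 0 ≤ e) (he : e ≤ N) (ha0 : 0 ≤ a) (ha : a ≤ N) :
    2 * J * D * (e + J * a) ≤ N ^ 6 := by
  have hN1 : (65536 : ℤ) ≤ N := by linarith [show (65536 : ℤ) = 2 ^ 16 by norm_num]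
  have hN0 : 0 < N := by linarith
  have h1 : J * D ≤ N * N := mul_le_mul hJ hD hD0 hN0.le
  have h2 : J * a ≤ N * N := mul_le_mul hJ ha ha0 hN0.le
  have h3 : N * 1 ≤ N * N := mul_le_mul_of_nonneg_left (by linarith) hN0.le
  have h4 : e + J * a ≤ 2 * (N * N) := by linarith
  have h5 : (J * D) * (e + J * a) ≤ (N * N) * (2 * (N * N)) :=
    mul_le_mul h1 h4 (by positivity) (by positivity)
  have h6 : N ^ 4 * 4 ≤ N ^ 4 * N ^ 2 := by
    refine mul_le_mul_of_nonneg_left ?_ (by positivity)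
    nlinarith
  calc 2 * J * D * (e + J * a) = 2 * ((J * D) * (e + J * a)) := by ring
    _ ≤ 2 * ((N * N) * (2 * (N * N))) := by linarith
    _ = N ^ 4 * 4 := by ring
    _ ≤ N ^ 4 * N ^ 2 := h6
    _ = N ^ 6 := by ring

theorem num_R {N D e a b : ℤ} (hN : 2 ^ 16 ≤ N) (hD0 : 0 ≤ D)
    (hD : D ≤ N) (he : e ≤ N) (ha : a ≤ N) (hb : b ≤ N) :
    D * (e + 2 ^ 15 * b + 127 * a) ≤ N ^ 3 := by
  have hN1 : (65536 : ℤ) ≤ N := by linarith [show (65536 : ℤ) = 2 ^ 16 by norm_num]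
  have hN0 : 0 < N := by linarith
  have h1 : e + 2 ^ 15 * b + 127 * a ≤ N * N := by
    have h2 : N * 65536 ≤ N * N := mul_le_mul_of_nonneg_left hN1 hN0.le
    have h3 : (2 : ℤ) ^ 15 = 32768 := by norm_num
    rw [h3]
    linarith
  calc D * (e + 2 ^ 15 * b + 127 * a) ≤ D * (N * N) := mul_le_mul_of_nonneg_left h1 hD0
    _ ≤ N * (N * N) := mul_le_mul_of_nonneg_right hD (by positivity)
    _ = N ^ 3 := by ring

end Pool.Agent.H4G
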