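import Mathlib

/-!
# The number of prime factors is small: `(2^k)^(omega M) <= (2^k)^(2^k) * M`

Elementary bounds used by the asymptotic line of MP_4f7c28.
-/

namespace Pool.Agent.H4G.Asym

open Finset

/-- `(2^k)^omega(M) <= (2^k)^(2^k) * M` for every `M >= 1`. -/
theorem two_pow_omega_le (k : ℕ) {M : ℕ} (hM : 0 < M) :
    (2 ^ k) ^ (M.primeFactors.card) ≤ (2 ^ k) ^ (2 ^ k) * M := by
  classical
  have h1 : (2 ^ k) ^ (M.primeFactors.card)
      = (2 ^ k) ^ ((M.primeFactors.filter (fun p => p < 2 ^ k)).card) *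
        (2 ^ k) ^ ((M.primeFactors.filter (fun p => ¬ p < 2 ^ k)).card) := by
    rw [← pow_add, Finset.card_filter_add_card_filter_not]
  rw [h1]
  have hpos : 0 < 2 ^ k := by positivity
  apply Nat.mul_le_mul
  · apply Nat.pow_le_pow_right hpos
    calc (M.primeFactors.filter (fun p => p < 2 ^ k)).card
        ≤ (Finset.range (2 ^ k)).card := by
          apply Finset.card_le_card
          intro p hp
          simp only [Finset.mem_filter] at hp
          exact Finset.mem_range.2 hp.2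
      _ = 2 ^ k := Finset.card_range _
  · calc (2 ^ k) ^ ((M.primeFactors.filter (fun p => ¬ p < 2 ^ k)).card)
        = ∏ p ∈ M.primeFactors.filter (fun p => ¬ p < 2 ^ k), 2 ^ k := by
          rw [Finset.prod_const]
      _ ≤ ∏ p ∈ M.primeFactors.filter (fun p => ¬ p < 2 ^ k), p := by
          apply Finset.prod_le_prod'
          intro p hp
          simp only [Finset.mem_filter, not_lt] at hp
          exact hp.2
      _ ≤ ∏ p ∈ M.primeFactors, p := by
          apply Finset.prod_le_prod_of_subset_of_one_le' (Finset.filter_subset _ _)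
          intro p hp _
          exact (Nat.prime_of_mem_primeFactors hp).one_lt.le
      _ ≤ M := Nat.le_of_dvd hM (Nat.prod_primeFactors_dvd M)

/-- For every `k` there is `C` with `(2^omega(M))^k <= C * M` for all `M >= 1`. -/
theorem exists_two_pow_omega_pow_le (k : ℕ) :
    ∃ C : ℕ, 0 < C ∧ ∀ M : ℕ, 0 < M → (2 ^ (M.primeFactors.card)) ^ k ≤ C * M := by
  refine ⟨(2 ^ k) ^ (2 ^ k), by positivity, fun M hM => ?_⟩
  have h := two_pow_omega_le k hM
  rwa [← pow_mul, mul_comm (M.primeFactors.card) k, pow_mul]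

/-- The same for an integer `M ≠ 0`, with the prime factors of `|M|`. -/
theorem exists_two_pow_omega_pow_le_int (k : ℕ) :
    ∃ C : ℕ, 0 < C ∧ ∀ M : ℤ, M ≠ 0 →
      ((2 : ℤ) ^ (M.natAbs.primeFactors.card)) ^ k ≤ C * |M| := by
  obtain ⟨C, hC, h⟩ := exists_two_pow_omega_pow_le k
  refine ⟨C, hC, fun M hM => ?_⟩
  have h1 := h M.natAbs (Int.natAbs_pos.2 hM)
  have h2 : (((2 ^ (M.natAbs.primeFactors.card)) ^ k : ℕ) : ℤ) ≤ ((C * M.natAbs : ℕ) : ℤ) := by
    exact_mod_cast h1
  push_cast at h2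
  exact h2

/-- Real form: `2^omega(M) <= C * M^eps` for every `eps > 0`. -/
theorem exists_two_pow_omega_le_rpow {ε : ℝ} (hε : 0 < ε) :
    ∃ C : ℝ, 0 < C ∧ ∀ M : ℕ, 0 < M →
      (2 : ℝ) ^ (M.primeFactors.card) ≤ C * (M : ℝ) ^ ε := by
  obtain ⟨k, hk⟩ := exists_nat_gt (1 / ε)
  have hk0 : 0 < k := by
    have h1 : (0 : ℝ) < k := lt_trans (by positivity) hk
    exact_mod_cast h1
  obtain ⟨C, hC, h⟩ := exists_two_pow_omega_pow_le k
  refine ⟨(C : ℝ) ^ ((1 : ℝ) / k), by positivity, fun M hM => ?_⟩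
  have h1 : (((2 : ℝ) ^ (M.primeFactors.card)) ^ k) ≤ (C : ℝ) * M := by
    exact_mod_cast h M hM
  have hM1 : (1 : ℝ) ≤ M := by exact_mod_cast hM
  have h2 : (2 : ℝ) ^ (M.primeFactors.card) ≤ ((C : ℝ) * M) ^ ((1 : ℝ) / k) := by
    have h3 : (((2 : ℝ) ^ (M.primeFactors.card)) ^ k) ^ ((1 : ℝ) / k)
        = (2 : ℝ) ^ (M.primeFactors.card) := by
      rw [one_div]
      exact Real.pow_rpow_inv_natCast (by positivity) hk0.ne'
    rw [← h3]
    exact Real.rpow_le_rpow (by positivity) h1 (by positivity)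
  calc (2 : ℝ) ^ (M.primeFactors.card) ≤ ((C : ℝ) * M) ^ ((1 : ℝ) / k) := h2
    _ = (C : ℝ) ^ ((1 : ℝ) / k) * (M : ℝ) ^ ((1 : ℝ) / k) := by
        rw [Real.mul_rpow (by positivity) (by positivity)]
    _ ≤ (C : ℝ) ^ ((1 : ℝ) / k) * (M : ℝ) ^ ε := by
        apply mul_le_mul_of_nonneg_left _ (by positivity)
        apply Real.rpow_le_rpow_of_exponent_le hM1
        rw [one_div_le (by exact_mod_cast hk0) hε]
        exact hk.le

end Pool.Agent.H4G.Asym
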