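import Pool.Agent.H4G.Asym.Defs

/-!
# The rigidity data of a product-minimal state, in integers (helper65)
-/

set_option autoImplicit false

namespace Pool.Agent.H4G

/-- Output of the product-minimal frame (row R10), input of the local analysis (row R11). -/
structure RG (A b e f b' e' f' a a' m r m' r' : ℤ) : Prop where
  A0 : 0 < A
  b0 : 0 < b
  e0 : 0 < e
  b0' : 0 < b'
  e0' : 0 < e'
  a0 : 0 < a
  a0' : 0 < a'
  Ab : A ≤ b
  Ab' : A ≤ b'
  ra : a * A = e * b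
  ra' : a' * A = e' * b'
  hm : b * b' * m = e * (a' + b')
  hr : b * b' * r = f * (a' + b')
  hm' : b * b' * m' = e' * (a + b)
  hr' : b * b' * r' = f' * (a + b)
  w1 : ∀ j : ℤ, Int.gcd m' (1 + j * r') = 1 → b * b' ∣ (f + j * (a + b - A)) * (a' + b')
  w2 : ∀ j : ℤ, Int.gcd m' (1 + j * r') = 2 → b * b' ∣ e * (a' + 2 * b') ∧
    b * b' ∣ (f + j * (a + b - A)) * (a' + 2 * b')
  w4 : ∀ j : ℤ, Int.gcd m' (1 + j * r') = 4 → b * b' ∣ 3 * ((f + j * (a + b - A)) * (a' + 4 * b'))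
  w1' : ∀ i : ℤ, Int.gcd m (1 - i * r) = 1 → b * b' ∣ (f' - i * (a' + b' - A)) * (a + b)
  w2' : ∀ i : ℤ, Int.gcd m (1 - i * r) = 2 → b * b' ∣ e' * (a + 2 * b) ∧
    b * b' ∣ (f' - i * (a' + b' - A)) * (a + 2 * b)
  w4' : ∀ i : ℤ, Int.gcd m (1 - i * r) = 4 →
    b * b' ∣ 3 * ((f' - i * (a' + b' - A)) * (a + 4 * b))

/-- the mirror -/
theorem RG.mirror {A b e f b' e' f' a a' m r m' r' : ℤ} (h : RG A b e f b' e' f' a a' m r m' r') :
    RG A b' e' (-f') b e (-f) a' a m' (-r') m (-r) := by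
  refine ⟨h.A0, h.b0', h.e0', h.b0, h.e0, h.a0', h.a0, h.Ab', h.Ab, h.ra', h.ra, ?_, ?_, ?_, ?_, ?_,
    ?_, ?_, ?_, ?_, ?_⟩
  · rw [mul_comm b' b]; exact h.hm'
  · have := h.hr'
    linear_combination -this
  · rw [mul_comm b' b]; exact h.hm
  · have := h.hr
    linear_combination -this
  · intro j hj
    have := h.w1' j (by rw [← hj]; congr 1; ring)
    obtain ⟨c, hc⟩ := this
    exact ⟨-c, by linear_combination -hc⟩
  · intro j hj
    obtain ⟨h1, h2⟩ := h.w2' j (by rw [← hj]; congr 1; ring)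
    refine ⟨by rw [mul_comm b' b]; exact h1, ?_⟩
    obtain ⟨c, hc⟩ := h2
    exact ⟨-c, by linear_combination -hc⟩
  · intro j hj
    have := h.w4' j (by rw [← hj]; congr 1; ring)
    obtain ⟨c, hc⟩ := this
    exact ⟨-c, by linear_combination -hc⟩
  · intro j hj
    have := h.w1 j (by rw [← hj]; congr 1; ring)
    obtain ⟨c, hc⟩ := this
    exact ⟨-c, by linear_combination -hc⟩
  · intro j hj
    obtain ⟨h1, h2⟩ := h.w2 j (by rw [← hj]; congr 1; ring)
    refine ⟨by rw [mul_comm b' b]; exact h1, ?_⟩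
    obtain ⟨c, hc⟩ := h2
    exact ⟨-c, by linear_combination -hc⟩
  · intro j hj
    have := h.w4 j (by rw [← hj]; congr 1; ring)
    obtain ⟨c, hc⟩ := this
    exact ⟨-c, by linear_combination -hc⟩

end Pool.Agent.H4G
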