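import Pool.Agent.H4G.Asym.PMrig
import Pool.Agent.H4G.Asym.RG

/-!
# R10: the output of the product-minimal frame in integers (helper31)
-/

set_option autoImplicit false

namespace Pool.Agent.H4G

/-- The rigidity data of a product-minimal state. -/
theorem PM.rg {S : PSt} {A b b' β : ℤ} (h : PM S A b b' β) {l p l' p' : Z2}
    (ad : Ad S l p l' p') :
    ∃ m r m' r' : ℤ, RG A b (cr S.u l) (cr S.u p) b' (cr l' S.v) (cr p' S.v) (cr p l) (cr l' p')
        m r m' r' ∧
      cr S.u l + cr l' l = b * m ∧ cr S.u p + cr l' p = b * r ∧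
      cr l' S.v + cr l' l = b' * m' ∧ cr p' S.v + cr p' l = b' * r' := by
  obtain ⟨e1, e2, hβ, hβ'⟩ := h.num ad
  obtain ⟨⟨m, hm⟩, ⟨r, hr⟩, ⟨m', hm'⟩, ⟨r', hr'⟩⟩ := h.rig ad
  refine ⟨m, r, m', r', ?_, hm, hr, hm', hr'⟩
  have E1 := ad.area
  have E2 := ad.area'
  have hA := h.hA
  rw [hA, e1] at E1
  rw [hA, e2] at E2
  have P1 : cr l' l * b' = cr l' p' * cr S.u l := by
    have := plucker l' p' S.u l
    rw [cr_swap l' S.u, ad.h4, cr_swap p' S.u, e2] at this
    linarith
  have P2 : cr l' p * b' = cr l' p' * cr S.u p := by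
    have := plucker l' p' S.u p
    rw [cr_swap l' S.u, ad.h4, cr_swap p' S.u, e2] at this
    linarith
  have P3 : cr l' l * b = cr p l * cr l' S.v := by
    have := plucker p l l' S.v
    rw [ad.h1, e1, cr_swap l l'] at this
    linarith
  have P4 : cr p' l * b = cr p l * cr p' S.v := by
    have := plucker p l p' S.v
    rw [ad.h1, e1, cr_swap l p'] at this
    linarith
  have hAb : A ≤ b := h.Aβ.le.trans hβ
  have hAb' : A ≤ b' := h.Aβ.le.trans hβ'
  have hA0 : 0 < A := by rw [← hA]; exact ad.hA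
  refine ⟨hA0, h.hb.1, ad.h2, h.hb'.1, ad.h5, ad.pos, ad.pos', hAb, hAb', E1, E2, ?_, ?_, ?_, ?_,
    ?_, ?_, ?_, ?_, ?_, ?_⟩
  · linear_combination (-b') * hm + P1
  · linear_combination (-b') * hr + P2
  · linear_combination (-b) * hm' + P3
  · linear_combination (-b) * hr' + P4
  · intro j hj
    exact (h.w1 ad hm' hr' hj).2
  · intro j hj
    exact h.w2 ad hm' hr' hj
  · intro j hj
    exact (h.w4 ad hm' hr' hj).2
  · intro i hi
    exact (h.w1' ad hm hr hi).2
  · intro i hi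
    exact h.w2' ad hm hr hi
  · intro i hi
    exact (h.w4' ad hm hr hi).2

/-- The mirror of a product-minimal state. -/
theorem PM.mirror {S : PSt} {A b b' β : ℤ} (h : PM S A b b' β) :
    PM ⟨S.L', S.v, -S.u, S.L⟩ A b' b β := by
  have m1 := SEq.mirror (L := S.L) (L' := S.L') (u := S.u) (v := S.v) h.ok
  refine ⟨m1.ok', ?_, h.hb'.neg, h.hb, h.Aβ, fun T c k1 k2 => h.lb T c (m1.trans k1) k2, ?_⟩
  · dsimp only
    rw [cr_neg_right, cr_swap S.v S.u, neg_neg]; exact h.hA
  · intro T c c' k1 k2 k3 k4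
    rw [mul_comm b' b]
    exact h.min T c c' (m1.trans k1) k2 k3 k4

end Pool.Agent.H4G
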