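import Pool.Agent.H4G.Asym.Defs

/-!
# R10: product-minimal states (helper31)

Existence of product-minimal states and their rigidity under the V- and H-twists.
-/

set_option autoImplicit false

namespace Pool.Agent.H4G

/-! ## CRT without minimality -/

/-- some pair `i B₁, b - i B₂` has the gcd `gcd (b, B₁, B₂)` -/
theorem crt_quasi_pm {b B1 B2 : ℤ} (hb : 0 < b) (hB1 : B1 ≠ 0) :
    ∃ i : ℤ, (Int.gcd (i * B1) (b - i * B2) : ℤ) = (Int.gcd b ((Int.gcd B1 B2 : ℕ) : ℤ) : ℕ) := by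
  set G : ℤ := ((Int.gcd b ((Int.gcd B1 B2 : ℕ) : ℤ) : ℕ) : ℤ) with hG
  have hGpos : 0 < G := by
    rw [hG]
    have : 0 < Int.gcd b (Int.gcd B1 B2) := Int.gcd_pos_of_ne_zero_left _ hb.ne'
    exact_mod_cast this
  obtain ⟨g', hg'⟩ : G ∣ b := by rw [hG]; exact Int.gcd_dvd_left _ _
  have hB : G ∣ (Int.gcd B1 B2 : ℤ) := by rw [hG]; exact Int.gcd_dvd_right _ _
  have hB1' : G ∣ B1 := hB.trans (Int.gcd_dvd_left _ _)
  have hB2' : G ∣ B2 := hB.trans (Int.gcd_dvd_right _ _)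
  obtain ⟨b1, hb1⟩ := hB1'
  obtain ⟨b2, hb2⟩ := hB2'
  have hg'0 : 0 < g' := by
    rcases lt_trichotomy g' 0 with h | h | h
    · have := mul_neg_of_pos_of_neg hGpos h
      omega
    · rw [h, mul_zero] at hg'; omega
    · exact h
  have hb10 : b1 ≠ 0 := by rintro rfl; exact hB1 (by rw [hb1, mul_zero])
  have hcop : ∀ l : ℕ, l.Prime → (l : ℤ) ∣ g' → (l : ℤ) ∣ b1 → ¬ (l : ℤ) ∣ b2 := by
    intro l hl h1 h2 h3
    have h4 : G * l ∣ G := by
      conv_rhs => rw [hG]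
      refine Int.dvd_coe_gcd ?_ (Int.dvd_coe_gcd ?_ ?_)
      · rw [hg']; exact mul_dvd_mul_left G h1
      · rw [hb1]; exact mul_dvd_mul_left G h2
      · rw [hb2]; exact mul_dvd_mul_left G h3
    have h5 : (l : ℤ) ∣ 1 := by
      have : G * l ∣ G * 1 := by rwa [mul_one]
      exact (mul_dvd_mul_iff_left hGpos.ne').1 this
    exact prime_not_dvd_one hl h5
  obtain ⟨j, hj⟩ := crt_exists (g' * b1) (mul_ne_zero hg'0.ne' hb10)
    (fun l j => ((l : ℤ) ∣ g' → ¬ (l : ℤ) ∣ j) ∧ ((l : ℤ) ∣ b1 → ¬ (l : ℤ) ∣ g' - j * b2))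
    (fun l hl _ => by
      by_cases h1 : (l : ℤ) ∣ g'
      · refine ⟨1, fun _ => prime_not_dvd_one hl, fun h2 h3 => hcop l hl h1 h2 ?_⟩
        have := dvd_sub h1 h3
        simpa using this
      · exact ⟨0, fun h => absurd h h1, fun _ => by simpa using h1⟩)
    (fun l hl _ k k' h1 h2 => by
      refine ⟨fun h3 h4 => h2.1 h3 ?_, fun h3 h4 => h2.2 h3 ?_⟩
      · have := dvd_sub h4 h1
        simpa using this
      · have : g' - k * b2 = (g' - k' * b2) + (k' - k) * b2 := by ring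
        rw [this]
        exact dvd_add h4 (h1.mul_right b2))
  have key : Int.gcd (j * b1) (g' - j * b2) = 1 := by
    by_contra hne
    obtain ⟨l, hl, hd⟩ := Nat.exists_prime_and_dvd hne
    have k1 : (l : ℤ) ∣ j * b1 := (Int.natCast_dvd_natCast.2 hd).trans (Int.gcd_dvd_left _ _)
    have k2 : (l : ℤ) ∣ g' - j * b2 := (Int.natCast_dvd_natCast.2 hd).trans (Int.gcd_dvd_right _ _)
    rcases (Nat.prime_iff_prime_int.1 hl).dvd_or_dvd k1 with h | h
    · have h3 : (l : ℤ) ∣ g' := by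
        have := dvd_add k2 (h.mul_right b2)
        simpa using this
      exact (hj l hl (h3.mul_right _)).1 h3 h
    · exact (hj l hl (h.mul_left _)).2 h k2
  refine ⟨j, ?_⟩
  have e1 : j * B1 = G * (j * b1) := by rw [hb1]; ring
  have e2 : b - j * B2 = G * (g' - j * b2) := by
    conv_lhs => rw [hg', hb2]
    ring
  rw [e1, e2, Int.gcd_mul_left, key, mul_one, Int.natAbs_of_nonneg hGpos.le]

/-! ## The twists with their gcds -/

theorem Ad.vl_ne {S : PSt} {l p l' p' : Z2} (ad : Ad S l p l' p') : cr (S.v + l) l' ≠ 0 := by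
  have k1 := plucker l l' S.u S.v
  rw [ad.h1, cr_swap l' S.u, ad.h4, cr_swap l S.u] at k1
  have k2 : 0 < cr S.u l * cr l' S.v := mul_pos ad.h2 ad.h5
  have k3 : cr l l' * cr S.u S.v < 0 := by linarith
  have k4 : cr l l' < 0 := by
    by_contra hn
    push Not at hn
    have := mul_nonneg hn ad.hA.le
    linarith
  have k5 := ad.h5
  rw [cr_add_left, cr_swap S.v l']
  omega

theorem Ad.ul_ne {S : PSt} {l p l' p' : Z2} (ad : Ad S l p l' p') : cr (S.u + l') l ≠ 0 := by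
  have k1 := plucker l l' S.u S.v
  rw [ad.h1, cr_swap l' S.u, ad.h4, cr_swap l S.u] at k1
  have k2 : 0 < cr S.u l * cr l' S.v := mul_pos ad.h2 ad.h5
  have k3 : cr l l' * cr S.u S.v < 0 := by linarith
  have k4 : cr l l' < 0 := by
    by_contra hn
    push Not at hn
    have := mul_nonneg hn ad.hA.le
    linarith
  have k5 := ad.h2
  rw [cr_add_left, cr_swap l' l]
  omega

/-- the V-twist with all its numbers -/
theorem Ad.twVs {S : PSt} {l p l' p' : Z2} (ad : Ad S l p l' p') (hok : S.Ok)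
    (hA : cr S.u S.v ≤ cr p S.v) {c c' : ℤ} (hc : IsC S.L S.v c) (hc' : IsC S.L' S.u c') (j : ℤ) :
    SEq S ⟨lat l (p - j • S.v), S.u - j • (S.v + l), S.v, S.L'⟩ ∧
    IsC (lat l (p - j • S.v)) S.v c ∧
    IsC S.L' (S.u - j • (S.v + l))
      (Int.gcd (j * cr (S.v + l) l') (c' - j * cr (S.v + l) p') : ℕ) ∧
    cr (S.u - j • (S.v + l)) S.v = cr S.u S.v := by
  have e1 : cr p S.v = c := ad.isC.unique hc
  have e2 : cr S.u p' = c' := ad.isC'.unique hc'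
  have k1 := ad.twV hok hA j
  have k2 : IsC (lat l (p - j • S.v)) S.v c := by
    have : cr (p - j • S.v) S.v = c := by rw [cr_sub_left, cr_smul_left, cr_self, e1]; ring
    rw [← this]
    exact isC_of_par ad.h1 (by rw [this]; exact hc.1)
  have e3 : cr (S.u - j • (S.v + l)) S.v = cr S.u S.v := by
    rw [cr_sub_left, cr_smul_left, cr_add_left, cr_self, ad.h1]; ring
  have e4 : cr (S.u - j • (S.v + l)) l' = -(j * cr (S.v + l) l') := by
    rw [cr_sub_left, cr_smul_left, ad.h4]; ring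
  have e5 : cr (S.u - j • (S.v + l)) p' = c' - j * cr (S.v + l) p' := by
    rw [cr_sub_left, cr_smul_left, e2]
  have hc'0 := hc'.1
  refine ⟨k1, k2, ?_, e3⟩
  have := isC_lat (x := l') (y := p') (u := S.u - j • (S.v + l)) (by
    rw [e4, e5]
    rcases eq_or_ne j 0 with hj | hj
    · right; rw [hj]; simp; omega
    · left
      exact neg_ne_zero.2 (mul_ne_zero hj ad.vl_ne))
  rw [e4, e5, Int.neg_gcd, ← ad.hL'] at this
  exact this

/-- the H-twist with all its numbers -/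
theorem Ad.twHs {S : PSt} {l p l' p' : Z2} (ad : Ad S l p l' p') (hok : S.Ok)
    (hA : cr S.u S.v ≤ cr S.u p') {c c' : ℤ} (hc : IsC S.L S.v c) (hc' : IsC S.L' S.u c') (i : ℤ) :
    SEq S ⟨S.L, S.u, S.v + i • (S.u + l'), lat l' (p' + i • S.u)⟩ ∧
    IsC S.L (S.v + i • (S.u + l'))
      (Int.gcd (i * cr (S.u + l') l) (c - i * cr (S.u + l') p) : ℕ) ∧
    IsC (lat l' (p' + i • S.u)) S.u c' ∧
    cr S.u (S.v + i • (S.u + l')) = cr S.u S.v := by
  have e1 : cr p S.v = c := ad.isC.unique hc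
  have e2 : cr S.u p' = c' := ad.isC'.unique hc'
  have k1 := ad.twH hok hA i
  have k2 : IsC (lat l' (p' + i • S.u)) S.u c' := by
    have : cr S.u (p' + i • S.u) = c' := by rw [cr_add_right, cr_smul_right, cr_self, e2]; ring
    rw [← this]
    exact isC_adapted ad.h4 (by rw [this]; exact hc'.1)
  have e3 : cr S.u (S.v + i • (S.u + l')) = cr S.u S.v := by
    rw [cr_add_right, cr_smul_right, cr_add_right, cr_self, ad.h4]; ring
  have e4 : cr (S.v + i • (S.u + l')) l = i * cr (S.u + l') l := by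
    rw [cr_add_left, cr_smul_left, cr_swap S.v l, ad.h1]; ring
  have e5 : cr (S.v + i • (S.u + l')) p = -(c - i * cr (S.u + l') p) := by
    rw [cr_add_left, cr_smul_left, cr_swap S.v p, e1]; ring
  have hc0 := hc.1
  refine ⟨k1, ?_, k2, e3⟩
  have := isC_lat (x := l) (y := p) (u := S.v + i • (S.u + l')) (by
    rw [e4, e5]
    rcases eq_or_ne i 0 with hj | hj
    · right; rw [hj]; simp; omega
    · left
      exact mul_ne_zero hj ad.ul_ne)
  rw [e4, e5, Int.gcd_neg, ← ad.hL] at this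
  exact this

/-! ## Product-minimal states -/

theorem PM.le {S T : PSt} {A b b' β : ℤ} (h : PM S A b b' β) (hST : SEq S T) {c : ℤ}
    (hc : IsC T.L T.v c) : β ≤ c := h.lb T c hST hc

theorem PM.le' {S T : PSt} {A b b' β : ℤ} (h : PM S A b b' β) (hST : SEq S T) {c : ℤ}
    (hc : IsC T.L' T.u c) : β ≤ c := by
  have m1 := SEq.mirror (L := T.L) (L' := T.L') (u := T.u) (v := T.v) hST.ok'
  exact h.lb _ c (hST.trans m1) hc.neg

/-- existence of product-minimal states: general form -/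
theorem exists_PM_of {S : PSt} {A β : ℤ} (hS : S.Ok) (hA : cr S.u S.v = A) (hβ : A < β)
    (lb : ∀ (T : PSt) (c : ℤ), SEq S T → IsC T.L T.v c → β ≤ c) :
    ∃ (T : PSt) (b b' : ℤ), SEq S T ∧ PM T A b b' β := by
  obtain ⟨l, p, l', p', ad⟩ := exists_Ad hS
  obtain ⟨m, ⟨T, c, c', k1, k2, k3, k4, k5⟩, hmin⟩ := exists_min_int
    (P := fun m => ∃ (T : PSt) (c c' : ℤ), SEq S T ∧ cr T.u T.v = A ∧ IsC T.L T.v c ∧
      IsC T.L' T.u c' ∧ m = c * c')
    (fun m ⟨T, c, c', _, _, h1, h2, h3⟩ => by rw [h3]; exact mul_pos h1.1 h2.1)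
    ⟨_, S, _, _, hS.seq, hA, ad.isC, ad.isC', rfl⟩
  refine ⟨T, c, c', k1, k1.ok', k2, k3, k4, hβ, fun T2 d h1 h2 => lb T2 d (k1.trans h1) h2, ?_⟩
  intro T2 d d' h1 h2 h3 h4
  rw [← k5]
  exact hmin _ ⟨T2, d, d', k1.trans h1, h2, h3, h4, rfl⟩

/-- existence of product-minimal states, from an extremal state with `A < b` -/
theorem exists_PM {S : PSt} {b b' : ℤ} (h : Ext S b b') (hA : cr S.u S.v < b) :
    ∃ (T : PSt) (c c' : ℤ), SEq S T ∧ PM T (cr S.u S.v) c c' b :=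
  exists_PM_of h.ok rfl hA h.min

/-- H-twists of an equivalent state with the same `A` -/
theorem PM.quasiH {S T : PSt} {A b b' β : ℤ} (h : PM S A b b' β) (hST : SEq S T)
    (hAT : cr T.u T.v = A) {c c' : ℤ} (hc : IsC T.L T.v c) (hc' : IsC T.L' T.u c') :
    ∃ d : ℤ, 0 < d ∧ d ∣ c ∧ b * b' ≤ d * c' ∧
      ∀ (x : Z2), x ∈ T.L → ∀ a' : ℤ, IsArea T.L' a' → d * c' ∣ (a' + c') * cr T.u x := by
  obtain ⟨l, p, l', p', ad⟩ := exists_Ad hST.ok'
  have e2 : cr T.u p' = c' := ad.isC'.unique hc'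
  have hA : cr T.u T.v ≤ cr T.u p' := by
    rw [hAT, e2]; exact h.Aβ.le.trans (h.le' hST hc')
  obtain ⟨i, hi⟩ := crt_quasi_pm (b := c) (B1 := cr (T.u + l') l) (B2 := cr (T.u + l') p) hc.1 ad.ul_ne
  obtain ⟨k1, k2, k3, k4⟩ := ad.twHs hST.ok' hA hc hc' i
  rw [hi] at k2
  have hd1 : ((Int.gcd c ((Int.gcd (cr (T.u + l') l) (cr (T.u + l') p) : ℕ) : ℤ) : ℕ) : ℤ) ∣ c :=
    Int.gcd_dvd_left _ _
  have hd2 := Int.gcd_dvd_right c ((Int.gcd (cr (T.u + l') l) (cr (T.u + l') p) : ℕ) : ℤ)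
  refine ⟨_, k2.1, hd1, h.min _ _ _ (hST.trans k1) (by dsimp only; rw [k4, hAT]) k2 k3, ?_⟩
  intro x hx a' ha'
  have e3 : cr l' p' = a' := ad.isArea'.unique ha'
  have e4 := ad.area'
  rw [e2, e3] at e4
  have h1 := hd2.trans (Int.gcd_dvd_left _ _)
  have h2 := hd2.trans (Int.gcd_dvd_right _ _)
  have e5 : ((Int.gcd c ((Int.gcd (cr (T.u + l') l) (cr (T.u + l') p) : ℕ) : ℤ) : ℕ) : ℤ) ∣
      cr (T.u + l') x := by
    rw [ad.hL] at hx
    obtain ⟨m, n, e⟩ := mem_lat.1 hx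
    rw [← e, cr_add_right, cr_smul_right, cr_smul_right]
    exact dvd_add (h1.mul_left _) (h2.mul_left _)
  have e6 : cr (T.u + l') x * cr T.u T.v = (cr T.u T.v + cr l' T.v) * cr T.u x := by
    have := plucker l' x T.u T.v
    rw [cr_swap l' T.u, ad.h4, cr_swap x T.u] at this
    rw [cr_add_left]
    linear_combination this
  have e7 : cr (T.u + l') x * c' = (a' + c') * cr T.u x := by
    have hA0 := ad.hA
    have : (cr (T.u + l') x * c' - (a' + c') * cr T.u x) * cr T.u T.v = 0 := by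
      linear_combination c' * e6 - cr T.u x * e4
    rcases mul_eq_zero.1 this with h9 | h9
    · linarith
    · omega
  rw [← e7]
  exact mul_dvd_mul_right e5 c'

/-- V-twists of an equivalent state with the same `A` -/
theorem PM.quasiV {S T : PSt} {A b b' β : ℤ} (h : PM S A b b' β) (hST : SEq S T)
    (hAT : cr T.u T.v = A) {c c' : ℤ} (hc : IsC T.L T.v c) (hc' : IsC T.L' T.u c') :
    ∃ d : ℤ, 0 < d ∧ d ∣ c' ∧ b * b' ≤ c * d ∧
      ∀ (x : Z2), x ∈ T.L' → ∀ a : ℤ, IsArea T.L a → d * c ∣ (a + c) * cr T.v x := by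
  obtain ⟨l, p, l', p', ad⟩ := exists_Ad hST.ok'
  have e1 : cr p T.v = c := ad.isC.unique hc
  have hA : cr T.u T.v ≤ cr p T.v := by
    rw [hAT, e1]; exact h.Aβ.le.trans (h.le hST hc)
  obtain ⟨j, hj⟩ := crt_quasi_pm (b := c') (B1 := cr (T.v + l) l') (B2 := cr (T.v + l) p') hc'.1 ad.vl_ne
  obtain ⟨k1, k2, k3, k4⟩ := ad.twVs hST.ok' hA hc hc' j
  rw [hj] at k3
  have hd1 : ((Int.gcd c' ((Int.gcd (cr (T.v + l) l') (cr (T.v + l) p') : ℕ) : ℤ) : ℕ) : ℤ) ∣ c' :=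
    Int.gcd_dvd_left _ _
  have hd2 := Int.gcd_dvd_right c' ((Int.gcd (cr (T.v + l) l') (cr (T.v + l) p') : ℕ) : ℤ)
  refine ⟨_, k3.1, hd1, h.min _ _ _ (hST.trans k1) (by dsimp only; rw [k4, hAT]) k2 k3, ?_⟩
  intro x hx a ha
  have e3 : cr p l = a := ad.isArea.unique ha
  have e4 := ad.area
  rw [e1, e3] at e4
  have h1 := hd2.trans (Int.gcd_dvd_left _ _)
  have h2 := hd2.trans (Int.gcd_dvd_right _ _)
  have e5 : ((Int.gcd c' ((Int.gcd (cr (T.v + l) l') (cr (T.v + l) p') : ℕ) : ℤ) : ℕ) : ℤ) ∣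
      cr (T.v + l) x := by
    rw [ad.hL'] at hx
    obtain ⟨m, n, e⟩ := mem_lat.1 hx
    rw [← e, cr_add_right, cr_smul_right, cr_smul_right]
    exact dvd_add (h1.mul_left _) (h2.mul_left _)
  have e6 : cr (T.v + l) x * cr T.u T.v = (cr T.u T.v + cr T.u l) * cr T.v x := by
    have := plucker l x T.u T.v
    rw [ad.h1, cr_swap l T.u, cr_swap x T.v] at this
    rw [cr_add_left]
    linear_combination this
  have e7 : cr (T.v + l) x * c = (a + c) * cr T.v x := by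
    have hA0 := ad.hA
    have : (cr (T.v + l) x * c - (a + c) * cr T.v x) * cr T.u T.v = 0 := by
      linear_combination c * e6 - cr T.v x * e4
    rcases mul_eq_zero.1 this with h9 | h9
    · linarith
    · omega
  rw [← e7]
  exact mul_dvd_mul_right e5 c

/-! ## Rigidity of the product-minimal state -/

theorem PM.num {S : PSt} {A b b' β : ℤ} (h : PM S A b b' β) {l p l' p' : Z2}
    (ad : Ad S l p l' p') : cr p S.v = b ∧ cr S.u p' = b' ∧ β ≤ b ∧ β ≤ b' :=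
  ⟨ad.isC.unique h.hb, ad.isC'.unique h.hb', h.le h.ok.seq h.hb, h.le' h.ok.seq h.hb'⟩

/-- V- and H-rigidity -/
theorem PM.rig {S : PSt} {A b b' β : ℤ} (h : PM S A b b' β) {l p l' p' : Z2}
    (ad : Ad S l p l' p') :
    b ∣ cr S.u l + cr l' l ∧ b ∣ cr S.u p + cr l' p ∧
    b' ∣ cr l' S.v + cr l' l ∧ b' ∣ cr p' S.v + cr p' l := by
  obtain ⟨e1, e2, hβ, hβ'⟩ := h.num ad
  have hA : cr S.u S.v ≤ cr p S.v := by rw [e1, h.hA]; exact h.Aβ.le.trans hβ
  have hA' : cr S.u S.v ≤ cr S.u p' := by rw [e2, h.hA]; exact h.Aβ.le.trans hβ'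
  have hb0 := h.hb.1
  have hb0' := h.hb'.1
  have H := crt_min (g := b) (B1 := cr (S.u + l') l) (B2 := cr (S.u + l') p) hb0 ad.ul_ne
    (fun i => by
      obtain ⟨k1, k2, k3, k4⟩ := ad.twHs h.ok hA' h.hb h.hb' i
      have := h.min _ _ _ k1 (by dsimp only; rw [k4, h.hA]) k2 k3
      exact le_of_mul_le_mul_right this hb0')
  have V := crt_min (g := b') (B1 := cr (S.v + l) l') (B2 := cr (S.v + l) p') hb0' ad.vl_ne
    (fun j => by
      obtain ⟨k1, k2, k3, k4⟩ := ad.twVs h.ok hA h.hb h.hb' j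
      have := h.min _ _ _ k1 (by dsimp only; rw [k4, h.hA]) k2 k3
      exact le_of_mul_le_mul_left this hb0)
  rw [cr_add_left] at H
  rw [cr_add_left] at H
  rw [cr_add_left] at V
  rw [cr_add_left] at V
  refine ⟨H.1, H.2, ?_, ?_⟩
  · rw [cr_swap l' S.v, cr_swap l' l, ← neg_add]
    exact (dvd_neg).2 V.1
  · rw [cr_swap p' S.v, cr_swap p' l, ← neg_add]
    exact (dvd_neg).2 V.2

/-- The gcd after a V-twist: `b'_j = b' gcd (m', 1 + j r')`. -/
theorem gcd_twist {b m r j : ℤ} (hb : 0 < b) :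
    (Int.gcd (j * (b * m)) (b + j * (b * r)) : ℤ) = b * (Int.gcd m (1 + j * r) : ℕ) := by
  have e1 : j * (b * m) = b * (j * m) := by ring
  have e2 : b + j * (b * r) = b * (1 + j * r) := by ring
  rw [e1, e2, Int.gcd_mul_left, Nat.cast_mul, Int.natAbs_of_nonneg hb.le]
  congr 2
  have hco : IsCoprime j (1 + j * r) := ⟨-r, 1, by ring⟩
  apply Nat.dvd_antisymm
  · refine Int.natCast_dvd_natCast.1 (Int.dvd_coe_gcd ?_ (Int.gcd_dvd_right _ _))
    have h1 : IsCoprime ((Int.gcd (j * m) (1 + j * r) : ℕ) : ℤ) j :=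
      (hco.of_isCoprime_of_dvd_right (Int.gcd_dvd_right _ _)).symm
    exact h1.dvd_of_dvd_mul_left (Int.gcd_dvd_left _ _)
  · exact Int.natCast_dvd_natCast.1
      (Int.dvd_coe_gcd ((Int.gcd_dvd_left _ _).mul_left j) (Int.gcd_dvd_right _ _))

/-- GENERAL FORM, V-twists: `w = gcd (m', 1 + j r')`. -/
theorem PM.wV {S : PSt} {A b b' β : ℤ} (h : PM S A b b' β) {l p l' p' : Z2}
    (ad : Ad S l p l' p') {m' r' : ℤ} (hm : cr l' S.v + cr l' l = b' * m')
    (hr : cr p' S.v + cr p' l = b' * r') (j : ℤ) {w : ℤ}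
    (hw : (Int.gcd m' (1 + j * r') : ℤ) = w) :
    ∃ d : ℤ, 0 < d ∧ d ∣ b ∧ b ≤ d * w ∧
      d * (w * b') ∣ (cr l' p' + w * b') * cr S.u l ∧
      d * (w * b') ∣ (cr l' p' + w * b') *
        (cr S.u p + j * (cr p l + cr p S.v - cr S.u S.v)) := by
  obtain ⟨e1, e2, hβ, hβ'⟩ := h.num ad
  have hA : cr S.u S.v ≤ cr p S.v := by rw [e1, h.hA]; exact h.Aβ.le.trans hβ
  have hb0 := h.hb.1
  have hb0' := h.hb'.1
  obtain ⟨k1, k2, k3, k4⟩ := ad.twVs h.ok hA h.hb h.hb' j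
  have e3 : (Int.gcd (j * cr (S.v + l) l') (b' - j * cr (S.v + l) p') : ℤ) = w * b' := by
    have f1 : cr (S.v + l) l' = -(b' * m') := by
      rw [cr_add_left, cr_swap S.v l', cr_swap l l', ← hm]; ring
    have f2 : cr (S.v + l) p' = -(b' * r') := by
      rw [cr_add_left, cr_swap S.v p', cr_swap l p', ← hr]; ring
    rw [f1, f2]
    have f3 : j * -(b' * m') = -(j * (b' * m')) := by ring
    have f4 : b' - j * -(b' * r') = b' + j * (b' * r') := by ring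
    rw [f3, f4, Int.neg_gcd, gcd_twist hb0', hw]; ring
  rw [e3] at k3
  obtain ⟨d, d1, d2, d3, d4⟩ := h.quasiH k1 (by dsimp only; rw [k4, h.hA]) k2 k3
  refine ⟨d, d1, d2, ?_, ?_, ?_⟩
  · have : b * b' ≤ (d * w) * b' := by linarith
    exact le_of_mul_le_mul_right this hb0'
  · have := d4 l (mem_lat.2 ⟨1, 0, by module⟩) _ ad.isArea'
    dsimp only at this
    have e4 : cr (S.u - j • (S.v + l)) l = cr S.u l := by
      rw [cr_sub_left, cr_smul_left, cr_add_left, cr_self, cr_swap S.v l, ad.h1]; ring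
    rwa [e4] at this
  · have := d4 (p - j • S.v) (mem_lat.2 ⟨0, 1, by module⟩) _ ad.isArea'
    dsimp only at this
    have e4 : cr (S.u - j • (S.v + l)) (p - j • S.v)
        = cr S.u p + j * (cr p l + cr p S.v - cr S.u S.v) := by
      simp only [cr_sub_left, cr_add_left, cr_smul_left, cr_sub_right, cr_smul_right, cr_self]
      rw [cr_swap S.v p, cr_swap l p, ad.h1]; ring
    rwa [e4] at this

/-- GENERAL FORM, H-twists: `w = gcd (m, 1 - i r)`. -/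
theorem PM.wH {S : PSt} {A b b' β : ℤ} (h : PM S A b b' β) {l p l' p' : Z2}
    (ad : Ad S l p l' p') {m r : ℤ} (hm : cr S.u l + cr l' l = b * m)
    (hr : cr S.u p + cr l' p = b * r) (i : ℤ) {w : ℤ}
    (hw : (Int.gcd m (1 - i * r) : ℤ) = w) :
    ∃ d : ℤ, 0 < d ∧ d ∣ b' ∧ b' ≤ d * w ∧
      d * (w * b) ∣ (cr p l + w * b) * cr l' S.v ∧
      d * (w * b) ∣ (cr p l + w * b) *
        (cr p' S.v - i * (cr l' p' + cr S.u p' - cr S.u S.v)) := by
  obtain ⟨e1, e2, hβ, hβ'⟩ := h.num ad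
  have hA : cr S.u S.v ≤ cr S.u p' := by rw [e2, h.hA]; exact h.Aβ.le.trans hβ'
  have hb0 := h.hb.1
  have hb0' := h.hb'.1
  obtain ⟨k1, k2, k3, k4⟩ := ad.twHs h.ok hA h.hb h.hb' i
  have e3 : (Int.gcd (i * cr (S.u + l') l) (b - i * cr (S.u + l') p) : ℤ) = w * b := by
    rw [cr_add_left, cr_add_left, hm, hr]
    have f4 : b - i * (b * r) = b + (-i) * (b * r) := by ring
    have f3 : i * (b * m) = -((-i) * (b * m)) := by ring
    rw [f3, f4, Int.neg_gcd, gcd_twist hb0]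
    have f5 : 1 + -i * r = 1 - i * r := by ring
    rw [f5, hw]; ring
  rw [e3] at k2
  obtain ⟨d, d1, d2, d3, d4⟩ := h.quasiV k1 (by dsimp only; rw [k4, h.hA]) k2 k3
  refine ⟨d, d1, d2, ?_, ?_, ?_⟩
  · have : b * b' ≤ b * (d * w) := by linarith
    exact le_of_mul_le_mul_left this hb0
  · have := d4 l' (mem_lat.2 ⟨1, 0, by module⟩) _ ad.isArea
    dsimp only at this
    have e4 : cr (S.v + i • (S.u + l')) l' = -cr l' S.v := by
      rw [cr_add_left, cr_smul_left, cr_add_left, cr_self, ad.h4, cr_swap S.v l']; ring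
    rw [e4, mul_neg, dvd_neg] at this
    exact this
  · have := d4 (p' + i • S.u) (mem_lat.2 ⟨0, 1, by module⟩) _ ad.isArea
    dsimp only at this
    have e4 : cr (S.v + i • (S.u + l')) (p' + i • S.u)
        = -(cr p' S.v - i * (cr l' p' + cr S.u p' - cr S.u S.v)) := by
      simp only [cr_add_left, cr_smul_left, cr_add_right, cr_smul_right, cr_self]
      rw [cr_swap S.v p', cr_swap S.v S.u, cr_swap l' S.u, ad.h4]; ring
    rw [e4, mul_neg, dvd_neg] at this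
    exact this

/-! ## The forms used by the local analysis -/

theorem dvd_of_quasi {b b' d w x : ℤ} (hb : 0 < b) (hd : 0 < d) (hdb : d ∣ b)
    (hle : b ≤ d * w) (h : d * (w * b') ∣ x) :
    ∃ c : ℤ, 0 < c ∧ c ≤ w ∧ w * (b * b') ∣ c * x := by
  obtain ⟨c, hc⟩ := hdb
  have hc0 : 0 < c := by
    rw [hc] at hb
    exact (mul_pos_iff_of_pos_left hd).1 hb
  refine ⟨c, hc0, ?_, ?_⟩
  · rw [hc] at hle
    exact le_of_mul_le_mul_left hle hd
  · obtain ⟨y, hy⟩ := h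
    exact ⟨y, by rw [hy, hc]; ring⟩

theorem dvd_case1 {B c x : ℤ} (h0 : 0 < c) (h1 : c ≤ 1) (h : 1 * B ∣ c * x) : B ∣ x := by
  have : c = 1 := by omega
  subst this
  simpa using h

theorem dvd_case2 {B c x : ℤ} (h0 : 0 < c) (h1 : c ≤ 2) (h : 2 * B ∣ c * x) : B ∣ x := by
  have : c = 1 ∨ c = 2 := by omega
  rcases this with rfl | rfl
  · rw [one_mul] at h
    exact (Dvd.intro_left 2 rfl).trans h
  · exact (mul_dvd_mul_iff_left two_ne_zero).1 h

theorem dvd_case4 {B c x : ℤ} (h0 : 0 < c) (h1 : c ≤ 4) (h : 4 * B ∣ c * x) : B ∣ 3 * x := by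
  have : c = 1 ∨ c = 2 ∨ c = 3 ∨ c = 4 := by omega
  rcases this with rfl | rfl | rfl | rfl
  · rw [one_mul] at h
    exact ((Dvd.intro_left 4 rfl).trans h).mul_left 3
  · have h2 : 2 * (2 * B) ∣ 2 * x := by
      have : 2 * (2 * B) = 4 * B := by ring
      rwa [this]
    have h3 := (mul_dvd_mul_iff_left (two_ne_zero : (2 : ℤ) ≠ 0)).1 h2
    exact ((Dvd.intro_left 2 rfl).trans h3).mul_left 3
  · exact (Dvd.intro_left 4 rfl).trans h
  · exact ((mul_dvd_mul_iff_left (by norm_num : (4 : ℤ) ≠ 0)).1 h).mul_left 3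

/-- (w1), V-side -/
theorem PM.w1 {S : PSt} {A b b' β : ℤ} (h : PM S A b b' β) {l p l' p' : Z2}
    (ad : Ad S l p l' p') {m' r' : ℤ} (hm : cr l' S.v + cr l' l = b' * m')
    (hr : cr p' S.v + cr p' l = b' * r') {j : ℤ} (hw : Int.gcd m' (1 + j * r') = 1) :
    b * b' ∣ cr S.u l * (cr l' p' + b') ∧
    b * b' ∣ (cr S.u p + j * (cr p l + b - A)) * (cr l' p' + b') := by
  obtain ⟨e1, e2, hβ, hβ'⟩ := h.num ad
  obtain ⟨d, d1, d2, d3, d4, d5⟩ := h.wV ad hm hr j (w := 1) (by rw [hw]; rfl)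
  obtain ⟨c, c1, c2, c3⟩ := dvd_of_quasi h.hb.1 d1 d2 d3 d4
  obtain ⟨c', c1', c2', c3'⟩ := dvd_of_quasi h.hb.1 d1 d2 d3 d5
  have r1 := dvd_case1 c1 c2 c3
  have r2 := dvd_case1 c1' c2' c3'
  rw [one_mul] at r1 r2
  rw [e1, h.hA] at r2
  exact ⟨by rw [mul_comm (cr S.u l)]; exact r1, by rw [mul_comm (cr S.u p + _)]; exact r2⟩

/-- (w2), V-side -/
theorem PM.w2 {S : PSt} {A b b' β : ℤ} (h : PM S A b b' β) {l p l' p' : Z2}
    (ad : Ad S l p l' p') {m' r' : ℤ} (hm : cr l' S.v + cr l' l = b' * m')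
    (hr : cr p' S.v + cr p' l = b' * r') {j : ℤ} (hw : Int.gcd m' (1 + j * r') = 2) :
    b * b' ∣ cr S.u l * (cr l' p' + 2 * b') ∧
    b * b' ∣ (cr S.u p + j * (cr p l + b - A)) * (cr l' p' + 2 * b') := by
  obtain ⟨e1, e2, hβ, hβ'⟩ := h.num ad
  obtain ⟨d, d1, d2, d3, d4, d5⟩ := h.wV ad hm hr j (w := 2) (by rw [hw]; rfl)
  obtain ⟨c, c1, c2, c3⟩ := dvd_of_quasi h.hb.1 d1 d2 d3 d4
  obtain ⟨c', c1', c2', c3'⟩ := dvd_of_quasi h.hb.1 d1 d2 d3 d5
  have r1 := dvd_case2 c1 c2 c3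
  have r2 := dvd_case2 c1' c2' c3'
  rw [e1, h.hA] at r2
  exact ⟨by rw [mul_comm (cr S.u l)]; exact r1, by rw [mul_comm (cr S.u p + _)]; exact r2⟩

/-- (w4), V-side -/
theorem PM.w4 {S : PSt} {A b b' β : ℤ} (h : PM S A b b' β) {l p l' p' : Z2}
    (ad : Ad S l p l' p') {m' r' : ℤ} (hm : cr l' S.v + cr l' l = b' * m')
    (hr : cr p' S.v + cr p' l = b' * r') {j : ℤ} (hw : Int.gcd m' (1 + j * r') = 4) :
    b * b' ∣ 3 * (cr S.u l * (cr l' p' + 4 * b')) ∧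
    b * b' ∣ 3 * ((cr S.u p + j * (cr p l + b - A)) * (cr l' p' + 4 * b')) := by
  obtain ⟨e1, e2, hβ, hβ'⟩ := h.num ad
  obtain ⟨d, d1, d2, d3, d4, d5⟩ := h.wV ad hm hr j (w := 4) (by rw [hw]; rfl)
  obtain ⟨c, c1, c2, c3⟩ := dvd_of_quasi h.hb.1 d1 d2 d3 d4
  obtain ⟨c', c1', c2', c3'⟩ := dvd_of_quasi h.hb.1 d1 d2 d3 d5
  have r1 := dvd_case4 c1 c2 c3
  have r2 := dvd_case4 c1' c2' c3'
  rw [e1, h.hA] at r2
  exact ⟨by rw [mul_comm (cr S.u l)]; exact r1, by rw [mul_comm (cr S.u p + _)]; exact r2⟩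

/-- (w1), H-side -/
theorem PM.w1' {S : PSt} {A b b' β : ℤ} (h : PM S A b b' β) {l p l' p' : Z2}
    (ad : Ad S l p l' p') {m r : ℤ} (hm : cr S.u l + cr l' l = b * m)
    (hr : cr S.u p + cr l' p = b * r) {i : ℤ} (hw : Int.gcd m (1 - i * r) = 1) :
    b * b' ∣ cr l' S.v * (cr p l + b) ∧
    b * b' ∣ (cr p' S.v - i * (cr l' p' + b' - A)) * (cr p l + b) := by
  obtain ⟨e1, e2, hβ, hβ'⟩ := h.num ad
  obtain ⟨d, d1, d2, d3, d4, d5⟩ := h.wH ad hm hr i (w := 1) (by rw [hw]; rfl)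
  obtain ⟨c, c1, c2, c3⟩ := dvd_of_quasi h.hb'.1 d1 d2 d3 d4
  obtain ⟨c', c1', c2', c3'⟩ := dvd_of_quasi h.hb'.1 d1 d2 d3 d5
  have r1 := dvd_case1 c1 c2 c3
  have r2 := dvd_case1 c1' c2' c3'
  rw [one_mul] at r1 r2
  rw [e2, h.hA] at r2
  rw [mul_comm b b']
  exact ⟨by rw [mul_comm (cr l' S.v)]; exact r1, by rw [mul_comm (cr p' S.v - _)]; exact r2⟩

/-- (w2), H-side -/
theorem PM.w2' {S : PSt} {A b b' β : ℤ} (h : PM S A b b' β) {l p l' p' : Z2}
    (ad : Ad S l p l' p') {m r : ℤ} (hm : cr S.u l + cr l' l = b * m)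
    (hr : cr S.u p + cr l' p = b * r) {i : ℤ} (hw : Int.gcd m (1 - i * r) = 2) :
    b * b' ∣ cr l' S.v * (cr p l + 2 * b) ∧
    b * b' ∣ (cr p' S.v - i * (cr l' p' + b' - A)) * (cr p l + 2 * b) := by
  obtain ⟨e1, e2, hβ, hβ'⟩ := h.num ad
  obtain ⟨d, d1, d2, d3, d4, d5⟩ := h.wH ad hm hr i (w := 2) (by rw [hw]; rfl)
  obtain ⟨c, c1, c2, c3⟩ := dvd_of_quasi h.hb'.1 d1 d2 d3 d4
  obtain ⟨c', c1', c2', c3'⟩ := dvd_of_quasi h.hb'.1 d1 d2 d3 d5
  have r1 := dvd_case2 c1 c2 c3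
  have r2 := dvd_case2 c1' c2' c3'
  rw [e2, h.hA] at r2
  rw [mul_comm b b']
  exact ⟨by rw [mul_comm (cr l' S.v)]; exact r1, by rw [mul_comm (cr p' S.v - _)]; exact r2⟩

/-- (w4), H-side -/
theorem PM.w4' {S : PSt} {A b b' β : ℤ} (h : PM S A b b' β) {l p l' p' : Z2}
    (ad : Ad S l p l' p') {m r : ℤ} (hm : cr S.u l + cr l' l = b * m)
    (hr : cr S.u p + cr l' p = b * r) {i : ℤ} (hw : Int.gcd m (1 - i * r) = 4) :
    b * b' ∣ 3 * (cr l' S.v * (cr p l + 4 * b)) ∧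
    b * b' ∣ 3 * ((cr p' S.v - i * (cr l' p' + b' - A)) * (cr p l + 4 * b)) := by
  obtain ⟨e1, e2, hβ, hβ'⟩ := h.num ad
  obtain ⟨d, d1, d2, d3, d4, d5⟩ := h.wH ad hm hr i (w := 4) (by rw [hw]; rfl)
  obtain ⟨c, c1, c2, c3⟩ := dvd_of_quasi h.hb'.1 d1 d2 d3 d4
  obtain ⟨c', c1', c2', c3'⟩ := dvd_of_quasi h.hb'.1 d1 d2 d3 d5
  have r1 := dvd_case4 c1 c2 c3
  have r2 := dvd_case4 c1' c2' c3'
  rw [e2, h.hA] at r2
  rw [mul_comm b b']
  exact ⟨by rw [mul_comm (cr l' S.v)]; exact r1, by rw [mul_comm (cr p' S.v - _)]; exact r2⟩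

end Pool.Agent.H4G
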