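import Pool.Agent.H4G.Asym.R2
import Pool.Agent.H4G.Asym.Num

/-!
# The parameters of the asymptotic argument (helper65)
-/

set_option autoImplicit false

namespace Pool.Agent.H4G

/-- the parameters: `J` is the sieve length, `M` the `30`-th root of `N` -/
structure Par (N M J : ℕ) : Prop where
  J1 : 2 ^ 10 ≤ J
  KM : K0 * J ^ 10 ≤ M
  lo : M ^ 30 ≤ N
  hi : N < (M + 1) ^ 30
  cap : Cap J (N ^ 6)

theorem exists_par : ∃ N0 : ℕ, ∀ N ≥ N0, ∃ M J : ℕ, Par N M J := by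
  obtain ⟨N0, h⟩ := cap_exists (max K0 (2 ^ 10)) 330 6
  refine ⟨N0, fun N hN => ?_⟩
  obtain ⟨J, h1, h2, h3⟩ := h N hN
  have hK : K0 ≤ J := le_trans (le_max_left _ _) h1
  have hJ : 2 ^ 10 ≤ J := le_trans (le_max_right _ _) h1
  have hJ0 : 0 < J := by omega
  have e1 : K0 * J ^ 10 ≤ J ^ 11 := by
    calc K0 * J ^ 10 ≤ J * J ^ 10 := Nat.mul_le_mul_right _ hK
      _ = J ^ 11 := by ring
  have e2 : (J ^ 11) ^ 30 ≤ N := by rwa [← pow_mul]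
  have e3 : J ^ 11 ≤ N := le_trans (Nat.pow_le_pow_right hJ0 (by norm_num)) h2
  set M := Nat.findGreatest (fun M => M ^ 30 ≤ N) N with hM
  have g1 : J ^ 11 ≤ M := Nat.le_findGreatest e3 e2
  have g2 : M ^ 30 ≤ N := Nat.findGreatest_spec (P := fun M => M ^ 30 ≤ N) e3 e2
  have g3 : N < (M + 1) ^ 30 := by
    by_contra hn
    push Not at hn
    have k1 : M + 1 ≤ N := le_trans (Nat.le_self_pow (by norm_num) _) hn
    have := Nat.le_findGreatest (P := fun M => M ^ 30 ≤ N) k1 hn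
    omega
  exact ⟨M, J, hJ, le_trans e1 g1, g2, g3, h3⟩

theorem K0_pos : (1 : ℤ) ≤ (K0 : ℤ) := by
  have : 1 ≤ K0 := by
    unfold K0
    exact Nat.one_le_iff_ne_zero.2 (by positivity)
  exact_mod_cast this

theorem Par.J1' {N M J : ℕ} (h : Par N M J) : (2 : ℤ) ^ 10 ≤ (J : ℤ) := by exact_mod_cast h.J1

theorem Par.KM' {N M J : ℕ} (h : Par N M J) : (K0 : ℤ) * (J : ℤ) ^ 10 ≤ (M : ℤ) := by
  exact_mod_cast h.KM

theorem Par.lo' {N M J : ℕ} (h : Par N M J) : (M : ℤ) ^ 30 ≤ (N : ℤ) := by exact_mod_cast h.lo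

theorem Par.hi' {N M J : ℕ} (h : Par N M J) : (N : ℤ) < ((M : ℤ) + 1) ^ 30 := by
  exact_mod_cast h.hi

theorem Par.M100 {N M J : ℕ} (h : Par N M J) : (2 : ℤ) ^ 100 ≤ (M : ℤ) :=
  num_M K0_pos h.J1' h.KM'

theorem Par.N16 {N M J : ℕ} (h : Par N M J) : (2 : ℤ) ^ 16 ≤ (N : ℤ) := by
  have h1 := h.M100
  have h2 := h.lo'
  have h3 : (M : ℤ) ≤ (M : ℤ) ^ 30 := le_self_pow₀ (by linarith [show (1 : ℤ) ≤ 2 ^ 100 by norm_num])
    (by norm_num)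
  linarith [show (2 : ℤ) ^ 16 ≤ 2 ^ 100 by norm_num]

theorem Par.JN {N M J : ℕ} (h : Par N M J) : (J : ℤ) ≤ (N : ℤ) ∧ (J : ℤ) ^ 10 ≤ (M : ℤ) := by
  have h1 := h.M100
  have h2 := h.lo'
  have h3 : (M : ℤ) ≤ (M : ℤ) ^ 30 := le_self_pow₀ (by linarith [show (1 : ℤ) ≤ 2 ^ 100 by norm_num])
    (by norm_num)
  have h4 := h.J1'
  have hJ0 : (1 : ℤ) ≤ J := by linarith [show (1 : ℤ) ≤ 2 ^ 10 by norm_num]
  have h5 : (J : ℤ) ^ 10 ≤ (M : ℤ) := by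
    have k1 : (1 : ℤ) * (J : ℤ) ^ 10 ≤ (K0 : ℤ) * (J : ℤ) ^ 10 :=
      mul_le_mul_of_nonneg_right K0_pos (by positivity)
    have := h.KM'
    linarith
  have h6 : (J : ℤ) ≤ (J : ℤ) ^ 10 := le_self_pow₀ hJ0 (by norm_num)
  exact ⟨by linarith, h5⟩


end Pool.Agent.H4G
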