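import Pool.Agent.H4G.Arith.Crt

/-!
# The twist which makes the gcd as small as possible (helper88, tool for R10)
-/

set_option autoImplicit false

namespace Pool.Agent.H4G

/-- **`crt_quasi`**: some `j` gives the smallest possible gcd. -/
theorem crt_quasi {g B1 B2 : ℤ} (hg : 0 < g) (hB1 : B1 ≠ 0) :
    ∃ j : ℤ, Int.gcd (j * B1) (g - j * B2) = Int.gcd g ((Int.gcd B1 B2 : ℕ) : ℤ) := by
  set G : ℤ := ((Int.gcd g ((Int.gcd B1 B2 : ℕ) : ℤ) : ℕ) : ℤ) with hG
  have hGpos : 0 < G := by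
    rw [hG]
    have : 0 < Int.gcd g (Int.gcd B1 B2) := Int.gcd_pos_of_ne_zero_left _ hg.ne'
    exact_mod_cast this
  obtain ⟨g', hg'⟩ : G ∣ g := by rw [hG]; exact Int.gcd_dvd_left _ _
  have hB : G ∣ (Int.gcd B1 B2 : ℤ) := by rw [hG]; exact Int.gcd_dvd_right _ _
  have hB1' : G ∣ B1 := hB.trans (Int.gcd_dvd_left _ _)
  have hB2' : G ∣ B2 := hB.trans (Int.gcd_dvd_right _ _)
  obtain ⟨b1, hb1⟩ := hB1'
  obtain ⟨b2, hb2⟩ := hB2'
  have hg'0 : 0 < g' := by
    rcases lt_trichotomy g' 0 with h | h | h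
    · have := mul_neg_of_pos_of_neg hGpos h
      omega
    · rw [h, mul_zero] at hg'; omega
    · exact h
  have hb10 : b1 ≠ 0 := by rintro rfl; exact hB1 (by rw [hb1, mul_zero])
  have hcop : ∀ l : ℕ, l.Prime → (l : ℤ) ∣ g' → (l : ℤ) ∣ b1 → ¬ (l : ℤ) ∣ b2 := by
    intro l hl h1 h2 h3
    have h4 : G * l ∣ G := by
      conv_rhs => rw [hG]
      refine Int.dvd_coe_gcd ?_ (Int.dvd_coe_gcd ?_ ?_)
      · rw [hg']; exact mul_dvd_mul_left G h1
      · rw [hb1]; exact mul_dvd_mul_left G h2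
      · rw [hb2]; exact mul_dvd_mul_left G h3
    have h5 : (l : ℤ) ∣ 1 := by
      have : G * l ∣ G * 1 := by rwa [mul_one]
      exact (mul_dvd_mul_iff_left hGpos.ne').1 this
    exact prime_not_dvd_one hl h5
  obtain ⟨j, hj⟩ := crt_exists (g' * b1) (mul_ne_zero hg'0.ne' hb10)
    (fun l j => ((l : ℤ) ∣ g' → ¬ (l : ℤ) ∣ j) ∧ ((l : ℤ) ∣ b1 → ¬ (l : ℤ) ∣ g' - j * b2))
    (fun l hl _ => by
      by_cases h1 : (l : ℤ) ∣ g'
      · refine ⟨1, fun _ => prime_not_dvd_one hl, fun h2 h3 => hcop l hl h1 h2 ?_⟩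
        have := dvd_sub h1 h3
        simpa using this
      · exact ⟨0, fun h => absurd h h1, fun _ => by simpa using h1⟩)
    (fun l hl _ k k' h1 h2 => by
      refine ⟨fun h3 h4 => h2.1 h3 ?_, fun h3 h4 => h2.2 h3 ?_⟩
      · have := dvd_sub h4 h1
        simpa using this
      · have e : g' - k * b2 = (g' - k' * b2) + (k' - k) * b2 := by ring
        rw [e]
        exact dvd_add h4 (h1.mul_right _))
  refine ⟨j, ?_⟩
  have hco : IsCoprime (j * b1) (g' - j * b2) := by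
    refine isCoprime_of_prime fun l hl h1 h2 => ?_
    rcases (Int.Prime.dvd_mul' hl h2) with h3 | h3
    · by_cases h4 : (l : ℤ) ∣ g'
      · exact (hj l hl (h4.mul_right _)).1 h4 h3
      · refine h4 ?_
        have e : g' = (g' - j * b2) + j * b2 := by ring
        rw [e]
        exact dvd_add h1 (h3.mul_right _)
    · exact (hj l hl (h3.mul_left _)).2 h3 h1
  have e1 : j * B1 = G * (j * b1) := by rw [hb1]; ring
  have e2 : g - j * B2 = G * (g' - j * b2) := by rw [hb2]; rw [hg']; ring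
  rw [e1, e2, Int.gcd_mul_left, Int.isCoprime_iff_gcd_eq_one.1 hco, mul_one, hG, Int.natAbs_natCast]

end Pool.Agent.H4G
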