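import Pool.Agent.H4G.Asym.RG
import Pool.Agent.H4G.Asym.Loc

/-!
# Row R11: `A b b' ≤ 4 (A + e) (A + e')` at a product-minimal state (helper65)
-/

set_option autoImplicit false

namespace Pool.Agent.H4G

section val

variable {p : ℕ} [hp : Fact p.Prime]

theorem pv_mul {x y : ℤ} (hx : x ≠ 0) (hy : y ≠ 0) :
    padicValInt p (x * y) = padicValInt p x + padicValInt p y := padicValInt.mul hx hy

theorem pv_pow_dvd (x : ℤ) : (p : ℤ) ^ padicValInt p x ∣ x := padicValInt_dvd x

theorem pv_le_of_pow_dvd {x : ℤ} {n : ℕ} (hx : x ≠ 0) (h : (p : ℤ) ^ n ∣ x) :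
    n ≤ padicValInt p x := by
  rcases (padicValInt_dvd_iff n x).1 h with h | h
  · exact absurd h hx
  · exact h

theorem pow_dvd_of_le {x : ℤ} {n : ℕ} (h : n ≤ padicValInt p x) : (p : ℤ) ^ n ∣ x :=
  (padicValInt_dvd_iff n x).2 (Or.inr h)

theorem pv_add_le {x y z : ℤ} (h : x + y = z) (hz : z ≠ 0) {n : ℕ}
    (hx : n ≤ padicValInt p x) (hy : n ≤ padicValInt p y) : n ≤ padicValInt p z := by
  apply pv_le_of_pow_dvd hz
  rw [← h]
  exact dvd_add (pow_dvd_of_le hx) (pow_dvd_of_le hy)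

theorem um_of {x y z : ℤ} (h : x + y = z) (hx : x ≠ 0) (hy : y ≠ 0) (hz : z ≠ 0) :
    Um (padicValInt p x) (padicValInt p y) (padicValInt p z) := by
  have h1 := fun n => pv_add_le (p := p) (n := n) h hz
  have h2 := fun n => pv_add_le (p := p) (n := n) (x := z) (y := -y) (z := x) (by linarith) hx
  have h3 := fun n => pv_add_le (p := p) (n := n) (x := z) (y := -x) (z := y) (by linarith) hy
  have e1 : padicValInt p (-y) = padicValInt p y := by simp [padicValInt]
  have e2 : padicValInt p (-x) = padicValInt p x := by simp [padicValInt]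
  rw [e1] at h2
  rw [e2] at h3
  unfold Um
  rcases lt_trichotomy (padicValInt p x) (padicValInt p y) with k | k | k
  · right; left
    refine ⟨k, ?_⟩
    have a1 := h1 _ le_rfl k.le
    by_contra hne
    have a2 := h2 (padicValInt p x + 1) (by omega) (by omega)
    omega
  · left
    exact ⟨k, h1 _ le_rfl k.le⟩
  · right; right
    refine ⟨k, ?_⟩
    have a1 := h1 _ k.le le_rfl
    by_contra hne
    have a2 := h3 (padicValInt p y + 1) (by omega) (by omega)
    omega

/-- the basic lemma on `f` and `f + c` -/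
theorem pv_two {n : ℕ} {f c X X' : ℤ} (hc : c ≠ 0) (hX : X ≠ 0) (hX' : X' ≠ 0)
    (h : (p : ℤ) ^ n ∣ f * X) (h' : (p : ℤ) ^ n ∣ (f + c) * X') :
    n ≤ padicValInt p c + padicValInt p X ∨ n ≤ padicValInt p c + padicValInt p X' := by
  by_contra hcon
  push Not at hcon
  obtain ⟨k1, k2⟩ := hcon
  have key : ∀ g Y : ℤ, Y ≠ 0 → (p : ℤ) ^ n ∣ g * Y → padicValInt p c + padicValInt p Y < n →
      (p : ℤ) ^ (padicValInt p c + 1) ∣ g := by
    intro g Y hY hg hlt
    by_cases h0 : g = 0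
    · rw [h0]; exact dvd_zero _
    · have := pv_le_of_pow_dvd (mul_ne_zero h0 hY) hg
      rw [pv_mul h0 hY] at this
      exact pow_dvd_of_le (by omega)
  have a1 := key f X hX h k1
  have a2 := key (f + c) X' hX' h' k2
  have a3 : (p : ℤ) ^ (padicValInt p c + 1) ∣ c := by
    have := dvd_sub a2 a1
    rwa [add_sub_cancel_left] at this
  have := pv_le_of_pow_dvd hc a3
  omega

end val

theorem um2_of {x y z : ℤ} (h : x + y = z) (hx : x ≠ 0) (hy : y ≠ 0) (hz : z ≠ 0) :
    Um2 (padicValInt 2 x) (padicValInt 2 y) (padicValInt 2 z) := by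
  have h1 := um_of (p := 2) h hx hy hz
  unfold Um at h1
  unfold Um2
  rcases h1 with ⟨h1, h2⟩ | h1 | h1
  · left
    refine ⟨h1, ?_⟩
    -- both are `2^k` times odd numbers
    obtain ⟨x1, hx1⟩ := pv_pow_dvd (p := 2) x
    obtain ⟨y1, hy1⟩ := pv_pow_dvd (p := 2) y
    have ox : ¬ (2 : ℤ) ∣ x1 := by
      rintro ⟨c, rfl⟩
      have : ((2 : ℕ) : ℤ) ^ (padicValInt 2 x + 1) ∣ x := ⟨c, by
        conv_lhs => rw [hx1]
        push_cast; ring⟩
      have := pv_le_of_pow_dvd hx this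
      omega
    have oy : ¬ (2 : ℤ) ∣ y1 := by
      rintro ⟨c, rfl⟩
      have : ((2 : ℕ) : ℤ) ^ (padicValInt 2 y + 1) ∣ y := ⟨c, by
        conv_lhs => rw [hy1]
        push_cast; ring⟩
      have := pv_le_of_pow_dvd hy this
      omega
    apply pv_le_of_pow_dvd hz
    have : (2 : ℤ) ∣ x1 + y1 := by omega
    obtain ⟨c, hc⟩ := this
    refine ⟨c, ?_⟩
    rw [← h]
    conv_lhs => rw [hx1, hy1, ← h1]
    push_cast
    linear_combination (2 : ℤ) ^ padicValInt 2 x * hc
  · right; left; exact h1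
  · right; right; exact h1

theorem dvd_of_pv {x y : ℤ} (hx : x ≠ 0) (hy : y ≠ 0)
    (h : ∀ p : ℕ, p.Prime → padicValInt p x ≤ padicValInt p y) : x ∣ y := by
  rw [← Int.natAbs_dvd_natAbs]
  rw [← Nat.factorization_prime_le_iff_dvd (Int.natAbs_ne_zero.2 hx) (Int.natAbs_ne_zero.2 hy)]
  intro p hp
  rw [Nat.factorization_def _ hp, Nat.factorization_def _ hp]
  exact h p hp

end Pool.Agent.H4G
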