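import Pool.Agent.H4G.Asym.RG
import Pool.Agent.H4G.Arith.Crt

/-!
# R11 for ALL N (proof of helper96, Lean by helper31)

From the rigidity of a product-minimal state: `b ∣ 2 (A + e')`, `b' ∣ 2 (A + e)` and
`A b b' ∣ 4 (A + e) (A + e')`. No primality is used.
-/

set_option autoImplicit false

namespace Pool.Agent.H4G

/-- If `D ∣ j τ` for all `j` with `gcd (m, 1 + j r) = 1`, then `D ∣ 2 τ`. -/
theorem order_two {m r D τ : ℤ} (hm : m ≠ 0) (hD : D ≠ 0)
    (h : ∀ j : ℤ, Int.gcd m (1 + j * r) = 1 → D ∣ j * τ) : D ∣ 2 * τ := by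
  obtain ⟨o, ho⟩ : ((Int.gcd D τ : ℕ) : ℤ) ∣ D := Int.gcd_dvd_left _ _
  obtain ⟨t, ht⟩ : ((Int.gcd D τ : ℕ) : ℤ) ∣ τ := Int.gcd_dvd_right _ _
  set G : ℤ := ((Int.gcd D τ : ℕ) : ℤ) with hG
  have hG0 : G ≠ 0 := by
    intro h0
    rw [h0, zero_mul] at ho
    exact hD ho
  have ho0 : o ≠ 0 := by
    rintro rfl
    rw [mul_zero] at ho
    exact hD ho
  have hco : IsCoprime o t := by
    apply isCoprime_of_prime
    intro l hl h1 h2
    have h3 : G * l ∣ G := by
      conv_rhs => rw [hG]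
      refine Int.dvd_coe_gcd ?_ ?_
      · rw [ho]; exact mul_dvd_mul_left G h2
      · rw [ht]; exact mul_dvd_mul_left G h1
    have h4 : G * l ∣ G * 1 := by rwa [mul_one]
    exact prime_not_dvd_one hl ((mul_dvd_mul_iff_left hG0).1 h4)
  obtain ⟨j, hj⟩ := crt_exists (o * m) (mul_ne_zero ho0 hm)
    (fun l j => ((l : ℤ) ∣ o → ¬ (l : ℤ) ∣ j) ∧ ((l : ℤ) ∣ m → ¬ (l : ℤ) ∣ 1 + 2 * j * r))
    (fun l hl _ => by
      by_cases h1 : (l : ℤ) ∣ m ∧ (l : ℤ) ∣ 1 + 2 * 1 * r
      · obtain ⟨_, h3⟩ := h1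
        refine ⟨2, fun _ h4 => ?_, fun _ h4 => ?_⟩
        · have : (l : ℤ) ∣ 1 := by
            have h5 := dvd_sub h3 (h4.mul_right r)
            have h6 : 1 + 2 * 1 * r - 2 * r = 1 := by ring
            rwa [h6] at h5
          exact prime_not_dvd_one hl this
        · have : (l : ℤ) ∣ 1 := by
            have h5 := dvd_sub (h3.mul_left 2) h4
            have h6 : 2 * (1 + 2 * 1 * r) - (1 + 2 * 2 * r) = 1 := by ring
            rwa [h6] at h5
          exact prime_not_dvd_one hl this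
      · refine ⟨1, fun _ => prime_not_dvd_one hl, fun h2 h3 => h1 ⟨h2, h3⟩⟩)
    (fun l hl _ k k' h1 h2 => by
      refine ⟨fun h3 h4 => h2.1 h3 ?_, fun h3 h4 => h2.2 h3 ?_⟩
      · have := dvd_sub h4 h1
        simpa using this
      · have : 1 + 2 * k * r = (1 + 2 * k' * r) - (k' - k) * (2 * r) := by ring
        rw [this]
        exact dvd_sub h4 (h1.mul_right _))
  have hcj : IsCoprime j o := isCoprime_of_prime fun l hl hlo =>
    (hj l hl (hlo.mul_right m)).1 hlo
  have hgood : IsCoprime (1 + 2 * j * r) m := isCoprime_of_prime fun l hl hlm =>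
    (hj l hl (hlm.mul_left o)).2 hlm
  have h1 := h (2 * j) (Int.isCoprime_iff_gcd_eq_one.1 hgood.symm)
  have h2 : o ∣ 2 * j * t := by
    have : G * o ∣ G * (2 * j * t) := by
      rw [← ho]
      have e : G * (2 * j * t) = 2 * j * τ := by rw [ht]; ring
      rw [e]; exact h1
    exact (mul_dvd_mul_iff_left hG0).1 this
  have h3 : o ∣ 2 := by
    have h4 : o ∣ 2 * j := hco.dvd_of_dvd_mul_right h2
    exact hcj.symm.dvd_of_dvd_mul_right h4
  obtain ⟨c, hc⟩ := h3
  refine ⟨c * t, ?_⟩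
  rw [ho]
  conv_lhs => rw [ht, hc]
  ring

/-- Monic cubic: `b ∣ s`. -/
theorem cubic_dvd {b s α β γ δ : ℤ} (hb : b ≠ 0)
    (h : (s + α * b) * s * (β * b + s) = 2 * b * (s + γ * b) * (s + δ * b)) : b ∣ s := by
  obtain ⟨q, hq⟩ : ((Int.gcd s b : ℕ) : ℤ) ∣ b := Int.gcd_dvd_right _ _
  obtain ⟨P, hP⟩ : ((Int.gcd s b : ℕ) : ℤ) ∣ s := Int.gcd_dvd_left _ _
  set G : ℤ := ((Int.gcd s b : ℕ) : ℤ) with hG
  have hG0 : G ≠ 0 := by
    intro h0
    rw [h0, zero_mul] at hq
    exact hb hq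
  have hco : IsCoprime P q := by
    apply isCoprime_of_prime
    intro l hl h1 h2
    have h3 : G * l ∣ G := by
      conv_rhs => rw [hG]
      refine Int.dvd_coe_gcd ?_ ?_
      · rw [hP]; exact mul_dvd_mul_left G h2
      · rw [hq]; exact mul_dvd_mul_left G h1
    have h4 : G * l ∣ G * 1 := by rwa [mul_one]
    exact prime_not_dvd_one hl ((mul_dvd_mul_iff_left hG0).1 h4)
  have e1 : (P + α * q) * P * (β * q + P) = 2 * q * (P + γ * q) * (P + δ * q) := by
    have h5 : G ^ 3 * ((P + α * q) * P * (β * q + P))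
        = G ^ 3 * (2 * q * (P + γ * q) * (P + δ * q)) := by
      have e2 : G ^ 3 * ((P + α * q) * P * (β * q + P)) = (s + α * b) * s * (β * b + s) := by
        rw [hP, hq]; ring
      have e3 : G ^ 3 * (2 * q * (P + γ * q) * (P + δ * q))
          = 2 * b * (s + γ * b) * (s + δ * b) := by
        rw [hP, hq]; ring
      rw [e2, e3, h]
    exact mul_left_cancel₀ (pow_ne_zero 3 hG0) h5
  have h6 : q ∣ P ^ 3 := by
    refine ⟨2 * (P + γ * q) * (P + δ * q) - β * P ^ 2 - α * P * (β * q + P), ?_⟩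
    linear_combination e1
  have h7 : IsUnit q := (hco.pow_left (m := 3)).symm.isUnit_of_dvd' dvd_rfl h6
  obtain ⟨c, hc⟩ := h7.dvd (a := P)
  refine ⟨c, ?_⟩
  rw [hP, hq, hc]; ring

section

variable {A b e f b' e' f' a a' m r m' r' : ℤ}

theorem RG.s1 (h : RG A b e f b' e' f' a a' m r m' r') : A * (a' + b') = b' * (A + e') := by
  have := h.ra'
  linear_combination this

theorem RG.s2 (h : RG A b e f b' e' f' a a' m r m' r') : A * (a + b) = b * (A + e) := by
  have := h.ra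
  linear_combination this

theorem RG.Am (h : RG A b e f b' e' f' a a' m r m' r') : A * b * m = e * (A + e') := by
  have h1 := h.hm
  have h2 := h.s1
  have h3 := h.b0'
  have : b' * (A * b * m) = b' * (e * (A + e')) := by linear_combination A * h1 + e * h2
  exact mul_left_cancel₀ h3.ne' this

theorem RG.Ar (h : RG A b e f b' e' f' a a' m r m' r') : A * b * r = f * (A + e') := by
  have h1 := h.hr
  have h2 := h.s1
  have h3 := h.b0'
  have : b' * (A * b * r) = b' * (f * (A + e')) := by linear_combination A * h1 + f * h2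
  exact mul_left_cancel₀ h3.ne' this

theorem RG.Am' (h : RG A b e f b' e' f' a a' m r m' r') : A * b' * m' = e' * (A + e) := by
  have h1 := h.hm'
  have h2 := h.s2
  have h3 := h.b0
  have : b * (A * b' * m') = b * (e' * (A + e)) := by linear_combination A * h1 + e' * h2
  exact mul_left_cancel₀ h3.ne' this

theorem RG.Ar' (h : RG A b e f b' e' f' a a' m r m' r') : A * b' * r' = f' * (A + e) := by
  have h1 := h.hr'
  have h2 := h.s2
  have h3 := h.b0
  have : b * (A * b' * r') = b * (f' * (A + e)) := by linear_combination A * h1 + f' * h2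
  exact mul_left_cancel₀ h3.ne' this

theorem RG.m0' (h : RG A b e f b' e' f' a a' m r m' r') : m' ≠ 0 := by
  intro h0
  have h1 := h.Am'
  rw [h0, mul_zero] at h1
  have h2 : 0 < e' * (A + e) := mul_pos h.e0' (by linarith [h.A0, h.e0])
  omega

/-- Step 1: `2 n` is an integer, `A b ν = 2 (A + e') (a + b - A)`. -/
theorem RG.nu (h : RG A b e f b' e' f' a a' m r m' r') :
    ∃ ν : ℤ, A * b * ν = 2 * ((A + e') * (a + b - A)) := by
  have hA0 := h.A0
  have hb0 := h.b0
  have hb0' := h.b0'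
  have key : A * b ∣ 2 * ((A + e') * (a + b - A)) := by
    refine order_two (m := m') (r := r') h.m0' (mul_pos hA0 hb0).ne' fun j hj => ?_
    obtain ⟨y, hy⟩ := h.w1 j hj
    have h1 := h.s1
    have h2 := h.Ar
    refine ⟨y - r, ?_⟩
    have h3 : b' * (A * b * y) = b' * ((f + j * (a + b - A)) * (A + e')) := by
      linear_combination (-A) * hy + (f + j * (a + b - A)) * h1
    have h4 := mul_left_cancel₀ hb0'.ne' h3
    linear_combination (-1 : ℤ) * h4 + h2
  obtain ⟨ν, hν⟩ := key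
  exact ⟨ν, hν.symm⟩

/-- Step 1, mirrored. -/
theorem RG.nu' (h : RG A b e f b' e' f' a a' m r m' r') :
    ∃ ν' : ℤ, A * b' * ν' = 2 * ((A + e) * (a' + b' - A)) := h.mirror.nu

/-- Step 2: `b ∣ 2 (A + e')`. -/
theorem RG.two_s' (h : RG A b e f b' e' f' a a' m r m' r') : b ∣ 2 * (A + e') := by
  obtain ⟨ν, hν⟩ := h.nu
  obtain ⟨ν', hν'⟩ := h.nu'
  have hA0 := h.A0
  have hb0 := h.b0
  have hb0' := h.b0'
  have s1 := h.s1
  have s2 := h.s2
  have hm := h.Am
  have hm' := h.Am'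
  have E1 : b' * (2 * (A + e') + (ν - ν') * b) = 2 * (A + e) * b := by
    have : A ^ 2 * (b' * (2 * (A + e') + (ν - ν') * b)) = A ^ 2 * (2 * (A + e) * b) := by
      linear_combination A * b' * hν - A * b * hν' + 2 * b' * (A + e') * s2
        - 2 * b * (A + e) * s1
    exact mul_left_cancel₀ (pow_ne_zero 2 hA0.ne') this
  have E2 : A ^ 2 * (ν * b + 2 * (A + e')) = 2 * (A + e) * (A + e') * b := by
    linear_combination A * hν + 2 * (A + e') * s2
  have E3 : A * (2 * (A + e') + 2 * m * b) = 2 * (A + e) * (A + e') := by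
    linear_combination 2 * hm
  have E4 : A * (b' * (2 * (A + e') + (ν - ν' + 2 * m') * b)) = 2 * b * (A + e) * (A + e') := by
    linear_combination A * E1 + 2 * b * hm'
  refine cubic_dvd (α := ν - ν') (β := ν) (γ := 2 * m) (δ := ν - ν' + 2 * m') hb0.ne' ?_
  have key : (b' * A ^ 2) * ((2 * (A + e') + (ν - ν') * b) * (2 * (A + e')) *
      (ν * b + 2 * (A + e'))) = (b' * A ^ 2) * (2 * b * (2 * (A + e') + 2 * m * b) *
      (2 * (A + e') + (ν - ν' + 2 * m') * b)) := by
    have l1 : (b' * A ^ 2) * ((2 * (A + e') + (ν - ν') * b) * (2 * (A + e')) *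
        (ν * b + 2 * (A + e'))) = (b' * (2 * (A + e') + (ν - ν') * b)) * (2 * (A + e')) *
        (A ^ 2 * (ν * b + 2 * (A + e'))) := by ring
    have l2 : (b' * A ^ 2) * (2 * b * (2 * (A + e') + 2 * m * b) *
        (2 * (A + e') + (ν - ν' + 2 * m') * b)) = 2 * b * (A * (2 * (A + e') + 2 * m * b)) *
        (A * (b' * (2 * (A + e') + (ν - ν' + 2 * m') * b))) := by ring
    rw [l1, l2, E1, E2, E3, E4]; ring
  exact mul_left_cancel₀ (mul_pos hb0' (pow_pos hA0 2)).ne' key

/-- Step 2, mirrored: `b' ∣ 2 (A + e)`. -/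
theorem RG.two_s (h : RG A b e f b' e' f' a a' m r m' r') : b' ∣ 2 * (A + e) := h.mirror.two_s'

/-- Step 3: every one of the 13 products `c` satisfies `A b b' ∣ 4 (A + e) (A + e') c`. -/
theorem RG.thirteen (h : RG A b e f b' e' f' a a' m r m' r') {k1 k2 k3 k4 : ℤ}
    (h1 : k1 * A = e * e') (h2 : k2 * A = e * f') (h3 : k3 * A = e' * f)
    (h4 : k4 * A = f * f' - b * b') :
    ∀ c ∈ ({A, e, f, b, a, e', b', f', a', k1, k2, k3, k4} : Set ℤ),
      A * b * b' ∣ 4 * (A + e) * (A + e') * c := by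
  obtain ⟨ν, hν⟩ := h.nu
  obtain ⟨ν', hν'⟩ := h.nu'
  obtain ⟨k', hk'⟩ := h.two_s'
  obtain ⟨k, hk⟩ := h.two_s
  have hA0 := h.A0.ne'
  have hb0 := h.b0
  have hb0' := h.b0'
  have s1 := h.s1
  have s2 := h.s2
  have Am := h.Am
  have Am' := h.Am'
  have Ar := h.Ar
  have Ar' := h.Ar'
  have ra := h.ra
  have ra' := h.ra'
  -- `4 s s' = b b' k k'`
  have K : 4 * (A + e) * (A + e') = b * b' * (k * k') := by
    linear_combination (2 * (A + e')) * hk + (b' * k) * hk'
  intro c hc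
  simp only [Set.mem_insert_iff, Set.mem_singleton_iff] at hc
  rcases hc with rfl | rfl | rfl | rfl | rfl | rfl | rfl | rfl | rfl | rfl | rfl | rfl | rfl
  · exact ⟨k * k', by rw [K]; ring⟩
  · exact ⟨2 * k * m, by linear_combination (-4 * (A + c)) * Am + 2 * A * b * m * hk⟩
  · exact ⟨2 * k * r, by linear_combination (-4 * (A + e)) * Ar + 2 * A * b * r * hk⟩
  · exact ⟨2 * k + 4 * m', by linear_combination (2 * A * c) * hk - 4 * c * Am'⟩
  · refine ⟨k * ν + k * k' - 2 * k - 4 * m', ?_⟩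
    apply mul_left_cancel₀ hA0
    linear_combination (-(b' * k * A)) * hν + (2 * (A + e') * (c + b - A) * A) * hk + A ^ 2 * K
      - 2 * A ^ 2 * b * hk + 4 * A * b * Am' + 0 * s1
  · exact ⟨2 * k' * m', by linear_combination (-4 * (A + c)) * Am' + 2 * A * b' * m' * hk'⟩
  · exact ⟨2 * k' + 4 * m, by linear_combination (2 * A * c) * hk' - 4 * c * Am⟩
  · exact ⟨2 * k' * r', by linear_combination (-4 * (A + e')) * Ar' + 2 * A * b' * r' * hk'⟩
  · refine ⟨k' * ν' + k * k' - 2 * k' - 4 * m, ?_⟩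
    apply mul_left_cancel₀ hA0
    linear_combination (-(b * k' * A)) * hν' + (2 * (A + e) * (c + b' - A) * A) * hk' + A ^ 2 * K
      - 2 * A ^ 2 * b' * hk' + 4 * A * b' * Am
  · refine ⟨4 * m * m', ?_⟩
    apply mul_left_cancel₀ hA0
    linear_combination (4 * (A + e) * (A + e')) * h1 - 4 * (A * b * m) * Am'
      - 4 * e' * (A + e) * Am
  · refine ⟨4 * m * r', ?_⟩
    apply mul_left_cancel₀ hA0
    linear_combination (4 * (A + e) * (A + e')) * h2 - 4 * (A * b * m) * Ar'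
      - 4 * f' * (A + e) * Am
  · refine ⟨4 * m' * r, ?_⟩
    apply mul_left_cancel₀ hA0
    linear_combination (4 * (A + e) * (A + e')) * h3 - 4 * (A * b' * m') * Ar
      - 4 * f * (A + e') * Am'
  · refine ⟨4 * r * r' - 2 * ν - 2 * k', ?_⟩
    apply mul_left_cancel₀ hA0
    linear_combination (4 * (A + e) * (A + e')) * h4 - 4 * (A * b * r) * Ar'
      - 4 * f' * (A + e) * Ar + 2 * A * b' * hν - 2 * A ^ 2 * b' * hk'
      + 4 * b' * (A + e') * s2

/-- R11 for ALL N: `A b b' ∣ 4 (A + e) (A + e')`, if no integer `> 1` divides the 13 products. -/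
theorem RG.main_dvd (h : RG A b e f b' e' f' a a' m r m' r') {k1 k2 k3 k4 : ℤ}
    (h1 : k1 * A = e * e') (h2 : k2 * A = e * f') (h3 : k3 * A = e' * f)
    (h4 : k4 * A = f * f' - b * b')
    (full : ∀ d : ℤ, (∀ c ∈ ({A, e, f, b, a, e', b', f', a', k1, k2, k3, k4} : Set ℤ), d ∣ c) →
      d ∣ 1) : A * b * b' ∣ 4 * (A + e) * (A + e') := by
  have key := h.thirteen h1 h2 h3 h4
  have hM0 : 0 < A * b * b' := mul_pos (mul_pos h.A0 h.b0) h.b0'
  set M : ℤ := A * b * b' with hM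
  set X : ℤ := 4 * (A + e) * (A + e') with hX
  obtain ⟨o, ho⟩ : ((Int.gcd M X : ℕ) : ℤ) ∣ M := Int.gcd_dvd_left _ _
  obtain ⟨t, ht⟩ : ((Int.gcd M X : ℕ) : ℤ) ∣ X := Int.gcd_dvd_right _ _
  set G : ℤ := ((Int.gcd M X : ℕ) : ℤ) with hG
  have hG0 : G ≠ 0 := by
    intro h0
    rw [h0, zero_mul] at ho
    exact hM0.ne' ho
  have hco : IsCoprime o t := by
    apply isCoprime_of_prime
    intro l hl h1 h2
    have h3 : G * l ∣ G := by
      conv_rhs => rw [hG]
      refine Int.dvd_coe_gcd ?_ ?_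
      · rw [ho]; exact mul_dvd_mul_left G h2
      · rw [ht]; exact mul_dvd_mul_left G h1
    have h4 : G * l ∣ G * 1 := by rwa [mul_one]
    exact prime_not_dvd_one hl ((mul_dvd_mul_iff_left hG0).1 h4)
  have hall : o ∣ 1 := by
    apply full
    intro c hc
    have h5 := key c hc
    rw [ho, ht] at h5
    have h6 : G * o ∣ G * (t * c) := by
      have e : G * (t * c) = G * t * c := by ring
      rw [e]; exact h5
    have h7 : o ∣ t * c := (mul_dvd_mul_iff_left hG0).1 h6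
    exact hco.dvd_of_dvd_mul_left h7
  obtain ⟨u, hu⟩ := hall
  rw [ht]
  refine ⟨u * t, ?_⟩
  calc G * t = G * (o * u) * t := by rw [← hu]; ring
    _ = M * (u * t) := by rw [ho]; ring

end

end Pool.Agent.H4G
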