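import Pool.Agent.H4G.Asym.R11all
import Pool.Agent.H4G.Asym.PMout
import Pool.Agent.H4G.Arith.Full

/-!
# R11 for ALL N at a product-minimal state (helper31)
-/

set_option autoImplicit false

namespace Pool.Agent.H4G

theorem Ad.k1 {S : PSt} {l p l' p' : Z2} (ad : Ad S l p l' p') :
    cr l' l * cr S.u S.v = cr S.u l * cr l' S.v := by
  have := plucker l' l S.u S.v
  rw [cr_swap l' S.u, ad.h4, cr_swap l S.u] at this
  linarith

theorem Ad.k2 {S : PSt} {l p l' p' : Z2} (ad : Ad S l p l' p') :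
    cr p' l * cr S.u S.v = cr S.u l * cr p' S.v := by
  have := plucker p' l S.u S.v
  rw [ad.h1, cr_swap l S.u] at this
  linarith

theorem Ad.k3 {S : PSt} {l p l' p' : Z2} (ad : Ad S l p l' p') :
    cr l' p * cr S.u S.v = cr l' S.v * cr S.u p := by
  have := plucker l' p S.u S.v
  rw [cr_swap l' S.u, ad.h4, cr_swap p S.u] at this
  linarith

theorem Ad.k4 {S : PSt} {l p l' p' : Z2} (ad : Ad S l p l' p') :
    cr p' p * cr S.u S.v = cr S.u p * cr p' S.v - cr p S.v * cr S.u p' := by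
  have := plucker p' p S.u S.v
  rw [cr_swap p' S.u, cr_swap p S.u] at this
  linarith

/-- R11 for ALL N: at a product-minimal state of a primitive class,
`A b b' ∣ 4 (A + e) (A + e')`, `b ∣ 2 (A + e')`, `b' ∣ 2 (A + e)`. -/
theorem PM.main {S : PSt} {A b b' β : ℤ} (h : PM S A b b' β) (hF : S.Full) {l p l' p' : Z2}
    (ad : Ad S l p l' p') :
    A * b * b' ∣ 4 * (A + cr S.u l) * (A + cr l' S.v) ∧ b ∣ 2 * (A + cr l' S.v) ∧
      b' ∣ 2 * (A + cr S.u l) := by
  obtain ⟨m, r, m', r', hRG, -⟩ := h.rg ad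
  obtain ⟨e1, e2, -⟩ := h.num ad
  have k1 := ad.k1
  have k2 := ad.k2
  have k3 := ad.k3
  have k4 := ad.k4
  rw [h.hA] at k1 k2 k3 k4
  rw [e1, e2] at k4
  refine ⟨hRG.main_dvd k1 k2 k3 k4 ?_, hRG.two_s', hRG.two_s⟩
  intro d hd
  simp only [Set.mem_insert_iff, Set.mem_singleton_iff, forall_eq_or_imp, forall_eq] at hd
  obtain ⟨d1, d2, d3, d4, d5, d6, d7, d8, d9, d10, d11, d12, d13⟩ := hd
  rw [← h.hA] at d1
  rw [← e1] at d4
  rw [← e2] at d7
  exact ad.full hF d1 d2 d3 d4 d5 d6 d7 d8 d9 d10 d11 d12 d13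

end Pool.Agent.H4G
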