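import Pool.Agent.H4G.Asym.Defs

/-!
# R8: the structure `LX` of a state and its exits (helper46)
-/

set_option autoImplicit false

namespace Pool.Agent.H4G

/-- the products of a vector with the basis `l', p'` divided by `g` -/
theorem exists_prod {g : ℤ} {l' p' x : Z2} (h1 : g ∣ cr l' x) (h2 : g ∣ cr p' x) :
    ∃ X : Z2, cr l' x = g * X.1 ∧ cr p' x = g * X.2 := by
  obtain ⟨s, hs⟩ := h1
  obtain ⟨t, ht⟩ := h2
  exact ⟨(s, t), hs, ht⟩

theorem cr_prod {g D : ℤ} {l' p' x y X Y : Z2} (hg : 0 < g) (hD : cr l' p' = g ^ 2 * D)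
    (hx1 : cr l' x = g * X.1) (hx2 : cr p' x = g * X.2) (hy1 : cr l' y = g * Y.1)
    (hy2 : cr p' y = g * Y.2) : cr X Y = D * cr x y := by
  have h := plucker l' p' x y
  rw [hD, hx1, hy2, hy1, hx2] at h
  have h3 : g ^ 2 * (cr X Y) = g ^ 2 * (D * cr x y) := by
    simp only [cr] at h ⊢
    linarith
  exact mul_left_cancel₀ (pow_ne_zero 2 hg.ne') h3

theorem gcv_prod {g : ℤ} {l' p' x X : Z2} (hg : 0 < g)
    (hx1 : cr l' x = g * X.1) (hx2 : cr p' x = g * X.2) :
    (Int.gcd (cr x l') (cr x p') : ℤ) = g * gcv X := by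
  rw [cr_swap x l', cr_swap x p', Int.neg_gcd, Int.gcd_neg, hx1, hx2, Int.gcd_mul_left, gcv]
  push_cast
  rw [abs_of_pos hg]

/-- R8: the structure `LX` of a state and its exits -/
theorem exLX {S T : PSt} {β g : ℤ} {l p l' p' : Z2}
    (lb : ∀ (T : PSt) (c : ℤ), SEq S T → IsC T.L T.v c → β ≤ c) (hST : SEq S T)
    (ad : Ad T l p l' p') (hA : cr T.u T.v ≤ cr p T.v) (hg : CT T g)
    (h2 : g ^ 2 ∣ cr l' p') :
    ∃ (D : ℤ) (U V L P : Z2), cr l' p' = g ^ 2 * D ∧
      LX (cr T.u T.v) (cr p T.v) (cr T.u l) (cr T.u p) (cr p l) D U V L P ∧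
      ∀ j t i o : ℤ, XC (cr T.u T.v) (cr p T.v) (cr T.u l) (cr T.u p) (cr p l) j t i o →
        β ≤ g * gcv (XW U V L P j t i o) := by
  have hg0 := hg.pos
  have hc := (Cont.iff ad g).1 hg.dvd
  obtain ⟨c1, c2, c3, c4, c5, c6, c7⟩ := hc
  obtain ⟨D, hD⟩ := h2
  obtain ⟨U, hU1, hU2⟩ := exists_prod (g := g) (l' := l') (p' := p') (x := T.u)
    (by rw [cr_swap, ad.h4]; simp) (by rw [cr_swap]; exact (dvd_neg).2 c1)
  obtain ⟨V, hV1, hV2⟩ := exists_prod (g := g) (l' := l') (p' := p') (x := T.v) c2 c3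
  obtain ⟨L, hL1, hL2⟩ := exists_prod (g := g) (l' := l') (p' := p') (x := l) c4 c5
  obtain ⟨P, hP1, hP2⟩ := exists_prod (g := g) (l' := l') (p' := p') (x := p) c6 c7
  have hpos' := ad.pos'
  have hD0 : 0 < D := by
    rw [hD] at hpos'
    exact (mul_pos_iff_of_pos_left (by positivity)).1 hpos'
  have hLX : LX (cr T.u T.v) (cr p T.v) (cr T.u l) (cr T.u p) (cr p l) D U V L P := by
    refine ⟨ad.hA, hA, ad.h2, hD0, ad.area, cr_prod hg0 hD hU1 hU2 hV1 hV2,
      cr_prod hg0 hD hU1 hU2 hL1 hL2, cr_prod hg0 hD hU1 hU2 hP1 hP2,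
      cr_prod hg0 hD hP1 hP2 hV1 hV2, cr_prod hg0 hD hP1 hP2 hL1 hL2, ?_, ?_⟩
    · rw [cr_prod hg0 hD hL1 hL2 hV1 hV2, ad.h1, mul_zero]
    · intro d dU dV dL dP
      have hd : Cont T (g * d) := by
        rw [Cont.iff ad]
        refine ⟨?_, ?_, ?_, ?_, ?_, ?_, ?_⟩
        · rw [cr_swap T.u p', hU2]
          exact (dvd_neg).2 (mul_dvd_mul_left g dU.2)
        · rw [hV1]; exact mul_dvd_mul_left g dV.1
        · rw [hV2]; exact mul_dvd_mul_left g dV.2
        · rw [hL1]; exact mul_dvd_mul_left g dL.1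
        · rw [hL2]; exact mul_dvd_mul_left g dL.2
        · rw [hP1]; exact mul_dvd_mul_left g dP.1
        · rw [hP2]; exact mul_dvd_mul_left g dP.2
      have := hg.max _ hd
      rw [show g = g * 1 by ring] at this
      have h3 : g * 1 * d ∣ g * 1 := this
      rw [mul_one] at h3
      have h4 : g * d ∣ g * 1 := by rw [mul_one]; exact h3
      exact (mul_dvd_mul_iff_left hg0.ne').1 h4
  refine ⟨D, U, V, L, P, hD, hLX, ?_⟩
  intro j t i o hX
  obtain ⟨o1, i0, cop, lo, hi⟩ := hX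
  -- the state after the V-twist
  have k1 := ad.twV hST.ok' hA j
  have k2 := hST.trans k1
  have hok := k1.ok'
  -- the numbers of the twisted state
  set F := XF (cr T.u T.v) (cr p T.v) (cr T.u l) (cr T.u p) (cr p l) j t i with hF
  set x0 : Z2 := t • l + i • (p - j • T.v) with hx0
  have q1 : cr (T.u - j • (T.v + l)) x0 = F := by
    rw [hx0, hF, XF]
    simp only [cr_add_left, cr_add_right, cr_smul_left, cr_smul_right, cr_self, cr_sub_left,
      cr_sub_right, ad.h1, cr_swap T.v l, cr_swap T.v p, cr_swap l p]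
    ring
  have q2 : cr x0 T.v = i * cr p T.v := by
    rw [hx0]
    simp only [cr_add_left, cr_add_right, cr_smul_left, cr_smul_right, cr_self, cr_sub_left,
      cr_sub_right, ad.h1]
    ring
  have q3 : cr (T.u - j • (T.v + l)) T.v = cr T.u T.v := by
    simp only [cr_add_left, cr_smul_left, cr_self, cr_sub_left, ad.h1]
    ring
  have q4 : cr (p - j • T.v) l = cr p l := by
    rw [cr_sub_left, cr_smul_left, cr_swap T.v l, ad.h1]; ring
  obtain ⟨y, hy1, hy2⟩ := exists_basis (l := l) (p := p - j • T.v) hx0 cop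
  rw [q4] at hy2
  have hb0 := ad.h3
  have hA0 := ad.hA
  have hib : 0 ≤ i * cr p T.v := mul_nonneg i0 hb0.le
  -- the vector of the new slit
  have key : ∀ c : ℤ, IsC T.L' (T.u - j • (T.v + l) + o • T.v + x0) c → β ≤ c := by
    intro c hc
    rcases o1 with rfl | rfl
    · have hok2 : PSt.Ok ⟨lat x0 y, T.u - j • (T.v + l), T.v, T.L'⟩ := by rw [hy1]; exact hok
      have m1 := SEq.mPlus hok2 (by rw [q1]; linarith) (by rw [q1, hy2]; linarith)
        (by rw [q2, q3]; linarith) (by rw [q1, q2]; linarith)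
      rw [hy1] at m1
      have m2 := SEq.mirror m1.ok'
      have m3 := k2.trans (m1.trans m2)
      rw [one_smul] at hc
      exact lb _ c m3 hc.neg
    · have hy3 : lat (-x0) (-y) = lat l (p - j • T.v) := by rw [lat_neg_left, lat_neg_right, hy1]
      have hok2 : PSt.Ok ⟨lat (-x0) (-y), T.u - j • (T.v + l), T.v, T.L'⟩ := by
        rw [hy3]; exact hok
      have m1 := SEq.mMinus hok2 (by rw [cr_neg_right, q1]; linarith)
        (by rw [cr_neg_right, q1, cr_neg_right, cr_neg_left, hy2]; linarith)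
        (by rw [cr_neg_right, cr_neg_left, q1, q2]; linarith)
        (by rw [cr_neg_left, q2, q3]; linarith)
      rw [hy3] at m1
      have m2 := SEq.mirror m1.ok'
      have m3 := k2.trans (m1.trans m2)
      have e : T.u - j • (T.v + l) - T.v - -x0 = T.u - j • (T.v + l) + (-1 : ℤ) • T.v + x0 := by
        module
      rw [← e] at hc
      exact lb _ c m3 hc.neg
  set u1 : Z2 := T.u - j • (T.v + l) + o • T.v + x0 with hu1
  have hW1 : cr l' u1 = g * (XW U V L P j t i o).1 := by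
    rw [hu1, hx0, XW]
    simp only [cr_add_right, cr_smul_right, cr_sub_right, hU1, hV1, hL1, hP1, Prod.fst_add,
      Prod.fst_sub, Prod.smul_fst, smul_eq_mul]
    ring
  have hW2 : cr p' u1 = g * (XW U V L P j t i o).2 := by
    rw [hu1, hx0, XW]
    simp only [cr_add_right, cr_smul_right, cr_sub_right, hU2, hV2, hL2, hP2, Prod.snd_add,
      Prod.snd_sub, Prod.smul_snd, smul_eq_mul]
    ring
  have hne : cr u1 T.v ≠ 0 := by
    have : cr u1 T.v = cr T.u T.v + i * cr p T.v := by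
      rw [hu1, cr_add_left, cr_add_left, q3, q2, cr_smul_left, cr_self]; ring
    rw [this]; linarith
  have hne2 : cr u1 l' ≠ 0 ∨ cr u1 p' ≠ 0 := by
    by_contra hn
    push Not at hn
    have h := plucker l' p' u1 T.v
    rw [cr_swap l' u1, cr_swap p' u1, hn.1, hn.2] at h
    simp only [neg_zero, zero_mul, sub_zero, mul_zero, add_zero] at h
    rcases mul_eq_zero.1 h with h | h
    · exact hpos'.ne' h
    · exact hne h
  have hC := isC_lat hne2
  rw [← ad.hL'] at hC
  have := key _ hC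
  rwa [gcv_prod hg0 hW1 hW2] at this

end Pool.Agent.H4G
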