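import Pool.Agent.H4G.Asym.R7
import Pool.Agent.H4G.Asym.Hsel
import Pool.Agent.H4G.Asym.R8
import Pool.Agent.H4G.Asym.R11st
import Pool.Agent.H4G.Asym.Par
import Pool.Agent.H4G.Asym.Fat1

/-!
# Row R14, first part: the case `A < β`, all large `N` (helper65)
-/

set_option autoImplicit false

namespace Pool.Agent.H4G

/-- the numbers of a state are at most `N` -/
theorem Nums.leN {A b e f b' e' f' a a' k1 k2 k3 k4 N : ℤ}
    (h : Nums A b e f b' e' f' a a' k1 k2 k3 k4) (hA : A ≤ b) (hv : a + A + a' = N) :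
    e ≤ N ∧ a ≤ N ∧ a' ≤ N ∧ A ≤ N ∧ e ≤ a := by
  have h1 := h.A0; have h2 := h.a0; have h3 := h.a0'; have h4 := h.e0
  have h5 : e * A ≤ e * b := mul_le_mul_of_nonneg_left hA h4.le
  rw [← h.ra] at h5
  have h6 : e ≤ a := le_of_mul_le_mul_right h5 h1
  exact ⟨by omega, by omega, by omega, by omega, h6⟩

/-- CASE `A < β`, all `N` -/
theorem caseA {N M J : ℕ} (hP : Par N M J) {S : PSt} {A b b' β : ℤ} (h : PM S A b b' β)
    (hF : S.Full) {l p l' p' : Z2} (ad : Ad S l p l' p')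
    (hv : cr p l + cr S.u S.v + cr l' p' = N) (hee : cr l' S.v ≤ cr S.u l) : False := by
  obtain ⟨m, r, m', r', hRG, k1, k2, k3, k4⟩ := h.rg ad
  obtain ⟨hd, _, _⟩ := h.main hF ad
  have eA := h.hA
  have eb : cr p S.v = b := ad.isC.unique h.hb
  have eb' : cr S.u p' = b' := ad.isC'.unique h.hb'
  have hA0 := hRG.A0; have hb0 := hRG.b0; have hb0' := hRG.b0'; have he0 := hRG.e0
  have he0' := hRG.e0'; have ha0 := hRG.a0; have ha0' := hRG.a0'; have hAb := hRG.Ab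
  have hAb' := hRG.Ab'
  have hAβ := h.Aβ
  have hβb : β ≤ b := h.lb S b h.ok.seq h.hb
  have hsz : A * b * b' ≤ 4 * (A + cr S.u l) * (A + cr l' S.v) :=
    Int.le_of_dvd (by positivity) hd
  rw [eA] at hv
  have hvZ : (N : ℤ) = cr p l + A + cr l' p' := hv.symm
  have he := num_e (by linarith [hP.M100, show (4 : ℤ) ≤ 2 ^ 100 by norm_num]) hP.lo' hvZ hA0 he0 he0'
    hRG.ra hRG.ra' hAb hAb' hsz hee
  have hJ1 := hP.J1'
  have hJ0 : (0 : ℤ) < J := by linarith [show (0 : ℤ) < 2 ^ 10 by norm_num]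
  have hM100 := hP.M100
  have hM0 : (0 : ℤ) < M := by linarith [show (0 : ℤ) < 2 ^ 100 by norm_num]
  obtain ⟨hJN, hJM⟩ := hP.JN
  -- the left side: `T = H_q S`
  obtain ⟨q, T, l1, p1, w, g, hST, hT, adT, hw, t1, t2, t3, t4, _, _, t5, t6, t7, hCT, hgA, hg2, hg2'⟩ :=
    hsel_full h.ok ad (by rw [eA, eb']; exact hAb') (by rw [eb]; exact k1) (by rw [eb]; exact k2) hF
  rw [eb] at t1
  rw [eA] at t4 hgA
  rw [eb'] at t5 hg2'
  have hg0 := hCT.pos
  have hw0 : 1 ≤ w := by omega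
  have hbw : b ≤ w * b := le_mul_of_one_le_left hb0.le hw0
  obtain ⟨D, U, V, L, P, hD, hLX, hex⟩ := exLX h.lb hST adT (by rw [t4, t1]; linarith) hCT
    (by rw [t7]; exact hg2)
  rw [t4, t1, t3] at hLX hex
  have hgA' : g ≤ A := Int.le_of_dvd hA0 hgA
  have heT0 : 0 < cr T.u l1 := hLX.e0
  have hD0 : 0 < D := hLX.D0
  have heT : M ^ 9 * A ≤ 2 * cr T.u l1 := by
    have : w * cr T.u l1 ≤ 2 * cr T.u l1 := mul_le_mul_of_nonneg_right (by omega) heT0.le
    linarith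
  -- sizes
  have hnT := adT.nums
  rw [t4, t1, t3, t7] at hnT
  obtain ⟨n1, n2, n3, n4, n5⟩ := hnT.leN (N := N) (by linarith) (by linarith)
  have hDN : D ≤ N := by
    have h1 : 1 * D ≤ g ^ 2 * D := mul_le_mul_of_nonneg_right (one_le_pow₀ (by omega)) hD0.le
    rw [← hD, t7] at h1
    linarith
  have big : 4096 * (J : ℤ) ^ 4 * A ≤ cr T.u l1 := by
    have j1 : (1 : ℤ) ≤ J := by linarith
    have j2 : (8192 : ℤ) * J ^ 4 ≤ M ^ 9 := by
      have k1 : (J : ℤ) ^ 4 ≤ J ^ 10 := pow_le_pow_right₀ j1 (by norm_num)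
      have k2 : (8192 : ℤ) * M ≤ M ^ 8 * M := by
        apply mul_le_mul_of_nonneg_right _ hM0.le
        have : (M : ℤ) ≤ M ^ 8 := le_self_pow₀ (by linarith) (by norm_num)
        linarith [show (8192 : ℤ) ≤ 2 ^ 100 by norm_num]
      calc (8192 : ℤ) * J ^ 4 ≤ 8192 * M := by linarith
        _ ≤ M ^ 8 * M := k2
        _ = M ^ 9 := by ring
    have j3 : (8192 : ℤ) * J ^ 4 * A ≤ M ^ 9 * A := mul_le_mul_of_nonneg_right j2 hA0.le
    linarith
  have hXT := num_X (N := N) (J := J) (D := D) (e := cr T.u l1) (a := cr p l) hP.N16 hJ0.le hJN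
    hD0.le hDN heT0.le n1 ha0.le n2
  obtain ⟨r1, r2, r3⟩ := hLX.tprop (J := J) (X := N ^ 6) (β := β) (g := g) (by linarith) hP.J1 hP.cap
    (by push_cast; exact hXT) big hg0 (by linarith) hex
  have hwbN : w * b ≤ N := by
    have k1 : (4 : ℤ) * J * A ≤ 4096 * J ^ 4 * A := by
      apply mul_le_mul_of_nonneg_right _ hA0.le
      have : (J : ℤ) ≤ J ^ 4 := le_self_pow₀ (by linarith) (by norm_num)
      linarith
    linarith
  have hR3 := num_R (N := N) (D := D) (e := cr T.u l1) (a := cr p l) (b := w * b) hP.N16 hD0.le hDN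
    n1 n2 hwbN
  have hgb : g ^ 2 ≤ b' := Int.le_of_dvd hb0' hg2'
  obtain ⟨z1, z2⟩ := num_fat (K := K0) K0_pos hP.J1' hP.KM' (by positivity) hP.hi' he hA0 hAβ.le hg0
    hw t2 r2 r3 hR3 hgb hAb he0'.le hsz
  -- the right side
  obtain ⟨j, T2, l2, p2, l3, p3, w2, g2, hST2, _, adT2, hw2, s1, s2, s3, s4, s5, s6, s7, _, _, hCT2,
    hgA2, hg22, _⟩ := vsel_full h.ok ad (by rw [eA, eb]; exact hAb) (by rw [eb']; exact k3)
    (by rw [eb']; exact k4) hF
  rw [eb'] at s1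
  rw [eA] at s4 hgA2
  have hw20 : 1 ≤ w2 := by omega
  have hbw2 : b' ≤ w2 * b' := le_mul_of_one_le_left hb0'.le hw20
  obtain ⟨D2, U2, V2, L2, P2, hD2, hLX2, hex2⟩ := exLX h.lb hST2 adT2 (by rw [s4, s1]; linarith) hCT2
    (by rw [s7]; exact hg22)
  rw [s4, s1, s3] at hLX2 hex2
  have heT20 : 0 < cr T2.u l2 := hLX2.e0
  have hD20 : 0 < D2 := hLX2.D0
  have heT2 : cr l' S.v ≤ 2 * cr T2.u l2 := by
    have : w2 * cr T2.u l2 ≤ 2 * cr T2.u l2 := mul_le_mul_of_nonneg_right (by omega) heT20.le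
    linarith
  have hnT2 := adT2.nums
  rw [s4, s1, s3, s7] at hnT2
  obtain ⟨o1, o2, o3, o4, o5⟩ := hnT2.leN (N := N) (by linarith) (by linarith)
  have hg20 := hCT2.pos
  have hD2N : D2 ≤ N := by
    have h1 : 1 * D2 ≤ g2 ^ 2 * D2 := mul_le_mul_of_nonneg_right (one_le_pow₀ (by omega)) hD20.le
    rw [← hD2, s7] at h1
    linarith
  have hXT2 := num_X (N := N) (J := J) (D := D2) (e := cr T2.u l2) (a := cr l' p') hP.N16 hJ0.le hJN
    hD20.le hD2N heT20.le o1 ha0'.le o2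
  obtain ⟨jj, tt, ii, x1, x2⟩ := hLX2.fat1 (J := J) (X := N ^ 6)
    (by have := hP.J1; omega) hP.cap (by push_cast; exact hXT2) (by linarith) (by linarith)
  have x3 := hex2 jj tt ii 1 x1
  rw [x2] at x3
  have x4 : g2 ≤ A := Int.le_of_dvd hA0 hgA2
  push_cast at x3
  linarith

end Pool.Agent.H4G
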