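import Pool.Agent.H4G.Asym.Defs
import Pool.Agent.Helper83.OmegaB

/-!
# Row R2: the sieve length is smaller than every power (helper83)
-/

set_option autoImplicit false

namespace Pool.Agent.H4G

theorem cap_exists (J0 k m : ℕ) :
    ∃ N0, ∀ N ≥ N0, ∃ J, J0 ≤ J ∧ J ^ k ≤ N ∧ Cap J (N ^ m) := by
  classical
  obtain ⟨C, hC, h⟩ := CVE.pow_omega_pow_le 4 (k * (m + 1))
  refine ⟨max C (J0 ^ k) + 1, fun N hN => ?_⟩
  have hN1 : C ≤ N := by have := le_max_left C (J0 ^ k); omega
  have hN2 : J0 ^ k ≤ N := by have := le_max_right C (J0 ^ k); omega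
  have key : ∀ M : ℕ, M ≠ 0 → M ≤ N ^ m → (4 ^ M.primeFactors.card) ^ k ≤ N := by
    intro M hM0 hM
    have h1 := h M (Nat.pos_of_ne_zero hM0)
    have h2 : ((4 ^ M.primeFactors.card) ^ k) ^ (m + 1) ≤ N ^ (m + 1) := by
      calc ((4 ^ M.primeFactors.card) ^ k) ^ (m + 1) = (4 ^ M.primeFactors.card) ^ (k * (m + 1)) := by
            rw [← pow_mul]
        _ ≤ C * M := h1
        _ ≤ N * N ^ m := Nat.mul_le_mul hN1 hM
        _ = N ^ (m + 1) := by ring
    exact (Nat.pow_le_pow_iff_left (by omega)).1 h2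
  set T : Finset ℕ := (Finset.range (N ^ m + 1)).filter (fun M => M ≠ 0)
  refine ⟨max J0 (T.sup (fun M => 4 ^ M.primeFactors.card)), le_max_left _ _, ?_, ?_⟩
  · rcases le_total (T.sup (fun M => 4 ^ M.primeFactors.card)) J0 with hle | hle
    · rw [max_eq_left hle]; exact hN2
    · rw [max_eq_right hle]
      by_cases hT : T.Nonempty
      · obtain ⟨M, hM, hMe⟩ := Finset.exists_mem_eq_sup T hT (fun M => 4 ^ M.primeFactors.card)
        rw [hMe]
        obtain ⟨hM1, hM2⟩ := Finset.mem_filter.1 hM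
        exact key M hM2 (by have := Finset.mem_range.1 hM1; omega)
      · rw [Finset.not_nonempty_iff_eq_empty.1 hT, Finset.sup_empty] at hle ⊢
        have : J0 = 0 := by simpa using hle
        subst this
        simpa using hN2
  · intro M hM0 hM
    refine le_trans ?_ (le_max_right _ _)
    have hmem : M ∈ T := Finset.mem_filter.2 ⟨Finset.mem_range.2 (by omega), hM0⟩
    exact Finset.le_sup (f := fun M : ℕ => 4 ^ M.primeFactors.card) hmem

end Pool.Agent.H4G
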