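import Pool.Agent.H4G.Asym.R4

/-!
# Row R4 with the extra conclusion `0 < i` (helper75)
-/

set_option autoImplicit false

namespace Pool.Agent.H4G

open FatTwo

set_option maxHeartbeats 4000000 in
theorem LX.fat2i {A b e f a D : ℤ} {U V L P : Z2} (h : LX A b e f a D U V L P) {J X : ℕ}
    (hJ : 1 ≤ J) (hcap : Cap J X) (hX : 2 * (J : ℤ) * D * (e + J * a) ≤ X)
    (hb : b < 4 * J * A) (he : 4096 * (J : ℤ) ^ 4 * A ≤ e)
    (hh : ∀ q z : ℤ, 0 < q → q ≤ 16 * J * (J + 1) → q * (a + b - A) ≠ z * e) :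
    ∃ j t i : ℤ, 0 < i ∧ XC A b e f a j t i 1 ∧ gcv (XW U V L P j t i 1) = 1 := by
  have hA := h.A0
  have hAb := h.Ab
  have he0 := h.e0
  have hD := h.D0
  have hra := h.ra
  have hJ' : (1 : ℤ) ≤ J := by exact_mod_cast hJ
  have hJ0 : (0 : ℤ) < J := by linarith
  have hb0 : 0 < b := by linarith
  have hea : e ≤ a := by
    -- a A = e b >= e A
    have h1 : e * A ≤ a * A := by rw [hra]; exact mul_le_mul_of_nonneg_left hAb he0.le
    exact le_of_mul_le_mul_right h1 hA
  have ha0 : 0 < a := by linarith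
  set θ : ℤ := a + b - A with hθ
  -- powers of J
  have hJ2 : (J : ℤ) ≤ (J : ℤ) ^ 2 := num1 hJ'
  have hJ4 : (J : ℤ) ^ 2 ≤ (J : ℤ) ^ 4 := num2 hJ'
  -- Dirichlet
  obtain ⟨q0, z0, hq1, hq2, hq3⟩ := dirichlet θ e he0 (16 * J * (J + 1)) (by positivity)
  push_cast at hq2 hq3
  have hne : q0 * θ - z0 * e ≠ 0 := fun hc => hh q0 z0 hq1 hq2 (by linarith)
  obtain ⟨q, z, hq, d, hd, hd0, hd1⟩ : ∃ q z : ℤ, q ≠ 0 ∧ ∃ d : ℤ, d = q * θ - z * e ∧ 0 < d ∧
      (16 * (J : ℤ) * (J + 1) + 1) * d ≤ e := by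
    rcases lt_or_gt_of_ne hne with hlt | hgt
    · refine ⟨-q0, -z0, by omega, _, rfl, by linarith, ?_⟩
      rw [abs_of_neg hlt] at hq3
      linarith
    · refine ⟨q0, z0, by omega, _, rfl, hgt, ?_⟩
      rw [abs_of_pos hgt] at hq3
      linarith
  -- j0
  have hL0 : ∀ p : ℕ, DV (p : ℤ) L → (p : ℤ) ∣ D * e := fun p hp => by
    rw [← h.hUL]; exact hp.cr_right U
  have hDe : 0 < D * e := mul_pos hD he0
  obtain ⟨j0, hj0⟩ := crt_exists (D * e) hDe.ne' (fun p j => Good U V L P p j)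
    (fun p hp _ => by
      by_cases h0 : Good U V L P p 0
      · exact ⟨0, h0⟩
      · refine ⟨1, ?_⟩
        by_contra h1
        have := Good.unique h hp h0 h1
        exact prime_not_dvd_one hp (by simpa using this))
    (fun p hp _ k k' hk hg => Good.congr hk hg)
  -- k0: first k with 8 J F >= e
  set F0 : ℤ := f + j0 * θ with hF0
  have h8 : (0 : ℤ) < 8 * J := by linarith
  obtain ⟨k0, hk0, hk0'⟩ : ∃ k0 : ℤ, e ≤ 8 * J * (F0 + k0 * d) ∧
      8 * J * (F0 + k0 * d) < e + 8 * J * d := by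
    have hm : 0 < 8 * (J : ℤ) * d := mul_pos h8 hd0
    -- k0 = ceil ((e - 8 J F0) / (8 J d)) = - floor ((8 J F0 - e) / (8 J d))
    refine ⟨-((8 * J * F0 - e) / (8 * J * d)), ?_, ?_⟩
    · have := Int.ediv_mul_le (8 * J * F0 - e) hm.ne'
      have e1 : 8 * (J : ℤ) * (F0 + -((8 * J * F0 - e) / (8 * J * d)) * d) =
          8 * J * F0 - (8 * J * F0 - e) / (8 * J * d) * (8 * J * d) := by ring
      rw [e1]
      linarith
    · have := Int.lt_ediv_add_one_mul_self (8 * J * F0 - e) hm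
      have e1 : 8 * (J : ℤ) * (F0 + -((8 * J * F0 - e) / (8 * J * d)) * d) =
          8 * J * F0 - ((8 * J * F0 - e) / (8 * J * d) + 1) * (8 * J * d) + 8 * J * d := by ring
      rw [e1]
      linarith
  -- sieve on k
  have hXDe : 2 * D * e ≤ X := by
    have h1 : 2 * D * e ≤ 2 * (J : ℤ) * D * (e + J * a) := by
      have h2 : D * e ≤ (J : ℤ) * (D * (e + J * a)) := by
        have h3 : D * e ≤ D * (e + J * a) := by
          apply mul_le_mul_of_nonneg_left _ hD.le
          have := mul_pos hJ0 ha0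
          linarith
        have h4 : D * (e + J * a) ≤ (J : ℤ) * (D * (e + J * a)) := by
          have : 0 ≤ D * (e + J * a) := by positivity
          exact num3 hJ' this
        linarith
      linarith
    linarith
  obtain ⟨k, hk1, hk2, hk3⟩ := sv hcap (M := 2 * D * e) (by positivity) hXDe
    (fun p k => ¬ Good U V L P p (j0 + q * k)) (fun _ _ => False)
    (fun p hp hpd k k' h1 h2 => by
      have h3 := Good.unique h hp h1 h2
      have h4 : j0 + q * k - (j0 + q * k') = q * (k - k') := by ring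
      rw [h4] at h3
      have hp' : Prime (p : ℤ) := Nat.prime_iff_prime_int.1 hp
      rcases hp'.dvd_or_dvd h3 with h5 | h5
      · exfalso
        apply h1
        have hL : DV (p : ℤ) L := by
          unfold Good at h1
          push Not at h1
          exact h1.1
        refine Good.congr (j := j0) ?_ (hj0 p hp (hL0 p hL))
        have : j0 + q * k - j0 = q * k := by ring
        rw [this]
        exact h5.mul_right _
      · exact h5)
    (fun p hp hpd k k' h1 h2 => h1.elim) (Or.inr fun _ hf => hf) k0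
  set j : ℤ := j0 + q * k with hj
  set t0 : ℤ := z * k with ht0
  have hgood : ∀ p : ℕ, p.Prime → Good U V L P p j := by
    intro p hp hL
    have hpd : (p : ℤ) ∣ 2 * D * e := by
      have := hL0 p hL
      rw [mul_assoc]; exact this.mul_left 2
    have := (hk3 p hp hpd).1
    rw [not_not] at this
    exact this hL
  set F : ℤ := f + j * θ - t0 * e with hF
  have hFk : F = F0 + k * d := by rw [hF, hF0, hj, ht0, hd]; ring
  -- bounds of F
  have hF1 : e ≤ 8 * J * F := by
    rw [hFk]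
    have h1 : 0 ≤ (k - k0) * d := mul_nonneg (by linarith) hd0.le
    have h2 : 8 * (J : ℤ) * (F0 + k0 * d) ≤ 8 * J * (F0 + k * d) := by
      apply mul_le_mul_of_nonneg_left _ h8.le
      linarith [(by ring : (k - k0) * d = k * d - k0 * d)]
    linarith
  have hF2 : 4 * J * F ≤ e := by
    rw [hFk]
    have h1 : (k - k0) * d ≤ (J - 1) * d := mul_le_mul_of_nonneg_right (by linarith) hd0.le
    have h2 : 8 * (J : ℤ) * (F0 + k * d) ≤ 8 * J * (F0 + k0 * d) + 8 * J * ((J - 1) * d) := by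
      have h5 := mul_le_mul_of_nonneg_left h1 h8.le
      have e1 : 8 * (J : ℤ) * (F0 + k * d) = 8 * J * (F0 + k0 * d) + 8 * J * ((k - k0) * d) := by
        ring
      rw [e1]
      linarith
    have h3 : 8 * (J : ℤ) * (F0 + k * d) < e + 8 * J * (J * d) := by
      have e1 : 8 * (J : ℤ) * ((J - 1) * d) = 8 * J * (J * d) - 8 * J * d := by ring
      rw [e1] at h2
      linarith
    have h4 : 8 * (J : ℤ) * (J * d) ≤ e := by
      have : 8 * (J : ℤ) * (J * d) ≤ (16 * (J : ℤ) * (J + 1) + 1) * d := num6 hJ' hd0.le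
      linarith
    linarith
  have hFpos : 0 < F := by
    by_contra hc
    have : 8 * (J : ℤ) * F ≤ 0 := mul_nonpos_of_nonneg_of_nonpos h8.le (by linarith)
    linarith
  have hFb : 128 * (J : ℤ) ^ 2 * b ≤ F := by
    -- 8 J F >= e >= 4096 J^4 A >= 1024 J^3 b
    have h1 : 1024 * (J : ℤ) ^ 3 * b ≤ 8 * J * F := by
      have : 1024 * (J : ℤ) ^ 3 * b ≤ 4096 * (J : ℤ) ^ 4 * A := by
        have h3 : 1024 * (J : ℤ) ^ 3 * b ≤ 1024 * (J : ℤ) ^ 3 * (4 * J * A) :=
          mul_le_mul_of_nonneg_left hb.le (by positivity)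
        calc 1024 * (J : ℤ) ^ 3 * b ≤ 1024 * (J : ℤ) ^ 3 * (4 * J * A) := h3
          _ = 4096 * (J : ℤ) ^ 4 * A := by ring
      linarith
    have h2 : 8 * (J : ℤ) * (128 * (J : ℤ) ^ 2 * b) ≤ 8 * J * F := by
      calc 8 * (J : ℤ) * (128 * (J : ℤ) ^ 2 * b) = 1024 * (J : ℤ) ^ 3 * b := by ring
        _ ≤ _ := h1
    exact le_of_mul_le_mul_left h2 h8
  have hF2b : 2 * b ≤ F := by
    have : b ≤ (J : ℤ) ^ 2 * b := num4 hJ' hb0.le
    linarith
  have hFb0 : 0 < F - b := by linarith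
  -- D1
  set D1 : Z2 := P - j • V - t0 • L with hD1
  have hD1V : cr D1 V = D * b := by
    rw [hD1]
    simp only [cr_sub_left, cr_smul_left, cr_self, h.hPV, h.hLV]
    ring
  -- sieve on τ
  have hbe : b ≤ e := by
    have h1 : 4 * (J : ℤ) * A ≤ 4096 * (J : ℤ) ^ 4 * A := by
      have : (J : ℤ) ≤ (J : ℤ) ^ 4 := by linarith
      have h5 := mul_le_mul_of_nonneg_right this hA.le
      have h6 : 0 ≤ (J : ℤ) ^ 4 * A := by positivity
      linarith
    linarith
  obtain ⟨τ, hτ1, hτ2, hτ3⟩ := sv hcap (M := 2 * D * b) (by positivity)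
    (le_trans (mul_le_mul_of_nonneg_left hbe (by positivity)) hXDe)
    (fun p τ => DV (p : ℤ) D1 ∧ DV (p : ℤ) (U + V - j • (V + L) - τ • L))
    (fun p τ => p = 2 ∧ ¬ DV (2 : ℤ) D1 ∧ (2 : ℤ) ∣ τ)
    (fun p hp hpd τ τ' h1 h2 => by
      by_contra hc
      have h3 : DV (p : ℤ) ((τ - τ') • L) := by
        have := h2.2.sub h1.2
        have h4 : U + V - j • (V + L) - τ' • L - (U + V - j • (V + L) - τ • L) =
            (τ - τ') • L := by module
        rwa [h4] at this
      have hL := (prime_dvd_cases hp h3).resolve_left hc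
      refine hgood p hp hL ⟨?_, ?_⟩
      · have := h1.1.add (hL.smul t0)
        have h4 : D1 + t0 • L = P - j • V := by rw [hD1]; module
        rwa [h4] at this
      · have := h1.2.add (hL.smul (j + τ))
        have h4 : U + V - j • (V + L) - τ • L + (j + τ) • L = U + V - j • V := by module
        rwa [h4] at this)
    (fun p hp hpd τ τ' h1 h2 => by
      obtain ⟨rfl, -, h3⟩ := h1
      exact dvd_sub h3 h2.2.2)
    (by
      by_cases hc : DV (2 : ℤ) D1
      · exact Or.inr fun _ hf => hf.2.1 hc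
      · exact Or.inl fun _ hf => hc (by exact_mod_cast hf.1)) 1
  have hτJ : τ ≤ J := by linarith
  have hτ0 : 0 < τ := by linarith
  -- facts from the τ sieve
  have hτA : ∀ p : ℕ, p.Prime → DV (p : ℤ) D1 →
      ¬ DV (p : ℤ) (U + V - j • (V + L) - τ • L) := by
    intro p hp h1 h2
    have h3 : (p : ℤ) ∣ 2 * D * b := by
      have := h1.cr_left V
      rw [hD1V] at this
      rw [mul_assoc]; exact this.mul_left 2
    exact (hτ3 p hp h3).1 ⟨h1, h2⟩
  have hτB : (2 : ℤ) ∣ τ → DV (2 : ℤ) D1 := by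
    intro h1
    by_contra h2
    have h3 : ((2 : ℕ) : ℤ) ∣ 2 * D * b := ⟨D * b, by push_cast; ring⟩
    exact (hτ3 2 Nat.prime_two h3).2 ⟨rfl, h2, h1⟩
  -- sieve on i
  set W0 : Z2 := U + V - j • (V + L) - τ • L with hW0
  have hcrW : cr W0 D1 = D * (F - b + τ * a) := by
    have e1 : cr U V = D * A := h.hUV
    have e2 : cr U L = D * e := h.hUL
    have e3 : cr U P = D * f := h.hUP
    have e4 : cr P V = D * b := h.hPV
    have e5 : cr P L = D * a := h.hPL
    have e6 : cr L V = 0 := h.hLV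
    have e7 : cr V P = -(D * b) := by rw [cr_swap, e4]
    have e8 : cr L P = -(D * a) := by rw [cr_swap, e5]
    have e9 : cr V L = 0 := by rw [cr_swap, e6]; ring
    rw [hW0, hD1]
    simp only [cr_sub_left, cr_sub_right, cr_add_left, cr_smul_left, cr_smul_right, cr_self,
      e1, e2, e3, e6, e7, e8, e9]
    rw [hF, hθ]
    ring
  have hM : 0 < F - b + τ * a := by have := mul_pos hτ0 ha0; linarith
  -- first i
  obtain ⟨i0, hi0, hi0'⟩ : ∃ i0 : ℤ, τ * e < i0 * (F - b) ∧ i0 * (F - b) ≤ τ * e + (F - b) := by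
    refine ⟨τ * e / (F - b) + 1, ?_, ?_⟩
    · have := Int.lt_ediv_add_one_mul_self (τ * e) hFb0
      linarith
    · have := Int.ediv_mul_le (τ * e) hFb0.ne'
      linarith
  have hMX : D * (F - b + τ * a) * τ ≤ X := by
    have h1 : F ≤ e := by
      have := num3 hJ' hFpos.le
      linarith
    have h2 : D * (F - b + τ * a) ≤ D * (e + J * a) := by
      apply mul_le_mul_of_nonneg_left _ hD.le
      have : τ * a ≤ J * a := mul_le_mul_of_nonneg_right hτJ ha0.le
      linarith
    have h3 : 0 ≤ D * (e + J * a) := by positivity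
    calc D * (F - b + τ * a) * τ ≤ D * (e + J * a) * J := by
          apply mul_le_mul h2 hτJ hτ0.le h3
      _ ≤ 2 * (J : ℤ) * D * (e + J * a) := by
          have h5 : 0 ≤ D * (e + J * a) * J := mul_nonneg h3 hJ0.le
          linarith
      _ ≤ X := hX
  obtain ⟨i, hi1, hi2, hi3⟩ := sv hcap (M := D * (F - b + τ * a) * τ) (by positivity) hMX
    (fun p i => ¬ DV (p : ℤ) D1 ∧ DV (p : ℤ) (W0 + i • D1))
    (fun p i => (p : ℤ) ∣ τ ∧ (p : ℤ) ∣ i)
    (fun p hp hpd i i' h1 h2 => by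
      by_contra hc
      have h3 : DV (p : ℤ) ((i - i') • D1) := by
        have := h1.2.sub h2.2
        have h4 : W0 + i • D1 - (W0 + i' • D1) = (i - i') • D1 := by module
        rwa [h4] at this
      exact h1.1 ((prime_dvd_cases hp h3).resolve_left hc))
    (fun p hp hpd i i' h1 h2 => dvd_sub h1.2 h2.2)
    (by
      by_cases hc : (2 : ℤ) ∣ τ
      · refine Or.inl fun _ hf => hf.1 ?_
        exact_mod_cast hτB hc
      · exact Or.inr fun _ hf => hc (by exact_mod_cast hf.1)) i0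
  have hi4 : τ * e < i * (F - b) := by
    have : i0 * (F - b) ≤ i * (F - b) := mul_le_mul_of_nonneg_right hi1 hFb0.le
    linarith
  have hipos : 0 < i := by
    by_contra hc
    have h1 : i * (F - b) ≤ 0 := mul_nonpos_of_nonpos_of_nonneg (by linarith) hFb0.le
    have h2 : 0 < τ * e := mul_pos hτ0 he0
    linarith
  -- upper bound i F <= a + τ e
  have hi5 : i * F ≤ a + τ * e := by
    -- i <= i0 + J - 1, i0 (F-b) <= τ e + F - b; so i F = i (F - b) + i b
    have h1 : i ≤ i0 + (J - 1) := by linarith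
    have h2 : i * (F - b) ≤ τ * e + J * (F - b) := by
      have : i * (F - b) ≤ (i0 + (J - 1)) * (F - b) := mul_le_mul_of_nonneg_right h1 hFb0.le
      linarith [(by ring : (i0 + ((J : ℤ) - 1)) * (F - b) = i0 * (F - b) + J * (F - b) - (F - b))]
    -- i b : from i (F - b) <= τ e + J (F - b) and F - b >= F/2 : i F <= 2 i (F-b) <= 2 τ e + 2 J F
    have h3 : i * F ≤ 2 * (τ * e + J * (F - b)) := by
      have : i * F ≤ i * (2 * (F - b)) := mul_le_mul_of_nonneg_left (by linarith) hipos.le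
      linarith
    -- i <= (2 J e + 2 J F) / F <= 16 J^2 + 2 J
    have h4 : i * F ≤ (16 * (J : ℤ) ^ 2 + 2 * J) * F := by
      have h5 : τ * e ≤ J * (8 * J * F) :=
        mul_le_mul hτJ hF1 he0.le hJ0.le
      have h6 : (J : ℤ) * (F - b) ≤ J * F := mul_le_mul_of_nonneg_left (by linarith) hJ0.le
      linarith [(by ring : (16 * (J : ℤ) ^ 2 + 2 * J) * F = 2 * (J * (8 * J * F)) + 2 * (J * F))]
    have h7 : i ≤ 16 * (J : ℤ) ^ 2 + 2 * J := le_of_mul_le_mul_right h4 hFpos
    have h8 : i * b ≤ (16 * (J : ℤ) ^ 2 + 2 * J) * b := mul_le_mul_of_nonneg_right h7 hb0.le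
    have h9 : (16 * (J : ℤ) ^ 2 + 2 * J) * b ≤ 18 * (J : ℤ) ^ 2 * b := by
      have h5 := num5 hJ' hb0.le
      linarith
    have h10 : i * F = i * (F - b) + i * b := by ring
    have h11 : (J : ℤ) * (F - b) ≤ J * F := mul_le_mul_of_nonneg_left (by linarith) hJ0.le
    -- J F <= e / 4, 18 J^2 b <= F <= e/4
    have h12 : 4 * F ≤ e := by
      have := num3 hJ' hFpos.le
      linarith
    have h13 : 18 * (J : ℤ) ^ 2 * b ≤ F := by
      have := mul_pos (pow_pos hJ0 2) hb0
      linarith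
    linarith
  set t : ℤ := -τ - i * t0 with ht
  have hXF : XF A b e f a j t i = i * F - τ * e := by
    unfold XF
    rw [ht, hF, hθ]
    ring
  have hXW : XW U V L P j t i 1 = W0 + i • D1 := by
    unfold XW
    rw [hW0, hD1, ht]
    module
  refine ⟨j, t, i, hipos, ⟨Or.inl rfl, hipos.le, ?_, ?_, ?_⟩, ?_⟩
  · -- coprime t i
    apply isCoprime_of_prime
    intro p hp hpi hpt
    have h1 : (p : ℤ) ∣ τ := by
      have h2 : (p : ℤ) ∣ -τ := by
        have h3 : -τ = t + i * t0 := by rw [ht]; ring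
        rw [h3]
        exact dvd_add hpt (hpi.mul_right _)
      exact (dvd_neg).1 h2
    exact (hi3 p hp (h1.mul_left _)).2 ⟨h1, hpi⟩
  · rw [hXF]; linarith
  · rw [hXF]; linarith
  · rw [hXW]
    apply gcv_one
    intro p hp hW
    have h1 : (p : ℤ) ∣ D * (F - b + τ * a) := by
      have h2 := hW.cr_left D1
      rw [cr_add_left, cr_smul_left, cr_self, mul_zero, add_zero, hcrW] at h2
      exact h2
    have h3 : DV (p : ℤ) D1 := by
      by_contra hc
      exact (hi3 p hp (h1.mul_right τ)).1 ⟨hc, hW⟩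
    refine hτA p hp h3 ?_
    have h4 := hW.sub (h3.smul i)
    rwa [add_sub_cancel_right] at h4

end Pool.Agent.H4G
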