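import Pool.Agent.H4G.Asym.Defs

/-!
# Rows R5a, R5b, R5c: the thin case (helper91)
-/

set_option autoImplicit false

namespace Pool.Agent.H4G

/-! ## Tools -/

theorem not_dvd_cr {l : ℤ} {x y : Z2} {s : ℤ} (h : DV l (x - s • y)) : l ∣ cr x y := by
  have h1 := h.cr_left y
  rw [cr_sub_left, cr_smul_left, cr_self, mul_zero, sub_zero] at h1
  exact h1

theorem DV.smul_ext {c : ℤ} {x : Z2} (h : DV c x) : ∃ y : Z2, x = c • y := by
  obtain ⟨⟨p, hp⟩, ⟨q, hq⟩⟩ := h
  refine ⟨(p, q), ?_⟩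
  ext
  · simp [hp]
  · simp [hq]

theorem gcv_smul (c : ℤ) (x : Z2) : gcv (c • x) = c.natAbs * gcv x := by
  unfold gcv
  simp only [Prod.smul_fst, Prod.smul_snd, smul_eq_mul]
  rw [Int.gcd_mul_left]

/-- CRT2: a line `x - s y` of vectors contains one whose content is the common content. -/
theorem crt_vec {x y : Z2} (h : cr x y ≠ 0) :
    ∃ s : ℤ, gcv (x - s • y) = Nat.gcd (gcv x) (gcv y) := by
  set G : ℕ := Nat.gcd (gcv x) (gcv y) with hG
  have hGx : DV (G : ℤ) x := dv_iff_gcv.2 (Int.natCast_dvd_natCast.2 (Nat.gcd_dvd_left _ _))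
  have hGy : DV (G : ℤ) y := dv_iff_gcv.2 (Int.natCast_dvd_natCast.2 (Nat.gcd_dvd_right _ _))
  obtain ⟨x', hx'⟩ := hGx.smul_ext
  obtain ⟨y', hy'⟩ := hGy.smul_ext
  have hG0 : (G : ℤ) ≠ 0 := by
    intro h0
    apply h
    rw [hx', h0, zero_smul, cr_zero_left]
  have hG0' : 0 < G := Nat.pos_of_ne_zero (by exact_mod_cast hG0)
  have hcr' : cr x' y' ≠ 0 := by
    intro h0
    apply h
    rw [hx', hy', cr_smul_left, cr_smul_right, h0]; ring
  have hprim : ∀ l : ℕ, l.Prime → DV (l : ℤ) x' → ¬ DV (l : ℤ) y' := by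
    intro l hl h1 h2
    have e1 : G * l ∣ gcv x := by
      rw [hx', gcv_smul, Int.natAbs_natCast]
      exact mul_dvd_mul_left _ (Int.natCast_dvd_natCast.1 (dv_iff_gcv.1 h1))
    have e2 : G * l ∣ gcv y := by
      rw [hy', gcv_smul, Int.natAbs_natCast]
      exact mul_dvd_mul_left _ (Int.natCast_dvd_natCast.1 (dv_iff_gcv.1 h2))
    have e3 : G * l ∣ G := by
      conv_rhs => rw [hG]
      exact Nat.dvd_gcd e1 e2
    have e4 := Nat.le_of_dvd hG0' e3
    have e5 := hl.two_le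
    nlinarith
  obtain ⟨s, hs⟩ := crt_exists (cr x' y') hcr' (fun l s => ¬ DV (l : ℤ) (x' - s • y'))
    (fun l hl _ => by
      by_cases h0 : DV (l : ℤ) (x' - (0 : ℤ) • y')
      · refine ⟨1, fun h1 => ?_⟩
        have h2 : DV (l : ℤ) x' := by
          have : x' - (0 : ℤ) • y' = x' := by simp
          rwa [this] at h0
        have h3 : DV (l : ℤ) y' := by
          have e : y' = x' - (x' - (1 : ℤ) • y') := by simp
          rw [e]
          exact h2.sub h1
        exact hprim l hl h2 h3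
      · exact ⟨0, h0⟩)
    (fun l hl _ k k' h1 h2 h3 => by
      apply h2
      have e : x' - k • y' = (x' - k' • y') + (k' - k) • y' := by
        rw [sub_smul]; abel
      rw [e]
      refine h3.add ?_
      exact ⟨by rw [Prod.smul_fst, smul_eq_mul]; exact h1.mul_right _,
        by rw [Prod.smul_snd, smul_eq_mul]; exact h1.mul_right _⟩)
  refine ⟨s, ?_⟩
  have e : x - s • y = (G : ℤ) • (x' - s • y') := by
    conv_lhs => rw [hx', hy']
    rw [smul_sub, smul_comm]
  rw [e, gcv_smul, Int.natAbs_natCast]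
  have h1 : gcv (x' - s • y') = 1 := by
    by_contra hne
    obtain ⟨l, hl, hd⟩ := Nat.exists_prime_and_dvd hne
    have hd' : DV (l : ℤ) (x' - s • y') := dv_iff_gcv.2 (Int.natCast_dvd_natCast.2 hd)
    exact hs l hl (not_dvd_cr hd') hd'
  rw [h1, mul_one]

/-- A number dividing `c` times all coordinates divides `c`. -/
theorem LX.prim_mul {A b e f a D : ℤ} {U V L P : Z2} (h : LX A b e f a D U V L P) {d c : ℤ}
    (hU : DV d (c • U)) (hV : DV d (c • V)) (hL : DV d (c • L)) (hP : DV d (c • P)) : d ∣ c := by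
  by_cases h0 : Int.gcd d c = 0
  · rw [Int.gcd_eq_zero_iff] at h0
    rw [h0.2]; exact dvd_zero _
  · obtain ⟨g, d', c', hg, hco, hd, hc⟩ :=
      Int.exists_gcd_one' (Nat.pos_of_ne_zero h0)
    have hg0 : (g : ℤ) ≠ 0 := by exact_mod_cast hg.ne'
    have hcop : IsCoprime d' c' := Int.isCoprime_iff_gcd_eq_one.2 hco
    have key : ∀ x : Z2, DV d (c • x) → DV d' x := by
      intro x hx
      have aux : ∀ r : ℤ, d ∣ c * r → d' ∣ r := by
        intro r hr
        rw [hd, hc] at hr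
        have : g * d' ∣ g * (c' * r) := by
          have e1 : d' * (g : ℤ) = g * d' := by ring
          have e2 : c' * (g : ℤ) * r = g * (c' * r) := by ring
          rw [← e1, ← e2]; exact hr
        exact hcop.dvd_of_dvd_mul_left ((mul_dvd_mul_iff_left hg0).1 this)
      exact ⟨aux _ (by have := hx.1; rwa [Prod.smul_fst, smul_eq_mul] at this),
        aux _ (by have := hx.2; rwa [Prod.smul_snd, smul_eq_mul] at this)⟩
    have h1 : d' ∣ 1 := h.prim d' (key U hU) (key V hV) (key L hL) (key P hP)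
    rw [hd, hc]
    exact mul_dvd_mul (h1.trans (one_dvd _)) dvd_rfl

/-- `a > 0` -/
theorem LX.apos {A b e f a D : ℤ} {U V L P : Z2} (h : LX A b e f a D U V L P) : 0 < a := by
  have hb : 0 < b := h.A0.trans_le h.Ab
  have h1 : 0 < a * A := by rw [h.ra]; exact mul_pos h.e0 hb
  exact (pos_iff_pos_of_mul_pos h1).2 h.A0

/-! ## R5a -/

/-- R5a -/
theorem LX.thin_num {A b e f a D : ℤ} {U V L P : Z2} (h : LX A b e f a D U V L P)
    {J : ℕ} {h0 z0 : ℤ} (hJ : 1 ≤ J) (hAb : A < b) (hb : b < 4 * J * A)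
    (he : 4096 * (J : ℤ) ^ 4 * A ≤ e) (hh0 : 0 < h0) (hh1 : h0 ≤ 16 * J * (J + 1))
    (hz : h0 * (a + b - A) = z0 * e) :
    0 < z0 - h0 ∧ z0 - h0 ≤ 256 * (J : ℤ) ^ 3 ∧ A + e ≤ 256 * (J : ℤ) ^ 3 * A ^ 2 := by
  have hA := h.A0
  have he0 := h.e0
  have hJ' : (1 : ℤ) ≤ J := by exact_mod_cast hJ
  set z := z0 - h0 with hzd
  have E1 : z * e * A = h0 * ((A + e) * (b - A)) := by
    have h1 : z * e = h0 * (a + b - A) - h0 * e := by rw [hz, hzd]; ring
    rw [h1]
    have h2 := h.ra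
    linear_combination h0 * h2
  have hbA : 0 < b - A := by omega
  have hzpos : 0 < z := by
    have h1 : 0 < z * e * A := by
      rw [E1]; positivity
    have h2 : 0 < z * (e * A) := by rw [← mul_assoc]; exact h1
    exact (pos_iff_pos_of_mul_pos h2).2 (mul_pos he0 hA)
  -- A ≤ e
  have hAe : A ≤ e := by
    have h1 : 1 * A ≤ 4096 * (J : ℤ) ^ 4 * A := by
      apply mul_le_mul_of_nonneg_right _ hA.le
      have : (1 : ℤ) ≤ (J : ℤ) ^ 4 := one_le_pow₀ hJ'
      linarith
    linarith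
  have hz1 : z ≤ 256 * (J : ℤ) ^ 3 := by
    -- z e A < h0 (A+e) 4 J A ≤ 16 J (J+1) (2 e) 4 J A ≤ 256 J^3 e A
    have h1 : h0 * ((A + e) * (b - A)) ≤ (16 * J * (J + 1)) * ((2 * e) * (4 * J * A)) := by
      apply mul_le_mul hh1 _ (by positivity) (by positivity)
      apply mul_le_mul _ _ hbA.le (by positivity)
      · linarith
      · linarith
    have h2 : (16 * (J : ℤ) * (J + 1)) * ((2 * e) * (4 * J * A)) ≤ 256 * (J : ℤ) ^ 3 * (e * A) := by
      have : (128 : ℤ) * J ^ 2 * (J + 1) ≤ 256 * J ^ 3 := by nlinarith [sq_nonneg (J : ℤ)]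
      have h3 : (128 : ℤ) * J ^ 2 * (J + 1) * (e * A) ≤ 256 * J ^ 3 * (e * A) :=
        mul_le_mul_of_nonneg_right this (by positivity)
      calc (16 * (J : ℤ) * (J + 1)) * ((2 * e) * (4 * J * A))
          = 128 * J ^ 2 * (J + 1) * (e * A) := by ring
        _ ≤ _ := h3
    have h4 : z * (e * A) ≤ 256 * (J : ℤ) ^ 3 * (e * A) := by
      rw [← mul_assoc, E1]; exact h1.trans h2
    exact le_of_mul_le_mul_right h4 (mul_pos he0 hA)
  refine ⟨hzpos, hz1, ?_⟩
  set w0 := z * A - h0 * (b - A) with hw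
  have E2 : w0 * e = h0 * (b - A) * A := by
    rw [hw]; linear_combination E1
  have hwpos : 0 < w0 := by
    have h1 : 0 < w0 * e := by rw [E2]; positivity
    exact (pos_iff_pos_of_mul_pos h1).2 he0
  have E3 : w0 * (A + e) = z * A ^ 2 := by
    rw [mul_add, E2, hw]; ring
  calc A + e = 1 * (A + e) := by ring
    _ ≤ w0 * (A + e) := mul_le_mul_of_nonneg_right (by omega) (by positivity)
    _ = z * A ^ 2 := E3
    _ ≤ 256 * (J : ℤ) ^ 3 * A ^ 2 := mul_le_mul_of_nonneg_right hz1 (by positivity)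

/-! ## R5b -/

theorem LX.cr_W0_V {A b e f a D : ℤ} {U V L P : Z2} (h : LX A b e f a D U V L P) (t i o : ℤ) :
    cr (XW U V L P 0 t i o) V = D * (A + i * b) := by
  unfold XW
  simp only [cr_add_left, cr_sub_left, cr_smul_left, cr_self, h.hUV, h.hLV, h.hPV]
  ring

theorem LX.cr_W0_L {A b e f a D : ℤ} {U V L P : Z2} (h : LX A b e f a D U V L P) (t i o : ℤ) :
    cr (XW U V L P 0 t i o) L = D * (e + i * a) := by
  have hVL : cr V L = 0 := by rw [cr_swap, h.hLV, neg_zero]
  unfold XW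
  simp only [cr_add_left, cr_sub_left, cr_smul_left, cr_self, h.hUL, hVL, h.hPL]
  ring

theorem LX.cr_W0_XN {A b e f a D : ℤ} {U V L P : Z2} (h : LX A b e f a D U V L P)
    (t i o h0 z : ℤ) : cr (XW U V L P 0 t i o) (XN V L h0 z i) =
      D * (h0 * (1 + i) * (A + i * b) + (h0 * (1 + i) + i * z) * (e + i * a)) := by
  unfold XN
  rw [cr_add_right, cr_smul_right, cr_smul_right, cr_add_right, h.cr_W0_V, h.cr_W0_L]
  ring

/-- R5b -/
theorem LX.thin_exit {A b e f a D : ℤ} {U V L P : Z2} (h : LX A b e f a D U V L P)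
    {β g h0 z0 : ℤ} (hh0 : 0 < h0) (hz : h0 * (a + b - A) = z0 * e) (hz0 : 0 ≤ z0 - h0)
    (hex : ∀ j t i o : ℤ, XC A b e f a j t i o → β ≤ g * (gcv (XW U V L P j t i o) : ℤ))
    {t i o : ℤ} (hx : XC A b e f a 0 t i o) :
    β ≤ g * ((Nat.gcd (gcv (XW U V L P 0 t i o)) (gcv (XN V L h0 (z0 - h0) i)) : ℕ) : ℤ) := by
  have hi := hx.i0
  have hA := h.A0
  have hb : 0 < b := h.A0.trans_le h.Ab
  have he := h.e0
  have ha := h.apos
  have hcr : cr (XW U V L P 0 t i o) (XN V L h0 (z0 - h0) i) ≠ 0 := by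
    rw [h.cr_W0_XN]
    have h1 : 0 < h0 * (1 + i) := by positivity
    have h2 : 0 < h0 * (1 + i) * (A + i * b) := by positivity
    have h3 : 0 ≤ i * (z0 - h0) := by positivity
    have h4 : 0 ≤ (h0 * (1 + i) + i * (z0 - h0)) * (e + i * a) := by positivity
    have hD := h.D0
    have : 0 < D * (h0 * (1 + i) * (A + i * b) + (h0 * (1 + i) + i * (z0 - h0)) * (e + i * a)) := by
      positivity
    exact this.ne'
  obtain ⟨s, hs⟩ := crt_vec hcr
  have hF : XF A b e f a (h0 * s) (t - i * s * z0) i = XF A b e f a 0 t i := by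
    unfold XF
    linear_combination (i * s) * hz
  have hx' : XC A b e f a (h0 * s) (t - i * s * z0) i o := by
    refine ⟨hx.o1, hx.i0, ?_, ?_, ?_⟩
    · have e1 : t - i * s * z0 = t + i * (-(s * z0)) := by ring
      rw [e1]
      exact hx.cop.add_mul_left_left _
    · rw [hF]; exact hx.lo
    · rw [hF]; exact hx.hi
  have h1 := hex _ _ _ _ hx'
  have hW : XW U V L P (h0 * s) (t - i * s * z0) i o =
      XW U V L P 0 t i o - s • XN V L h0 (z0 - h0) i := by
    unfold XW XN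
    module
  rw [hW, hs] at h1
  exact h1

/-! ## R5c -/

/-- R5c -/
theorem LX.pair {A b e f a D : ℤ} {U V L P : Z2} (h : LX A b e f a D U V L P)
    {h0 z d o t i t' i' : ℤ} (hW : DV d (XW U V L P 0 t i o)) (hN : DV d (XN V L h0 z i))
    (hW' : DV d (XW U V L P 0 t' i' o)) (hN' : DV d (XN V L h0 z i')) :
    d ∣ h0 * z * (i - i') ^ 2 := by
  have hL : DV d (((i - i') * z) • L) := by
    have e : ((i - i') * z) • L = (1 + i') • XN V L h0 z i - (1 + i) • XN V L h0 z i' := by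
      unfold XN; module
    rw [e]
    exact (hN.smul _).sub (hN'.smul _)
  have hVL : DV d (((i - i') * h0) • (V + L)) := by
    have e : ((i - i') * h0) • (V + L) = XN V L h0 z i - XN V L h0 z i' - ((i - i') * z) • L := by
      unfold XN; module
    rw [e]
    exact (hN.sub hN').sub hL
  have hV : DV d (((i - i') * h0 * z) • V) := by
    have e : ((i - i') * h0 * z) • V = z • (((i - i') * h0) • (V + L)) -
        h0 • (((i - i') * z) • L) := by module
    rw [e]
    exact (hVL.smul _).sub (hL.smul _)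
  have hP : DV d ((h0 * z * (i - i') ^ 2) • P) := by
    have e : (h0 * z * (i - i') ^ 2) • P = ((i - i') * h0 * z) •
        (XW U V L P 0 t i o - XW U V L P 0 t' i' o) - ((t - t') * h0) • (((i - i') * z) • L) := by
      unfold XW; module
    rw [e]
    exact ((hW.sub hW').smul _).sub (hL.smul _)
  have hV' : DV d ((h0 * z * (i - i') ^ 2) • V) := by
    have e : (h0 * z * (i - i') ^ 2) • V = (i - i') • (((i - i') * h0 * z) • V) := by module
    rw [e]
    exact hV.smul _
  have hL' : DV d ((h0 * z * (i - i') ^ 2) • L) := by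
    have e : (h0 * z * (i - i') ^ 2) • L = (h0 * (i - i')) • (((i - i') * z) • L) := by module
    rw [e]
    exact hL.smul _
  have hU : DV d ((h0 * z * (i - i') ^ 2) • U) := by
    have e : (h0 * z * (i - i') ^ 2) • U = (h0 * z * (i - i') ^ 2) • XW U V L P 0 t i o -
        o • ((h0 * z * (i - i') ^ 2) • V) - t • ((h0 * z * (i - i') ^ 2) • L) -
        i • ((h0 * z * (i - i') ^ 2) • P) := by
      unfold XW; module
    rw [e]
    exact (((hW.smul _).sub (hV'.smul _)).sub (hL'.smul _)).sub (hP.smul _)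
  exact h.prim_mul hU hV' hL' hP

end Pool.Agent.H4G
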