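import Pool.Agent.H4G.Asym.Defs

/-!
# Row R6: a line of exits (helper83)
-/

set_option autoImplicit false

namespace Pool.Agent.H4G

/-- Dirichlet with coprime numerator and denominator -/
theorem dirichlet_int (e f : ℤ) (he : 0 < e) (n : ℕ) (hn : 0 < n) :
    ∃ i0 k0 : ℤ, 1 ≤ i0 ∧ i0 ≤ n ∧ IsCoprime i0 k0 ∧ ((n : ℤ) + 1) * |i0 * f - k0 * e| ≤ e := by
  obtain ⟨q, h1, h2⟩ := Real.exists_rat_abs_sub_le_and_den_le ((f : ℝ) / e) hn
  refine ⟨q.den, q.num, by exact_mod_cast q.pos, by exact_mod_cast h2, ?_, ?_⟩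
  · have := q.reduced
    rw [Int.isCoprime_iff_gcd_eq_one, Int.gcd_comm]
    exact this
  · have he' : (0 : ℝ) < e := by exact_mod_cast he
    have hd : (0 : ℝ) < q.den := by exact_mod_cast q.pos
    have hn' : (0 : ℝ) < (n : ℝ) + 1 := by positivity
    have e1 : (q : ℝ) = q.num / q.den := by
      rw [Rat.cast_def]
    rw [e1] at h1
    have e2 : (f : ℝ) / e - q.num / q.den = ((q.den : ℝ) * f - q.num * e) / (e * q.den) := by
      field_simp
    rw [e2, abs_div, abs_of_pos (mul_pos he' hd), div_le_div_iff₀ (mul_pos he' hd)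
      (mul_pos hn' hd)] at h1
    have h3 : |(q.den : ℝ) * f - q.num * e| * ((n : ℝ) + 1) ≤ e := by
      have : |(q.den : ℝ) * f - q.num * e| * ((n : ℝ) + 1) * q.den ≤ e * q.den := by
        calc _ = |(q.den : ℝ) * f - q.num * e| * (((n : ℝ) + 1) * q.den) := by ring
          _ ≤ 1 * (e * q.den) := h1
          _ = e * q.den := one_mul _
      exact le_of_mul_le_mul_right this hd
    have h4 : (((n : ℤ) + 1) * |(q.den : ℤ) * f - q.num * e| : ℤ) ≤ (e : ℤ) := by
      have : ((((n : ℤ) + 1) * |(q.den : ℤ) * f - q.num * e| : ℤ) : ℝ) ≤ ((e : ℤ) : ℝ) := by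
        push_cast
        rw [mul_comm]
        exact h3
      exact_mod_cast this
    exact h4

/-- the elements of `{0, .., 100}` except `c0` -/
theorem skip_fin (c0 : ℤ) : ∃ c : Fin 100 → ℤ, (∀ k, 0 ≤ c k ∧ c k ≤ 100 ∧ c k ≠ c0) ∧
    ∀ k l, k ≠ l → c k ≠ c l := by
  refine ⟨fun k => if (k : ℤ) < c0 then (k : ℤ) else (k : ℤ) + 1, fun k => ?_, fun k l hkl => ?_⟩
  · have := k.2
    dsimp only
    split_ifs with h <;> refine ⟨by omega, by omega, by omega⟩
  · have : (k : ℤ) ≠ (l : ℤ) := by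
      intro h
      exact hkl (Fin.ext (by exact_mod_cast h))
    dsimp only
    split_ifs <;> omega

theorem LX.line {A b e f a D : ℤ} {U V L P : Z2} (h : LX A b e f a D U V L P)
    (hbe : 2 ^ 40 * b ≤ e) :
    ∃ (i0 o R0 : ℤ) (t i : Fin 100 → ℤ), 1 ≤ i0 ∧ i0 ≤ 2 ^ 15 ∧ 0 < R0 ∧
      R0 ≤ D * (e + 2 ^ 15 * b + 127 * a) ∧ (∀ k, XC A b e f a 0 (t k) (i k) o) ∧
      (∀ k d, DV d (XW U V L P 0 (t k) (i k) o) → d ∣ R0) ∧
      ∀ k l, k ≠ l → ∃ m, i k - i l = m * i0 ∧ m ≠ 0 ∧ |m| ≤ 100 := by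
  obtain ⟨A0, Ab, e0, D0, ra, hUV, hUL, hUP, hPV, hPL, hLV, prim⟩ := h
  have b0 : 0 < b := by omega
  have hea : e ≤ a := by
    have : e * A ≤ a * A := by
      rw [ra]; exact mul_le_mul_of_nonneg_left Ab e0.le
    exact le_of_mul_le_mul_right this A0
  have a0 : 0 < a := by omega
  obtain ⟨i0, k0, hi1, hi2, hco, hs⟩ := dirichlet_int e f e0 (2 ^ 15) (by norm_num)
  push_cast at hi2 hs
  set s := i0 * f - k0 * e with hsdef
  -- the sign
  obtain ⟨o, ho, hos⟩ : ∃ o : ℤ, (o = 1 ∨ o = -1) ∧ o * s = -|s| := by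
    rcases le_or_gt s 0 with h | h
    · exact ⟨1, Or.inl rfl, by rw [abs_of_nonpos h]; ring⟩
    · exact ⟨-1, Or.inr rfl, by rw [abs_of_pos h]; ring⟩
  have hoo : o * o = 1 := by rcases ho with rfl | rfl <;> norm_num
  obtain ⟨x, y, hxy⟩ := hco
  -- `t₁ i₀ + i₁ k₀ = o`
  set t1 := o * x with ht1
  set i1 := o * y with hi1'
  have hti : t1 * i0 + i1 * k0 = o := by rw [ht1, hi1']; linear_combination o * hxy
  have hs0 : 0 ≤ |s| := abs_nonneg s
  -- the choice of `τ`
  obtain ⟨τ, hτ0, hτ127, hτp, hτa, hτb⟩ : ∃ τ : ℤ, 0 < τ ∧ τ ≤ 127 ∧ (τ = 1 ∨ τ = 127) ∧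
      τ * e ≤ i0 * a ∧ (b * i0 + |s|) * (101 * i0) < τ * e := by
    by_cases h127 : i0 ≤ 127
    · refine ⟨1, by norm_num, by norm_num, Or.inl rfl, ?_, ?_⟩
      · nlinarith
      · have h0 : i0 * i0 ≤ 127 * 127 := mul_le_mul h127 h127 (by omega) (by norm_num)
        have h1 : b * i0 * (101 * i0) ≤ b * (101 * 127 ^ 2) := by
          have : b * (101 * (i0 * i0)) ≤ b * (101 * (127 * 127)) :=
            mul_le_mul_of_nonneg_left (by linarith) b0.le
          linarith
        have h2 : |s| * (101 * i0) ≤ |s| * (101 * 127) :=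
          mul_le_mul_of_nonneg_left (by linarith) hs0
        have h3 : (b * i0 + |s|) * (101 * i0) = b * i0 * (101 * i0) + |s| * (101 * i0) := by ring
        rw [h3]
        norm_num at hs hbe h1 h2 ⊢
        linarith
    · push Not at h127
      refine ⟨127, by norm_num, by norm_num, Or.inr rfl, ?_, ?_⟩
      · nlinarith
      · have h0 : i0 * i0 ≤ 2 ^ 15 * 2 ^ 15 := mul_le_mul hi2 hi2 (by omega) (by norm_num)
        have h1 : b * i0 * (101 * i0) ≤ b * (101 * (2 ^ 15) ^ 2) := by
          have : b * (101 * (i0 * i0)) ≤ b * (101 * (2 ^ 15 * 2 ^ 15)) :=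
            mul_le_mul_of_nonneg_left (by linarith) b0.le
          linarith
        have h2 : |s| * (101 * i0) ≤ |s| * (101 * 2 ^ 15) :=
          mul_le_mul_of_nonneg_left (by norm_num at hi2 ⊢; linarith) hs0
        have h3 : (b * i0 + |s|) * (101 * i0) = b * i0 * (101 * i0) + |s| * (101 * i0) := by ring
        rw [h3]
        norm_num at hs hbe h1 h2 ⊢
        linarith
  -- the first index
  set ks := -((τ * i1) / i0) with hks
  have hfirst : 0 ≤ τ * i1 + ks * i0 ∧ τ * i1 + ks * i0 < i0 := by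
    have h1 := Int.emod_add_mul_ediv (τ * i1) i0
    have h2 := Int.emod_nonneg (τ * i1) (show i0 ≠ 0 by omega)
    have h3 := Int.emod_lt_of_pos (τ * i1) (show 0 < i0 by omega)
    have h4 : τ * i1 + ks * i0 = (τ * i1) % i0 := by rw [hks]; linear_combination -h1
    rw [h4]; exact ⟨h2, h3⟩
  obtain ⟨c, hc1, hc2⟩ := skip_fin ((-ks) % 127)
  refine ⟨i0, o, D * (|s| + i0 * b + τ * a), fun k => τ * t1 - (ks + c k) * k0,
    fun k => τ * i1 + (ks + c k) * i0, hi1, by norm_num at hi2 ⊢; exact hi2, ?_, ?_, ?_, ?_, ?_⟩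
  · have : 0 < i0 * b := mul_pos (by omega) b0
    have : 0 < τ * a := mul_pos hτ0 a0
    exact mul_pos D0 (by linarith)
  · refine mul_le_mul_of_nonneg_left ?_ D0.le
    have h1 : |s| ≤ e := by linarith
    have h2 : i0 * b ≤ 2 ^ 15 * b := mul_le_mul_of_nonneg_right hi2 b0.le
    have h3 : τ * a ≤ 127 * a := mul_le_mul_of_nonneg_right hτ127 a0.le
    linarith
  · intro k
    obtain ⟨g1, g2, g3⟩ := hc1 k
    dsimp only
    set K := ks + c k with hK
    have hi_nonneg : 0 ≤ τ * i1 + K * i0 := by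
      have : τ * i1 + K * i0 = (τ * i1 + ks * i0) + c k * i0 := by rw [hK]; ring
      rw [this]
      have := mul_nonneg g1 (show 0 ≤ i0 by omega)
      linarith [hfirst.1]
    have hi_lt : τ * i1 + K * i0 < 101 * i0 := by
      have : τ * i1 + K * i0 = (τ * i1 + ks * i0) + c k * i0 := by rw [hK]; ring
      rw [this]
      have := mul_le_mul_of_nonneg_right g2 (show 0 ≤ i0 by omega)
      linarith [hfirst.2]
    have hF : i0 * (o * XF A b e f a 0 (τ * t1 - K * k0) (τ * i1 + K * i0)) =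
        τ * e - (τ * i1 + K * i0) * |s| := by
      have e1 : |s| = -(o * s) := by rw [hos]; ring
      rw [e1, hsdef]
      simp only [XF]
      linear_combination (o * e * τ) * hti + (e * τ) * hoo
    refine ⟨ho, hi_nonneg, ?_, ?_, ?_⟩
    · -- coprimality
      refine isCoprime_of_prime fun l hl h2 h1 => ?_
      have h3 : (l : ℤ) ∣ τ := by
        have h4 : (l : ℤ) ∣ (τ * t1 - K * k0) * i0 + (τ * i1 + K * i0) * k0 :=
          dvd_add (h1.mul_right _) (h2.mul_right _)
        have h5 : (τ * t1 - K * k0) * i0 + (τ * i1 + K * i0) * k0 = τ * o := by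
          linear_combination τ * hti
        rw [h5] at h4
        have h6 := h4.mul_right o
        rwa [mul_assoc, hoo, mul_one] at h6
      rcases hτp with h | h
      · rw [h] at h3; exact prime_not_dvd_one hl h3
      · rw [h] at h3
        have h4 : l = 127 := by
          have h5 : l ∣ 127 := by exact_mod_cast h3
          rcases (Nat.dvd_prime (by norm_num)).1 h5 with h6 | h6
          · exact absurd h6 hl.one_lt.ne'
          · exact h6
        subst h4
        have h5 : ((127 : ℕ) : ℤ) ∣ K * k0 := by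
          have h6 : ((127 : ℕ) : ℤ) ∣ τ * t1 := by rw [h]; exact ⟨t1, by norm_num⟩
          have := dvd_sub h6 h1
          simpa using this
        have h6 : ((127 : ℕ) : ℤ) ∣ K * i0 := by
          have h7 : ((127 : ℕ) : ℤ) ∣ τ * i1 := by rw [h]; exact ⟨i1, by norm_num⟩
          have := dvd_sub h2 h7
          simpa using this
        have h7 : ((127 : ℕ) : ℤ) ∣ K := by
          have h8 := dvd_add (h6.mul_left x) (h5.mul_left y)
          have h9 : x * (K * i0) + y * (K * k0) = K := by linear_combination K * hxy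
          rwa [h9] at h8
        apply g3
        have h8 : ((127 : ℕ) : ℤ) = 127 := rfl
        rw [h8] at h7
        omega
    · -- lo
      have h1 : i0 * ((τ * i1 + K * i0) * b) < i0 * (o * XF A b e f a 0 (τ * t1 - K * k0)
          (τ * i1 + K * i0)) := by
        rw [hF]
        have h2 : (τ * i1 + K * i0) * (b * i0 + |s|) ≤ (101 * i0) * (b * i0 + |s|) := by
          refine mul_le_mul_of_nonneg_right hi_lt.le ?_
          have : 0 < b * i0 := mul_pos b0 (by omega)
          linarith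
        have h4 : (τ * i1 + K * i0) * (b * i0 + |s|) = i0 * ((τ * i1 + K * i0) * b) +
          (τ * i1 + K * i0) * |s| := by ring
        have h5 : (101 * i0) * (b * i0 + |s|) = (b * i0 + |s|) * (101 * i0) := by ring
        rw [h4, h5] at h2
        linarith
      exact lt_of_mul_lt_mul_left h1 (by omega)
    · -- hi
      have h1 : i0 * (o * XF A b e f a 0 (τ * t1 - K * k0) (τ * i1 + K * i0)) ≤ i0 * a := by
        rw [hF]
        have := mul_nonneg hi_nonneg hs0
        linarith
      exact le_of_mul_le_mul_left h1 (by omega)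
  · intro k d hd
    dsimp only at hd
    set K := ks + c k with hK
    have h1 := hd.cr_left (i0 • P - k0 • L)
    have hVP : cr V P = -(D * b) := by rw [cr_swap V P, hPV]
    have hVL : cr V L = 0 := by rw [cr_swap V L, hLV]; ring
    have hLP : cr L P = -(D * a) := by rw [cr_swap L P, hPL]
    have h2 : cr (XW U V L P 0 (τ * t1 - K * k0) (τ * i1 + K * i0) o) (i0 • P - k0 • L) =
        -(o * (D * (|s| + i0 * b + τ * a))) := by
      have e1 : |s| = -(o * s) := by rw [hos]; ring
      rw [e1, hsdef]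
      simp only [XW, cr_add_left, cr_sub_left, cr_smul_left, cr_sub_right,
        cr_smul_right, cr_self, hUP, hUL, hVP, hVL, hLP, hPL]
      linear_combination (-(τ * D * a)) * hti - (D * (i0 * f - k0 * e)) * hoo
    rw [h2] at h1
    have h3 := ((dvd_neg).1 h1).mul_left o
    rw [← mul_assoc, hoo, one_mul] at h3
    exact h3
  · intro k l hkl
    refine ⟨c k - c l, by ring, sub_ne_zero.2 (hc2 k l hkl), ?_⟩
    obtain ⟨g1, g2, -⟩ := hc1 k
    obtain ⟨g1', g2', -⟩ := hc1 l
    rw [abs_le]; constructor <;> linarith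

/-- Row R6b: almost coprime divisors -/
theorem avg_gcd {n : ℕ} (c : Fin n → ℕ) (R Gam : ℕ) (hR : R ≠ 0) (hG : Gam ≠ 0)
    (h1 : ∀ k, c k ∣ R) (h2 : ∀ k l, k ≠ l → Nat.gcd (c k) (c l) ∣ Gam) :
    (∏ k, c k) ∣ Gam ^ n * R := by
  classical
  have hc0 : ∀ k, c k ≠ 0 := fun k h => hR (by have := h1 k; rw [h] at this; exact zero_dvd_iff.1 this)
  have hd : ∀ k, Nat.gcd (c k) Gam ∣ c k := fun k => Nat.gcd_dvd_left _ _
  choose c' hc' using hd
  have hc'0 : ∀ k, c' k ≠ 0 := fun k h => hc0 k (by rw [hc' k, h, mul_zero])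
  have hcop : ∀ k l, k ≠ l → Nat.Coprime (c' k) (c' l) := by
    intro k l hkl
    by_contra hn
    obtain ⟨p, hp, hpd⟩ := Nat.exists_prime_and_dvd hn
    have key : ∀ k, p ∣ c' k → p ^ (Gam.factorization p + 1) ∣ c k := by
      intro k hpk
      have hg0 : Nat.gcd (c k) Gam ≠ 0 := Nat.gcd_ne_zero_left (hc0 k)
      have e1 : (c k).factorization p = (Nat.gcd (c k) Gam).factorization p +
          (c' k).factorization p := by
        conv_lhs => rw [hc' k, Nat.factorization_mul hg0 (hc'0 k)]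
        rfl
      have e2 : 0 < (c' k).factorization p := hp.factorization_pos_of_dvd (hc'0 k) hpk
      have e3 : (Nat.gcd (c k) Gam).factorization p =
          min ((c k).factorization p) (Gam.factorization p) := by
        rw [Nat.factorization_gcd (hc0 k) hG]; rfl
      have e4 : Gam.factorization p + 1 ≤ (c k).factorization p := by
        rw [e3] at e1; omega
      exact (hp.pow_dvd_iff_le_factorization (hc0 k)).2 e4
    have k1 := key k (hpd.trans (Nat.gcd_dvd_left _ _))
    have k2 := key l (hpd.trans (Nat.gcd_dvd_right _ _))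
    have k3 := (Nat.dvd_gcd k1 k2).trans (h2 k l hkl)
    have k4 := (hp.pow_dvd_iff_le_factorization hG).1 k3
    omega
  have e1 : ∏ k, c k = (∏ k, Nat.gcd (c k) Gam) * ∏ k, c' k := by
    rw [← Finset.prod_mul_distrib]
    exact Finset.prod_congr rfl (fun k _ => hc' k)
  rw [e1]
  refine mul_dvd_mul ?_ ?_
  · calc ∏ k, Nat.gcd (c k) Gam ∣ ∏ _k : Fin n, Gam :=
          Finset.prod_dvd_prod_of_dvd _ _ (fun k _ => Nat.gcd_dvd_right _ _)
      _ = Gam ^ n := by simp
  · rw [← Int.natCast_dvd_natCast, Nat.cast_prod]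
    refine Finset.prod_dvd_of_coprime ?_ ?_
    · intro k _ l _ hkl
      exact Nat.isCoprime_iff_coprime.2 (hcop k l hkl)
    · intro k _
      exact Int.natCast_dvd_natCast.2 ((Dvd.intro_left _ (hc' k).symm).trans (h1 k))

end Pool.Agent.H4G
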