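import Pool.Agent.H4G.Asym.R4
import Pool.Agent.H4G.Asym.R5
import Pool.Agent.H4G.Asym.R6
import Pool.Agent.H4G.Asym.Fat1

/-!
# Row R7: `tprop` (helper91)
-/

set_option autoImplicit false

namespace Pool.Agent.H4G

/-- `m ∣ 100!` for `0 < |m| ≤ 100` -/
theorem dvd_fact100 {m : ℤ} (h0 : m ≠ 0) (h1 : |m| ≤ 100) : m ∣ (Nat.factorial 100 : ℤ) := by
  have h2 : m.natAbs ∣ Nat.factorial 100 := by
    apply Nat.dvd_factorial (Int.natAbs_pos.2 h0)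
    have : (m.natAbs : ℤ) ≤ 100 := by rw [Int.natCast_natAbs]; exact h1
    exact_mod_cast this
  exact Int.natAbs_dvd.1 (Int.natCast_dvd_natCast.2 h2)

/-- the last step of `tprop` -/
theorem LX.thin_bound {A b e f a D : ℤ} {U V L P : Z2} (h : LX A b e f a D U V L P)
    {J : ℕ} {β g h0 z0 : ℤ} (hJ : 1 ≤ J) (hβ : 0 ≤ β) (hg : 0 ≤ g)
    (hh0 : 0 < h0) (hh1 : h0 ≤ 16 * J * (J + 1)) (hz : h0 * (a + b - A) = z0 * e)
    (hz0 : 0 < z0 - h0) (hz1 : z0 - h0 ≤ 256 * (J : ℤ) ^ 3) (hb : 2 ^ 40 * b ≤ e)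
    (hex : ∀ j t i o : ℤ, XC A b e f a j t i o → β ≤ g * (gcv (XW U V L P j t i o) : ℤ)) :
    β ^ 100 ≤ (g * (K0 * (J : ℤ) ^ 5)) ^ 100 * (D * (e + 2 ^ 15 * b + 127 * a)) := by
  obtain ⟨i0, o, R0, t, i, hi0, hi1, hR0, hR1, hx, hd, hp⟩ := h.line hb
  set c : Fin 100 → ℕ := fun k =>
    Nat.gcd (gcv (XW U V L P 0 (t k) (i k) o)) (gcv (XN V L h0 (z0 - h0) (i k))) with hc
  have hJ' : (1 : ℤ) ≤ J := by exact_mod_cast hJ
  -- the number `Γ`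
  set z := z0 - h0 with hzd
  set Γ : ℤ := h0 * z * i0 ^ 2 * (Nat.factorial 100 : ℤ) ^ 2 with hΓ
  have hf0 : (0 : ℤ) < (Nat.factorial 100 : ℤ) := by exact_mod_cast Nat.factorial_pos 100
  have hi0' : 0 < i0 := by omega
  have hΓ0 : 0 < Γ := by rw [hΓ]; positivity
  have hβk : ∀ k, β ≤ g * (c k : ℤ) := fun k => h.thin_exit hh0 hz hz0.le hex (hx k)
  have hck : ∀ k, (c k : ℤ) ∣ R0 := fun k => by
    apply hd k
    exact dv_iff_gcv.2 (Int.natCast_dvd_natCast.2 (Nat.gcd_dvd_left _ _))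
  have hpair : ∀ k l, k ≠ l → ((Nat.gcd (c k) (c l) : ℕ) : ℤ) ∣ Γ := by
    intro k l hkl
    obtain ⟨m, hm, hm0, hm1⟩ := hp k l hkl
    have e1 : (Nat.gcd (c k) (c l)) ∣ gcv (XW U V L P 0 (t k) (i k) o) :=
      (Nat.gcd_dvd_left _ _).trans (Nat.gcd_dvd_left _ _)
    have e2 : (Nat.gcd (c k) (c l)) ∣ gcv (XN V L h0 z (i k)) :=
      (Nat.gcd_dvd_left _ _).trans (Nat.gcd_dvd_right _ _)
    have e3 : (Nat.gcd (c k) (c l)) ∣ gcv (XW U V L P 0 (t l) (i l) o) :=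
      (Nat.gcd_dvd_right _ _).trans (Nat.gcd_dvd_left _ _)
    have e4 : (Nat.gcd (c k) (c l)) ∣ gcv (XN V L h0 z (i l)) :=
      (Nat.gcd_dvd_right _ _).trans (Nat.gcd_dvd_right _ _)
    have h1 := h.pair (dv_iff_gcv.2 (Int.natCast_dvd_natCast.2 e1))
      (dv_iff_gcv.2 (Int.natCast_dvd_natCast.2 e2)) (dv_iff_gcv.2 (Int.natCast_dvd_natCast.2 e3))
      (dv_iff_gcv.2 (Int.natCast_dvd_natCast.2 e4))
    refine h1.trans ?_
    obtain ⟨r, hr⟩ := dvd_fact100 hm0 hm1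
    rw [hm, hΓ, hr]
    exact ⟨r ^ 2, by ring⟩
  -- pass to natural numbers
  have hprod : ∏ k, c k ∣ Γ.natAbs ^ 100 * R0.natAbs := by
    apply avg_gcd c _ _ (by simpa using hR0.ne') (by simpa using hΓ0.ne')
    · intro k
      exact Int.natCast_dvd.1 (hck k)
    · intro k l hkl
      exact Int.natCast_dvd.1 (hpair k l hkl)
  have hle : ((∏ k, c k : ℕ) : ℤ) ≤ Γ ^ 100 * R0 := by
    have h1 : ∏ k, c k ≤ Γ.natAbs ^ 100 * R0.natAbs := by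
      apply Nat.le_of_dvd _ hprod
      have e1 : 0 < Γ.natAbs := Int.natAbs_pos.2 hΓ0.ne'
      have e2 : 0 < R0.natAbs := Int.natAbs_pos.2 hR0.ne'
      positivity
    have h2 : ((∏ k, c k : ℕ) : ℤ) ≤ ((Γ.natAbs ^ 100 * R0.natAbs : ℕ) : ℤ) := by
      exact_mod_cast h1
    rw [Nat.cast_mul, Nat.cast_pow, Int.natAbs_of_nonneg hΓ0.le, Int.natAbs_of_nonneg hR0.le] at h2
    exact h2
  -- `β ^ 100 ≤ g ^ 100 * ∏ c k`
  have h1 : β ^ 100 ≤ g ^ 100 * ((∏ k, c k : ℕ) : ℤ) := by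
    have e1 : ∏ _k : Fin 100, β ≤ ∏ k : Fin 100, (g * (c k : ℤ)) :=
      Finset.prod_le_prod (fun _ _ => hβ) (fun k _ => hβk k)
    rw [Finset.prod_const, Finset.card_univ, Fintype.card_fin, Finset.prod_mul_distrib,
      Finset.prod_const, Finset.card_univ, Fintype.card_fin] at e1
    rw [Nat.cast_prod]
    exact e1
  -- `Γ ≤ K0 J ^ 5`
  have hΓ1 : Γ ≤ K0 * (J : ℤ) ^ 5 := by
    have e1 : h0 * z ≤ (16 * J * (J + 1)) * (256 * (J : ℤ) ^ 3) :=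
      mul_le_mul hh1 hz1 hz0.le (by positivity)
    have e2 : i0 ^ 2 ≤ (2 ^ 15) ^ 2 := pow_le_pow_left₀ (by omega) hi1 2
    have e3 : h0 * z * i0 ^ 2 ≤ (16 * J * (J + 1)) * (256 * (J : ℤ) ^ 3) * (2 ^ 15) ^ 2 :=
      mul_le_mul e1 e2 (by positivity) (by positivity)
    have e4 : (16 * (J : ℤ) * (J + 1)) * (256 * (J : ℤ) ^ 3) * (2 ^ 15) ^ 2 ≤
        2 ^ 43 * (J : ℤ) ^ 5 := by
      have : (J : ℤ) + 1 ≤ 2 * J := by omega
      calc (16 * (J : ℤ) * (J + 1)) * (256 * (J : ℤ) ^ 3) * (2 ^ 15) ^ 2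
          = 16 * 256 * 2 ^ 30 * (J : ℤ) ^ 4 * (J + 1) := by ring
        _ ≤ 16 * 256 * 2 ^ 30 * (J : ℤ) ^ 4 * (2 * J) :=
            mul_le_mul_of_nonneg_left this (by positivity)
        _ = 2 ^ 43 * (J : ℤ) ^ 5 := by ring
    have e5 : (K0 : ℤ) = 2 ^ 43 * (Nat.factorial 100 : ℤ) ^ 2 := by
      unfold K0; push_cast; ring
    rw [hΓ, e5]
    calc h0 * z * i0 ^ 2 * (Nat.factorial 100 : ℤ) ^ 2
        ≤ (2 ^ 43 * (J : ℤ) ^ 5) * (Nat.factorial 100 : ℤ) ^ 2 :=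
          mul_le_mul_of_nonneg_right (e3.trans e4) (by positivity)
      _ = 2 ^ 43 * (Nat.factorial 100 : ℤ) ^ 2 * (J : ℤ) ^ 5 := by ring
  calc β ^ 100 ≤ g ^ 100 * ((∏ k, c k : ℕ) : ℤ) := h1
    _ ≤ g ^ 100 * (Γ ^ 100 * R0) := mul_le_mul_of_nonneg_left hle (by positivity)
    _ = (g * Γ) ^ 100 * R0 := by rw [mul_pow g Γ 100, mul_assoc]
    _ ≤ (g * (K0 * (J : ℤ) ^ 5)) ^ 100 * (D * (e + 2 ^ 15 * b + 127 * a)) := by
        apply mul_le_mul _ hR1 hR0.le (by positivity)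
        exact pow_le_pow_left₀ (by positivity) (mul_le_mul_of_nonneg_left hΓ1 hg) 100

/-- R7 -/
theorem LX.tprop {A b e f a D : ℤ} {U V L P : Z2} (h : LX A b e f a D U V L P)
    {J X : ℕ} {β g : ℤ} (hAb : A < b) (hJ : 2 ^ 10 ≤ J) (hC : Cap J X)
    (hX : 2 * (J : ℤ) * D * (e + J * a) ≤ X) (he : 4096 * (J : ℤ) ^ 4 * A ≤ e)
    (hg : 0 < g) (hgβ : g < β)
    (hex : ∀ j t i o : ℤ, XC A b e f a j t i o → β ≤ g * (gcv (XW U V L P j t i o) : ℤ)) :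
    b < 4 * J * A ∧ A + e ≤ 256 * (J : ℤ) ^ 3 * A ^ 2 ∧
      β ^ 100 ≤ (g * (K0 * (J : ℤ) ^ 5)) ^ 100 * (D * (e + 2 ^ 15 * b + 127 * a)) := by
  have hA := h.A0
  have hJ1 : 1 ≤ J := le_trans (by norm_num) hJ
  have hJ' : (1 : ℤ) ≤ J := by exact_mod_cast hJ1
  have hJ2 : (2 : ℤ) ^ 10 ≤ J := by exact_mod_cast hJ
  have hno : ¬ ∃ j t i : ℤ, XC A b e f a j t i 1 ∧ gcv (XW U V L P j t i 1) = 1 := by
    rintro ⟨j, t, i, hx, h1⟩
    have := hex j t i 1 hx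
    rw [h1] at this
    push_cast at this
    omega
  have hb : b < 4 * J * A := by
    by_contra hb
    apply hno
    apply h.fat1 hJ1 hC hX
    · have : 2 * ((J : ℤ) + 1) * A ≤ 4 * J * A :=
        mul_le_mul_of_nonneg_right (by omega) hA.le
      omega
    · have : 2 * (J : ℤ) * A ≤ 4096 * (J : ℤ) ^ 4 * A := by
        apply mul_le_mul_of_nonneg_right _ hA.le
        have h1 : (1 : ℤ) ≤ (J : ℤ) ^ 3 := one_le_pow₀ hJ'
        have h2 : (J : ℤ) * 1 ≤ J * (J : ℤ) ^ 3 := mul_le_mul_of_nonneg_left h1 (by positivity)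
        nlinarith
      omega
  have hth : ∃ q z : ℤ, 0 < q ∧ q ≤ 16 * J * (J + 1) ∧ q * (a + b - A) = z * e := by
    by_contra hh
    apply hno
    apply h.fat2 hJ1 hC hX hb he
    intro q z h1 h2 h3
    exact hh ⟨q, z, h1, h2, h3⟩
  obtain ⟨h0, z0, hh0, hh1, hz⟩ := hth
  obtain ⟨hz0, hz1, hAe⟩ := h.thin_num hJ1 hAb hb he hh0 hh1 hz
  have hbe : 2 ^ 40 * b ≤ e := by
    have e1 : (2 : ℤ) ^ 40 * b ≤ 2 ^ 40 * (4 * J * A) :=
      mul_le_mul_of_nonneg_left hb.le (by positivity)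
    have e2 : (2 : ℤ) ^ 40 * (4 * J * A) ≤ 4096 * (J : ℤ) ^ 4 * A := by
      have e3 : ((2 : ℤ) ^ 10) ^ 3 ≤ (J : ℤ) ^ 3 := pow_le_pow_left₀ (by positivity) hJ2 3
      have e4 : (2 : ℤ) ^ 40 * (4 * J * A) = 4096 * ((2 ^ 10) ^ 3 * (J * A)) := by ring
      have e5 : 4096 * (J : ℤ) ^ 4 * A = 4096 * ((J : ℤ) ^ 3 * (J * A)) := by ring
      rw [e4, e5]
      apply mul_le_mul_of_nonneg_left _ (by norm_num)
      exact mul_le_mul_of_nonneg_right e3 (by positivity)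
    omega
  exact ⟨hb, hAe, h.thin_bound hJ1 (by omega) hg.le hh0 hh1 hz hz0 hz1 hbe hex⟩

end Pool.Agent.H4G
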