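import Pool.Agent.H4G.Asym.ExJ

/-!
# Row R11: `A b b' ≤ 4 (A + e) (A + e')` at a product-minimal state (helper65)
-/

set_option autoImplicit false

namespace Pool.Agent.H4G

section

variable {A b e f b' e' f' a a' m r m' r' : ℤ}

theorem RG.th0 (h : RG A b e f b' e' f' a a' m r m' r') : a + b - A ≠ 0 := by
  have := h.Ab; have := h.a0; omega

theorem RG.th0' (h : RG A b e f b' e' f' a a' m r m' r') : a' + b' - A ≠ 0 := by
  have := h.Ab'; have := h.a0'; omega

theorem RG.m0 (h : RG A b e f b' e' f' a a' m r m' r') : m ≠ 0 := by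
  intro h0
  have h1 := h.hm
  rw [h0, mul_zero] at h1
  have h2 : 0 < e * (a' + b') := mul_pos h.e0 (by have := h.a0'; have := h.b0'; omega)
  omega

theorem RG.m0' (h : RG A b e f b' e' f' a a' m r m' r') : m' ≠ 0 := by
  intro h0
  have h1 := h.hm'
  rw [h0, mul_zero] at h1
  have h2 : 0 < e' * (a + b) := mul_pos h.e0' (by have := h.a0; have := h.b0; omega)
  omega

/-- the valuations of the left side: `H₁` -/
theorem RG.v1 (h : RG A b e f b' e' f' a a' m r m' r') {p : ℕ} [Fact p.Prime] :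
    padicValInt p e + padicValInt p b = padicValInt p a + padicValInt p A ∧
    padicValInt p b + padicValInt p b' + padicValInt p m =
      padicValInt p e + padicValInt p (a' + b') := by
  have hb := h.b0.ne'; have he := h.e0.ne'; have ha := h.a0.ne'; have hA := h.A0.ne'
  have hb' := h.b0'.ne'
  have hs : a' + b' ≠ 0 := by have := h.a0'; have := h.b0'; omega
  constructor
  · rw [← pv_mul he hb, ← pv_mul ha hA, h.ra]
  · rw [← pv_mul hb hb', ← pv_mul (mul_ne_zero hb hb') h.m0, h.hm, pv_mul he hs]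

theorem pv_of_dvd {p : ℕ} [Fact p.Prime] {x y : ℤ} (h : x ∣ y) (hy : y ≠ 0) :
    padicValInt p x ≤ padicValInt p y :=
  pv_le_of_pow_dvd hy ((pv_pow_dvd x).trans h)

/-- from two positions -/
theorem RG.two_pos (h : RG A b e f b' e' f' a a' m r m' r') {p : ℕ} [Fact p.Prime]
    {f1 c X X' K : ℤ} (hc : c ≠ 0) (hX : X ≠ 0) (hX' : X' ≠ 0) (hK : K ≠ 0)
    (h1 : b * b' ∣ f1 * X) (h2 : b * b' ∣ K * ((f1 + c) * X')) (hpK : padicValInt p K = 0) :
    padicValInt p b + padicValInt p b' ≤ padicValInt p c + padicValInt p X ∨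
    padicValInt p b + padicValInt p b' ≤ padicValInt p c + padicValInt p X' := by
  have hb := h.b0.ne'; have hb' := h.b0'.ne'
  have e1 : padicValInt p (b * b') = padicValInt p b + padicValInt p b' := pv_mul hb hb'
  rw [← e1]
  apply pv_two hc hX hX' ((pv_pow_dvd _).trans h1)
  by_cases h0 : (f1 + c) * X' = 0
  · rw [h0]; exact dvd_zero _
  · have := pv_of_dvd (p := p) h2 (mul_ne_zero hK h0)
    rw [pv_mul hK h0, hpK, zero_add] at this
    exact pow_dvd_of_le this

theorem pv_eq_zero {p : ℕ} [Fact p.Prime] {x : ℤ} (h : ¬ (p : ℤ) ∣ x) : padicValInt p x = 0 := by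
  by_contra hne
  apply h
  have : (p : ℤ) ^ 1 ∣ x := pow_dvd_of_le (by omega)
  simpa using this

theorem pv_pos {p : ℕ} [Fact p.Prime] {x : ℤ} (hx : x ≠ 0) (h : (p : ℤ) ∣ x) :
    1 ≤ padicValInt p x := pv_le_of_pow_dvd hx (by simpa using h)

theorem dvd_of_pv_pos {p : ℕ} [Fact p.Prime] {x : ℤ} (h : 1 ≤ padicValInt p x) : (p : ℤ) ∣ x := by
  have : (p : ℤ) ^ 1 ∣ x := pow_dvd_of_le h
  simpa using this

/-- (Ht) at an odd prime -/
theorem RG.ht (h : RG A b e f b' e' f' a a' m r m' r') {p : ℕ} [hp : Fact p.Prime] (h2 : p ≠ 2) :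
    padicValInt p b + padicValInt p b' ≤ padicValInt p (a + b - A) + padicValInt p (a' + b') := by
  obtain ⟨c0, hc1, hc2⟩ := one_or_two hp.out h2 r'
  obtain ⟨j, j1, j2, j3, _, _⟩ := ex_j h.m0' r' hp.out (fun l => if l = p then c0 else 0) (by
    intro l hl hd hl2
    by_cases hlp : l = p
    · subst hlp; simpa using hc2
    · rw [if_neg hlp]
      have := prime_not_dvd_one hl
      simpa using this)
  simp only [if_true, if_neg h2.symm] at j1 j2 j3
  have j4 := h.w1 j (j3 (by norm_num))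
  have hj : ¬ (p : ℤ) ∣ j := fun hd => hc1 (by
    have := dvd_sub hd j1
    rwa [sub_sub_cancel] at this)
  have hj0 : j ≠ 0 := by rintro rfl; exact hj (dvd_zero _)
  have hs : a' + b' ≠ 0 := by have := h.a0'; have := h.b0'; omega
  have k1 := h.two_pos (p := p) (f1 := f) (c := j * (a + b - A)) (X := a' + b') (X' := a' + b')
    (K := 1) (mul_ne_zero hj0 h.th0) hs hs one_ne_zero ⟨r, by rw [h.hr]⟩ (by rwa [one_mul]) (by simp)
  rw [pv_mul hj0 h.th0, pv_eq_zero hj, zero_add] at k1
  omega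

/-- the `V` side at `2` -/
theorem RG.side2 (h : RG A b e f b' e' f' a a' m r m' r') :
    padicValInt 2 b + padicValInt 2 b' ≤ padicValInt 2 (a + b - A) + padicValInt 2 (a' + b') ∨
    ((2 : ℤ) ∣ m' ∧ ¬ (2 : ℤ) ∣ r' ∧
      (padicValInt 2 b + padicValInt 2 b' ≤ padicValInt 2 (a + b - A) + padicValInt 2 (a' + b') ∨
       padicValInt 2 b + padicValInt 2 b' ≤
        padicValInt 2 (a + b - A) + padicValInt 2 (a' + 2 * b')) ∧
      padicValInt 2 b + padicValInt 2 b' ≤ padicValInt 2 e + padicValInt 2 (a' + 2 * b') ∧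
      (2 ≤ padicValInt 2 m' →
       (padicValInt 2 b + padicValInt 2 b' ≤ padicValInt 2 (a + b - A) + padicValInt 2 (a' + b') ∨
        padicValInt 2 b + padicValInt 2 b' ≤
         padicValInt 2 (a + b - A) + padicValInt 2 (a' + 4 * b')))) := by
  have hs : a' + b' ≠ 0 := by have := h.a0'; have := h.b0'; omega
  have hs2 : a' + 2 * b' ≠ 0 := by have := h.a0'; have := h.b0'; omega
  have hs4 : a' + 4 * b' ≠ 0 := by have := h.a0'; have := h.b0'; omega
  have hc0 : ∀ c2 : ℤ, ∀ l : ℕ, l.Prime → (l : ℤ) ∣ m' → l ≠ 2 →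
      ¬ (l : ℤ) ∣ 1 + (fun l : ℕ => if l = 2 then c2 else 0) l * r' := by
    intro c2 l hl _ hl2
    simp only [if_neg hl2]
    have := prime_not_dvd_one hl
    simpa using this
  have fin : ∀ j X' K : ℤ, ¬ (2 : ℤ) ∣ j → X' ≠ 0 → K ≠ 0 → padicValInt 2 K = 0 →
      b * b' ∣ K * ((f + j * (a + b - A)) * X') →
      padicValInt 2 b + padicValInt 2 b' ≤ padicValInt 2 (a + b - A) + padicValInt 2 (a' + b') ∨
      padicValInt 2 b + padicValInt 2 b' ≤ padicValInt 2 (a + b - A) + padicValInt 2 X' := by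
    intro j X' K hj hX' hK0 hK hd
    have hj0 : j ≠ 0 := by rintro rfl; exact hj (dvd_zero _)
    have k1 := h.two_pos (p := 2) (f1 := f) (c := j * (a + b - A)) (X := a' + b') (X' := X')
      (K := K) (mul_ne_zero hj0 h.th0) hs hX' hK0 ⟨r, by rw [h.hr]⟩ hd hK
    rw [pv_mul hj0 h.th0, pv_eq_zero (p := 2) (x := j) (by exact_mod_cast hj), zero_add] at k1
    exact k1
  by_cases hex : (2 : ℤ) ∣ m' ∧ ¬ (2 : ℤ) ∣ r'
  · right
    obtain ⟨hm2, hr2⟩ := hex
    have hr4 : r' % 2 = 1 := by omega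
    refine ⟨hm2, hr2, ?_⟩
    -- w = 2
    obtain ⟨j, j1, j2, _, j3, _⟩ := ex_j h.m0' r' Nat.prime_two
      (fun l => if l = 2 then r' else 0) (hc0 r')
    simp only [if_true] at j1 j2 j3
    have sq : (4 : ℤ) ∣ 1 + r' * r' - 2 := by
      obtain ⟨s, hs⟩ : ∃ s, r' = 2 * s + 1 := ⟨r' / 2, by omega⟩
      exact ⟨s * s + s, by rw [hs]; ring⟩
    obtain ⟨w1, w2⟩ := h.w2 j (j3 hm2 sq)
    have hjo : ¬ (2 : ℤ) ∣ j := by omega
    refine ⟨fin j _ 1 hjo hs2 one_ne_zero (by simp) (by rwa [one_mul]), ?_, ?_⟩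
    · have := pv_of_dvd (p := 2) w1 (mul_ne_zero h.e0.ne' hs2)
      rwa [pv_mul h.b0.ne' h.b0'.ne', pv_mul h.e0.ne' hs2] at this
    · intro hm4
      have hm4' : (4 : ℤ) ∣ m' := by
        have : ((2 : ℕ) : ℤ) ^ 2 ∣ m' := pow_dvd_of_le hm4
        have e : ((2 : ℕ) : ℤ) ^ 2 = 4 := by norm_num
        rwa [e] at this
      obtain ⟨j, j1, j2, _, _, j3⟩ := ex_j h.m0' r' Nat.prime_two
        (fun l => if l = 2 then 3 * r' else 0) (hc0 (3 * r'))
      simp only [if_true] at j1 j2 j3
      have sq : (8 : ℤ) ∣ 1 + 3 * r' * r' - 4 := by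
        obtain ⟨s, hs⟩ : ∃ s, r' = 2 * s + 1 := ⟨r' / 2, by omega⟩
        have : ∃ t, s * s + s = 2 * t := by
          rcases Int.even_or_odd s with ⟨q, hq⟩ | ⟨q, hq⟩
          · exact ⟨q * s + q, by rw [hq]; ring⟩
          · exact ⟨(2 * q + 1) * (q + 1), by rw [hq]; ring⟩
        obtain ⟨t, ht⟩ := this
        refine ⟨3 * t, ?_⟩
        rw [hs]
        linear_combination 12 * ht
      have w4 := h.w4 j (j3 hm4' sq)
      have hjo : ¬ (2 : ℤ) ∣ j := by omega
      exact fin j _ 3 hjo hs4 (by norm_num) (pv_eq_zero (by norm_num)) w4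
  · left
    obtain ⟨j, j1, j2, j3, _, _⟩ := ex_j h.m0' r' Nat.prime_two
      (fun l => if l = 2 then 1 else 0) (hc0 1)
    simp only [if_true] at j1 j2 j3
    have hg : ¬ ((2 : ℤ) ∣ m' ∧ (2 : ℤ) ∣ 1 + 1 * r') := by
      rintro ⟨k1, k2⟩
      exact hex ⟨k1, by omega⟩
    have w1 := h.w1 j (j3 hg)
    have hjo : ¬ (2 : ℤ) ∣ j := by omega
    have := fin j _ 1 hjo hs one_ne_zero (by simp) (by rwa [one_mul])
    omega

theorem RG.um (h : RG A b e f b' e' f' a a' m r m' r') {p : ℕ} [Fact p.Prime] :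
    Um (padicValInt p a) (padicValInt p b) (padicValInt p (a + b)) ∧
    Um (padicValInt p (a + b - A)) (padicValInt p A) (padicValInt p (a + b)) := by
  have hab : a + b ≠ 0 := by have := h.a0; have := h.b0; omega
  exact ⟨um_of rfl h.a0.ne' h.b0.ne' hab, um_of (by ring) h.th0 h.A0.ne' hab⟩

/-- two positions with `w = 2` at an odd prime -/
theorem RG.ht2 (h : RG A b e f b' e' f' a a' m r m' r') {p : ℕ} [hp : Fact p.Prime] (h2 : p ≠ 2)
    (hm2 : (2 : ℤ) ∣ m') (hr2 : ¬ (2 : ℤ) ∣ r') :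
    padicValInt p b + padicValInt p b' ≤
      padicValInt p (a + b - A) + padicValInt p (a' + 2 * b') ∧
    padicValInt p b + padicValInt p b' ≤ padicValInt p e + padicValInt p (a' + 2 * b') := by
  have hs2 : a' + 2 * b' ≠ 0 := by have := h.a0'; have := h.b0'; omega
  have sq : (4 : ℤ) ∣ 1 + r' * r' - 2 := by
    obtain ⟨s, hs⟩ : ∃ s, r' = 2 * s + 1 := ⟨r' / 2, by omega⟩
    exact ⟨s * s + s, by rw [hs]; ring⟩
  have key : ∀ c0 : ℤ, ¬ (p : ℤ) ∣ 1 + c0 * r' → ∃ j : ℤ, (p : ℤ) ∣ j - c0 ∧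
      Int.gcd m' (1 + j * r') = 2 := by
    intro c0 hc0
    obtain ⟨j, j1, j2, _, j3, _⟩ := ex_j h.m0' r' hp.out
      (fun l => if l = 2 then r' else if l = p then c0 else 0) (by
        intro l hl hd hl2
        simp only [if_neg hl2]
        by_cases hlp : l = p
        · subst hlp; simpa using hc0
        · rw [if_neg hlp]
          have := prime_not_dvd_one hl
          simpa using this)
    simp only [if_true, if_neg h2] at j1 j2 j3
    exact ⟨j, j1, j3 hm2 sq⟩
  obtain ⟨c0, hc1, hc2⟩ := one_or_two hp.out h2 r'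
  obtain ⟨j, j1, j2⟩ := key c0 hc2
  obtain ⟨j0, k1, k2⟩ := key 0 (by have := prime_not_dvd_one hp.out; simpa using this)
  obtain ⟨w1, w2⟩ := h.w2 j j2
  obtain ⟨w1', w2'⟩ := h.w2 j0 k2
  have hd : ¬ (p : ℤ) ∣ j - j0 := by
    intro hd
    apply hc1
    have : c0 = (j - j0) + (j0 - 0) - (j - c0) := by ring
    rw [this]
    exact dvd_sub (dvd_add hd k1) j1
  have hd0 : j - j0 ≠ 0 := by intro h0; rw [h0] at hd; exact hd (dvd_zero _)
  constructor
  · have q := h.two_pos (p := p) (f1 := f + j0 * (a + b - A)) (c := (j - j0) * (a + b - A))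
      (X := a' + 2 * b') (X' := a' + 2 * b') (K := 1) (mul_ne_zero hd0 h.th0) hs2 hs2 one_ne_zero
      w2' (by rw [one_mul]; have : f + j0 * (a + b - A) + (j - j0) * (a + b - A) =
                f + j * (a + b - A) := by ring
              rw [this]; exact w2) (by simp)
    rw [pv_mul hd0 h.th0, pv_eq_zero hd, zero_add] at q
    omega
  · have := pv_of_dvd (p := p) w1 (mul_ne_zero h.e0.ne' hs2)
    rwa [pv_mul h.b0.ne' h.b0'.ne', pv_mul h.e0.ne' hs2] at this

theorem pv2_two_mul {x : ℤ} (hx : x ≠ 0) : padicValInt 2 (2 * x) = padicValInt 2 x + 1 := by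
  rw [pv_mul (by norm_num) hx]
  have : padicValInt 2 2 = 1 := by
    have := padicValInt_self (p := 2)
    exact_mod_cast this
  omega

theorem pv2_four_mul {x : ℤ} (hx : x ≠ 0) : padicValInt 2 (4 * x) = padicValInt 2 x + 2 := by
  have : 4 * x = 2 * (2 * x) := by ring
  rw [this, pv2_two_mul (by omega), pv2_two_mul hx]

theorem pv_odd_two_mul {p : ℕ} [hp : Fact p.Prime] (h2 : p ≠ 2) {x : ℤ} (hx : x ≠ 0) :
    padicValInt p (2 * x) = padicValInt p x := by
  rw [pv_mul (by norm_num) hx]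
  have : padicValInt p 2 = 0 := pv_eq_zero (by
    intro h
    have : p ∣ 2 := by exact_mod_cast h
    exact h2 ((Nat.prime_dvd_prime_iff_eq hp.out Nat.prime_two).1 this))
  omega

/-- the exceptional case at `2` -/
theorem RG.lv (h : RG A b e f b' e' f' a a' m r m' r')
    (hN : ∀ p : ℕ, p.Prime → (p : ℤ) ∣ A → (p : ℤ) ∣ a → (p : ℤ) ∣ a' → False)
    (hm2 : (2 : ℤ) ∣ m') (hr2 : ¬ (2 : ℤ) ∣ r')
    (h2 : 2 * padicValInt 2 b + 2 * padicValInt 2 b' ≤
      padicValInt 2 A + padicValInt 2 (a + b) + padicValInt 2 (a' + 2 * b')) :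
    (b * b') ^ 2 ≤ A * (a + b) * (a' + 2 * b') := by
  have hA0 := h.A0; have ha0 := h.a0; have ha0' := h.a0'; have hb0 := h.b0; have hb0' := h.b0'
  have hb := h.b0.ne'; have hb' := h.b0'.ne'; have hA := h.A0.ne'
  have hs : a' + b' ≠ 0 := by omega
  have hs2 : a' + 2 * b' ≠ 0 := by omega
  have hab : a + b ≠ 0 := by omega
  have key : (b * b') ^ 2 ∣ A * (a + b) * (a' + 2 * b') := by
    apply dvd_of_pv (pow_ne_zero 2 (mul_ne_zero hb hb')) (mul_ne_zero (mul_ne_zero hA hab) hs2)
    intro p hp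
    haveI : Fact p.Prime := ⟨hp⟩
    rw [pow_two, pv_mul (mul_ne_zero hb hb') (mul_ne_zero hb hb'), pv_mul hb hb',
      pv_mul (mul_ne_zero hA hab) hs2, pv_mul hA hab]
    by_cases hp2 : p = 2
    · subst hp2; omega
    · obtain ⟨t1, t3⟩ := h.um (p := p)
      obtain ⟨t2, t4⟩ := h.mirror.um (p := p)
      obtain ⟨q1, q2⟩ := h.v1 (p := p)
      obtain ⟨q3, q4⟩ := h.mirror.v1 (p := p)
      have q5 := h.ht (p := p) hp2
      have q6 := h.mirror.ht (p := p) hp2
      obtain ⟨q7, q8⟩ := h.ht2 (p := p) hp2 hm2 hr2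
      have t5 : Um (padicValInt p a') (padicValInt p b') (padicValInt p (a' + 2 * b')) := by
        have := um_of (p := p) (x := a') (y := 2 * b') rfl ha0'.ne' (by omega) hs2
        rwa [pv_odd_two_mul hp2 hb'] at this
      have t6 : Um (padicValInt p (a' + b')) (padicValInt p b') (padicValInt p (a' + 2 * b')) :=
        um_of (by ring) hs hb' hs2
      have N1 : padicValInt p A = 0 ∨ padicValInt p a = 0 ∨ padicValInt p a' = 0 := by
        by_contra hcon
        push Not at hcon
        exact hN p hp (dvd_of_pv_pos (by omega)) (dvd_of_pv_pos (by omega))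
          (dvd_of_pv_pos (by omega))
      have := loc_oddT t1 t2 t3 t4 t5 t6 (by omega) (by omega) (by omega) (by omega) (by omega)
        (by omega) (by omega) (by omega) N1
      omega
  exact Int.le_of_dvd (mul_pos (mul_pos hA0 (by omega)) (by omega)) key

/-- ROW R11 -/
theorem RG.size (h : RG A b e f b' e' f' a a' m r m' r')
    (hN : ∀ p : ℕ, p.Prime → (p : ℤ) ∣ A → (p : ℤ) ∣ a → (p : ℤ) ∣ a' → False) :
    A * b * b' ≤ 4 * (A + e) * (A + e') := by
  have hA0 := h.A0; have ha0 := h.a0; have ha0' := h.a0'; have hb0 := h.b0; have hb0' := h.b0'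
  have hb := h.b0.ne'; have hb' := h.b0'.ne'; have hA := h.A0.ne'
  have hs : a' + b' ≠ 0 := by omega
  have hs2 : a' + 2 * b' ≠ 0 := by omega
  have hs4 : a' + 4 * b' ≠ 0 := by omega
  have hab : a + b ≠ 0 := by omega
  have hab2 : a + 2 * b ≠ 0 := by omega
  have hab4 : a + 4 * b ≠ 0 := by omega
  have ea : A * (a + b) = b * (A + e) := by have := h.ra; linarith
  have ea' : A * (a' + b') = b' * (A + e') := by have := h.ra'; linarith
  -- the real inequality
  have main : (b * b') ^ 2 ≤ 4 * A * (a + b) * (a' + b') := by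
    -- the valuations at `2`
    obtain ⟨t1, t3⟩ : Um2 (padicValInt 2 a) (padicValInt 2 b) (padicValInt 2 (a + b)) ∧
        Um2 (padicValInt 2 (a + b - A)) (padicValInt 2 A) (padicValInt 2 (a + b)) :=
      ⟨um2_of rfl ha0.ne' hb hab, um2_of (by ring) h.th0 hA hab⟩
    obtain ⟨t2, t4⟩ : Um2 (padicValInt 2 a') (padicValInt 2 b') (padicValInt 2 (a' + b')) ∧
        Um2 (padicValInt 2 (a' + b' - A)) (padicValInt 2 A) (padicValInt 2 (a' + b')) :=
      ⟨um2_of rfl ha0'.ne' hb' hs, um2_of (by ring) h.th0' hA hs⟩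
    have t5 : Um2 (padicValInt 2 a) (padicValInt 2 b + 1) (padicValInt 2 (a + 2 * b)) := by
      have := um2_of (x := a) (y := 2 * b) rfl ha0.ne' (by omega) hab2
      rwa [pv2_two_mul hb] at this
    have t6 : Um2 (padicValInt 2 (a + b)) (padicValInt 2 b) (padicValInt 2 (a + 2 * b)) :=
      um2_of (by ring) hab hb hab2
    have t7 : Um2 (padicValInt 2 a) (padicValInt 2 b + 2) (padicValInt 2 (a + 4 * b)) := by
      have := um2_of (x := a) (y := 4 * b) rfl ha0.ne' (by omega) hab4
      rwa [pv2_four_mul hb] at this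
    have t8 : Um2 (padicValInt 2 (a + 2 * b)) (padicValInt 2 b + 1) (padicValInt 2 (a + 4 * b)) := by
      have := um2_of (x := a + 2 * b) (y := 2 * b) (z := a + 4 * b) (by ring) hab2 (by omega) hab4
      rwa [pv2_two_mul hb] at this
    have t5' : Um2 (padicValInt 2 a') (padicValInt 2 b' + 1) (padicValInt 2 (a' + 2 * b')) := by
      have := um2_of (x := a') (y := 2 * b') rfl ha0'.ne' (by omega) hs2
      rwa [pv2_two_mul hb'] at this
    have t6' : Um2 (padicValInt 2 (a' + b')) (padicValInt 2 b') (padicValInt 2 (a' + 2 * b')) :=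
      um2_of (by ring) hs hb' hs2
    have t7' : Um2 (padicValInt 2 a') (padicValInt 2 b' + 2) (padicValInt 2 (a' + 4 * b')) := by
      have := um2_of (x := a') (y := 4 * b') rfl ha0'.ne' (by omega) hs4
      rwa [pv2_four_mul hb'] at this
    have t8' : Um2 (padicValInt 2 (a' + 2 * b')) (padicValInt 2 b' + 1)
        (padicValInt 2 (a' + 4 * b')) := by
      have := um2_of (x := a' + 2 * b') (y := 2 * b') (z := a' + 4 * b') (by ring) hs2 (by omega) hs4
      rwa [pv2_two_mul hb'] at this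
    obtain ⟨q1, q2⟩ := h.v1 (p := 2)
    obtain ⟨q3, q4⟩ := h.mirror.v1 (p := 2)
    have N1 : ∀ p : ℕ, p.Prime → ∀ [Fact p.Prime],
        padicValInt p A = 0 ∨ padicValInt p a = 0 ∨ padicValInt p a' = 0 := by
      intro p hp _
      by_contra hcon
      push Not at hcon
      exact hN p hp (dvd_of_pv_pos (by omega)) (dvd_of_pv_pos (by omega)) (dvd_of_pv_pos (by omega))
    have sV := h.side2
    have sH := h.mirror.side2
    have pm' : (2 : ℤ) ∣ m' → 1 ≤ padicValInt 2 m' := fun hd => pv_pos h.m0' (by exact_mod_cast hd)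
    have pm : (2 : ℤ) ∣ m → 1 ≤ padicValInt 2 m := fun hd => pv_pos h.m0 (by exact_mod_cast hd)
    have loc := loc_two t1 t2 t3 t4 t5 t6 t7 t8 t5' t6' t7' t8' (by omega) (by omega) (by omega)
      (by omega) (by
        rcases sV with sV | ⟨c1, c2, c3, c4, c5⟩
        · left; exact sV
        · right
          have c6 := pm' c1
          exact ⟨by omega, c3, by omega, fun h9 => c5 (by omega)⟩) (by
        rcases sH with sH | ⟨c1, c2, c3, c4, c5⟩
        · left; omega
        · right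
          have c6 := pm c1
          refine ⟨by omega, by omega, by omega, fun h9 => ?_⟩
          have := c5 (by omega)
          omega) (N1 2 Nat.prime_two)
    rcases loc with loc | loc | loc
    · -- the main case
      have key : (b * b') ^ 2 ∣ 4 * A * (a + b) * (a' + b') := by
        have h40 : (4 : ℤ) * A ≠ 0 := by omega
        apply dvd_of_pv (pow_ne_zero 2 (mul_ne_zero hb hb'))
          (mul_ne_zero (mul_ne_zero h40 hab) hs)
        intro p hp
        haveI : Fact p.Prime := ⟨hp⟩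
        rw [pow_two, pv_mul (mul_ne_zero hb hb') (mul_ne_zero hb hb'), pv_mul hb hb',
          pv_mul (mul_ne_zero h40 hab) hs, pv_mul h40 hab]
        by_cases hp2 : p = 2
        · subst hp2
          rw [pv2_four_mul hA]
          omega
        · have e4 : padicValInt p (4 * A) = padicValInt p A := by
            have : 4 * A = 2 * (2 * A) := by ring
            rw [this, pv_odd_two_mul hp2 (by omega), pv_odd_two_mul hp2 hA]
          rw [e4]
          obtain ⟨u1, u3⟩ := h.um (p := p)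
          obtain ⟨u2, u4⟩ := h.mirror.um (p := p)
          obtain ⟨k1, k2⟩ := h.v1 (p := p)
          obtain ⟨k3, k4⟩ := h.mirror.v1 (p := p)
          have k5 := h.ht (p := p) hp2
          have k6 := h.mirror.ht (p := p) hp2
          have := loc_odd u1 u2 u3 u4 (by omega) (by omega) (by omega) (by omega) (by omega)
            (by omega) (N1 p hp)
          omega
      exact Int.le_of_dvd (mul_pos (mul_pos (by omega) (by omega)) (by omega)) key
    · -- the exceptional case on the left side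
      rcases sV with sV | ⟨c1, c2, c3, c4, c5⟩
      · exfalso
        unfold Um2 at t2 t3
        omega
      · have := h.lv hN c1 c2 (by omega)
        have h3 : A * (a + b) * (a' + 2 * b') ≤ A * (a + b) * (4 * (a' + b')) :=
          mul_le_mul_of_nonneg_left (by omega) (mul_nonneg hA0.le (by omega))
        linarith
    · rcases sH with sH | ⟨c1, c2, c3, c4, c5⟩
      · exfalso
        unfold Um2 at t1 t4
        omega
      · have := h.mirror.lv (fun p hp h1 h2 h3 => hN p hp h1 h3 h2) c1 c2 (by omega)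
        have h3 : A * (a' + b') * (a + 2 * b) ≤ A * (a' + b') * (4 * (a + b)) :=
          mul_le_mul_of_nonneg_left (by omega) (mul_nonneg hA0.le (by omega))
        nlinarith
  have hbb : 0 < b * b' := mul_pos hb0 hb0'
  have h5 : A * (b * b') ^ 2 ≤ 4 * (b * (A + e)) * (b' * (A + e')) := by
    have := mul_le_mul_of_nonneg_left main hA0.le
    calc A * (b * b') ^ 2 ≤ A * (4 * A * (a + b) * (a' + b')) := this
      _ = 4 * (A * (a + b)) * (A * (a' + b')) := by ring
      _ = 4 * (b * (A + e)) * (b' * (A + e')) := by rw [ea, ea']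
  have h6 : (A * b * b') * (b * b') ≤ (4 * (A + e) * (A + e')) * (b * b') := by
    calc (A * b * b') * (b * b') = A * (b * b') ^ 2 := by ring
      _ ≤ 4 * (b * (A + e)) * (b' * (A + e')) := h5
      _ = (4 * (A + e) * (A + e')) * (b * b') := by ring
  exact le_of_mul_le_mul_right h6 hbb

end

end Pool.Agent.H4G
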